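import Mathlib

/-!
# MML, module Avg: averaging with the weight `exp (-ρ s)`

Exchange the integrations in `s ∈ [α, β]` and `τ ∈ [-R, R]` (the kernels `kM`, `kN`, `kH` are integrable on `[-R, R]`, the
other factors are continuous) and substitute `x = s + τ`: the inner integral is `exp (ρτ) ∫_{α+τ}^{β+τ} exp (-ρx) F(x) dx`.
(1) `F = P`: `∫_{α+τ}^{β+τ} ≤ ∫_α^β + R exp (ρR) (exp (-ρα) P(α+R) + exp (-ρβ) P(β+R))` (`P ≥ 0` nondecreasing).
(2) `F = N`: `|∫_{α+τ}^{β+τ} exp (-ρx) N - ∫_α^β exp (-ρx) N| ≤` the same error, as `|N| ≤ P` on `[s1, ∞)`.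
(3) `F = N2`: `∫_{α+τ}^{β+τ} exp (-ρx) N2 = [exp (-ρx) (N1 + ρ N)] + ρ² ∫ exp (-ρx) N`; `N1 ≥ 0`, and at `x = β + τ`
`N1(x) ≤ N(x+1) - N(x) ≤ 2 P(β + R + 1)` (`N1` is nondecreasing); `|N| ≤ P`.
-/

set_option autoImplicit false

namespace Pool.Agent.MML

open Real MeasureTheory Set Filter Topology

/-- the substitution -/
theorem avg_subst (ρ τ α β : ℝ) (F : ℝ → ℝ) :
    ∫ s in α..β, exp (-ρ * s) * F (s + τ) =
      exp (ρ * τ) * ∫ x in (α + τ)..(β + τ), exp (-ρ * x) * F x := by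
  rw [← intervalIntegral.integral_comp_add_right (fun x => exp (-ρ * x) * F x) τ,
    ← intervalIntegral.integral_const_mul]
  apply intervalIntegral.integral_congr
  intro s _
  show exp (-ρ * s) * F (s + τ) = exp (ρ * τ) * (exp (-ρ * (s + τ)) * F (s + τ))
  rw [← mul_assoc, ← Real.exp_add]
  congr 2
  ring

theorem avg_cont {ρ : ℝ} {F : ℝ → ℝ} (hF : Continuous F) :
    Continuous (fun x => exp (-ρ * x) * F x) := by
  fun_prop

theorem avg_cont2 {ρ : ℝ} {F : ℝ → ℝ} (hF : Continuous F) (α β : ℝ) :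
    Continuous (fun τ => ∫ x in (α + τ)..(β + τ), exp (-ρ * x) * F x) := by
  have hc := avg_cont (ρ := ρ) hF
  have h1 : Continuous (fun y => ∫ x in (0 : ℝ)..y, exp (-ρ * x) * F x) :=
    intervalIntegral.continuous_primitive (fun a b => hc.intervalIntegrable a b) 0
  have h2 : (fun τ => ∫ x in (α + τ)..(β + τ), exp (-ρ * x) * F x) =
      fun τ => (∫ x in (0 : ℝ)..(β + τ), exp (-ρ * x) * F x) -
        ∫ x in (0 : ℝ)..(α + τ), exp (-ρ * x) * F x := by
    funext τ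
    rw [intervalIntegral.integral_interval_sub_left (hc.intervalIntegrable _ _)
      (hc.intervalIntegrable _ _)]
  rw [h2]
  exact (h1.comp (by fun_prop)).sub (h1.comp (by fun_prop))

/-- Fubini -/
theorem avg_fub {ρ R α β : ℝ} (hR : 0 < R) (hab : α ≤ β) {k F : ℝ → ℝ}
    (hk : IntervalIntegrable k volume (-R) R) (hF : Continuous F) :
    IntervalIntegrable (fun s => exp (-ρ * s) * ∫ τ in (-R)..R, k τ * F (s + τ)) volume α β ∧
    ∫ s in α..β, exp (-ρ * s) * ∫ τ in (-R)..R, k τ * F (s + τ) =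
      ∫ τ in (-R)..R, exp (ρ * τ) * k τ * ∫ x in (α + τ)..(β + τ), exp (-ρ * x) * F x := by
  have hRR : -R ≤ R := by linarith
  set μ := (volume : Measure ℝ).restrict (Ioc α β) with hμ
  set ν := (volume : Measure ℝ).restrict (Ioc (-R) R) with hν
  have hk' : Integrable k ν := (intervalIntegrable_iff_integrableOn_Ioc_of_le hRR).1 hk
  have hcont : Continuous (fun p : ℝ × ℝ => exp (-ρ * p.1) * F (p.1 + p.2)) := by fun_prop
  obtain ⟨C, hC⟩ := (isCompact_Icc.prod isCompact_Icc :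
    IsCompact ((Icc α β) ×ˢ (Icc (-R) R))).exists_bound_of_continuousOn hcont.continuousOn
  have hint : Integrable (Function.uncurry
      (fun s τ => exp (-ρ * s) * (k τ * F (s + τ)))) (μ.prod ν) := by
    have h1 : Integrable (fun p : ℝ × ℝ => k p.2) (μ.prod ν) := hk'.comp_snd μ
    have h2 := h1.bdd_mul (f := fun p : ℝ × ℝ => exp (-ρ * p.1) * F (p.1 + p.2)) (c := C)
      hcont.aestronglyMeasurable (by
        rw [hμ, hν, Measure.prod_restrict]
        filter_upwards [ae_restrict_mem (measurableSet_Ioc.prod measurableSet_Ioc)] with p hp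
        exact hC p ⟨Ioc_subset_Icc_self hp.1, Ioc_subset_Icc_self hp.2⟩)
    refine h2.congr (Filter.Eventually.of_forall ?_)
    rintro ⟨s, τ⟩
    show exp (-ρ * s) * F (s + τ) * k τ = exp (-ρ * s) * (k τ * F (s + τ))
    ring
  have hin : ∀ s, ∫ τ in (-R)..R, exp (-ρ * s) * (k τ * F (s + τ)) =
      exp (-ρ * s) * ∫ τ in (-R)..R, k τ * F (s + τ) := by
    intro s
    rw [intervalIntegral.integral_const_mul]
  constructor
  · rw [intervalIntegrable_iff_integrableOn_Ioc_of_le hab]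
    have h3 := hint.integral_prod_left
    refine h3.congr (Filter.Eventually.of_forall ?_)
    intro s
    show ∫ τ, exp (-ρ * s) * (k τ * F (s + τ)) ∂ν = _
    rw [hν, ← intervalIntegral.integral_of_le hRR, hin s]
  · have h4 := MeasureTheory.integral_integral_swap hint
    have h5 : ∫ s in α..β, exp (-ρ * s) * ∫ τ in (-R)..R, k τ * F (s + τ) =
        ∫ s, ∫ τ, exp (-ρ * s) * (k τ * F (s + τ)) ∂ν ∂μ := by
      rw [intervalIntegral.integral_of_le hab]
      apply integral_congr_ae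
      refine Filter.Eventually.of_forall ?_
      intro s
      show exp (-ρ * s) * ∫ τ in (-R)..R, k τ * F (s + τ) =
        ∫ τ, exp (-ρ * s) * (k τ * F (s + τ)) ∂ν
      rw [hν, ← intervalIntegral.integral_of_le hRR, hin s]
    rw [h5, h4, intervalIntegral.integral_of_le hRR]
    apply integral_congr_ae
    refine Filter.Eventually.of_forall ?_
    intro τ
    show ∫ s, exp (-ρ * s) * (k τ * F (s + τ)) ∂μ =
      exp (ρ * τ) * k τ * ∫ x in (α + τ)..(β + τ), exp (-ρ * x) * F x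
    rw [hμ, ← intervalIntegral.integral_of_le hab]
    have h6 : ∀ s, exp (-ρ * s) * (k τ * F (s + τ)) = k τ * (exp (-ρ * s) * F (s + τ)) := by
      intro s; ring
    simp_rw [h6]
    rw [intervalIntegral.integral_const_mul, avg_subst]
    ring

/-- the shift error -/
theorem avg_shift {ρ R α β τ s1 : ℝ} (hρ : 0 < ρ) {P F : ℝ → ℝ} (hP : Monotone P)
    (hP0 : ∀ s, 0 ≤ P s) (hF : Continuous F) (hFP : ∀ s, s1 ≤ s → |F s| ≤ P s)
    (hα : s1 + R ≤ α) (hab : α ≤ β) (hτ : τ ∈ Icc (-R) R) :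
    |(∫ x in (α + τ)..(β + τ), exp (-ρ * x) * F x) - ∫ x in α..β, exp (-ρ * x) * F x| ≤
      R * exp (ρ * R) * (exp (-ρ * α) * P (α + R + 1) + exp (-ρ * β) * P (β + R + 1)) := by
  have hc := avg_cont (ρ := ρ) hF
  have hR : 0 ≤ R := by linarith [hτ.1, hτ.2]
  have key : ∀ y, α ≤ y → |∫ x in y..(y + τ), exp (-ρ * x) * F x| ≤
      R * exp (ρ * R) * (exp (-ρ * y) * P (y + R + 1)) := by
    intro y hy
    have h1 : ∀ x ∈ Set.uIoc y (y + τ), ‖exp (-ρ * x) * F x‖ ≤
        exp (ρ * R) * (exp (-ρ * y) * P (y + R + 1)) := by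
      intro x hx
      have hx1 : y - R ≤ x ∧ x ≤ y + R := by
        rcases Set.mem_uIoc.1 hx with h | h
        · constructor <;> linarith [hτ.1, hτ.2, h.1, h.2]
        · constructor <;> linarith [hτ.1, hτ.2, h.1, h.2]
      rw [Real.norm_eq_abs, abs_mul, abs_of_pos (Real.exp_pos _), ← mul_assoc, ← Real.exp_add]
      apply mul_le_mul
      · apply Real.exp_le_exp.2
        nlinarith [hx1.1]
      · exact (hFP x (by linarith)).trans (hP (by linarith [hx1.2]))
      · exact abs_nonneg _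
      · exact (Real.exp_pos _).le
    have h2 := intervalIntegral.norm_integral_le_of_norm_le_const h1
    rw [Real.norm_eq_abs, add_sub_cancel_left] at h2
    have h3 : |τ| ≤ R := abs_le.2 hτ
    have h4 : 0 ≤ exp (ρ * R) * (exp (-ρ * y) * P (y + R + 1)) :=
      mul_nonneg (Real.exp_pos _).le (mul_nonneg (Real.exp_pos _).le (hP0 _))
    calc _ ≤ exp (ρ * R) * (exp (-ρ * y) * P (y + R + 1)) * |τ| := h2
      _ ≤ exp (ρ * R) * (exp (-ρ * y) * P (y + R + 1)) * R :=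
        mul_le_mul_of_nonneg_left h3 h4
      _ = _ := by ring
  have hsplit : (∫ x in (α + τ)..(β + τ), exp (-ρ * x) * F x) -
      ∫ x in α..β, exp (-ρ * x) * F x =
      (∫ x in β..(β + τ), exp (-ρ * x) * F x) - ∫ x in α..(α + τ), exp (-ρ * x) * F x := by
    have i := fun a b => hc.intervalIntegrable (μ := volume) a b
    have e1 := intervalIntegral.integral_add_adjacent_intervals (i α (α + τ)) (i (α + τ) (β + τ))
    have e2 := intervalIntegral.integral_add_adjacent_intervals (i α β) (i β (β + τ))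
    linarith
  rw [hsplit]
  have k1 := key α le_rfl
  have k2 := key β hab
  have k3 := abs_sub (∫ x in β..(β + τ), exp (-ρ * x) * F x)
    (∫ x in α..(α + τ), exp (-ρ * x) * F x)
  calc _ ≤ _ := k3
    _ ≤ R * exp (ρ * R) * (exp (-ρ * β) * P (β + R + 1)) +
        R * exp (ρ * R) * (exp (-ρ * α) * P (α + R + 1)) := add_le_add k2 k1
    _ = _ := by ring

/-- integration by parts -/
theorem avg_parts {ρ R α β τ s1 : ℝ} (hρ : 0 < ρ) {P N N1 N2 : ℝ → ℝ} (hP : Monotone P)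
    (hP0 : ∀ s, 0 ≤ P s) (hN : ∀ s, HasDerivAt N (N1 s) s) (hN1 : ∀ s, HasDerivAt N1 (N2 s) s)
    (hN2c : Continuous N2) (hN2 : ∀ s, 0 ≤ N2 s) (hN10 : ∀ s, 0 ≤ N1 s)
    (hNP : ∀ s, s1 ≤ s → |N s| ≤ P s)
    (hα : s1 + R ≤ α) (hab : α ≤ β) (hτ : τ ∈ Icc (-R) R) :
    ∫ x in (α + τ)..(β + τ), exp (-ρ * x) * N2 x ≤
      ρ ^ 2 * (∫ x in α..β, exp (-ρ * x) * N x) +
      (ρ ^ 2 * (R * exp (ρ * R)) + (2 + ρ) * exp (ρ * R)) *
        (exp (-ρ * α) * P (α + R + 1) + exp (-ρ * β) * P (β + R + 1)) := by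
  have hNc : Continuous N := continuous_iff_continuousAt.2 fun s => (hN s).continuousAt
  have hN1c : Continuous N1 := continuous_iff_continuousAt.2 fun s => (hN1 s).continuousAt
  have hR : 0 ≤ R := by linarith [hτ.1, hτ.2]
  have hmono : Monotone N1 := monotone_of_hasDerivAt_nonneg hN1 hN2
  have hG : ∀ x, HasDerivAt (fun x => exp (-ρ * x) * (N1 x + ρ * N x))
      (exp (-ρ * x) * N2 x - ρ ^ 2 * (exp (-ρ * x) * N x)) x := by
    intro x
    have h1 : HasDerivAt (fun x => exp (-ρ * x)) (exp (-ρ * x) * (-ρ * 1)) x :=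
      ((hasDerivAt_id x).const_mul (-ρ)).exp
    have h2 := h1.mul ((hN1 x).add ((hN x).const_mul ρ))
    refine h2.congr_deriv ?_
    simp only [Pi.add_apply]
    ring
  have hc2 := avg_cont (ρ := ρ) hN2c
  have hcN := avg_cont (ρ := ρ) hNc
  have hcN2 : Continuous fun x => ρ ^ 2 * (exp (-ρ * x) * N x) := hcN.const_mul _
  have hFTC := intervalIntegral.integral_eq_sub_of_hasDerivAt (a := α + τ) (b := β + τ)
    (fun x _ => hG x)
    ((hc2.sub hcN2).intervalIntegrable _ _)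
  rw [intervalIntegral.integral_sub (hc2.intervalIntegrable _ _)
    (hcN2.intervalIntegrable _ _),
    intervalIntegral.integral_const_mul] at hFTC
  have hsh := avg_shift (ρ := ρ) hρ hP hP0 hNc hNP hα hab hτ
  rw [abs_le] at hsh
  have hsh2 := mul_le_mul_of_nonneg_left hsh.2 (sq_nonneg ρ)
  have eβ : exp (-ρ * (β + τ)) ≤ exp (ρ * R) * exp (-ρ * β) := by
    rw [← Real.exp_add]
    apply Real.exp_le_exp.2
    nlinarith [hτ.1]
  have eα : exp (-ρ * (α + τ)) ≤ exp (ρ * R) * exp (-ρ * α) := by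
    rw [← Real.exp_add]
    apply Real.exp_le_exp.2
    nlinarith [hτ.1]
  have hPβ : ∀ x, x ≤ β + R + 1 → P x ≤ P (β + R + 1) := fun x hx => hP hx
  have top : exp (-ρ * (β + τ)) * (N1 (β + τ) + ρ * N (β + τ)) ≤
      (2 + ρ) * exp (ρ * R) * (exp (-ρ * β) * P (β + R + 1)) := by
    have a1 : N1 (β + τ) ≤ 2 * P (β + R + 1) := by
      obtain ⟨ξ, hξ, hξ2⟩ := exists_hasDerivAt_eq_slope N N1 (by linarith : β + τ < β + τ + 1)
        hNc.continuousOn (fun x _ => hN x)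
      have a2 : N1 (β + τ) ≤ N1 ξ := hmono hξ.1.le
      rw [hξ2, add_sub_cancel_left, div_one] at a2
      have a3 := (abs_le.1 (hNP (β + τ + 1) (by linarith [hτ.1]))).2
      have a4 := (abs_le.1 (hNP (β + τ) (by linarith [hτ.1]))).1
      have a5 := hPβ (β + τ + 1) (by linarith [hτ.2])
      have a6 := hPβ (β + τ) (by linarith [hτ.2])
      linarith
    have a2 : N (β + τ) ≤ P (β + R + 1) :=
      (abs_le.1 (hNP (β + τ) (by linarith [hτ.1]))).2.trans (hPβ _ (by linarith [hτ.2]))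
    have a3 : N1 (β + τ) + ρ * N (β + τ) ≤ (2 + ρ) * P (β + R + 1) := by
      have := mul_le_mul_of_nonneg_left a2 hρ.le
      linarith
    calc _ ≤ exp (-ρ * (β + τ)) * ((2 + ρ) * P (β + R + 1)) :=
          mul_le_mul_of_nonneg_left a3 (Real.exp_pos _).le
      _ ≤ (exp (ρ * R) * exp (-ρ * β)) * ((2 + ρ) * P (β + R + 1)) :=
          mul_le_mul_of_nonneg_right eβ (mul_nonneg (by linarith) (hP0 _))
      _ = _ := by ring
  have bot : -(exp (-ρ * (α + τ)) * (N1 (α + τ) + ρ * N (α + τ))) ≤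
      (2 + ρ) * exp (ρ * R) * (exp (-ρ * α) * P (α + R + 1)) := by
    have a2 : -N (α + τ) ≤ P (α + R + 1) := by
      have b1 := (abs_le.1 (hNP (α + τ) (by linarith [hτ.1]))).1
      have b2 : P (α + τ) ≤ P (α + R + 1) := hP (by linarith [hτ.2])
      linarith
    have a3 : -(N1 (α + τ) + ρ * N (α + τ)) ≤ (2 + ρ) * P (α + R + 1) := by
      have := mul_le_mul_of_nonneg_left a2 hρ.le
      have h1 := hN10 (α + τ)
      have h2 := hP0 (α + R + 1)
      linarith
    calc _ = exp (-ρ * (α + τ)) * (-(N1 (α + τ) + ρ * N (α + τ))) := by ring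
      _ ≤ exp (-ρ * (α + τ)) * ((2 + ρ) * P (α + R + 1)) :=
          mul_le_mul_of_nonneg_left a3 (Real.exp_pos _).le
      _ ≤ (exp (ρ * R) * exp (-ρ * α)) * ((2 + ρ) * P (α + R + 1)) :=
          mul_le_mul_of_nonneg_right eα (mul_nonneg (by linarith) (hP0 _))
      _ = _ := by ring
  have e1 : (∫ x in (α + τ)..(β + τ), exp (-ρ * x) * N2 x) =
      ρ ^ 2 * (∫ x in (α + τ)..(β + τ), exp (-ρ * x) * N x) +
      exp (-ρ * (β + τ)) * (N1 (β + τ) + ρ * N (β + τ)) -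
      exp (-ρ * (α + τ)) * (N1 (α + τ) + ρ * N (α + τ)) := by
    linarith [hFTC]
  rw [e1]
  nlinarith [hsh2, top, bot]

theorem avg (ρ R : ℝ) (hρ : 0 < ρ) (hR : 0 < R) (kM kN kH : ℝ → ℝ)
    (iM : IntervalIntegrable kM volume (-R) R) (iN : IntervalIntegrable kN volume (-R) R)
    (iH : IntervalIntegrable kH volume (-R) R)
    (nM : ∀ τ ∈ Icc (-R) R, 0 ≤ kM τ) (nN : ∀ τ ∈ Icc (-R) R, 0 ≤ kN τ)
    (nH : ∀ τ ∈ Icc (-R) R, 0 ≤ kH τ) :
    ∃ C1, 0 ≤ C1 ∧ ∀ (P N N1 N2 Y : ℝ → ℝ) (s1 α β : ℝ), Monotone P → Continuous P →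
      (∀ s, 0 ≤ P s) → (∀ s, HasDerivAt N (N1 s) s) → (∀ s, HasDerivAt N1 (N2 s) s) →
      Continuous N2 → (∀ s, 0 ≤ N2 s) → (∀ s, 0 ≤ N1 s) → (∀ s, s1 ≤ s → |N s| ≤ P s) →
      ContinuousOn Y (Icc α β) → s1 + R ≤ α → α ≤ β →
      (∀ s ∈ Icc α β, Y s ≤ ∫ τ in (-R)..R,
        (kM τ * P (s + τ) - kN τ * N (s + τ) + kH τ * N2 (s + τ))) →
      ∫ s in α..β, exp (-ρ * s) * Y s ≤
        (∫ τ in (-R)..R, exp (ρ * τ) * kM τ) * (∫ s in α..β, exp (-ρ * s) * P s)
        + (ρ ^ 2 * (∫ τ in (-R)..R, exp (ρ * τ) * kH τ) - ∫ τ in (-R)..R, exp (ρ * τ) * kN τ)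
            * (∫ s in α..β, exp (-ρ * s) * N s)
        + C1 * (exp (-ρ * α) * P (α + R + 1) + exp (-ρ * β) * P (β + R + 1)) := by
  have hRR : -R ≤ R := by linarith
  set KM := ∫ τ in (-R)..R, exp (ρ * τ) * kM τ with hKM
  set KN := ∫ τ in (-R)..R, exp (ρ * τ) * kN τ with hKN
  set KH := ∫ τ in (-R)..R, exp (ρ * τ) * kH τ with hKH
  have pos : ∀ k : ℝ → ℝ, (∀ τ ∈ Icc (-R) R, 0 ≤ k τ) →
      0 ≤ ∫ τ in (-R)..R, exp (ρ * τ) * k τ := fun k hk =>
    intervalIntegral.integral_nonneg hRR fun τ hτ => mul_nonneg (Real.exp_pos _).le (hk τ hτ)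
  have pM : 0 ≤ KM := pos kM nM
  have pN : 0 ≤ KN := pos kN nN
  have pH : 0 ≤ KH := pos kH nH
  have hρR : 0 ≤ R * exp (ρ * R) := mul_nonneg hR.le (Real.exp_pos _).le
  have hρR2 : 0 ≤ ρ ^ 2 * (R * exp (ρ * R)) + (2 + ρ) * exp (ρ * R) := by positivity
  refine ⟨KM * (R * exp (ρ * R)) + KN * (R * exp (ρ * R)) +
    KH * (ρ ^ 2 * (R * exp (ρ * R)) + (2 + ρ) * exp (ρ * R)), by positivity, ?_⟩
  intro P N N1 N2 Y s1 α β hPm hPc hP0 hN hN1 hN2c hN20 hN10 hNP hY hα hab hYle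
  have hNc : Continuous N := continuous_iff_continuousAt.2 fun s => (hN s).continuousAt
  obtain ⟨jM, fM⟩ := avg_fub (ρ := ρ) hR hab iM hPc
  obtain ⟨jN, fN⟩ := avg_fub (ρ := ρ) hR hab iN hNc
  obtain ⟨jH, fH⟩ := avg_fub (ρ := ρ) hR hab iH hN2c
  set E := exp (-ρ * α) * P (α + R + 1) + exp (-ρ * β) * P (β + R + 1) with hE
  have step1 : ∫ s in α..β, exp (-ρ * s) * Y s ≤
      (∫ s in α..β, exp (-ρ * s) * ∫ τ in (-R)..R, kM τ * P (s + τ)) -
      (∫ s in α..β, exp (-ρ * s) * ∫ τ in (-R)..R, kN τ * N (s + τ)) +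
      ∫ s in α..β, exp (-ρ * s) * ∫ τ in (-R)..R, kH τ * N2 (s + τ) := by
    rw [← intervalIntegral.integral_sub jM jN, ← intervalIntegral.integral_add (jM.sub jN) jH]
    apply intervalIntegral.integral_mono_on hab
    · apply ContinuousOn.intervalIntegrable
      rw [uIcc_of_le hab]
      exact (by fun_prop : Continuous fun s : ℝ => exp (-ρ * s)).continuousOn.mul hY
    · exact (jM.sub jN).add jH
    · intro s hs
      have h1 := mul_le_mul_of_nonneg_left (hYle s hs) (Real.exp_pos (-ρ * s)).le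
      refine h1.trans (le_of_eq ?_)
      have q : ∀ k F : ℝ → ℝ, IntervalIntegrable k volume (-R) R → Continuous F →
          IntervalIntegrable (fun τ => k τ * F (s + τ)) volume (-R) R := fun k F hk hF =>
        hk.mul_continuousOn (hF.comp (by fun_prop)).continuousOn
      rw [intervalIntegral.integral_add ((q kM P iM hPc).sub (q kN N iN hNc)) (q kH N2 iH hN2c),
        intervalIntegral.integral_sub (q kM P iM hPc) (q kN N iN hNc)]
      ring
  have hcexp : Continuous fun τ : ℝ => exp (ρ * τ) := by fun_prop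
  have ie : ∀ k : ℝ → ℝ, IntervalIntegrable k volume (-R) R →
      IntervalIntegrable (fun τ => exp (ρ * τ) * k τ) volume (-R) R := fun k hk =>
    hk.continuousOn_mul hcexp.continuousOn
  have ie2 : ∀ k F : ℝ → ℝ, IntervalIntegrable k volume (-R) R → Continuous F →
      IntervalIntegrable (fun τ => exp (ρ * τ) * k τ *
        ∫ x in (α + τ)..(β + τ), exp (-ρ * x) * F x) volume (-R) R := fun k F hk hF =>
    (ie k hk).mul_continuousOn (avg_cont2 hF α β).continuousOn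
  have b1 : ∫ τ in (-R)..R, exp (ρ * τ) * kM τ * ∫ x in (α + τ)..(β + τ), exp (-ρ * x) * P x ≤
      KM * ((∫ s in α..β, exp (-ρ * s) * P s) + R * exp (ρ * R) * E) := by
    rw [hKM, ← intervalIntegral.integral_mul_const]
    apply intervalIntegral.integral_mono_on hRR (ie2 kM P iM hPc) ((ie kM iM).mul_const _)
    intro τ hτ
    apply mul_le_mul_of_nonneg_left _ (mul_nonneg (Real.exp_pos _).le (nM τ hτ))
    have := (abs_le.1 (avg_shift (ρ := ρ) (s1 := s1) hρ hPm hP0 hPc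
      (fun s _ => (abs_of_nonneg (hP0 s)).le) hα hab hτ)).2
    linarith
  have b2 : KN * ((∫ s in α..β, exp (-ρ * s) * N s) - R * exp (ρ * R) * E) ≤
      ∫ τ in (-R)..R, exp (ρ * τ) * kN τ * ∫ x in (α + τ)..(β + τ), exp (-ρ * x) * N x := by
    rw [hKN, ← intervalIntegral.integral_mul_const]
    apply intervalIntegral.integral_mono_on hRR ((ie kN iN).mul_const _) (ie2 kN N iN hNc)
    intro τ hτ
    apply mul_le_mul_of_nonneg_left _ (mul_nonneg (Real.exp_pos _).le (nN τ hτ))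
    have := (abs_le.1 (avg_shift (ρ := ρ) hρ hPm hP0 hNc hNP hα hab hτ)).1
    linarith
  have b3 : ∫ τ in (-R)..R, exp (ρ * τ) * kH τ * ∫ x in (α + τ)..(β + τ), exp (-ρ * x) * N2 x ≤
      KH * (ρ ^ 2 * (∫ x in α..β, exp (-ρ * x) * N x) +
        (ρ ^ 2 * (R * exp (ρ * R)) + (2 + ρ) * exp (ρ * R)) * E) := by
    rw [hKH, ← intervalIntegral.integral_mul_const]
    apply intervalIntegral.integral_mono_on hRR (ie2 kH N2 iH hN2c) ((ie kH iH).mul_const _)
    intro τ hτ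
    apply mul_le_mul_of_nonneg_left _ (mul_nonneg (Real.exp_pos _).le (nH τ hτ))
    exact avg_parts (ρ := ρ) hρ hPm hP0 hN hN1 hN2c hN20 hN10 hNP hα hab hτ
  rw [fM, fN, fH] at step1
  refine step1.trans ?_
  calc _ ≤ KM * ((∫ s in α..β, exp (-ρ * s) * P s) + R * exp (ρ * R) * E) -
        KN * ((∫ s in α..β, exp (-ρ * s) * N s) - R * exp (ρ * R) * E) +
        KH * (ρ ^ 2 * (∫ x in α..β, exp (-ρ * x) * N x) +
        (ρ ^ 2 * (R * exp (ρ * R)) + (2 + ρ) * exp (ρ * R)) * E) :=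
        add_le_add (sub_le_sub b1 b2) b3
    _ = _ := by ring

end Pool.Agent.MML
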