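import Pool.Agent.MML.Defs

/-!
# MML, module Chi: the cut-off

`yc R τ = max 0 ((|τ|-1)/(R-1))`, `chi = (1 - y³)²`.  `y² , y³` are differentiable in `τ` (also at `|τ| = 1`, `τ = 0`:
near `τ = 0` the function `y` vanishes).  `chi' = -6 (y² - y⁵) sgn τ/(R-1)`, `chi'' = -6 (2 y - 5 y⁴)/(R-1)²`.
-/

set_option autoImplicit false

namespace Pool.Agent.MML

open Real MeasureTheory Set Filter Topology

theorem hasDerivAt_maxpow (k : ℕ) (hk : 1 ≤ k) (u : ℝ) :
    HasDerivAt (fun x : ℝ => max 0 x ^ (k + 1)) ((k + 1 : ℕ) * max 0 u ^ k) u := by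
  rcases lt_trichotomy u 0 with h | h | h
  · have e : (fun x : ℝ => max 0 x ^ (k + 1)) =ᶠ[𝓝 u] fun _ => 0 := by
      filter_upwards [Iio_mem_nhds h] with x hx
      rw [max_eq_left (le_of_lt hx)]
      simp
    rw [max_eq_left h.le, zero_pow (by omega), mul_zero]
    exact (hasDerivAt_const u (0 : ℝ)).congr_of_eventuallyEq e
  · subst h
    rw [max_self, zero_pow (by omega), mul_zero, hasDerivAt_iff_isLittleO_nhds_zero]
    have h1 : (fun h : ℝ => h ^ (k + 1)) =o[𝓝 0] fun h : ℝ => h :=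
      Asymptotics.isLittleO_pow_id (by omega)
    refine Asymptotics.IsBigO.trans_isLittleO ?_ h1
    refine Asymptotics.IsBigO.of_bound 1 (Filter.Eventually.of_forall fun x => ?_)
    simp only [zero_add, max_self, ne_eq, Nat.add_eq_zero_iff, one_ne_zero, and_false,
      not_false_eq_true, zero_pow, sub_zero, smul_eq_mul, mul_zero, norm_pow, Real.norm_eq_abs,
      one_mul]
    refine pow_le_pow_left₀ (abs_nonneg _) ?_ _
    rw [abs_of_nonneg (le_max_left _ _)]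
    exact max_le (abs_nonneg _) (le_abs_self _)
  · have e : (fun x : ℝ => max 0 x ^ (k + 1)) =ᶠ[𝓝 u] fun x => x ^ (k + 1) := by
      filter_upwards [Ioi_mem_nhds h] with x hx
      rw [max_eq_right (le_of_lt hx)]
    rw [max_eq_right h.le]
    have := hasDerivAt_pow (k + 1) u
    simp only [Nat.add_sub_cancel] at this
    exact this.congr_of_eventuallyEq e

theorem yc_pos (R : ℝ) {τ : ℝ} (h : 0 < τ) : yc R τ = max 0 ((τ - 1) / (R - 1)) := by
  unfold yc
  rw [abs_of_pos h]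

theorem yc_neg (R : ℝ) {τ : ℝ} (h : τ < 0) : yc R τ = max 0 ((-τ - 1) / (R - 1)) := by
  unfold yc
  rw [abs_of_neg h]

theorem yc_zero {R : ℝ} (hR : 2 ≤ R) {τ : ℝ} (h : |τ| ≤ 1) : yc R τ = 0 := by
  unfold yc
  refine max_eq_left (div_nonpos_of_nonpos_of_nonneg (by linarith) (by linarith))

theorem yc_nonneg (R τ : ℝ) : 0 ≤ yc R τ := le_max_left _ _

theorem yc_le {R : ℝ} (hR : 2 ≤ R) {τ : ℝ} (h : |τ| ≤ R) : yc R τ ≤ 1 := by
  unfold yc
  refine max_le zero_le_one ?_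
  rw [div_le_one (by linarith)]
  linarith

theorem yc_cont {R : ℝ} (hR : 2 ≤ R) : Continuous (yc R) := by
  unfold yc
  fun_prop

theorem hasDerivAt_ypos {R : ℝ} (k : ℕ) (hk : 1 ≤ k) (τ : ℝ) :
    HasDerivAt (fun x : ℝ => max 0 ((x - 1) / (R - 1)) ^ (k + 1))
      ((k + 1 : ℕ) * max 0 ((τ - 1) / (R - 1)) ^ k * (1 / (R - 1))) τ := by
  have h1 : HasDerivAt (fun x : ℝ => (x - 1) / (R - 1)) (1 / (R - 1)) τ :=
    ((hasDerivAt_id τ).sub_const 1).div_const (R - 1)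
  exact (hasDerivAt_maxpow k hk ((τ - 1) / (R - 1))).comp τ h1

theorem hasDerivAt_yneg {R : ℝ} (k : ℕ) (hk : 1 ≤ k) (τ : ℝ) :
    HasDerivAt (fun x : ℝ => max 0 ((-x - 1) / (R - 1)) ^ (k + 1))
      ((k + 1 : ℕ) * max 0 ((-τ - 1) / (R - 1)) ^ k * (-1 / (R - 1))) τ := by
  have h1 : HasDerivAt (fun x : ℝ => (-x - 1) / (R - 1)) (-1 / (R - 1)) τ :=
    (((hasDerivAt_id τ).neg).sub_const 1).div_const (R - 1)
  exact (hasDerivAt_maxpow k hk ((-τ - 1) / (R - 1))).comp τ h1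

theorem chi_hasDeriv {R : ℝ} (hR : 2 ≤ R) (τ : ℝ) : HasDerivAt (chi R) (chi1 R τ) τ := by
  rcases lt_trichotomy τ 0 with h | h | h
  · have e : chi R =ᶠ[𝓝 τ] fun x => (1 - max 0 ((-x - 1) / (R - 1)) ^ (2 + 1)) ^ 2 := by
      filter_upwards [Iio_mem_nhds h] with x hx
      unfold chi
      rw [yc_neg R hx]
    have h2 := ((hasDerivAt_yneg (R := R) 2 (by norm_num) τ).const_sub 1).fun_pow 2
    refine (h2.congr_of_eventuallyEq e).congr_deriv ?_
    unfold chi1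
    rw [yc_neg R h, sign_neg h]
    generalize max 0 ((-τ - 1) / (R - 1)) = y
    generalize R - 1 = r
    simp only [SignType.coe_neg, SignType.coe_one]
    push_cast
    ring
  · subst h
    have e : chi R =ᶠ[𝓝 0] fun _ => 1 := by
      filter_upwards [Metric.ball_mem_nhds (0 : ℝ) one_pos] with x hx
      unfold chi
      rw [yc_zero hR (by simpa using (mem_ball_zero_iff.1 hx).le)]
      simp
    refine ((hasDerivAt_const (0 : ℝ) (1 : ℝ)).congr_of_eventuallyEq e).congr_deriv ?_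
    unfold chi1
    rw [yc_zero hR (by simp)]
    simp
  · have e : chi R =ᶠ[𝓝 τ] fun x => (1 - max 0 ((x - 1) / (R - 1)) ^ (2 + 1)) ^ 2 := by
      filter_upwards [Ioi_mem_nhds h] with x hx
      unfold chi
      rw [yc_pos R hx]
    have h2 := ((hasDerivAt_ypos (R := R) 2 (by norm_num) τ).const_sub 1).fun_pow 2
    refine (h2.congr_of_eventuallyEq e).congr_deriv ?_
    unfold chi1
    rw [yc_pos R h, sign_pos h]
    generalize max 0 ((τ - 1) / (R - 1)) = y
    generalize R - 1 = r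
    simp only [SignType.coe_one]
    push_cast
    ring

theorem chi1_hasDeriv {R : ℝ} (hR : 2 ≤ R) (τ : ℝ) : HasDerivAt (chi1 R) (chi2 R τ) τ := by
  rcases lt_trichotomy τ 0 with h | h | h
  · have e : chi1 R =ᶠ[𝓝 τ] fun x => 6 / (R - 1) * (max 0 ((-x - 1) / (R - 1)) ^ (1 + 1)
        - max 0 ((-x - 1) / (R - 1)) ^ (4 + 1)) := by
      filter_upwards [Iio_mem_nhds h] with x hx
      unfold chi1
      rw [yc_neg R hx, sign_neg hx]
      generalize max 0 ((-x - 1) / (R - 1)) = y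
      generalize R - 1 = r
      simp only [SignType.coe_neg, SignType.coe_one]
      ring
    have h2 := ((hasDerivAt_yneg (R := R) 1 le_rfl τ).fun_sub
      (hasDerivAt_yneg (R := R) 4 (by norm_num) τ)).const_mul (6 / (R - 1))
    refine (h2.congr_of_eventuallyEq e).congr_deriv ?_
    unfold chi2
    rw [yc_neg R h]
    generalize max 0 ((-τ - 1) / (R - 1)) = y
    generalize R - 1 = r
    push_cast
    ring
  · subst h
    have e : chi1 R =ᶠ[𝓝 0] fun _ => 0 := by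
      filter_upwards [Metric.ball_mem_nhds (0 : ℝ) one_pos] with x hx
      unfold chi1
      rw [yc_zero hR (by simpa using (mem_ball_zero_iff.1 hx).le)]
      simp
    refine ((hasDerivAt_const (0 : ℝ) (0 : ℝ)).congr_of_eventuallyEq e).congr_deriv ?_
    unfold chi2
    rw [yc_zero hR (by simp)]
    simp
  · have e : chi1 R =ᶠ[𝓝 τ] fun x => -(6 / (R - 1)) * (max 0 ((x - 1) / (R - 1)) ^ (1 + 1)
        - max 0 ((x - 1) / (R - 1)) ^ (4 + 1)) := by
      filter_upwards [Ioi_mem_nhds h] with x hx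
      unfold chi1
      rw [yc_pos R hx, sign_pos hx]
      generalize max 0 ((x - 1) / (R - 1)) = y
      generalize R - 1 = r
      simp only [SignType.coe_one]
      ring
    have h2 := ((hasDerivAt_ypos (R := R) 1 le_rfl τ).fun_sub
      (hasDerivAt_ypos (R := R) 4 (by norm_num) τ)).const_mul (-(6 / (R - 1)))
    refine (h2.congr_of_eventuallyEq e).congr_deriv ?_
    unfold chi2
    rw [yc_pos R h]
    generalize max 0 ((τ - 1) / (R - 1)) = y
    generalize R - 1 = r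
    push_cast
    ring

theorem chi_cont {R : ℝ} (hR : 2 ≤ R) :
    Continuous (chi R) ∧ Continuous (chi1 R) ∧ Continuous (chi2 R) := by
  refine ⟨?_, ?_, ?_⟩
  · exact continuous_iff_continuousAt.2 fun τ => (chi_hasDeriv hR τ).continuousAt
  · exact continuous_iff_continuousAt.2 fun τ => (chi1_hasDeriv hR τ).continuousAt
  · have := yc_cont hR
    unfold chi2
    fun_prop

theorem chi_mem {R : ℝ} (hR : 2 ≤ R) {τ : ℝ} (h : |τ| ≤ R) : 0 ≤ chi R τ ∧ chi R τ ≤ 1 := by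
  have h0 := yc_nonneg R τ
  have h1 := yc_le hR h
  have h3 : yc R τ ^ 3 ≤ 1 := pow_le_one₀ h0 h1
  have h4 : 0 ≤ yc R τ ^ 3 := pow_nonneg h0 3
  refine ⟨sq_nonneg _, ?_⟩
  unfold chi
  exact pow_le_one₀ (by linarith) (by linarith)

theorem chi_one {R : ℝ} (hR : 2 ≤ R) {τ : ℝ} (h : |τ| ≤ 1) :
    chi R τ = 1 ∧ chi1 R τ = 0 ∧ chi2 R τ = 0 := by
  unfold chi chi1 chi2
  rw [yc_zero hR h]
  simp

theorem chi_end {R : ℝ} (hR : 2 ≤ R) :
    chi R R = 0 ∧ chi1 R R = 0 ∧ chi R (-R) = 0 ∧ chi1 R (-R) = 0 := by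
  have h1 : yc R R = 1 := by
    unfold yc
    have h0 : R - 1 ≠ 0 := by
      intro h'
      linarith
    rw [abs_of_nonneg (by linarith), div_self h0]
    simp
  have h2 : yc R (-R) = 1 := by
    rw [← h1]
    unfold yc
    rw [abs_neg]
  unfold chi chi1
  rw [h1, h2]
  simp

theorem chi1_bd {R : ℝ} (hR : 2 ≤ R) {τ : ℝ} (h : |τ| ≤ R) : |chi1 R τ| ≤ 6 / (R - 1) := by
  have h0 := yc_nonneg R τ
  have h1 := yc_le hR h
  have hR1 : 0 < R - 1 := by linarith
  have h2 : yc R τ ^ 2 ≤ 1 := pow_le_one₀ h0 h1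
  have h5 : yc R τ ^ 5 ≤ yc R τ ^ 2 := pow_le_pow_of_le_one h0 h1 (by norm_num)
  have h6 : 0 ≤ yc R τ ^ 5 := pow_nonneg h0 5
  unfold chi1
  rw [abs_div, abs_of_pos hR1]
  refine div_le_div_of_nonneg_right ?_ hR1.le
  rw [abs_neg, abs_mul, abs_mul, abs_of_nonneg (by linarith : (0 : ℝ) ≤ yc R τ ^ 2 - yc R τ ^ 5),
    abs_of_nonneg (by norm_num : (0 : ℝ) ≤ 6)]
  have h7 : |((SignType.sign τ : SignType) : ℝ)| ≤ 1 := by
    rcases lt_trichotomy τ 0 with h | h | h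
    · simp [sign_neg h]
    · simp [h]
    · simp [sign_pos h]
  calc 6 * (yc R τ ^ 2 - yc R τ ^ 5) * |((SignType.sign τ : SignType) : ℝ)|
      ≤ 6 * (yc R τ ^ 2 - yc R τ ^ 5) * 1 :=
        mul_le_mul_of_nonneg_left h7 (by linarith)
    _ ≤ 6 := by linarith

theorem chi2_bd {R : ℝ} (hR : 2 ≤ R) {τ : ℝ} (h : |τ| ≤ R) : |chi2 R τ| ≤ 30 / (R - 1) := by
  have h0 := yc_nonneg R τ
  have h1 := yc_le hR h
  have hR1 : 0 < R - 1 := by linarith
  have h4 : yc R τ ^ 4 ≤ 1 := pow_le_one₀ h0 h1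
  have h6 : 0 ≤ yc R τ ^ 4 := pow_nonneg h0 4
  unfold chi2
  rw [abs_div, abs_of_pos (by positivity : 0 < (R - 1) ^ 2), div_le_div_iff₀ (by positivity) hR1]
  have h7 : |-(6 * (2 * yc R τ - 5 * yc R τ ^ 4))| ≤ 30 := by
    rw [abs_le]
    constructor <;> linarith
  have h8 : R - 1 ≤ (R - 1) ^ 2 := by nlinarith
  calc |-(6 * (2 * yc R τ - 5 * yc R τ ^ 4))| * (R - 1) ≤ 30 * (R - 1) :=
        mul_le_mul_of_nonneg_right h7 hR1.le
    _ ≤ 30 * (R - 1) ^ 2 := by linarith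

/-- the cut-off tends to `1` -/
theorem chi_tendsto (τ : ℝ) : Tendsto (fun R => chi R τ) atTop (𝓝 1) := by
  have h1 : Tendsto (fun R : ℝ => (|τ| - 1) / (R - 1)) atTop (𝓝 0) :=
    Tendsto.const_div_atTop (tendsto_atTop_add_const_right _ _ tendsto_id) _
  have h2 : Tendsto (fun R : ℝ => yc R τ) atTop (𝓝 (max 0 0)) := tendsto_const_nhds.max h1
  rw [max_self] at h2
  have h3 := ((h2.pow 3).const_sub 1).pow 2
  simpa [chi] using h3

end Pool.Agent.MML
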