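import Pool.Agent.MML.Defs

/-!
# MML, module KerI: kernel I (Petrenko kernel of the strip `|t| < π/a`)

With `D = cosh (aτ) - cos (at) + ε > 0`, `D1 = cosh (aτ) + 1 + ε > 0`:
`(log D)_ττ + (log D)_tt = a² ε (cosh (aτ) + cos (at))/D²`, `(log D1)'' = a² (1 + (1+ε) cosh (aτ))/D1²`.
`gI = 0` and `gIt = 0` at `t = π/a`; `gIt = 0` at `t = 0`.  For `1 ≤ |τ|`: `cosh (aτ) - cos (at) ≥ cosh a - 1 > 0`.
The constant `K0` may depend on `a` and `R` (all differences are `≤ K0 ε` by the mean value theorem in `ε`, or directly: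
`|log (x + ε) - log x| ≤ ε/x`, `|1/(x+ε) - 1/x| ≤ ε/x²`).
-/

set_option autoImplicit false

namespace Pool.Agent.MML

open Real MeasureTheory Set Filter Topology

noncomputable def gIs (a ε τ t : ℝ) : ℝ :=
  (4 * π)⁻¹ * (a * sinh (a * τ) / (cosh (a * τ) - cos (a * t) + ε)
    - a * sinh (a * τ) / (cosh (a * τ) + 1 + ε))

noncomputable def gIss (a ε τ t : ℝ) : ℝ :=
  (4 * π)⁻¹ * a ^ 2 * (cosh (a * τ) / (cosh (a * τ) - cos (a * t) + ε)
    - sinh (a * τ) ^ 2 / (cosh (a * τ) - cos (a * t) + ε) ^ 2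
    - cosh (a * τ) / (cosh (a * τ) + 1 + ε) + sinh (a * τ) ^ 2 / (cosh (a * τ) + 1 + ε) ^ 2)

noncomputable def gIt (a ε τ t : ℝ) : ℝ :=
  (4 * π)⁻¹ * (a * sin (a * t) / (cosh (a * τ) - cos (a * t) + ε))

noncomputable def gItt (a ε τ t : ℝ) : ℝ :=
  (4 * π)⁻¹ * a ^ 2 * (cos (a * t) / (cosh (a * τ) - cos (a * t) + ε)
    - sin (a * t) ^ 2 / (cosh (a * τ) - cos (a * t) + ε) ^ 2)

noncomputable def gIr (a ε τ _t : ℝ) : ℝ :=
  -(a ^ 2 / (4 * π)) * (1 + (1 + ε) * cosh (a * τ)) / (cosh (a * τ) + 1 + ε) ^ 2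

/-! ### elementary estimates -/

lemma keri_log_sub {x y : ℝ} (hx : 0 < x) (hy : 0 < y) (hxy : x ≤ y) :
    |log y - log x| ≤ (y - x) / x := by
  have h1 : log x ≤ log y := log_le_log hx hxy
  rw [abs_of_nonneg (by linarith), ← log_div hy.ne' hx.ne']
  refine (log_le_sub_one_of_pos (div_pos hy hx)).trans (le_of_eq ?_)
  field_simp

lemma keri_D_pos (a : ℝ) {ε τ t : ℝ} (hε : 0 < ε) : 0 < cosh (a * τ) - cos (a * t) + ε := by
  have h1 := one_le_cosh (a * τ)
  have h2 := cos_le_one (a * t)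
  linarith

lemma keri_D1_pos (a : ℝ) {ε τ : ℝ} (hε : 0 ≤ ε) : 0 < cosh (a * τ) + 1 + ε := by
  have h1 := one_le_cosh (a * τ)
  linarith

lemma keri_cosh_gt (a : ℝ) (ha : 0 < a) {τ : ℝ} (hτ : τ ≠ 0) : 1 < cosh (a * τ) := by
  rw [one_lt_cosh]
  exact mul_ne_zero ha.ne' hτ

lemma keri_cosh_ge (a : ℝ) (ha : 0 < a) {τ : ℝ} (hτ : 1 ≤ |τ|) : cosh a ≤ cosh (a * τ) := by
  rw [cosh_le_cosh, abs_mul, abs_of_pos ha]
  nlinarith

lemma keri_cosh_le (a R : ℝ) (ha : 0 < a) (hR : 2 ≤ R) {τ : ℝ} (hτ : τ ∈ Icc (-R) R) :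
    cosh (a * τ) ≤ cosh (a * R) := by
  rw [cosh_le_cosh, abs_mul, abs_mul, abs_of_pos ha, abs_of_nonneg (show (0:ℝ) ≤ R by linarith)]
  have : |τ| ≤ R := abs_le.2 hτ
  nlinarith

lemma keri_sinh_le (x : ℝ) : |sinh x| ≤ cosh x := by
  have h := cosh_sq x
  have h1 := cosh_pos x
  exact abs_le_of_sq_le_sq (by nlinarith) h1.le

lemma keri_hasDeriv_D (a ε τ t : ℝ) :
    HasDerivAt (fun x => cosh (a * x) - cos (a * t) + ε) (a * sinh (a * τ)) τ := by
  have h1 : HasDerivAt (fun x : ℝ => a * x) a τ := by simpa using (hasDerivAt_id τ).const_mul a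
  have h2 := h1.cosh
  exact ((h2.sub_const (cos (a * t))).add_const ε).congr_deriv (by ring)

lemma keri_hasDeriv_D1 (a ε τ : ℝ) :
    HasDerivAt (fun x => cosh (a * x) + 1 + ε) (a * sinh (a * τ)) τ := by
  have h1 : HasDerivAt (fun x : ℝ => a * x) a τ := by simpa using (hasDerivAt_id τ).const_mul a
  have h2 := h1.cosh
  exact ((h2.add_const 1).add_const ε).congr_deriv (by ring)

lemma keri_hasDeriv_sinh (a τ : ℝ) :
    HasDerivAt (fun x => a * sinh (a * x)) (a ^ 2 * cosh (a * τ)) τ := by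
  have h1 : HasDerivAt (fun x : ℝ => a * x) a τ := by simpa using (hasDerivAt_id τ).const_mul a
  exact (h1.sinh.const_mul a).congr_deriv (by ring)

lemma keri_hasDeriv_Dt (a ε τ t : ℝ) :
    HasDerivAt (fun y => cosh (a * τ) - cos (a * y) + ε) (a * sin (a * t)) t := by
  have h1 : HasDerivAt (fun x : ℝ => a * x) a t := by simpa using (hasDerivAt_id t).const_mul a
  have h2 := h1.cos
  exact ((h2.const_sub (cosh (a * τ))).add_const ε).congr_deriv (by ring)

lemma keri_hasDeriv_sin (a t : ℝ) :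
    HasDerivAt (fun x => a * sin (a * x)) (a ^ 2 * cos (a * t)) t := by
  have h1 : HasDerivAt (fun x : ℝ => a * x) a t := by simpa using (hasDerivAt_id t).const_mul a
  exact (h1.sin.const_mul a).congr_deriv (by ring)

lemma keri_d1 (a : ℝ) {ε : ℝ} (hε : 0 < ε) (τ t : ℝ) :
    HasDerivAt (fun x => gI a ε x t) (gIs a ε τ t) τ := by
  unfold gI gIs
  exact (((keri_hasDeriv_D a ε τ t).log (keri_D_pos a hε).ne').sub
    ((keri_hasDeriv_D1 a ε τ).log (keri_D1_pos a hε.le).ne')).const_mul _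

lemma keri_d2 (a : ℝ) {ε : ℝ} (hε : 0 < ε) (τ t : ℝ) :
    HasDerivAt (fun x => gIs a ε x t) (gIss a ε τ t) τ := by
  unfold gIs gIss
  have hD : cosh (a * τ) - cos (a * t) + ε ≠ 0 := (keri_D_pos a hε).ne'
  have hD1 : cosh (a * τ) + 1 + ε ≠ 0 := (keri_D1_pos a hε.le).ne'
  have h1 := (keri_hasDeriv_sinh a τ).div (keri_hasDeriv_D a ε τ t) hD
  have h2 := (keri_hasDeriv_sinh a τ).div (keri_hasDeriv_D1 a ε τ) hD1
  refine ((h1.sub h2).const_mul (4 * π)⁻¹).congr_deriv ?_
  field_simp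
  ring

lemma keri_d3 (a : ℝ) {ε : ℝ} (hε : 0 < ε) (τ t : ℝ) :
    HasDerivAt (fun y => gI a ε τ y) (gIt a ε τ t) t := by
  unfold gI gIt
  exact (((keri_hasDeriv_Dt a ε τ t).log (keri_D_pos a hε).ne').sub_const _).const_mul _

lemma keri_d4 (a : ℝ) {ε : ℝ} (hε : 0 < ε) (τ t : ℝ) :
    HasDerivAt (fun y => gIt a ε τ y) (gItt a ε τ t) t := by
  unfold gIt gItt
  have hD : cosh (a * τ) - cos (a * t) + ε ≠ 0 := (keri_D_pos a hε).ne'
  refine (((keri_hasDeriv_sin a t).div (keri_hasDeriv_Dt a ε τ t) hD).const_mul (4 * π)⁻¹).congr_deriv ?_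
  field_simp

lemma keri_lap (a : ℝ) {ε : ℝ} (hε : 0 < ε) (τ t : ℝ) :
    gIss a ε τ t + gItt a ε τ t = bump a ε τ t + gIr a ε τ t := by
  unfold gIss gItt bump gIr
  have hD : cosh (a * τ) - cos (a * t) + ε ≠ 0 := (keri_D_pos a hε).ne'
  have hD1 : cosh (a * τ) + 1 + ε ≠ 0 := (keri_D1_pos a hε.le).ne'
  have hc := cosh_sq (a * τ)
  have hs := sin_sq_add_cos_sq (a * t)
  have e1 : sinh (a * τ) ^ 2 = cosh (a * τ) ^ 2 - 1 := by linarith
  have e2 : sin (a * t) ^ 2 = 1 - cos (a * t) ^ 2 := by linarith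
  rw [e1, e2]
  have hpi : (π : ℝ) ≠ 0 := pi_ne_zero
  field_simp
  ring

lemma keri_contD (a ε : ℝ) : Continuous (fun p : ℝ × ℝ => cosh (a * p.1) - cos (a * p.2) + ε) := by
  fun_prop

lemma keri_contD1 (a ε : ℝ) : Continuous (fun p : ℝ × ℝ => cosh (a * p.1) + 1 + ε) := by
  fun_prop

lemma keri_r_bound (a : ℝ) {ε : ℝ} (hε : 0 < ε) (hε1 : ε ≤ 1) (τ t : ℝ) :
    |gIr a ε τ t - -kI a τ| ≤ a ^ 2 / (4 * π) * ε := by
  unfold gIr kI
  set c := cosh (a * τ) with hc
  have hc1 : 1 ≤ c := one_le_cosh _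
  have hpos : 0 < c + 1 + ε := by linarith
  have hpos1 : 0 < c + 1 := by linarith
  have e : -(a ^ 2 / (4 * π)) * (1 + (1 + ε) * c) / (c + 1 + ε) ^ 2 - -(a ^ 2 / (4 * π) / (c + 1))
      = a ^ 2 / (4 * π) * ε * ((-((c - 2) * (c + 1) - ε)) / ((c + 1 + ε) ^ 2 * (c + 1))) := by
    have hpi : (π : ℝ) ≠ 0 := pi_ne_zero
    field_simp
    ring
  rw [e, abs_mul]
  have h0 : 0 ≤ a ^ 2 / (4 * π) * ε := by positivity
  rw [abs_of_nonneg h0]
  refine mul_le_of_le_one_right h0 ?_
  rw [abs_div, abs_neg, abs_of_pos (show 0 < (c + 1 + ε) ^ 2 * (c + 1) by positivity),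
    div_le_one (by positivity)]
  rw [abs_le]
  constructor
  · nlinarith [sq_nonneg c, sq_nonneg (c + 1), mul_pos hpos1 hpos1]
  · nlinarith [sq_nonneg c, sq_nonneg (c + 1), mul_pos hpos1 hpos1]

lemma keri_gl (a : ℝ) (ha : 0 < a) {ε : ℝ} (hε : 0 < ε) {τ : ℝ} (hτ : 1 ≤ |τ|) (t : ℝ) :
    |gI a ε τ t - gI a 0 τ t| ≤ (4 * π)⁻¹ * ((cosh a - 1)⁻¹ + 1) * ε := by
  unfold gI
  have hca : 1 < cosh a := one_lt_cosh.2 ha.ne'
  have hc := keri_cosh_ge a ha hτ
  set c := cosh (a * τ) with hcdef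
  have h2 := cos_le_one (a * t)
  have hx : 0 < c - cos (a * t) := by linarith
  have hx1 : 0 < c + 1 := by linarith
  have b1 : |log (c - cos (a * t) + ε) - log (c - cos (a * t))| ≤ (cosh a - 1)⁻¹ * ε := by
    refine (keri_log_sub hx (by linarith) (by linarith)).trans ?_
    have e : (c - cos (a * t) + ε - (c - cos (a * t))) / (c - cos (a * t))
        = ε / (c - cos (a * t)) := by ring
    rw [e, div_eq_inv_mul]
    refine mul_le_mul_of_nonneg_right ?_ hε.le
    exact inv_anti₀ (by linarith) (by linarith)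
  have b2 : |log (c + 1 + ε) - log (c + 1)| ≤ 1 * ε := by
    refine (keri_log_sub hx1 (by linarith) (by linarith)).trans ?_
    have e : (c + 1 + ε - (c + 1)) / (c + 1) = ε / (c + 1) := by ring
    rw [e, one_mul, div_le_iff₀ hx1]
    nlinarith
  have e : (4 * π)⁻¹ * (log (c - cos (a * t) + ε) - log (c + 1 + ε)) -
      (4 * π)⁻¹ * (log (c - cos (a * t) + 0) - log (c + 1 + 0)) =
      (4 * π)⁻¹ * ((log (c - cos (a * t) + ε) - log (c - cos (a * t))) -
        (log (c + 1 + ε) - log (c + 1))) := by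
    rw [add_zero, add_zero]; ring
  rw [e, abs_mul, abs_of_pos (show 0 < (4 * π)⁻¹ by positivity), mul_assoc]
  refine mul_le_mul_of_nonneg_left ?_ (by positivity)
  have h3 := abs_sub (log (c - cos (a * t) + ε) - log (c - cos (a * t))) (log (c + 1 + ε) - log (c + 1))
  have h4 : ((cosh a - 1)⁻¹ + 1) * ε = (cosh a - 1)⁻¹ * ε + 1 * ε := by ring
  rw [h4]
  linarith

lemma keri_inv_sub {x ε : ℝ} (hx : 0 < x) (hε : 0 < ε) : |1 / (x + ε) - 1 / x| ≤ ε / x ^ 2 := by
  have h1 : 1 / (x + ε) - 1 / x = -(ε / (x * (x + ε))) := by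
    field_simp
    ring
  rw [h1, abs_neg, abs_of_nonneg (by positivity)]
  refine div_le_div_of_nonneg_left hε.le (by positivity) ?_
  nlinarith

lemma keri_gsl (a R : ℝ) (ha : 0 < a) (hR : 2 ≤ R) {ε : ℝ} (hε : 0 < ε) {τ : ℝ}
    (hτR : τ ∈ Icc (-R) R) (hτ : 1 ≤ |τ|) (t : ℝ) :
    |gIs a ε τ t - gIs a 0 τ t| ≤ (4 * π)⁻¹ * (a * cosh (a * R) * ((cosh a - 1)⁻¹ ^ 2 + 1)) * ε := by
  unfold gIs
  have hca : 1 < cosh a := one_lt_cosh.2 ha.ne'
  have hc := keri_cosh_ge a ha hτ
  have hcR := keri_cosh_le a R ha hR hτR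
  have hs := keri_sinh_le (a * τ)
  set c := cosh (a * τ) with hcdef
  set s := sinh (a * τ) with hsdef
  have h2 := cos_le_one (a * t)
  have hx : 0 < c - cos (a * t) := by linarith
  have hx1 : 0 < c + 1 := by linarith
  have b1 : |1 / (c - cos (a * t) + ε) - 1 / (c - cos (a * t))| ≤ (cosh a - 1)⁻¹ ^ 2 * ε := by
    refine (keri_inv_sub hx hε).trans ?_
    rw [div_eq_inv_mul, ← inv_pow]
    refine mul_le_mul_of_nonneg_right ?_ hε.le
    refine pow_le_pow_left₀ (by positivity) ?_ 2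
    exact inv_anti₀ (by linarith) (by linarith)
  have b2 : |1 / (c + 1 + ε) - 1 / (c + 1)| ≤ 1 * ε := by
    refine (keri_inv_sub hx1 hε).trans ?_
    rw [one_mul]
    refine div_le_self hε.le ?_
    exact one_le_pow₀ (by linarith [one_le_cosh (a * τ)])
  have e : (4 * π)⁻¹ * (a * s / (c - cos (a * t) + ε) - a * s / (c + 1 + ε)) -
      (4 * π)⁻¹ * (a * s / (c - cos (a * t) + 0) - a * s / (c + 1 + 0)) =
      (4 * π)⁻¹ * (a * (s * ((1 / (c - cos (a * t) + ε) - 1 / (c - cos (a * t))) -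
        (1 / (c + 1 + ε) - 1 / (c + 1))))) := by
    rw [add_zero, add_zero]; ring
  rw [e, abs_mul, abs_of_pos (show 0 < (4 * π)⁻¹ by positivity), mul_assoc]
  refine mul_le_mul_of_nonneg_left ?_ (by positivity)
  rw [abs_mul, abs_of_pos ha, mul_assoc a, mul_assoc a]
  refine mul_le_mul_of_nonneg_left ?_ ha.le
  rw [abs_mul, mul_assoc]
  refine mul_le_mul (hs.trans hcR) ?_ (abs_nonneg _) (by positivity)
  have h3 := abs_sub (1 / (c - cos (a * t) + ε) - 1 / (c - cos (a * t))) (1 / (c + 1 + ε) - 1 / (c + 1))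
  have h4 : ((cosh a - 1)⁻¹ ^ 2 + 1) * ε = (cosh a - 1)⁻¹ ^ 2 * ε + 1 * ε := by ring
  rw [h4]
  linarith

theorem kI_cont (a : ℝ) : Continuous (kI a) := by
  unfold kI
  refine continuous_const.div (by fun_prop) fun τ => ?_
  have := one_le_cosh (a * τ)
  linarith

theorem kerI (a R : ℝ) (ha : 0 < a) (hR : 2 ≤ R) :
    ∃ K0, Ker R (π / a) a (π / a) K0 (gI a) (gIs a) (gIss a) (gIt a) (gItt a) (gIr a) (gIr a)
      (fun τ => -kI a τ) (fun τ => -kI a τ) (gI a 0) (gIs a 0) := by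
  have hca : 1 < cosh a := one_lt_cosh.2 ha.ne'
  set K1 := a ^ 2 / (4 * π) with hK1
  set K2 := (4 * π)⁻¹ * ((cosh a - 1)⁻¹ + 1) with hK2
  set K3 := (4 * π)⁻¹ * (a * cosh (a * R) * ((cosh a - 1)⁻¹ ^ 2 + 1)) with hK3
  have hca' : 0 < cosh a - 1 := by linarith
  have hK10 : 0 ≤ K1 := by positivity
  have hK20 : 0 ≤ K2 := by positivity
  have hK30 : 0 ≤ K3 := by positivity
  have hdne : ∀ ε ∈ Ioc (0 : ℝ) 1, ∀ p : ℝ × ℝ, cosh (a * p.1) - cos (a * p.2) + ε ≠ 0 :=
    fun ε hε p => (keri_D_pos a hε.1).ne'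
  have hd1ne : ∀ ε ∈ Ioc (0 : ℝ) 1, ∀ p : ℝ × ℝ, cosh (a * p.1) + 1 + ε ≠ 0 :=
    fun ε hε p => (keri_D1_pos a hε.1.le).ne'
  refine ⟨K1 + K2 + K3, ?_⟩
  exact
    { hR := hR
      hx0 := by positivity
      hxb := le_refl _
      ha := ha
      hab := by rw [mul_div_cancel₀ _ ha.ne']
      hK := by positivity
      d1 := fun ε hε τ t _ => keri_d1 a hε.1 τ t
      d2 := fun ε hε τ t _ => keri_d2 a hε.1 τ t
      d3 := fun ε hε τ t _ => keri_d3 a hε.1 τ t
      d4 := fun ε hε τ t _ _ => keri_d4 a hε.1 τ t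
      c1 := fun ε hε => by
        refine Continuous.continuousOn ?_
        unfold gI
        exact continuous_const.mul (((keri_contD a ε).log (hdne ε hε)).sub
          ((keri_contD1 a ε).log (hd1ne ε hε)))
      c2 := fun ε hε => by
        refine Continuous.continuousOn ?_
        unfold gIs
        have h1 : Continuous (fun p : ℝ × ℝ => a * sinh (a * p.1)) := by fun_prop
        exact continuous_const.mul ((h1.div (keri_contD a ε) (hdne ε hε)).sub
          (h1.div (keri_contD1 a ε) (hd1ne ε hε)))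
      c3 := fun ε hε => by
        refine Continuous.continuousOn ?_
        unfold gIss
        have h1 : Continuous (fun p : ℝ × ℝ => cosh (a * p.1)) := by fun_prop
        have h2 : Continuous (fun p : ℝ × ℝ => sinh (a * p.1) ^ 2) := by fun_prop
        exact continuous_const.mul ((((h1.div (keri_contD a ε) (hdne ε hε)).sub
          (h2.div ((keri_contD a ε).pow 2) (fun p => pow_ne_zero 2 (hdne ε hε p)))).sub
          (h1.div (keri_contD1 a ε) (hd1ne ε hε))).add
          (h2.div ((keri_contD1 a ε).pow 2) (fun p => pow_ne_zero 2 (hd1ne ε hε p))))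
      c4 := fun ε hε => by
        refine Continuous.continuousOn ?_
        unfold gIt
        have h1 : Continuous (fun p : ℝ × ℝ => a * sin (a * p.2)) := by fun_prop
        exact continuous_const.mul (h1.div (keri_contD a ε) (hdne ε hε))
      c5 := fun ε hε => by
        refine Continuous.continuousOn ?_
        unfold gIr
        have h1 : Continuous (fun p : ℝ × ℝ => -(a ^ 2 / (4 * π)) * (1 + (1 + ε) * cosh (a * p.1))) := by
          fun_prop
        exact h1.div ((keri_contD1 a ε).pow 2) (fun p => pow_ne_zero 2 (hd1ne ε hε p))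
      c6 := fun ε hε => by
        refine Continuous.continuousOn ?_
        unfold gIr
        have h1 : Continuous (fun p : ℝ × ℝ => -(a ^ 2 / (4 * π)) * (1 + (1 + ε) * cosh (a * p.1))) := by
          fun_prop
        exact h1.div ((keri_contD1 a ε).pow 2) (fun p => pow_ne_zero 2 (hd1ne ε hε p))
      e0 := fun ε _ τ => by unfold gIt; simp
      e1 := fun ε _ τ => by unfold gIt; rw [mul_div_cancel₀ _ ha.ne', sin_pi]; simp
      e2 := fun ε _ τ => by
        unfold gI
        rw [mul_div_cancel₀ _ ha.ne', cos_pi, sub_neg_eq_add, sub_self, mul_zero]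
      lapv := fun ε hε τ t _ => keri_lap a hε.1 τ t
      laph := fun ε hε τ t _ => keri_lap a hε.1 τ t
      rvl := fun ε hε τ _ t _ => by
        refine (keri_r_bound a hε.1 hε.2 τ t).trans ?_
        exact mul_le_mul_of_nonneg_right (by linarith) hε.1.le
      rhl := fun ε hε τ _ t _ => by
        refine (keri_r_bound a hε.1 hε.2 τ t).trans ?_
        exact mul_le_mul_of_nonneg_right (by linarith) hε.1.le
      kvc := (kI_cont a).neg
      khc := (kI_cont a).neg
      gl := fun ε hε τ _ hτ t _ => by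
        refine (keri_gl a ha hε.1 hτ t).trans ?_
        exact mul_le_mul_of_nonneg_right (by linarith) hε.1.le
      gsl := fun ε hε τ hτR hτ t _ => by
        refine (keri_gsl a R ha hR hε.1 hτR hτ t).trans ?_
        exact mul_le_mul_of_nonneg_right (by linarith) hε.1.le
      g0c := by
        unfold gI
        refine continuousOn_const.mul (ContinuousOn.sub ?_ ?_)
        · refine (keri_contD a 0).continuousOn.log ?_
          rintro p ⟨hp, _⟩
          have h1 := keri_cosh_ge a ha hp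
          have h2 := cos_le_one (a * p.2)
          have : 0 < cosh (a * p.1) - cos (a * p.2) + 0 := by linarith
          exact this.ne'
        · exact (keri_contD1 a 0).continuousOn.log fun p _ => (keri_D1_pos a (le_refl 0)).ne'
      gs0c := by
        unfold gIs
        have h1 : Continuous (fun p : ℝ × ℝ => a * sinh (a * p.1)) := by fun_prop
        refine continuousOn_const.mul (ContinuousOn.sub ?_ ?_)
        · refine h1.continuousOn.div (keri_contD a 0).continuousOn ?_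
          rintro p ⟨hp, _⟩
          have h1 := keri_cosh_ge a ha hp
          have h2 := cos_le_one (a * p.2)
          have : 0 < cosh (a * p.1) - cos (a * p.2) + 0 := by linarith
          exact this.ne'
        · exact h1.continuousOn.div (keri_contD1 a 0).continuousOn
            fun p _ => (keri_D1_pos a (le_refl 0)).ne' }

/-- lower bound of kernel I -/
theorem gI_lower (a : ℝ) (ha : 0 < a) {ε τ t : ℝ} (hε : 0 < ε) (hτ : τ ≠ 0) :
    -(gI a ε τ t) ≤ hI a τ := by
  unfold gI hI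
  have hc := keri_cosh_gt a ha hτ
  set c := cosh (a * τ) with hcdef
  have h2 := cos_le_one (a * t)
  have hD : 0 < c - cos (a * t) + ε := by linarith
  have hD1 : 0 < c + 1 + ε := by linarith
  have hc1 : 0 < c - 1 := by linarith
  have e : -((4 * π)⁻¹ * (log (c - cos (a * t) + ε) - log (c + 1 + ε))) =
      (4 * π)⁻¹ * log ((c + 1 + ε) / (c - cos (a * t) + ε)) := by
    rw [log_div hD1.ne' hD.ne']; ring
  rw [e]
  refine mul_le_mul_of_nonneg_left ?_ (by positivity)
  refine log_le_log (by positivity) ?_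
  rw [div_le_div_iff₀ hD hc1]
  nlinarith

/-- upper bound of kernel I at `t = 0` -/
theorem gI_zero (a : ℝ) (ha : 0 < a) {ε τ : ℝ} (hε : 0 < ε) (hτ : τ ≠ 0) :
    gI a ε τ 0 ≤ 0 := by
  unfold gI
  have hc := keri_cosh_gt a ha hτ
  rw [mul_zero, cos_zero]
  have h1 : log (cosh (a * τ) - 1 + ε) ≤ log (cosh (a * τ) + 1 + ε) :=
    log_le_log (by linarith) (by linarith)
  exact mul_nonpos_of_nonneg_of_nonpos (by positivity) (by linarith)

theorem gI_zero_lim (a : ℝ) (ha : 0 < a) {τ : ℝ} (hτ : τ ≠ 0) :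
    Tendsto (fun ε : ℝ => gI a ε τ 0) (𝓝[>] 0) (𝓝 (-hI a τ)) := by
  have hc := keri_cosh_gt a ha hτ
  have e : -hI a τ = gI a 0 τ 0 := by
    unfold hI gI
    rw [log_div (by linarith) (by linarith), mul_zero, cos_zero, add_zero, add_zero]
    ring
  rw [e]
  refine tendsto_nhdsWithin_of_tendsto_nhds ?_
  have h : ContinuousAt (fun ε : ℝ => gI a ε τ 0) 0 := by
    unfold gI
    rw [mul_zero, cos_zero]
    refine continuousAt_const.mul (ContinuousAt.sub ?_ ?_)
    · refine ContinuousAt.log (by fun_prop) ?_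
      have : 0 < cosh (a * τ) - 1 + 0 := by linarith
      exact this.ne'
    · refine ContinuousAt.log (by fun_prop) ?_
      have : 0 < cosh (a * τ) + 1 + 0 := by linarith
      exact this.ne'
  exact h

theorem kI_pos (a : ℝ) (ha : 0 < a) (τ : ℝ) : 0 < kI a τ := by
  unfold kI
  have := one_le_cosh (a * τ)
  positivity

theorem hI_nonneg (a : ℝ) (τ : ℝ) : 0 ≤ hI a τ := by
  unfold hI
  refine mul_nonneg (by positivity) ?_
  have h1 := one_le_cosh (a * τ)
  rcases h1.eq_or_lt with h | h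
  · rw [← h]; simp
  · refine log_nonneg ?_
    rw [le_div_iff₀ (by linarith)]
    linarith

/-- `hI` has a logarithmic singularity at `0` only -/
theorem hI_int (a : ℝ) (ha : 0 < a) (x y : ℝ) : IntervalIntegrable (hI a) volume x y := by
  have hf : MeromorphicOn (fun τ : ℝ => (cosh (a * τ) + 1) / (cosh (a * τ) - 1)) (Set.uIcc x y) := by
    intro τ _
    have h0 : AnalyticAt ℝ (fun τ : ℝ => cosh (a * τ)) τ := by
      have h1 : AnalyticAt ℝ (fun τ : ℝ => a * τ) τ := analyticAt_const.mul analyticAt_id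
      exact (analyticAt_cosh (x := a * τ)).fun_comp h1
    exact ((h0.add analyticAt_const).meromorphicAt).div ((h0.sub analyticAt_const).meromorphicAt)
  have h := hf.intervalIntegrable_log_norm.const_mul (4 * π)⁻¹
  have e : hI a = fun τ => (4 * π)⁻¹ * log ‖(cosh (a * τ) + 1) / (cosh (a * τ) - 1)‖ := by
    funext τ
    unfold hI
    rw [Real.norm_eq_abs, log_abs]
  rw [e]
  exact h

/-- exponential decay of kernel I -/
theorem gI_decay (a : ℝ) (ha : 0 < a) : ∃ K, 0 ≤ K ∧ ∀ τ, 1 ≤ |τ| → ∀ t,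
    |gI a 0 τ t| ≤ K * exp (-(a * |τ|)) ∧ |gIs a 0 τ t| ≤ K * exp (-(a * |τ|)) := by
  have hca : 1 < cosh a := one_lt_cosh.2 ha.ne'
  set κ := (1 - 1 / cosh a) / 2 with hκ
  have hκ0 : 0 < κ := by
    have : 1 / cosh a < 1 := by rw [div_lt_one (by linarith)]; exact hca
    rw [hκ]; linarith
  set K := (4 * π)⁻¹ * (1 + a) * (2 / κ) with hK
  have hK0 : 0 ≤ K := by positivity
  refine ⟨K, hK0, fun τ hτ t => ?_⟩
  have hc := keri_cosh_ge a ha hτ
  have hs := keri_sinh_le (a * τ)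
  have hexp : exp (a * |τ|) / 2 ≤ cosh (a * τ) := by
    have e1 : cosh (a * τ) = cosh (a * |τ|) := by
      rw [← cosh_abs (a * τ), abs_mul, abs_of_pos ha]
    rw [e1, cosh_eq]
    have := exp_pos (-(a * |τ|))
    linarith
  set c := cosh (a * τ) with hcdef
  set s := sinh (a * τ) with hsdef
  have hcc : κ * exp (a * |τ|) ≤ c - 1 := by
    have h1 : 1 ≤ c / cosh a := by rw [le_div_iff₀ (by linarith)]; linarith
    have h2 : κ * 2 * c ≤ c - 1 := by
      have e1 : κ * 2 * c = c - c / cosh a := by rw [hκ]; ring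
      rw [e1]; linarith
    have h3 : κ * exp (a * |τ|) ≤ κ * 2 * c := by nlinarith
    linarith
  have hE := exp_pos (a * |τ|)
  have hc1 : 0 < c - 1 := lt_of_lt_of_le (by positivity) hcc
  have hcos := cos_le_one (a * t)
  have hcos' := neg_one_le_cos (a * t)
  have hx : 0 < c - cos (a * t) := by linarith
  have hx1 : 0 < c + 1 := by linarith
  have key : 2 / (c - 1) ≤ 2 / κ * exp (-(a * |τ|)) := by
    rw [exp_neg, div_mul_eq_mul_div, div_le_div_iff₀ hc1 hκ0]
    have h1 : κ ≤ (exp (a * |τ|))⁻¹ * (c - 1) := by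
      rw [← div_eq_inv_mul, le_div_iff₀ hE]; exact hcc
    nlinarith
  have key2 : (1 + cos (a * t)) / (c - cos (a * t)) ≤ 2 / (c - 1) := by
    rw [div_le_div_iff₀ hx hc1]
    nlinarith
  constructor
  · unfold gI
    rw [add_zero, add_zero, abs_mul, abs_of_pos (show 0 < (4 * π)⁻¹ by positivity), abs_sub_comm]
    have h1 := keri_log_sub hx hx1 (by linarith)
    have e : (c + 1 - (c - cos (a * t))) / (c - cos (a * t)) = (1 + cos (a * t)) / (c - cos (a * t)) := by
      ring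
    rw [e] at h1
    calc (4 * π)⁻¹ * |log (c + 1) - log (c - cos (a * t))|
        ≤ (4 * π)⁻¹ * (2 / κ * exp (-(a * |τ|))) :=
          mul_le_mul_of_nonneg_left (h1.trans (key2.trans key)) (by positivity)
      _ ≤ K * exp (-(a * |τ|)) := by
          rw [hK]
          have : 0 ≤ (4 * π)⁻¹ * a * (2 / κ) * exp (-(a * |τ|)) := by positivity
          nlinarith
  · unfold gIs
    have e : (4 * π)⁻¹ * (a * s / (c - cos (a * t) + 0) - a * s / (c + 1 + 0)) =
        (4 * π)⁻¹ * a * ((s / (c + 1)) * ((1 + cos (a * t)) / (c - cos (a * t)))) := by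
      rw [add_zero, add_zero]
      field_simp
      ring
    rw [e, abs_mul, abs_of_pos (show 0 < (4 * π)⁻¹ * a by positivity), abs_mul]
    have h1 : |s / (c + 1)| ≤ 1 := by
      rw [abs_div, abs_of_pos hx1, div_le_one hx1]
      linarith
    have h2 : |(1 + cos (a * t)) / (c - cos (a * t))| ≤ 2 / κ * exp (-(a * |τ|)) := by
      rw [abs_of_nonneg (div_nonneg (by linarith) hx.le)]
      exact key2.trans key
    calc (4 * π)⁻¹ * a * (|s / (c + 1)| * |(1 + cos (a * t)) / (c - cos (a * t))|)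
        ≤ (4 * π)⁻¹ * a * (1 * (2 / κ * exp (-(a * |τ|)))) :=
          mul_le_mul_of_nonneg_left (mul_le_mul h1 h2 (abs_nonneg _) zero_le_one) (by positivity)
      _ ≤ K * exp (-(a * |τ|)) := by
          rw [hK]
          have : 0 ≤ (4 * π)⁻¹ * (2 / κ) * exp (-(a * |τ|)) := by positivity
          nlinarith

end Pool.Agent.MML
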