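import Pool.Agent.MML.KerLim
import Pool.Agent.MML.KerI

/-!
# MML, module ConstI: the integrals of kernel I

`0 < ρ < a`, `b = π/a`.  Integrability on `ℝ`: `kI a τ ≤ C exp (-a|τ|)`, `hI a τ ≤ C exp (-a|τ|)` for `|τ| ≥ 1`, `hI_int` near `0`.
(1) `ker_id` with `W s t = exp (ρ s) cos (ρ t)`: `1/2 = (∫ chi R kI exp (ρτ) dτ) (∫_0^b cos (ρ t) dt) - Err R`, where
`|Err R| ≤ (K'/(R-1)) ∫ exp (ρτ - a|τ|) dτ → 0` (`gI_decay`, `chi1_bd`, `chi2_bd`, both vanish for `|τ| ≤ 1`), and
`∫_{-R}^R chi R kI exp (ρτ) → ∫_ℝ kI exp (ρτ)` (dominated convergence, `chi_tendsto`, `0 ≤ chi ≤ 1`).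
`∫_0^b cos (ρ t) dt = sin (ρ b)/ρ`.
(2) `ker_id2` with `W s t = exp (ρ s) sin (ρ t)`, `H = hI a`, `g00 = -hI a` (`|gI a ε τ 0| ≤ hI a τ` by `gI_lower`, `gI_zero`):
`-(∫ chi R kI exp (ρτ)) (1 - cos (ρ b))/ρ + Err = -ρ ∫ chi R hI exp (ρτ)`; `R → ∞`.
-/

set_option linter.all false

set_option autoImplicit false

namespace Pool.Agent.MML

open Real MeasureTheory Set Filter Topology

/-! ### auxiliary facts -/

theorem ci_exp_int {c : ℝ} (hc : 0 < c) : Integrable (fun τ : ℝ => exp (-(c * |τ|))) := by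
  rw [← integrableOn_univ, ← Iic_union_Ioi (a := (0 : ℝ))]
  refine IntegrableOn.union ?_ ?_
  · refine (integrableOn_exp_mul_Iic hc 0).congr_fun ?_ measurableSet_Iic
    intro τ hτ
    have h : |τ| = -τ := abs_of_nonpos hτ
    show exp (c * τ) = exp (-(c * |τ|))
    rw [h]
    ring_nf
  · refine (exp_neg_integrableOn_Ioi 0 hc).congr_fun ?_ measurableSet_Ioi
    intro τ hτ
    have h : |τ| = τ := abs_of_pos hτ
    show exp (-c * τ) = exp (-(c * |τ|))
    rw [h]
    ring_nf

theorem ci_exp_le {a ρ : ℝ} (hρ : 0 < ρ) (τ : ℝ) :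
    exp (ρ * τ) * exp (-(a * |τ|)) ≤ exp (-((a - ρ) * |τ|)) := by
  rw [← exp_add]
  apply exp_le_exp.2
  have := le_abs_self τ
  nlinarith

theorem ci_cosh_ge (x : ℝ) : exp |x| ≤ 2 * cosh x := by
  rw [← cosh_abs, cosh_eq]
  have := exp_pos (-|x|)
  linarith

theorem ci_kI_le {a : ℝ} (ha : 0 < a) (τ : ℝ) :
    kI a τ ≤ a ^ 2 / (2 * π) * exp (-(a * |τ|)) := by
  have h1 := ci_cosh_ge (a * τ)
  rw [abs_mul, abs_of_pos ha] at h1
  have h2 : 0 < exp (a * |τ|) := exp_pos _
  have h3 : exp (a * |τ|) / 2 ≤ cosh (a * τ) + 1 := by linarith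
  unfold kI
  calc a ^ 2 / (4 * π) / (cosh (a * τ) + 1) ≤ a ^ 2 / (4 * π) / (exp (a * |τ|) / 2) :=
        div_le_div_of_nonneg_left (by positivity) (by positivity) h3
    _ = a ^ 2 / (2 * π) * exp (-(a * |τ|)) := by
        rw [exp_neg]
        field_simp
        ring

theorem KI_int {a ρ : ℝ} (hρ : 0 < ρ) (hρa : ρ < a) :
    Integrable (fun τ => exp (ρ * τ) * kI a τ) := by
  have ha : 0 < a := hρ.trans hρa
  refine Integrable.mono' ((ci_exp_int (sub_pos.2 hρa)).const_mul (a ^ 2 / (2 * π)))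
    (((continuous_const.mul continuous_id).rexp.mul (kI_cont a)).aestronglyMeasurable)
    (Eventually.of_forall fun τ => ?_)
  show ‖exp (ρ * τ) * kI a τ‖ ≤ _
  rw [norm_of_nonneg (mul_nonneg (exp_pos _).le (kI_pos a ha τ).le)]
  calc exp (ρ * τ) * kI a τ ≤ exp (ρ * τ) * (a ^ 2 / (2 * π) * exp (-(a * |τ|))) :=
        mul_le_mul_of_nonneg_left (ci_kI_le ha τ) (exp_pos _).le
    _ = a ^ 2 / (2 * π) * (exp (ρ * τ) * exp (-(a * |τ|))) := by ring
    _ ≤ a ^ 2 / (2 * π) * exp (-((a - ρ) * |τ|)) :=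
        mul_le_mul_of_nonneg_left (ci_exp_le hρ τ) (by positivity)

theorem ci_hI_meas (a : ℝ) : Measurable (hI a) := by
  unfold hI
  have h1 : Measurable (fun τ => cosh (a * τ)) :=
    (continuous_cosh.comp (continuous_const.mul continuous_id)).measurable
  exact (((h1.add_const 1).div (h1.sub_const 1)).log).const_mul _

theorem ci_hI_eq {a τ : ℝ} (ha : 0 < a) (hτ : τ ≠ 0) : gI a 0 τ 0 = -hI a τ := by
  unfold gI hI
  have h1 : 1 < cosh (a * τ) := one_lt_cosh.2 (mul_ne_zero ha.ne' hτ)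
  rw [mul_zero, cos_zero, add_zero, add_zero, log_div (by linarith) (by linarith)]
  ring

theorem ci_hI_le {a : ℝ} (ha : 0 < a) : ∃ K, 0 ≤ K ∧ ∀ τ, 1 ≤ |τ| →
    hI a τ ≤ K * exp (-(a * |τ|)) := by
  obtain ⟨K, hK, h⟩ := gI_decay a ha
  refine ⟨K, hK, fun τ hτ => ?_⟩
  have h0 : τ ≠ 0 := by
    rintro rfl
    rw [abs_zero] at hτ
    linarith
  have h1 := (h τ hτ 0).1
  rw [ci_hI_eq ha h0, abs_neg] at h1
  exact (le_abs_self _).trans h1

theorem HI_int {a ρ : ℝ} (hρ : 0 < ρ) (hρa : ρ < a) :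
    Integrable (fun τ => exp (ρ * τ) * hI a τ) := by
  have ha : 0 < a := hρ.trans hρa
  have hce : Continuous (fun τ : ℝ => exp (ρ * τ)) := (continuous_const.mul continuous_id).rexp
  obtain ⟨K, hK, hle⟩ := ci_hI_le ha
  have h1 : IntegrableOn (fun τ => exp (ρ * τ) * hI a τ) (Ioc (-1) 1) := by
    have h2 : IntervalIntegrable (fun τ => exp (ρ * τ) * hI a τ) volume (-1) 1 :=
      (hI_int a ha (-1) 1).continuousOn_mul hce.continuousOn
    rwa [intervalIntegrable_iff_integrableOn_Ioc_of_le (by norm_num)] at h2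
  have h2 : IntegrableOn (fun τ => exp (ρ * τ) * hI a τ) (Ioc (-1) 1)ᶜ := by
    refine Integrable.mono' (((ci_exp_int (sub_pos.2 hρa)).const_mul K).integrableOn)
      ((hce.measurable.mul (ci_hI_meas a)).aestronglyMeasurable) ?_
    refine (ae_restrict_iff' measurableSet_Ioc.compl).2 (Eventually.of_forall fun τ hτ => ?_)
    have hτ1 : 1 ≤ |τ| := by
      by_contra hlt
      push Not at hlt
      rw [abs_lt] at hlt
      exact hτ ⟨hlt.1, hlt.2.le⟩
    rw [norm_of_nonneg (mul_nonneg (exp_pos _).le (hI_nonneg a τ))]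
    calc exp (ρ * τ) * hI a τ ≤ exp (ρ * τ) * (K * exp (-(a * |τ|))) :=
          mul_le_mul_of_nonneg_left (hle τ hτ1) (exp_pos _).le
      _ = K * (exp (ρ * τ) * exp (-(a * |τ|))) := by ring
      _ ≤ K * exp (-((a - ρ) * |τ|)) := mul_le_mul_of_nonneg_left (ci_exp_le hρ τ) hK
  have h3 := h1.union h2
  rwa [union_compl_self, integrableOn_univ] at h3

/-- limit of the integrals with the cut-off -/
theorem ci_chi_lim {f : ℝ → ℝ} (hf : Integrable f) :
    Tendsto (fun R => ∫ τ in (-R)..R, chi R τ * f τ) atTop (𝓝 (∫ τ, f τ)) := by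
  have h1 : Tendsto (fun R => ∫ τ, (Ioc (-R) R).indicator (fun τ => chi R τ * f τ) τ) atTop
      (𝓝 (∫ τ, f τ)) := by
    refine tendsto_integral_filter_of_dominated_convergence (fun τ => |f τ|) ?_ ?_ hf.abs ?_
    · filter_upwards [eventually_ge_atTop 2] with R hR
      exact ((chi_cont hR).1.aestronglyMeasurable.mul hf.aestronglyMeasurable).indicator
        measurableSet_Ioc
    · filter_upwards [eventually_ge_atTop 2] with R hR
      refine Eventually.of_forall fun τ => ?_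
      by_cases hτ : τ ∈ Ioc (-R) R
      · rw [indicator_of_mem hτ, norm_mul, norm_eq_abs, norm_eq_abs]
        obtain ⟨h2, h3⟩ := chi_mem hR (abs_le.2 ⟨hτ.1.le, hτ.2⟩)
        rw [abs_of_nonneg h2]
        exact mul_le_of_le_one_left (abs_nonneg _) h3
      · rw [indicator_of_notMem hτ, norm_zero]
        exact abs_nonneg _
    · refine Eventually.of_forall fun τ => ?_
      have h2 : Tendsto (fun R => chi R τ * f τ) atTop (𝓝 (1 * f τ)) :=
        (chi_tendsto τ).mul_const _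
      rw [one_mul] at h2
      refine h2.congr' ?_
      filter_upwards [eventually_gt_atTop |τ|] with R hR
      rw [indicator_of_mem]
      rw [abs_lt] at hR
      exact ⟨hR.1, hR.2.le⟩
  refine h1.congr' ?_
  filter_upwards [eventually_ge_atTop 2] with R hR
  rw [integral_indicator measurableSet_Ioc, intervalIntegral.integral_of_le (by linarith)]

theorem ci_ker_lim {a ρ : ℝ} (hρ : 0 < ρ) (hρa : ρ < a) {w : ℝ → ℝ} (hw : Continuous w)
    (hw1 : ∀ t, |w t| ≤ 1) :
    Tendsto (fun R => kerPart R (π / a) (π / a) (fun τ => -kI a τ) (fun τ => -kI a τ)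
      (gI a 0) (gIs a 0) (fun τ t => exp (ρ * τ) * w t)) atTop
      (𝓝 (-((∫ τ, exp (ρ * τ) * kI a τ) * ∫ t in (0 : ℝ)..(π / a), w t))) := by
  have ha : 0 < a := hρ.trans hρa
  have hb : 0 < π / a := div_pos pi_pos ha
  obtain ⟨b, hbd⟩ : ∃ b, b = π / a := ⟨_, rfl⟩
  rw [← hbd] at hb ⊢
  have hce : Continuous (fun τ : ℝ => exp (ρ * τ)) := (continuous_const.mul continuous_id).rexp
  obtain ⟨K, hK, hdec⟩ := gI_decay a ha
  set P2 : ℝ → ℝ → ℝ := fun R τ => ∫ t in (0 : ℝ)..b,
    (2 * chi1 R τ * gIs a 0 τ t + chi2 R τ * gI a 0 τ t) * (exp (ρ * τ) * w t) with hP2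
  set J : ℝ := ∫ τ : ℝ, exp (-((a - ρ) * |τ|)) with hJ
  -- measurability
  have hmeas : ∀ R, 2 ≤ R → StronglyMeasurable (P2 R) := by
    intro R hR
    obtain ⟨-, hc1, hc2⟩ := chi_cont hR
    have hcosh : Continuous (fun p : ℝ × ℝ => cosh (a * p.1)) :=
      continuous_cosh.comp (continuous_const.mul continuous_fst)
    have hsinh : Continuous (fun p : ℝ × ℝ => sinh (a * p.1)) :=
      continuous_sinh.comp (continuous_const.mul continuous_fst)
    have hcos : Continuous (fun p : ℝ × ℝ => cos (a * p.2)) :=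
      continuous_cos.comp (continuous_const.mul continuous_snd)
    have hd : Measurable (fun p : ℝ × ℝ => cosh (a * p.1) - cos (a * p.2) + 0) :=
      ((hcosh.sub hcos).add continuous_const).measurable
    have hd1 : Measurable (fun p : ℝ × ℝ => cosh (a * p.1) + 1 + 0) :=
      ((hcosh.add continuous_const).add continuous_const).measurable
    have hg : Measurable (fun p : ℝ × ℝ => gI a 0 p.1 p.2) := by
      unfold gI
      exact (hd.log.sub hd1.log).const_mul _
    have hgs : Measurable (fun p : ℝ × ℝ => gIs a 0 p.1 p.2) := by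
      unfold gIs
      exact (((hsinh.measurable.const_mul a).div hd).sub
        ((hsinh.measurable.const_mul a).div hd1)).const_mul _
    have hφ : Measurable (fun p : ℝ × ℝ => (2 * chi1 R p.1 * gIs a 0 p.1 p.2
        + chi2 R p.1 * gI a 0 p.1 p.2) * (exp (ρ * p.1) * w p.2)) := by
      refine ((((hc1.measurable.comp measurable_fst).const_mul 2).mul hgs).add
        ((hc2.measurable.comp measurable_fst).mul hg)).mul ?_
      exact (hce.measurable.comp measurable_fst).mul (hw.measurable.comp measurable_snd)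
    have h1 := hφ.stronglyMeasurable.integral_prod_right' (ν := volume.restrict (Ioc 0 b))
    have h2 : P2 R = fun τ => ∫ t in Ioc 0 b, (2 * chi1 R τ * gIs a 0 τ t
        + chi2 R τ * gI a 0 τ t) * (exp (ρ * τ) * w t) := by
      funext τ
      rw [hP2]
      exact intervalIntegral.integral_of_le hb.le
    rw [h2]
    exact h1
  -- bound
  have hbound : ∀ R, 2 ≤ R → ∀ τ ∈ Icc (-R) R,
      ‖P2 R τ‖ ≤ (42 * K / (R - 1) * b) * exp (-((a - ρ) * |τ|)) := by
    intro R hR τ hτ
    have hR1 : 0 < R - 1 := by linarith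
    have hτR : |τ| ≤ R := abs_le.2 hτ
    have hin : ∀ t ∈ Set.uIoc 0 b, ‖(2 * chi1 R τ * gIs a 0 τ t + chi2 R τ * gI a 0 τ t) *
        (exp (ρ * τ) * w t)‖ ≤ 42 * K / (R - 1) * exp (-((a - ρ) * |τ|)) := by
      intro t _
      rw [norm_mul, norm_mul, norm_eq_abs, norm_eq_abs, norm_eq_abs, abs_of_pos (exp_pos _)]
      have hA : |2 * chi1 R τ * gIs a 0 τ t + chi2 R τ * gI a 0 τ t| ≤
          42 * K / (R - 1) * exp (-(a * |τ|)) := by
        by_cases h1 : |τ| ≤ 1
        · obtain ⟨-, h2, h3⟩ := chi_one hR h1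
          rw [h2, h3, mul_zero, zero_mul, zero_mul, add_zero, abs_zero]
          positivity
        · obtain ⟨h2, h3⟩ := hdec τ (not_le.1 h1).le t
          have h4 := chi1_bd hR hτR
          have h5 := chi2_bd hR hτR
          have h6 : |2 * chi1 R τ * gIs a 0 τ t| ≤ 12 * K / (R - 1) * exp (-(a * |τ|)) := by
            rw [abs_mul, abs_mul, abs_of_pos (by norm_num : (0 : ℝ) < 2)]
            calc 2 * |chi1 R τ| * |gIs a 0 τ t| ≤ 2 * (6 / (R - 1)) * (K * exp (-(a * |τ|))) := by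
                  gcongr
              _ = 12 * K / (R - 1) * exp (-(a * |τ|)) := by ring
          have h7 : |chi2 R τ * gI a 0 τ t| ≤ 30 * K / (R - 1) * exp (-(a * |τ|)) := by
            rw [abs_mul]
            calc |chi2 R τ| * |gI a 0 τ t| ≤ (30 / (R - 1)) * (K * exp (-(a * |τ|))) := by
                  gcongr
              _ = 30 * K / (R - 1) * exp (-(a * |τ|)) := by ring
          have h8 := abs_add_le (2 * chi1 R τ * gIs a 0 τ t) (chi2 R τ * gI a 0 τ t)
          have h9 : 12 * K / (R - 1) * exp (-(a * |τ|)) + 30 * K / (R - 1) * exp (-(a * |τ|)) =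
              42 * K / (R - 1) * exp (-(a * |τ|)) := by ring
          linarith
      have hB := ci_exp_le (a := a) hρ τ
      have hC : exp (ρ * τ) * |w t| ≤ exp (ρ * τ) :=
        mul_le_of_le_one_right (exp_pos _).le (hw1 t)
      have hK' : 0 ≤ 42 * K / (R - 1) := by positivity
      calc |2 * chi1 R τ * gIs a 0 τ t + chi2 R τ * gI a 0 τ t| * (exp (ρ * τ) * |w t|)
          ≤ (42 * K / (R - 1) * exp (-(a * |τ|))) * exp (ρ * τ) := by
            gcongr
        _ = 42 * K / (R - 1) * (exp (ρ * τ) * exp (-(a * |τ|))) := by ring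
        _ ≤ 42 * K / (R - 1) * exp (-((a - ρ) * |τ|)) := by gcongr
    have h1 := intervalIntegral.norm_integral_le_of_norm_le_const hin
    rw [sub_zero, abs_of_pos hb] at h1
    calc ‖P2 R τ‖ ≤ 42 * K / (R - 1) * exp (-((a - ρ) * |τ|)) * b := h1
      _ = _ := by ring
  have hEint : Integrable (fun τ : ℝ => exp (-((a - ρ) * |τ|))) := ci_exp_int (sub_pos.2 hρa)
  have hP2int : ∀ R, 2 ≤ R → IntervalIntegrable (P2 R) volume (-R) R := by
    intro R hR
    rw [intervalIntegrable_iff_integrableOn_Ioc_of_le (by linarith)]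
    refine Integrable.mono' ((hEint.const_mul (42 * K / (R - 1) * b)).integrableOn)
      (hmeas R hR).aestronglyMeasurable ?_
    exact (ae_restrict_iff' measurableSet_Ioc).2 (Eventually.of_forall fun τ hτ =>
      hbound R hR τ ⟨hτ.1.le, hτ.2⟩)
  have hP2le : ∀ R, 2 ≤ R → ‖∫ τ in (-R)..R, P2 R τ‖ ≤ (42 * K * b * J) / (R - 1) := by
    intro R hR
    have hR1 : 0 < R - 1 := by linarith
    rw [intervalIntegral.integral_of_le (by linarith)]
    refine (norm_integral_le_of_norm_le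
      ((hEint.const_mul (42 * K / (R - 1) * b)).integrableOn) ?_).trans ?_
    · exact (ae_restrict_iff' measurableSet_Ioc).2 (Eventually.of_forall fun τ hτ =>
        hbound R hR τ ⟨hτ.1.le, hτ.2⟩)
    · have h1 : ∫ τ in Ioc (-R) R, 42 * K / (R - 1) * b * exp (-((a - ρ) * |τ|)) ≤
          ∫ τ : ℝ, 42 * K / (R - 1) * b * exp (-((a - ρ) * |τ|)) := by
        refine setIntegral_le_integral (hEint.const_mul _) (Eventually.of_forall fun τ => ?_)
        show (0 : ℝ) ≤ 42 * K / (R - 1) * b * exp (-((a - ρ) * |τ|))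
        positivity
      refine h1.trans (le_of_eq ?_)
      rw [integral_const_mul, ← hJ]
      ring
  have hsplit : ∀ R, 2 ≤ R → kerPart R b b (fun τ => -kI a τ) (fun τ => -kI a τ)
      (gI a 0) (gIs a 0) (fun τ t => exp (ρ * τ) * w t) =
      -((∫ τ in (-R)..R, chi R τ * (exp (ρ * τ) * kI a τ)) * ∫ t in (0 : ℝ)..b, w t)
        + ∫ τ in (-R)..R, P2 R τ := by
    intro R hR
    obtain ⟨hc0, -, -⟩ := chi_cont hR
    have h1 : kerPart R b b (fun τ => -kI a τ) (fun τ => -kI a τ)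
      (gI a 0) (gIs a 0) (fun τ t => exp (ρ * τ) * w t) =
        ∫ τ in (-R)..R, (-(∫ t in (0 : ℝ)..b, w t) * (chi R τ * (exp (ρ * τ) * kI a τ))
          + P2 R τ) := by
      unfold kerPart
      refine intervalIntegral.integral_congr fun τ _ => ?_
      show chi R τ * (-kI a τ * (∫ t in (0 : ℝ)..b, exp (ρ * τ) * w t)
        + -kI a τ * ∫ t in b..b, exp (ρ * τ) * w t) + P2 R τ = _
      rw [intervalIntegral.integral_same, intervalIntegral.integral_const_mul]
      ring
    have hcont : Continuous (fun τ => chi R τ * (exp (ρ * τ) * kI a τ)) :=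
      hc0.mul (hce.mul (kI_cont a))
    rw [h1, intervalIntegral.integral_add ((hcont.const_mul _).intervalIntegrable _ _)
      (hP2int R hR), intervalIntegral.integral_const_mul]
    ring
  have hlim1 := (ci_chi_lim (KI_int hρ hρa)).mul_const (∫ t in (0 : ℝ)..b, w t)
  have hlim2 : Tendsto (fun R => ∫ τ in (-R)..R, P2 R τ) atTop (𝓝 0) := by
    have h1 : Tendsto (fun R : ℝ => (42 * K * b * J) / (R - 1)) atTop (𝓝 0) :=
      tendsto_const_nhds.div_atTop (tendsto_atTop_add_const_right _ (-1) tendsto_id)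
    refine squeeze_zero_norm' ?_ h1
    filter_upwards [eventually_ge_atTop 2] with R hR
    exact hP2le R hR
  have h3 := hlim1.neg.add hlim2
  rw [add_zero] at h3
  refine h3.congr' ?_
  filter_upwards [eventually_ge_atTop 2] with R hR
  exact (hsplit R hR).symm

theorem ci_C2F {ρ : ℝ} {w w1 w2 : ℝ → ℝ} (h1 : ∀ t, HasDerivAt w (w1 t) t)
    (h2 : ∀ t, HasDerivAt w1 (w2 t) t) (hw2 : Continuous w2) :
    C2F (fun s t => exp (ρ * s) * w t) (fun s t => ρ * exp (ρ * s) * w t)
      (fun s t => ρ ^ 2 * exp (ρ * s) * w t) (fun s t => exp (ρ * s) * w1 t)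
      (fun s t => exp (ρ * s) * w2 t) := by
  have hcw : Continuous w := continuous_iff_continuousAt.2 fun t => (h1 t).continuousAt
  have hcw1 : Continuous w1 := continuous_iff_continuousAt.2 fun t => (h2 t).continuousAt
  have hce : Continuous (fun p : ℝ × ℝ => exp (ρ * p.1)) :=
    (continuous_const.mul continuous_fst).rexp
  have he : ∀ s, HasDerivAt (fun x : ℝ => exp (ρ * x)) (ρ * exp (ρ * s)) s := by
    intro s
    have := ((hasDerivAt_id s).const_mul ρ).exp
    simp only [id, mul_one] at this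
    rw [mul_comm] at this
    exact this
  refine ⟨?_, ?_, ?_, ?_, ?_, ?_, ?_, ?_, ?_⟩
  · intro s t
    exact (he s).mul_const _
  · intro s t
    have := ((he s).const_mul ρ).mul_const (w t)
    rw [show ρ * (ρ * exp (ρ * s)) * w t = ρ ^ 2 * exp (ρ * s) * w t by ring] at this
    exact this
  · intro s t
    exact (h1 t).const_mul _
  · intro s t
    exact (h2 t).const_mul _
  · exact hce.mul (hcw.comp continuous_snd)
  · exact (hce.const_mul ρ).mul (hcw.comp continuous_snd)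
  · exact (hce.const_mul _).mul (hcw.comp continuous_snd)
  · exact hce.mul (hcw1.comp continuous_snd)
  · exact hce.mul (hw2.comp continuous_snd)

theorem ci_sin_pos {a ρ : ℝ} (hρ : 0 < ρ) (hρa : ρ < a) : 0 < sin (ρ * π / a) := by
  have ha : 0 < a := hρ.trans hρa
  refine sin_pos_of_pos_of_lt_pi (by positivity) ?_
  rw [div_lt_iff₀ ha, mul_comm π a]
  exact mul_lt_mul_of_pos_right hρa pi_pos

theorem ci_int_cos {a ρ : ℝ} (hρ : 0 < ρ) :
    ∫ t in (0 : ℝ)..(π / a), cos (ρ * t) = sin (ρ * π / a) / ρ := by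
  rw [intervalIntegral.integral_comp_mul_left (fun x => cos x) hρ.ne', integral_cos, mul_zero,
    sin_zero, sub_zero, smul_eq_mul, mul_div_assoc]
  ring

theorem ci_int_sin {a ρ : ℝ} (hρ : 0 < ρ) :
    ∫ t in (0 : ℝ)..(π / a), sin (ρ * t) = (1 - cos (ρ * π / a)) / ρ := by
  rw [intervalIntegral.integral_comp_mul_left (fun x => sin x) hρ.ne', integral_sin, mul_zero,
    cos_zero, smul_eq_mul, mul_div_assoc]
  ring

theorem ci_dcos (ρ t : ℝ) : HasDerivAt (fun y => cos (ρ * y)) (-(ρ * sin (ρ * t))) t := by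
  have := ((hasDerivAt_id t).const_mul ρ).cos
  simp only [id, mul_one] at this
  rw [show -sin (ρ * t) * ρ = -(ρ * sin (ρ * t)) by ring] at this
  exact this

theorem ci_dsin (ρ t : ℝ) : HasDerivAt (fun y => sin (ρ * y)) (ρ * cos (ρ * t)) t := by
  have := ((hasDerivAt_id t).const_mul ρ).sin
  simp only [id, mul_one] at this
  rw [mul_comm] at this
  exact this

theorem KI_eq {a ρ : ℝ} (hρ : 0 < ρ) (hρa : ρ < a) :
    ∫ τ, exp (ρ * τ) * kI a τ = ρ / (2 * sin (ρ * π / a)) := by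
  have ha : 0 < a := hρ.trans hρa
  have hcs : Continuous (fun t : ℝ => cos (ρ * t)) :=
    continuous_cos.comp (continuous_const.mul continuous_id)
  have hC := ci_C2F (ρ := ρ) (w := fun t => cos (ρ * t)) (w1 := fun t => -(ρ * sin (ρ * t)))
    (w2 := fun t => -(ρ * (ρ * cos (ρ * t)))) (ci_dcos ρ)
    (fun t => ((ci_dsin ρ t).const_mul ρ).neg) ((hcs.const_mul _).const_mul _).neg
  have hlim := ci_ker_lim hρ hρa (w := fun t => cos (ρ * t)) hcs (fun t => abs_cos_le_one _)
  have hconst : ∀ᶠ R in atTop, (-(1 / 2) : ℝ) =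
      kerPart R (π / a) (π / a) (fun τ => -kI a τ) (fun τ => -kI a τ)
      (gI a 0) (gIs a 0) (fun τ t => exp (ρ * τ) * cos (ρ * t)) := by
    filter_upwards [eventually_ge_atTop 2] with R hR
    obtain ⟨K0, hk⟩ := kerI a R ha hR
    have h1 := ker_id hk hC (fun τ => by simp) (fun τ t => by ring)
    simp only [mul_zero, exp_zero, cos_zero, mul_one] at h1
    linarith
  have h2 := tendsto_nhds_unique (tendsto_const_nhds.congr' hconst) hlim
  rw [ci_int_cos hρ] at h2
  have hs := ci_sin_pos hρ hρa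
  have h3 : (∫ τ, exp (ρ * τ) * kI a τ) * (sin (ρ * π / a) / ρ) = 1 / 2 := by linarith
  rw [eq_div_iff (by positivity)]
  field_simp at h3
  linarith

theorem HI_eq {a ρ : ℝ} (hρ : 0 < ρ) (hρa : ρ < a) :
    ∫ τ, exp (ρ * τ) * hI a τ = (1 - cos (ρ * π / a)) / (2 * ρ * sin (ρ * π / a)) := by
  have ha : 0 < a := hρ.trans hρa
  have hsn : Continuous (fun t : ℝ => sin (ρ * t)) :=
    continuous_sin.comp (continuous_const.mul continuous_id)
  have hC := ci_C2F (ρ := ρ) (w := fun t => sin (ρ * t)) (w1 := fun t => ρ * cos (ρ * t))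
    (w2 := fun t => ρ * -(ρ * sin (ρ * t))) (ci_dsin ρ)
    (fun t => (ci_dcos ρ t).const_mul ρ) (((hsn.const_mul _).neg).const_mul _)
  have hlim := ci_ker_lim hρ hρa (w := fun t => sin (ρ * t)) hsn (fun t => abs_sin_le_one _)
  have hlimH : Tendsto (fun R => -ρ * ∫ τ in (-R)..R, chi R τ * (exp (ρ * τ) * hI a τ)) atTop
      (𝓝 (-ρ * ∫ τ, exp (ρ * τ) * hI a τ)) := (ci_chi_lim (HI_int hρ hρa)).const_mul _
  have hconst : ∀ᶠ R in atTop, (-ρ * ∫ τ in (-R)..R, chi R τ * (exp (ρ * τ) * hI a τ)) =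
      kerPart R (π / a) (π / a) (fun τ => -kI a τ) (fun τ => -kI a τ)
      (gI a 0) (gIs a 0) (fun τ t => exp (ρ * τ) * sin (ρ * t)) := by
    filter_upwards [eventually_ge_atTop 2] with R hR
    obtain ⟨K0, hk⟩ := kerI a R ha hR
    have h1 := ker_id2 hk hC (by simp) (fun τ t => by ring) (fun τ => -hI a τ) (hI a)
      (hI_int a ha _ _)
      (fun ε hε τ hτ => by
        rw [abs_of_nonpos (gI_zero a ha hε.1 hτ)]
        exact gI_lower a ha hε.1 hτ)
      (fun τ hτ => gI_zero_lim a ha hτ)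
    rw [h1, ← intervalIntegral.integral_const_mul]
    refine intervalIntegral.integral_congr fun τ _ => ?_
    show -ρ * (chi R τ * (exp (ρ * τ) * hI a τ)) =
      chi R τ * -hI a τ * (exp (ρ * τ) * (ρ * cos (ρ * 0)))
    rw [mul_zero, cos_zero]
    ring
  have h2 := tendsto_nhds_unique (hlimH.congr' hconst) hlim
  rw [ci_int_sin hρ, KI_eq hρ hρa] at h2
  have hs := ci_sin_pos hρ hρa
  rw [eq_div_iff (by positivity)]
  have h3 : ρ * ∫ τ, exp (ρ * τ) * hI a τ =
      ρ / (2 * sin (ρ * π / a)) * ((1 - cos (ρ * π / a)) / ρ) := by linarith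
  have h4 : ρ / (2 * sin (ρ * π / a)) * ((1 - cos (ρ * π / a)) / ρ) * (2 * sin (ρ * π / a)) =
      1 - cos (ρ * π / a) := by
    field_simp
  rw [← h3] at h4
  linarith

end Pool.Agent.MML
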