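import Pool.Agent.MML.Defs

/-!
# MML, module KerIIb: sign of kernel II

Notation: `C = cosh (τ/2)`, `E = exp (-τ/2) > 0`, so `C = (E + 1/E)/2`; `q = √2/2`; `Cε = C + ε`.
(a) `log ((C + q)/(C - q)) ≤ 2 √2 E`: `(C + q)/(C - q) = (E² + √2 E + 1)/(E² - √2 E + 1)` and
`ψ(E) = 2 √2 E - log (E² + √2 E + 1) + log (E² - √2 E + 1)` has `ψ(0) = 0`,
`ψ'(E) = 2 √2 - 2 √2 (1 - E²)/(1 + E⁴) = 2 √2 E² (1 + E²)/(1 + E⁴) ≥ 0`.
(b) valley, `c = cos (t/2) ∈ [q, 1]`: `φ(c) = 4 E c + log (Cε - c) - log (Cε + c)` is concave in `c` (its second derivative is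
`-1/(Cε - c)² + 1/(Cε + c)²`), so `φ(c) ≥ min (φ q) (φ 1)`; `φ(q) ≥ 2 √2 E - log ((C + q)/(C - q)) ≥ 0` by (a)
(`Cε ≥ C`) and `φ(1) ≥ 4 E + log ((C - 1)/(C + 1)) = 4π gz τ` for `τ ≠ 0`.
(c) hump: `σ = sin (t/2 - π/4) ∈ [0, 1]`, `√2 σ = s - c`, `(Cε - c)(Cε + s) = Cε² - 1/2 + √2 Cε σ + σ²`;
`φ(σ) = log (Cε² - 1/2 + √2 Cε σ + σ²) - 2 log (Cε + q) + 2 √2 E (1 - σ)` is concave in `σ` (with `Dσ` the argument of the
logarithm, `(log Dσ)'' = (-1 - 2√2 Cε σ - 2 σ²)/Dσ²`), `φ(1) = 0`, `φ(0) = 2 √2 E - log ((Cε + q)/(Cε - q)) ≥ 0`.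
(`2 E (√2 - s + c) = 2 √2 E (1 - σ)`.)
(d) `kH ≥ 0`: `kH τ = √2/(8π) E³ (E² + 2√2 E + 3)/(E² + √2 E + 1)²`.
-/

set_option autoImplicit false

namespace Pool.Agent.MML

open Real MeasureTheory Set Filter Topology

private theorem cosh_E (τ : ℝ) :
    cosh (τ / 2) = (exp (-τ / 2) ^ 2 + 1) / (2 * exp (-τ / 2)) := by
  have h1 : exp (τ / 2) = 1 / exp (-τ / 2) := by
    rw [eq_div_iff (exp_pos _).ne', ← exp_add]
    have : τ / 2 + -τ / 2 = 0 := by ring
    rw [this, exp_zero]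
  rw [cosh_eq, h1, ← neg_div]
  have := (exp_pos (-τ / 2)).ne'
  field_simp
  ring

private theorem sqrt2_sq : √2 * √2 = 2 := mul_self_sqrt (by norm_num)

theorem kH_eq (τ : ℝ) : kH τ = √2 / (8 * π) * exp (-τ / 2) ^ 3 *
    (exp (-τ / 2) ^ 2 + 2 * √2 * exp (-τ / 2) + 3) /
    (exp (-τ / 2) ^ 2 + √2 * exp (-τ / 2) + 1) ^ 2 := by
  unfold kH q2
  rw [cosh_E]
  set E := exp (-τ / 2) with hE
  have hE0 : 0 < E := exp_pos _
  have h2 : √2 ^ 2 = 2 := by rw [sq]; exact sqrt2_sq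
  have hs : 0 < √2 := sqrt_pos.2 (by norm_num)
  have e1 : (E ^ 2 + 1) / (2 * E) + √2 / 2 = (E ^ 2 + √2 * E + 1) / (2 * E) := by
    field_simp
    ring
  have e2 : 1 + √2 / 2 * ((E ^ 2 + 1) / (2 * E)) = (√2 * E ^ 2 + 4 * E + √2) / (4 * E) := by
    field_simp
    ring
  rw [e1, e2]
  have hD : 0 < E ^ 2 + √2 * E + 1 := by positivity
  have e3 : (√2 * E ^ 2 + 4 * E + √2) / (4 * E) / ((E ^ 2 + √2 * E + 1) / (2 * E)) ^ 2 =
      E * (√2 * E ^ 2 + 4 * E + √2) / (E ^ 2 + √2 * E + 1) ^ 2 := by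
    field_simp
    ring
  rw [e3]
  have e4 : √2 * E - E * (√2 * E ^ 2 + 4 * E + √2) / (E ^ 2 + √2 * E + 1) ^ 2 =
      √2 * E ^ 3 * (E ^ 2 + 2 * √2 * E + 3) / (E ^ 2 + √2 * E + 1) ^ 2 := by
    rw [eq_div_iff (by positivity), sub_mul, div_mul_cancel₀ _ (by positivity)]
    ring_nf
    rw [h2, show √2 ^ 3 = √2 ^ 2 * √2 by ring, h2]
    ring
  rw [e4]
  field_simp

theorem kH_nonneg (τ : ℝ) : 0 ≤ kH τ := by
  rw [kH_eq]
  positivity

theorem kH_cont : Continuous kH := by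
  have h : kH = fun τ => √2 / (8 * π) * exp (-τ / 2) ^ 3 *
    (exp (-τ / 2) ^ 2 + 2 * √2 * exp (-τ / 2) + 3) /
    (exp (-τ / 2) ^ 2 + √2 * exp (-τ / 2) + 1) ^ 2 := funext kH_eq
  rw [h]
  refine Continuous.div (by fun_prop) (by fun_prop) (fun τ => ?_)
  positivity

/-- (a) -/
private theorem psi_nonneg {E : ℝ} (hE : 0 ≤ E) :
    0 ≤ 2 * √2 * E - log (E ^ 2 + √2 * E + 1) + log (E ^ 2 - √2 * E + 1) := by
  have h2 : √2 * √2 = 2 := sqrt2_sq
  have hs : 0 < √2 := sqrt_pos.2 (by norm_num)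
  have hp : ∀ x : ℝ, 0 < x ^ 2 + √2 * x + 1 := fun x => by
    nlinarith [sq_nonneg (x + √2 / 2)]
  have hm : ∀ x : ℝ, 0 < x ^ 2 - √2 * x + 1 := fun x => by
    nlinarith [sq_nonneg (x - √2 / 2)]
  have hder : ∀ x : ℝ, HasDerivAt
      (fun x => 2 * √2 * x - log (x ^ 2 + √2 * x + 1) + log (x ^ 2 - √2 * x + 1))
      (2 * √2 - (2 * x + √2) / (x ^ 2 + √2 * x + 1) + (2 * x - √2) / (x ^ 2 - √2 * x + 1)) x := by
    intro x
    have d1 : HasDerivAt (fun x : ℝ => x ^ 2 + √2 * x + 1) (2 * x + √2) x := by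
      have := ((hasDerivAt_pow 2 x).add ((hasDerivAt_id x).const_mul √2)).add_const (1 : ℝ)
      refine this.congr_deriv ?_
      simp
    have d2 : HasDerivAt (fun x : ℝ => x ^ 2 - √2 * x + 1) (2 * x - √2) x := by
      have := ((hasDerivAt_pow 2 x).sub ((hasDerivAt_id x).const_mul √2)).add_const (1 : ℝ)
      refine this.congr_deriv ?_
      simp
    have d3 : HasDerivAt (fun x : ℝ => 2 * √2 * x) (2 * √2) x := by
      refine ((hasDerivAt_id x).const_mul (2 * √2)).congr_deriv ?_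
      simp
    exact (d3.sub (d1.log (hp x).ne')).add (d2.log (hm x).ne')
  have hmono : MonotoneOn
      (fun x => 2 * √2 * x - log (x ^ 2 + √2 * x + 1) + log (x ^ 2 - √2 * x + 1)) (Ici 0) := by
    refine monotoneOn_of_deriv_nonneg (convex_Ici 0)
      (fun x _ => (hder x).continuousAt.continuousWithinAt)
      (fun x _ => (hder x).differentiableAt.differentiableWithinAt) ?_
    intro x hx
    rw [interior_Ici] at hx
    have hx0 : 0 < x := hx
    rw [(hder x).deriv]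
    have e : 2 * √2 - (2 * x + √2) / (x ^ 2 + √2 * x + 1) + (2 * x - √2) / (x ^ 2 - √2 * x + 1) =
        2 * √2 * x ^ 2 * (1 + x ^ 2) / ((x ^ 2 + √2 * x + 1) * (x ^ 2 - √2 * x + 1)) := by
      have n1 := (hp x).ne'
      have n2 := (hm x).ne'
      rw [eq_div_iff (mul_ne_zero n1 n2), add_mul, sub_mul]
      have a1 : (2 * x + √2) / (x ^ 2 + √2 * x + 1) *
          ((x ^ 2 + √2 * x + 1) * (x ^ 2 - √2 * x + 1)) = (2 * x + √2) * (x ^ 2 - √2 * x + 1) := by
        field_simp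
      have a2 : (2 * x - √2) / (x ^ 2 - √2 * x + 1) *
          ((x ^ 2 + √2 * x + 1) * (x ^ 2 - √2 * x + 1)) = (2 * x - √2) * (x ^ 2 + √2 * x + 1) := by
        rw [mul_comm (x ^ 2 + √2 * x + 1) (x ^ 2 - √2 * x + 1), ← mul_assoc, div_mul_cancel₀ _ n2]
      rw [a1, a2]
      have h3 : √2 ^ 2 = 2 := by rw [sq]; exact h2
      ring_nf
      rw [show √2 ^ 3 = √2 ^ 2 * √2 by ring, h3]
      ring
    rw [e]
    have := hp x
    have := hm x
    positivity
  have h := hmono (mem_Ici.2 le_rfl) (mem_Ici.2 hE) hE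
  simpa using h

/-- (a), in terms of `cosh` -/
private theorem log_q2_le {ε τ : ℝ} (hε : 0 ≤ ε) :
    log (cosh (τ / 2) + ε + q2) - log (cosh (τ / 2) + ε - q2) ≤ 2 * √2 * exp (-τ / 2) := by
  have h2 : √2 * √2 = 2 := sqrt2_sq
  have hs : 0 < √2 := sqrt_pos.2 (by norm_num)
  have hq0 : 0 < q2 := by unfold q2; positivity
  have hq1 : q2 < 1 := by unfold q2; nlinarith
  have hC := one_le_cosh (τ / 2)
  have hE0 : 0 < exp (-τ / 2) := exp_pos _
  have hpsi := psi_nonneg hE0.le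
  set E := exp (-τ / 2) with hE
  have hD1 : 0 < E ^ 2 + √2 * E + 1 := by positivity
  have hD2 : 0 < E ^ 2 - √2 * E + 1 := by nlinarith [sq_nonneg (E - √2 / 2)]
  have e1 : (cosh (τ / 2) + q2) / (cosh (τ / 2) - q2) =
      (E ^ 2 + √2 * E + 1) / (E ^ 2 - √2 * E + 1) := by
    rw [cosh_E, ← hE]
    unfold q2
    have a1 : (E ^ 2 + 1) / (2 * E) + √2 / 2 = (E ^ 2 + √2 * E + 1) / (2 * E) := by
      field_simp
      ring
    have a2 : (E ^ 2 + 1) / (2 * E) - √2 / 2 = (E ^ 2 - √2 * E + 1) / (2 * E) := by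
      field_simp
      ring
    rw [a1, a2]
    field_simp
  have hlog : log ((cosh (τ / 2) + ε + q2) / (cosh (τ / 2) + ε - q2)) ≤
      log ((cosh (τ / 2) + q2) / (cosh (τ / 2) - q2)) := by
    refine log_le_log (div_pos (by linarith) (by linarith)) ?_
    rw [div_le_div_iff₀ (by linarith) (by linarith)]
    nlinarith
  rw [← log_div (by linarith) (by linarith)]
  refine hlog.trans ?_
  rw [e1, log_div hD1.ne' hD2.ne']
  linarith

private theorem valley {A B : ℝ} (hA : 1 < A) {c : ℝ} (hc : c ∈ Icc q2 1) :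
    min (4 * B * q2 + log (A - q2) - log (A + q2)) (4 * B * 1 + log (A - 1) - log (A + 1)) ≤
      4 * B * c + log (A - c) - log (A + c) := by
  have hs : 0 < √2 := sqrt_pos.2 (by norm_num)
  have hq0 : 0 < q2 := by unfold q2; positivity
  have hder : ∀ x ∈ Icc (0 : ℝ) 1, HasDerivAt (fun x => 4 * B * x + log (A - x) - log (A + x))
      (4 * B - 1 / (A - x) - 1 / (A + x)) x := by
    intro x hx
    have n1 : A - x ≠ 0 := by linarith [hx.2]
    have n2 : A + x ≠ 0 := by linarith [hx.1]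
    have d1 : HasDerivAt (fun x : ℝ => A - x) (-1) x := by
      simpa using (hasDerivAt_id x).const_sub A
    have d2 : HasDerivAt (fun x : ℝ => A + x) 1 x := by
      simpa using (hasDerivAt_id x).const_add A
    have d3 : HasDerivAt (fun x : ℝ => 4 * B * x) (4 * B) x := by
      refine ((hasDerivAt_id x).const_mul (4 * B)).congr_deriv ?_
      simp
    refine ((d3.add (d1.log n1)).sub (d2.log n2)).congr_deriv ?_
    ring
  have hconc : ConcaveOn ℝ (Icc (0 : ℝ) 1) (fun x => 4 * B * x + log (A - x) - log (A + x)) := by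
    refine AntitoneOn.concaveOn_of_deriv (convex_Icc 0 1)
      (fun x hx => (hder x hx).continuousAt.continuousWithinAt)
      (fun x hx => (hder x (interior_subset hx)).differentiableAt.differentiableWithinAt) ?_
    intro x hx y hy hxy
    have hx' := interior_subset hx
    have hy' := interior_subset hy
    rw [(hder x hx').deriv, (hder y hy').deriv]
    have e : ∀ z : ℝ, z ∈ Icc (0 : ℝ) 1 → 1 / (A - z) + 1 / (A + z) = 2 * A / (A ^ 2 - z ^ 2) := by
      intro z hz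
      have n1 : A - z ≠ 0 := by linarith [hz.2]
      have n2 : A + z ≠ 0 := by linarith [hz.1]
      have n3 : A ^ 2 - z ^ 2 ≠ 0 := by
        have : A ^ 2 - z ^ 2 = (A - z) * (A + z) := by ring
        rw [this]
        exact mul_ne_zero n1 n2
      rw [div_add_div _ _ n1 n2, div_eq_div_iff (mul_ne_zero n1 n2) n3]
      ring
    have e1 := e x hx'
    have e2 := e y hy'
    have h3 : 2 * A / (A ^ 2 - x ^ 2) ≤ 2 * A / (A ^ 2 - y ^ 2) := by
      refine div_le_div_of_nonneg_left (by linarith) ?_ ?_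
      · nlinarith [hy'.1, hy'.2]
      · nlinarith [hx'.1, hy'.2]
    linarith
  exact hconc.min_le_of_mem_Icc ⟨hq0.le, hc.1.trans hc.2⟩ ⟨zero_le_one, le_rfl⟩ hc

private theorem hump {A B : ℝ} (hA : 1 < A) {c : ℝ} (hc : c ∈ Icc (0 : ℝ) 1) :
    min (log (A ^ 2 - 1 / 2 + √2 * A * 0 + 0 ^ 2) + B * (1 - 0))
      (log (A ^ 2 - 1 / 2 + √2 * A * 1 + 1 ^ 2) + B * (1 - 1)) ≤
      log (A ^ 2 - 1 / 2 + √2 * A * c + c ^ 2) + B * (1 - c) := by
  have h2 : √2 * √2 = 2 := sqrt2_sq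
  have hs : 0 < √2 := sqrt_pos.2 (by norm_num)
  have hD : ∀ x ∈ Icc (0 : ℝ) 1, 0 < A ^ 2 - 1 / 2 + √2 * A * x + x ^ 2 := by
    intro x hx
    have : 0 ≤ √2 * A * x := mul_nonneg (mul_nonneg hs.le (by linarith)) hx.1
    nlinarith [sq_nonneg x]
  have hder : ∀ x ∈ Icc (0 : ℝ) 1, HasDerivAt
      (fun x => log (A ^ 2 - 1 / 2 + √2 * A * x + x ^ 2) + B * (1 - x))
      ((√2 * A + 2 * x) / (A ^ 2 - 1 / 2 + √2 * A * x + x ^ 2) - B) x := by
    intro x hx
    have d1 : HasDerivAt (fun x : ℝ => A ^ 2 - 1 / 2 + √2 * A * x + x ^ 2) (√2 * A + 2 * x) x := by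
      have := (((hasDerivAt_id x).const_mul (√2 * A)).const_add (A ^ 2 - 1 / 2)).add
        (hasDerivAt_pow 2 x)
      refine this.congr_deriv ?_
      simp
    have d2 : HasDerivAt (fun x : ℝ => B * (1 - x)) (-B) x := by
      refine (((hasDerivAt_id x).const_sub 1).const_mul B).congr_deriv ?_
      ring
    refine ((d1.log (hD x hx).ne').add d2).congr_deriv ?_
    ring
  have hconc : ConcaveOn ℝ (Icc (0 : ℝ) 1)
      (fun x => log (A ^ 2 - 1 / 2 + √2 * A * x + x ^ 2) + B * (1 - x)) := by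
    refine AntitoneOn.concaveOn_of_deriv (convex_Icc 0 1)
      (fun x hx => (hder x hx).continuousAt.continuousWithinAt)
      (fun x hx => (hder x (interior_subset hx)).differentiableAt.differentiableWithinAt) ?_
    intro x hx y hy hxy
    have hx' := interior_subset hx
    have hy' := interior_subset hy
    rw [(hder x hx').deriv, (hder y hy').deriv]
    have h3 : (√2 * A + 2 * y) / (A ^ 2 - 1 / 2 + √2 * A * y + y ^ 2) ≤
        (√2 * A + 2 * x) / (A ^ 2 - 1 / 2 + √2 * A * x + x ^ 2) := by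
      rw [div_le_div_iff₀ (hD y hy') (hD x hx')]
      have key : (√2 * A + 2 * x) * (A ^ 2 - 1 / 2 + √2 * A * y + y ^ 2) -
          (√2 * A + 2 * y) * (A ^ 2 - 1 / 2 + √2 * A * x + x ^ 2) =
          (y - x) * (1 + √2 * A * (x + y) + 2 * x * y) := by
        have h4 : √2 ^ 2 = 2 := by rw [sq]; exact h2
        ring_nf
        rw [h4]
        ring
      have : 0 ≤ (y - x) * (1 + √2 * A * (x + y) + 2 * x * y) := by
        have a1 : 0 ≤ √2 * A * (x + y) :=
          mul_nonneg (mul_nonneg hs.le (by linarith)) (by linarith [hx'.1, hy'.1])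
        have a2 : 0 ≤ x * y := mul_nonneg hx'.1 hy'.1
        exact mul_nonneg (by linarith) (by linarith)
      linarith
    linarith
  exact hconc.min_le_of_mem_Icc ⟨le_rfl, zero_le_one⟩ ⟨zero_le_one, le_rfl⟩ hc

/-- lower bound of kernel II -/
theorem gII_lower {ε τ t : ℝ} (hε : 0 < ε) (hτ : τ ≠ 0) (ht : t ∈ Icc 0 (3 * π / 2)) :
    -(gII ε τ t) ≤ mz τ := by
  have h2 : √2 * √2 = 2 := sqrt2_sq
  have hs : 0 < √2 := sqrt_pos.2 (by norm_num)
  have hq0 : 0 < q2 := by unfold q2; positivity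
  have hq1 : q2 < 1 := by unfold q2; nlinarith
  have hC := one_le_cosh (τ / 2)
  have hE0 : 0 < exp (-τ / 2) := exp_pos _
  have hpi := pi_pos
  have hA : 1 < cosh (τ / 2) + ε := by linarith
  have ha := log_q2_le (ε := ε) (τ := τ) hε.le
  unfold gII
  split_ifs with h
  · -- valley
    have hc1 : cos (t / 2) ≤ 1 := cos_le_one _
    have hc2 : q2 ≤ cos (t / 2) := by
      have h4 : q2 = cos (π / 4) := by
        unfold q2
        rw [cos_pi_div_four]
      rw [h4]
      exact cos_le_cos_of_nonneg_of_le_pi (by linarith [ht.1]) (by linarith) (by linarith)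
    have hv := valley (A := cosh (τ / 2) + ε) (B := exp (-τ / 2)) hA ⟨hc2, hc1⟩
    have hC1 : 1 < cosh (τ / 2) := one_lt_cosh.2 (by
      intro h0
      apply hτ
      linarith)
    have e1 : 0 ≤ 4 * exp (-τ / 2) * q2 + log (cosh (τ / 2) + ε - q2) -
        log (cosh (τ / 2) + ε + q2) := by
      have : 4 * exp (-τ / 2) * q2 = 2 * √2 * exp (-τ / 2) := by
        unfold q2
        ring
      linarith
    have e2 : 4 * exp (-τ / 2) + log ((cosh (τ / 2) - 1) / (cosh (τ / 2) + 1)) ≤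
        4 * exp (-τ / 2) * 1 + log (cosh (τ / 2) + ε - 1) - log (cosh (τ / 2) + ε + 1) := by
      have : log ((cosh (τ / 2) - 1) / (cosh (τ / 2) + 1)) ≤
          log ((cosh (τ / 2) + ε - 1) / (cosh (τ / 2) + ε + 1)) := by
        refine log_le_log (div_pos (by linarith) (by linarith)) ?_
        rw [div_le_div_iff₀ (by linarith) (by linarith)]
        nlinarith
      rw [log_div (x := cosh (τ / 2) + ε - 1) (by linarith) (by linarith)] at this
      linarith
    have e3 : gV ε τ t = (4 * π)⁻¹ * (4 * exp (-τ / 2) * cos (t / 2) +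
        log (cosh (τ / 2) + ε - cos (t / 2)) - log (cosh (τ / 2) + ε + cos (t / 2))) := by
      unfold gV
      rw [show cosh (τ / 2) - cos (t / 2) + ε = cosh (τ / 2) + ε - cos (t / 2) by ring,
        show cosh (τ / 2) + cos (t / 2) + ε = cosh (τ / 2) + ε + cos (t / 2) by ring]
    unfold mz gz
    rw [e3]
    have hp : 0 < (4 * π)⁻¹ := by positivity
    rcases min_le_iff.1 hv with h5 | h5
    · refine le_max_of_le_left ?_
      have := mul_nonneg hp.le (e1.trans h5)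
      linarith
    · refine le_max_of_le_right ?_
      have := mul_le_mul_of_nonneg_left (e2.trans h5) hp.le
      linarith
  · -- hump
    push Not at h
    refine le_max_of_le_left ?_
    have hσ0 : 0 ≤ sin (t / 2 - π / 4) := sin_nonneg_of_nonneg_of_le_pi (by linarith)
      (by linarith [ht.2])
    have hσ1 : sin (t / 2 - π / 4) ≤ 1 := sin_le_one _
    have hσ : sin (t / 2) - cos (t / 2) = √2 * sin (t / 2 - π / 4) := by
      rw [sin_sub, cos_pi_div_four, sin_pi_div_four]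
      have : √2 * (sin (t / 2) * (√2 / 2) - cos (t / 2) * (√2 / 2)) =
        (√2 * √2) / 2 * (sin (t / 2) - cos (t / 2)) := by ring
      rw [this, h2]
      ring
    have hh := hump (A := cosh (τ / 2) + ε) (B := 2 * √2 * exp (-τ / 2)) hA ⟨hσ0, hσ1⟩
    set A := cosh (τ / 2) + ε with hAdef
    set σ := sin (t / 2 - π / 4) with hσdef
    set s := sin (t / 2) with hsdef
    set c := cos (t / 2) with hcdef
    have hsc : s ^ 2 + c ^ 2 = 1 := sin_sq_add_cos_sq _
    have hc1 : c ≤ 1 := cos_le_one _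
    have hs1 : -1 ≤ s := neg_one_le_sin _
    have hprod : (A - c) * (A + s) = A ^ 2 - 1 / 2 + √2 * A * σ + σ ^ 2 := by
      have h6 : (s - c) ^ 2 = 2 * σ ^ 2 := by
        rw [hσ]
        calc (√2 * σ) ^ 2 = (√2 * √2) * σ ^ 2 := by ring
          _ = 2 * σ ^ 2 := by rw [h2]
      have h7 : √2 * A * σ = A * (s - c) := by
        rw [hσ]
        ring
      rw [h7]
      nlinarith
    have n1 : 0 < A - c := by linarith
    have n2 : 0 < A + s := by linarith
    have n3 : 0 < A + q2 := by linarith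
    have n4 : 0 < A - q2 := by linarith
    have e1 : log (A ^ 2 - 1 / 2 + √2 * A * 1 + 1 ^ 2) = 2 * log (A + q2) := by
      have : A ^ 2 - 1 / 2 + √2 * A * 1 + 1 ^ 2 = (A + q2) ^ 2 := by
        unfold q2
        nlinarith
      rw [this, log_pow]
      norm_num
    have e2 : log (A ^ 2 - 1 / 2 + √2 * A * 0 + 0 ^ 2) = log (A - q2) + log (A + q2) := by
      rw [← log_mul n4.ne' n3.ne']
      congr 1
      unfold q2
      nlinarith
    have e3 : gH ε τ t = (4 * π)⁻¹ * (log (A ^ 2 - 1 / 2 + √2 * A * σ + σ ^ 2) +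
        2 * √2 * exp (-τ / 2) * (1 - σ) - 2 * log (A + q2)) := by
      unfold gH
      rw [← hprod, log_mul n1.ne' n2.ne', hAdef]
      rw [show cosh (τ / 2) - cos (t / 2) + ε = cosh (τ / 2) + ε - c by rw [hcdef]; ring,
        show cosh (τ / 2) + sin (t / 2) + ε = cosh (τ / 2) + ε + s by rw [hsdef]; ring,
        show cosh (τ / 2) + q2 + ε = cosh (τ / 2) + ε + q2 by ring,
        show √2 - sin (t / 2) + cos (t / 2) = √2 * (1 - σ) by
          rw [mul_sub, ← hσ]
          ring]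
      ring
    rw [e3]
    have hp : 0 < (4 * π)⁻¹ := by positivity
    have hfin : 0 ≤ log (A ^ 2 - 1 / 2 + √2 * A * σ + σ ^ 2) +
        2 * √2 * exp (-τ / 2) * (1 - σ) - 2 * log (A + q2) := by
      rw [e1, e2] at hh
      rcases min_le_iff.1 hh with h5 | h5
      · linarith
      · linarith
    have := mul_nonneg hp.le hfin
    linarith

private theorem gz_eq (τ : ℝ) : gz τ = (4 * π)⁻¹ * (4 * exp (-τ / 2) +
    (2 * log ‖sinh (τ / 4)‖ - 2 * log (cosh (τ / 4)))) := by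
  unfold gz
  congr 2
  have h1 : cosh (τ / 2) - 1 = 2 * sinh (τ / 4) ^ 2 := by
    have := cosh_two_mul (τ / 4)
    have h3 := cosh_sq (τ / 4)
    rw [show 2 * (τ / 4) = τ / 2 by ring] at this
    rw [this, h3]
    ring
  have h2 : cosh (τ / 2) + 1 = 2 * cosh (τ / 4) ^ 2 := by
    have := cosh_two_mul (τ / 4)
    have h3 := cosh_sq (τ / 4)
    rw [show 2 * (τ / 4) = τ / 2 by ring] at this
    rw [this, h3]
    ring
  rw [h1, h2]
  have hc : 0 < cosh (τ / 4) := cosh_pos _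
  by_cases h0 : sinh (τ / 4) = 0
  · have hτ : τ / 4 = 0 := by simpa using h0
    rw [hτ]
    simp
  · rw [mul_div_mul_left _ _ two_ne_zero, log_div (pow_ne_zero 2 h0) (pow_ne_zero 2 hc.ne'),
      log_pow, log_pow, norm_eq_abs, log_abs]
    norm_num

/-- `mz` has a logarithmic singularity at `0` only -/
theorem mz_int (x y : ℝ) : IntervalIntegrable mz volume x y := by
  have h1 : IntervalIntegrable (fun τ => log ‖sinh (τ / 4)‖) volume x y := by
    refine MeromorphicOn.intervalIntegrable_log_norm ?_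
    intro z _
    refine AnalyticAt.meromorphicAt ?_
    have h0 : AnalyticAt ℝ sinh (z / 4) := analyticAt_sinh
    have h1 : AnalyticAt ℝ (fun τ : ℝ => τ / 4) z :=
      AnalyticAt.fun_div analyticAt_id analyticAt_const (by norm_num)
    exact AnalyticAt.fun_comp (f := fun τ : ℝ => τ / 4) h0 h1
  have h2 : IntervalIntegrable gz volume x y := by
    have : gz = fun τ => (4 * π)⁻¹ * (4 * exp (-τ / 2) +
      (2 * log ‖sinh (τ / 4)‖ - 2 * log (cosh (τ / 4)))) := funext gz_eq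
    rw [this]
    refine IntervalIntegrable.const_mul ?_ _
    refine IntervalIntegrable.add (Continuous.intervalIntegrable (by fun_prop) _ _) ?_
    refine (h1.const_mul 2).sub (Continuous.intervalIntegrable ?_ _ _)
    refine continuous_const.mul (Continuous.log (by fun_prop) fun τ => (cosh_pos _).ne')
  have h3 := h2.neg
  have h4 : mz = fun τ => (fun _ => (0 : ℝ)) τ ⊔ (-gz) τ := rfl
  constructor
  · have := (integrable_zero ℝ ℝ (volume.restrict (Ioc x y))).sup h3.1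
    exact this
  · have := (integrable_zero ℝ ℝ (volume.restrict (Ioc y x))).sup h3.2
    exact this

end Pool.Agent.MML
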