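import Pool.Agent.MML.KerLim
import Pool.Agent.MML.KerIIb
import Pool.Agent.MML.KerIIc

/-!
# MML, module ConstII: the integral of the hump density of kernel II

`1/2 < ρ < 1`.  `kH τ ≤ C min (exp (-3τ/2), exp (-τ/2))` (`kH_eq`), so `exp (ρτ) kH` is integrable on `ℝ`.
`ker_id` for `kerII R` with `W s t = exp (ρ s) cos (ρ t)`:
`1/2 = -(∫_{-R}^R chi R kH exp (ρτ) dτ) (∫_{π/2}^{3π/2} cos (ρ t) dt) - Err R`,
`|Err R| ≤ (K'/(R-1)) ∫ exp (ρτ) dec τ dτ → 0` (`gII_decay`, `chi1_bd`, `chi2_bd`, both vanish for `|τ| ≤ 1`;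
`∫ exp (ρτ) dec τ = 1/(1-ρ) + 1/(ρ-1/2)`), and `∫_{π/2}^{3π/2} cos (ρ t) dt = (sin (3πρ/2) - sin (πρ/2))/ρ = 2 cos (πρ) sin (πρ/2)/ρ`.
For `ρ = 8/9`: `-4 cos (8π/9) sin (4π/9) = 4 cos (π/9) cos (π/18) = 2 (cos (π/6) + cos (π/18))`, so the value is
`(8/9)/(√3 + 2 cos (π/18)) ≤ (8/9) * 0.2702` (`cos x ≥ 1 - x²/2`).
-/

set_option autoImplicit false

namespace Pool.Agent.MML

open Real MeasureTheory Set Filter Topology

namespace ConstIIAux

theorem dec_nonneg (τ : ℝ) : 0 ≤ dec τ := le_min (exp_pos _).le (exp_pos _).le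

theorem kH_dec (τ : ℝ) : kH τ ≤ √2 / (8 * π) * 3 * dec τ := by
  rw [kH_eq]
  unfold dec
  set E : ℝ := exp (-τ / 2) with hE
  have hE0 : 0 < E := exp_pos _
  have hE2 : exp (-τ) = E ^ 2 := by
    rw [hE, ← exp_nat_mul]; congr 1; push_cast; ring
  rw [hE2]
  have h2 : 0 < √2 := by positivity
  have h22 : √2 * √2 = 2 := Real.mul_self_sqrt (by norm_num)
  have hQ : 0 < E ^ 2 + √2 * E + 1 := by positivity
  have hc : 0 < √2 / (8 * π) := by have := pi_pos; positivity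
  have a1 : E ^ 3 * (E ^ 2 + 2 * √2 * E + 3) ≤ 3 * E ^ 2 * (E ^ 2 + √2 * E + 1) ^ 2 := by
    have : 3 * E ^ 2 * (E ^ 2 + √2 * E + 1) ^ 2 - E ^ 3 * (E ^ 2 + 2 * √2 * E + 3) =
        E ^ 2 * (3 * E ^ 4 + (6 * √2 - 1) * E ^ 3 + (6 + 3 * (√2 * √2) - 2 * √2) * E ^ 2
          + (6 * √2 - 3) * E + 3) := by ring
    have s1 : 1 ≤ √2 := by
      rw [Real.one_le_sqrt]; norm_num
    have s2 : √2 ≤ 2 := by nlinarith
    have : 0 ≤ E ^ 2 * (3 * E ^ 4 + (6 * √2 - 1) * E ^ 3 + (6 + 3 * (√2 * √2) - 2 * √2) * E ^ 2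
          + (6 * √2 - 3) * E + 3) := by
      rw [h22]
      have t1 : 0 ≤ 6 * √2 - 1 := by linarith
      have t2 : 0 ≤ 6 + 3 * 2 - 2 * √2 := by linarith
      have t3 : 0 ≤ 6 * √2 - 3 := by linarith
      positivity
    linarith
  have a2 : E ^ 3 * (E ^ 2 + 2 * √2 * E + 3) ≤ 3 * E * (E ^ 2 + √2 * E + 1) ^ 2 := by
    have : 3 * E * (E ^ 2 + √2 * E + 1) ^ 2 - E ^ 3 * (E ^ 2 + 2 * √2 * E + 3) =
        E * (2 * E ^ 4 + 4 * √2 * E ^ 3 + (3 + 3 * (√2 * √2)) * E ^ 2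
          + 6 * √2 * E + 3) := by ring
    have : 0 ≤ E * (2 * E ^ 4 + 4 * √2 * E ^ 3 + (3 + 3 * (√2 * √2)) * E ^ 2
          + 6 * √2 * E + 3) := by positivity
    linarith
  have b : √2 / (8 * π) * E ^ 3 * (E ^ 2 + 2 * √2 * E + 3) / (E ^ 2 + √2 * E + 1) ^ 2 =
      √2 / (8 * π) * (E ^ 3 * (E ^ 2 + 2 * √2 * E + 3) / (E ^ 2 + √2 * E + 1) ^ 2) := by ring
  rw [b, mul_assoc (√2 / (8 * π)) 3]
  apply mul_le_mul_of_nonneg_left _ hc.le
  rw [div_le_iff₀ (by positivity)]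
  rcases min_cases (E ^ 2) E with ⟨h, _⟩ | ⟨h, _⟩
  · rw [h]; linarith
  · rw [h]; linarith

end ConstIIAux

theorem dec_int {ρ : ℝ} (h1 : 1 / 2 < ρ) (h2 : ρ < 1) :
    Integrable (fun τ => exp (ρ * τ) * dec τ) := by
  have e0 : ∀ τ, 0 ≤ exp (ρ * τ) * dec τ := fun τ => mul_nonneg (exp_pos _).le (ConstIIAux.dec_nonneg τ)
  have hm : Continuous (fun τ => exp (ρ * τ) * dec τ) := by
    unfold dec
    fun_prop
  rw [← integrableOn_univ, ← Set.Iic_union_Ioi (a := (0 : ℝ))]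
  refine IntegrableOn.union ?_ ?_
  · have h : IntegrableOn (fun τ : ℝ => exp ((ρ - 1 / 2) * τ)) (Iic 0) :=
      integrableOn_exp_mul_Iic (by linarith) 0
    refine h.mono' hm.aestronglyMeasurable (ae_of_all _ fun τ => ?_)
    rw [Real.norm_of_nonneg (e0 τ)]
    calc exp (ρ * τ) * dec τ ≤ exp (ρ * τ) * exp (-τ / 2) :=
          mul_le_mul_of_nonneg_left (min_le_right _ _) (exp_pos _).le
      _ = exp ((ρ - 1 / 2) * τ) := by rw [← exp_add]; ring_nf
  · have h : IntegrableOn (fun τ : ℝ => exp ((ρ - 1) * τ)) (Ioi 0) :=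
      integrableOn_exp_mul_Ioi (by linarith) 0
    refine h.mono' hm.aestronglyMeasurable (ae_of_all _ fun τ => ?_)
    rw [Real.norm_of_nonneg (e0 τ)]
    calc exp (ρ * τ) * dec τ ≤ exp (ρ * τ) * exp (-τ) :=
          mul_le_mul_of_nonneg_left (min_le_left _ _) (exp_pos _).le
      _ = exp ((ρ - 1) * τ) := by rw [← exp_add]; ring_nf

theorem KH_int {ρ : ℝ} (h1 : 1 / 2 < ρ) (h2 : ρ < 1) :
    Integrable (fun τ => exp (ρ * τ) * kH τ) := by
  have hm : Continuous (fun τ => exp (ρ * τ) * kH τ) := by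
    have := kH_cont
    fun_prop
  refine ((dec_int h1 h2).const_mul (√2 / (8 * π) * 3)).mono' hm.aestronglyMeasurable
    (ae_of_all _ fun τ => ?_)
  rw [Real.norm_of_nonneg (mul_nonneg (exp_pos _).le (kH_nonneg τ))]
  calc exp (ρ * τ) * kH τ ≤ exp (ρ * τ) * (√2 / (8 * π) * 3 * dec τ) :=
        mul_le_mul_of_nonneg_left (ConstIIAux.kH_dec τ) (exp_pos _).le
    _ = √2 / (8 * π) * 3 * (exp (ρ * τ) * dec τ) := by ring

namespace ConstIIAux

/-- the harmonic function -/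
theorem c2f (ρ : ℝ) : C2F (fun s t => exp (ρ * s) * cos (ρ * t))
    (fun s t => ρ * exp (ρ * s) * cos (ρ * t)) (fun s t => ρ ^ 2 * exp (ρ * s) * cos (ρ * t))
    (fun s t => -(ρ * exp (ρ * s) * sin (ρ * t)))
    (fun s t => -(ρ ^ 2 * exp (ρ * s) * cos (ρ * t))) where
  ds s t := by
    have h : HasDerivAt (fun x : ℝ => ρ * x) ρ s := by
      simpa using (hasDerivAt_id s).const_mul ρ
    have := (h.exp).mul_const (cos (ρ * t))
    exact this.congr_deriv (by ring)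
  dss s t := by
    have h : HasDerivAt (fun x : ℝ => ρ * x) ρ s := by
      simpa using (hasDerivAt_id s).const_mul ρ
    have := ((h.exp).const_mul ρ).mul_const (cos (ρ * t))
    exact this.congr_deriv (by ring)
  dt s t := by
    have h : HasDerivAt (fun x : ℝ => ρ * x) ρ t := by
      simpa using (hasDerivAt_id t).const_mul ρ
    have := (h.cos).const_mul (exp (ρ * s))
    exact this.congr_deriv (by ring)
  dtt s t := by
    have h : HasDerivAt (fun x : ℝ => ρ * x) ρ t := by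
      simpa using (hasDerivAt_id t).const_mul ρ
    have := ((h.sin).const_mul (ρ * exp (ρ * s))).neg
    exact this.congr_deriv (by ring)
  c0 := by fun_prop
  cs := by fun_prop
  css := by fun_prop
  ct := by fun_prop
  ctt := by fun_prop

theorem int_cos {ρ : ℝ} (hρ : 0 < ρ) (τ : ℝ) :
    ∫ t in (π / 2)..(3 * π / 2), exp (ρ * τ) * cos (ρ * t) =
      exp (ρ * τ) * (2 * cos (π * ρ) * sin (π * ρ / 2) / ρ) := by
  rw [intervalIntegral.integral_const_mul]
  congr 1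
  rw [intervalIntegral.integral_comp_mul_left (fun x => cos x) hρ.ne', integral_cos,
    sin_sub_sin]
  rw [show (ρ * (3 * π / 2) - ρ * (π / 2)) / 2 = π * ρ / 2 by ring,
    show (ρ * (3 * π / 2) + ρ * (π / 2)) / 2 = π * ρ by ring, smul_eq_mul]
  field_simp

theorem lim_F {ρ : ℝ} (h1 : 1 / 2 < ρ) (h2 : ρ < 1) :
    Tendsto (fun R : ℝ => ∫ τ in (-R)..R, chi R τ * (exp (ρ * τ) * kH τ)) atTop
      (𝓝 (∫ τ, exp (ρ * τ) * kH τ)) := by
  have hint := KH_int h1 h2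
  have hcont : Continuous (fun τ => exp (ρ * τ) * kH τ) := by
    have := kH_cont
    fun_prop
  have hnn : ∀ τ, 0 ≤ exp (ρ * τ) * kH τ := fun τ => mul_nonneg (exp_pos _).le (kH_nonneg τ)
  have e : ∀ᶠ R : ℝ in atTop,
      ∫ τ, (Ioc (-R) R).indicator (fun τ => chi R τ * (exp (ρ * τ) * kH τ)) τ =
        ∫ τ in (-R)..R, chi R τ * (exp (ρ * τ) * kH τ) := by
    filter_upwards [eventually_ge_atTop (0 : ℝ)] with R hR
    rw [intervalIntegral.integral_of_le (by linarith), integral_indicator measurableSet_Ioc]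
  refine Tendsto.congr' e ?_
  refine tendsto_integral_filter_of_dominated_convergence (fun τ => exp (ρ * τ) * kH τ) ?_ ?_
    hint ?_
  · filter_upwards [eventually_ge_atTop (2 : ℝ)] with R hR
    exact (((chi_cont hR).1.mul hcont).aestronglyMeasurable).indicator measurableSet_Ioc
  · filter_upwards [eventually_ge_atTop (2 : ℝ)] with R hR
    refine ae_of_all _ fun τ => ?_
    by_cases h : τ ∈ Ioc (-R) R
    · rw [indicator_of_mem h, norm_mul, Real.norm_of_nonneg (hnn τ)]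
      have hm := chi_mem hR (τ := τ) (abs_le.2 ⟨h.1.le, h.2⟩)
      rw [Real.norm_of_nonneg hm.1]
      exact mul_le_of_le_one_left (hnn τ) hm.2
    · rw [indicator_of_notMem h, norm_zero]
      exact hnn τ
  · refine ae_of_all _ fun τ => ?_
    have : Tendsto (fun R => chi R τ * (exp (ρ * τ) * kH τ)) atTop
        (𝓝 (1 * (exp (ρ * τ) * kH τ))) := (chi_tendsto τ).mul_const _
    rw [one_mul] at this
    refine this.congr' ?_
    filter_upwards [eventually_gt_atTop |τ|] with R hR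
    rw [indicator_of_mem]
    have := abs_lt.1 hR
    exact ⟨this.1, this.2.le⟩

theorem err {ρ K R τ : ℝ} (hK : 0 ≤ K)
    (hdec : ∀ τ, 1 ≤ |τ| → ∀ t ∈ Icc (0 : ℝ) (3 * π / 2),
      |gII 0 τ t| ≤ K * dec τ ∧ |gIIs 0 τ t| ≤ K * dec τ) (hR : 2 ≤ R) (hτ : |τ| ≤ R) :
    ‖∫ t in (0 : ℝ)..(3 * π / 2), (2 * chi1 R τ * gIIs 0 τ t + chi2 R τ * gII 0 τ t)
      * (exp (ρ * τ) * cos (ρ * t))‖ ≤ (3 * π / 2 * (42 * K)) / (R - 1) * (exp (ρ * τ) * dec τ) := by
  have hR1 : 0 < R - 1 := by linarith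
  have hd := dec_nonneg τ
  have he := (exp_pos (ρ * τ)).le
  have hpi := pi_pos
  have hb : ∀ t ∈ Set.uIoc (0 : ℝ) (3 * π / 2),
      ‖(2 * chi1 R τ * gIIs 0 τ t + chi2 R τ * gII 0 τ t) * (exp (ρ * τ) * cos (ρ * t))‖ ≤
        42 * K / (R - 1) * (exp (ρ * τ) * dec τ) := by
    intro t ht
    rw [uIoc_of_le (by positivity)] at ht
    have ht' : t ∈ Icc (0 : ℝ) (3 * π / 2) := ⟨ht.1.le, ht.2⟩
    have hcos := abs_cos_le_one (ρ * t)
    rw [norm_mul, norm_mul, Real.norm_eq_abs, Real.norm_eq_abs, Real.norm_eq_abs, abs_exp]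
    have hmain : |2 * chi1 R τ * gIIs 0 τ t + chi2 R τ * gII 0 τ t| ≤
        42 * K / (R - 1) * dec τ := by
      by_cases h : |τ| ≤ 1
      · obtain ⟨_, a, b⟩ := chi_one hR h
        rw [a, b]
        simp only [mul_zero, zero_mul, add_zero, abs_zero]
        positivity
      · push Not at h
        obtain ⟨g1, g2⟩ := hdec τ h.le t ht'
        have c1 := chi1_bd hR hτ
        have c2 := chi2_bd hR hτ
        calc |2 * chi1 R τ * gIIs 0 τ t + chi2 R τ * gII 0 τ t|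
            ≤ |2 * chi1 R τ * gIIs 0 τ t| + |chi2 R τ * gII 0 τ t| := abs_add_le _ _
          _ = 2 * (|chi1 R τ| * |gIIs 0 τ t|) + |chi2 R τ| * |gII 0 τ t| := by
              rw [abs_mul, abs_mul, abs_mul, abs_two]; ring
          _ ≤ 2 * (6 / (R - 1) * (K * dec τ)) + 30 / (R - 1) * (K * dec τ) := by
              have m1 := mul_le_mul c1 g2 (abs_nonneg _) (by positivity)
              have m2 := mul_le_mul c2 g1 (abs_nonneg _) (by positivity)
              linarith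
          _ = 42 * K / (R - 1) * dec τ := by ring
    calc |2 * chi1 R τ * gIIs 0 τ t + chi2 R τ * gII 0 τ t| * (exp (ρ * τ) * |cos (ρ * t)|)
        ≤ 42 * K / (R - 1) * dec τ * (exp (ρ * τ) * 1) := by
          apply mul_le_mul hmain _ (by positivity) (by positivity)
          exact mul_le_mul_of_nonneg_left hcos he
      _ = 42 * K / (R - 1) * (exp (ρ * τ) * dec τ) := by ring
  have := intervalIntegral.norm_integral_le_of_norm_le_const hb
  refine this.trans (le_of_eq ?_)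
  rw [sub_zero, abs_of_nonneg (by positivity)]
  ring

theorem key {ρ K R : ℝ} (h1 : 1 / 2 < ρ) (h2 : ρ < 1) (hK : 0 ≤ K)
    (hdec : ∀ τ, 1 ≤ |τ| → ∀ t ∈ Icc (0 : ℝ) (3 * π / 2),
      |gII 0 τ t| ≤ K * dec τ ∧ |gIIs 0 τ t| ≤ K * dec τ) (hR : 2 ≤ R) :
    |(2 * cos (π * ρ) * sin (π * ρ / 2) / ρ) *
      (∫ τ in (-R)..R, chi R τ * (exp (ρ * τ) * kH τ)) + 1 / 2| ≤
        (3 * π / 2 * (42 * K)) * (∫ τ, exp (ρ * τ) * dec τ) / (R - 1) := by
  have hρ : 0 < ρ := by linarith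
  have hR1 : 0 < R - 1 := by linarith
  have hpi := pi_pos
  obtain ⟨K0, hk⟩ := kerII R hR
  have hid := ker_id hk (c2f ρ) (by intro τ; simp) (by intro τ t; ring)
  simp only [mul_zero, exp_zero, cos_zero, mul_one] at hid
  unfold kerPart at hid
  set c : ℝ := 2 * cos (π * ρ) * sin (π * ρ / 2) / ρ with hc
  set A : ℝ → ℝ := fun τ => c * (chi R τ * (exp (ρ * τ) * kH τ)) with hA
  set B : ℝ → ℝ := fun τ => ∫ t in (0 : ℝ)..(3 * π / 2),
    (2 * chi1 R τ * gIIs 0 τ t + chi2 R τ * gII 0 τ t) * (exp (ρ * τ) * cos (ρ * t)) with hB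
  have hAB : (fun τ => (chi R τ * (0 * (∫ t in (0 : ℝ)..(π / 2), exp (ρ * τ) * cos (ρ * t))
      + kH τ * ∫ t in (π / 2)..(3 * π / 2), exp (ρ * τ) * cos (ρ * t))
    + ∫ t in (0 : ℝ)..(3 * π / 2), (2 * chi1 R τ * gIIs 0 τ t + chi2 R τ * gII 0 τ t)
      * (exp (ρ * τ) * cos (ρ * t)))) = fun τ => A τ + B τ := by
    funext τ
    rw [int_cos hρ τ]
    simp only [hA, hB, hc]
    ring
  have hid' : 1 / 2 = -∫ τ in (-R)..R, (A τ + B τ) := by
    rw [← hAB]; exact hid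
  have hcont : Continuous (fun τ => exp (ρ * τ) * kH τ) := by
    have := kH_cont
    fun_prop
  have hAi : IntervalIntegrable A volume (-R) R := by
    apply Continuous.intervalIntegrable
    exact continuous_const.mul ((chi_cont hR).1.mul hcont)
  have hABi : IntervalIntegrable (fun τ => A τ + B τ) volume (-R) R := by
    by_contra hno
    rw [intervalIntegral.integral_undef hno] at hid'
    norm_num at hid'
  have hBi : IntervalIntegrable B volume (-R) R := by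
    have := hABi.sub hAi
    refine this.congr ?_
    intro τ _
    simp
  rw [intervalIntegral.integral_add hAi hBi] at hid'
  have hAe : ∫ τ in (-R)..R, A τ = c * ∫ τ in (-R)..R, chi R τ * (exp (ρ * τ) * kH τ) := by
    simp only [hA]
    rw [intervalIntegral.integral_const_mul]
  have e : c * (∫ τ in (-R)..R, chi R τ * (exp (ρ * τ) * kH τ)) + 1 / 2 = -∫ τ in (-R)..R, B τ := by
    rw [← hAe]; linarith
  rw [e, abs_neg, ← Real.norm_eq_abs]
  have hdi := dec_int h1 h2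
  have hb : ∀ᵐ τ : ℝ, τ ∈ Ioc (-R) R →
      ‖B τ‖ ≤ (3 * π / 2 * (42 * K)) / (R - 1) * (exp (ρ * τ) * dec τ) := by
    refine ae_of_all _ fun τ hτ => ?_
    exact err hK hdec hR (abs_le.2 ⟨hτ.1.le, hτ.2⟩)
  have hgi : IntervalIntegrable (fun τ => (3 * π / 2 * (42 * K)) / (R - 1) * (exp (ρ * τ) * dec τ))
      volume (-R) R := (hdi.const_mul _).intervalIntegrable
  have h3 := intervalIntegral.norm_integral_le_of_norm_le (by linarith) hb hgi
  refine h3.trans ?_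
  rw [intervalIntegral.integral_const_mul, intervalIntegral.integral_of_le (by linarith)]
  have h4 : ∫ τ in Ioc (-R) R, exp (ρ * τ) * dec τ ≤ ∫ τ, exp (ρ * τ) * dec τ := by
    apply setIntegral_le_integral hdi
    exact ae_of_all _ fun τ => mul_nonneg (exp_pos _).le (dec_nonneg τ)
  have h5 := mul_le_mul_of_nonneg_left h4
    (show 0 ≤ (3 * π / 2 * (42 * K)) / (R - 1) by positivity)
  refine h5.trans (le_of_eq ?_)
  ring

end ConstIIAux

theorem KH_eq {ρ : ℝ} (h1 : 1 / 2 < ρ) (h2 : ρ < 1) :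
    ∫ τ, exp (ρ * τ) * kH τ = ρ / (-4 * cos (π * ρ) * sin (π * ρ / 2)) := by
  set c : ℝ := 2 * cos (π * ρ) * sin (π * ρ / 2) / ρ with hc
  have hρ : 0 < ρ := by linarith
  have hcos : cos (π * ρ) < 0 := by
    apply cos_neg_of_pi_div_two_lt_of_lt
    · nlinarith [pi_pos]
    · nlinarith [pi_pos]
  have hsin : 0 < sin (π * ρ / 2) := by
    apply sin_pos_of_pos_of_lt_pi
    · have := pi_pos; positivity
    · nlinarith [pi_pos]
  obtain ⟨K, hK, hdec⟩ := gII_decay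
  set J : ℝ := ∫ τ, exp (ρ * τ) * dec τ with hJ
  have key : ∀ R : ℝ, 2 ≤ R →
      |c * (∫ τ in (-R)..R, chi R τ * (exp (ρ * τ) * kH τ)) + 1 / 2| ≤
        (3 * π / 2 * (42 * K)) * J / (R - 1) := fun R hR =>
    ConstIIAux.key h1 h2 hK hdec hR
  have l1 := ConstIIAux.lim_F h1 h2
  have l2 : Tendsto (fun R : ℝ => c * (∫ τ in (-R)..R, chi R τ * (exp (ρ * τ) * kH τ)) + 1 / 2)
      atTop (𝓝 (c * (∫ τ, exp (ρ * τ) * kH τ) + 1 / 2)) := (l1.const_mul c).add_const _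
  have l3 : Tendsto (fun R : ℝ => (3 * π / 2 * (42 * K)) * J / (R - 1)) atTop (𝓝 0) := by
    apply Tendsto.div_atTop tendsto_const_nhds
    exact tendsto_atTop_add_const_right _ _ tendsto_id
  have l4 : Tendsto (fun R : ℝ => c * (∫ τ in (-R)..R, chi R τ * (exp (ρ * τ) * kH τ)) + 1 / 2)
      atTop (𝓝 0) := by
    apply squeeze_zero_norm' _ l3
    filter_upwards [eventually_ge_atTop 2] with R hR
    rw [Real.norm_eq_abs]
    exact key R hR
  have h0 := tendsto_nhds_unique l2 l4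
  set I : ℝ := ∫ τ, exp (ρ * τ) * kH τ with hI
  have h5 : 2 * cos (π * ρ) * sin (π * ρ / 2) * I = - (ρ / 2) := by
    have : c * I = - (1 / 2) := by linarith
    rw [hc] at this
    field_simp at this ⊢
    linarith
  have hne : (-4 * cos (π * ρ) * sin (π * ρ / 2)) ≠ 0 :=
    mul_ne_zero (mul_ne_zero (by norm_num) hcos.ne) hsin.ne'
  rw [eq_div_iff hne]
  linarith

theorem KH_le : ∫ τ, exp ((8 / 9 : ℝ) * τ) * kH τ ≤ 8 / 9 * 0.2702 := by
  rw [KH_eq (by norm_num) (by norm_num)]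
  have e1 : cos (π * (8 / 9)) = - cos (π / 9) := by
    rw [show π * (8 / 9) = π - π / 9 by ring, cos_pi_sub]
  have e2 : sin (π * (8 / 9) / 2) = cos (π / 18) := by
    rw [show π * (8 / 9) / 2 = π / 2 - π / 18 by ring, sin_pi_div_two_sub]
  have e3 : 2 * (cos (π / 9) * cos (π / 18)) = cos (π / 6) + cos (π / 18) := by
    have h1 := cos_add (π / 9) (π / 18)
    have h2 := cos_sub (π / 9) (π / 18)
    rw [show π / 9 + π / 18 = π / 6 by ring] at h1
    rw [show π / 9 - π / 18 = π / 18 by ring] at h2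
    rw [h1]
    nth_rewrite 3 [h2]
    ring
  have e4 : 1 - (π / 18) ^ 2 / 2 ≤ cos (π / 18) := one_sub_sq_div_two_le_cos
  have e5 : cos (π / 6) = √3 / 2 := cos_pi_div_six
  have e6 : (1.732 : ℝ) ≤ √3 := by
    apply Real.le_sqrt_of_sq_le
    norm_num
  have e7 : π < 3.1416 := pi_lt_d4
  have e8 : 3.7011 ≤ -4 * cos (π * (8 / 9)) * sin (π * (8 / 9) / 2) := by
    rw [e1, e2]
    have : -4 * -cos (π / 9) * cos (π / 18) = 2 * (2 * (cos (π / 9) * cos (π / 18))) := by ring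
    rw [this, e3, e5]
    nlinarith [pi_pos]
  rw [div_le_iff₀ (by linarith)]
  nlinarith

end Pool.Agent.MML
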