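import Pool.Agent.MML.KerIIIa

/-!
# MML, module KerIIIb: sign of kernel III

Notation: `C = cosh (τ/2)`, `E = exp (-τ/2) > 0`, `C = (E + 1/E)/2`, `Cε = C + ε`.
(a) `log ((C + ½)/(C - ½)) ≤ 2 E`: `(C + ½)/(C - ½) = (E² + E + 1)/(E² - E + 1)` and
`ψ(E) = 2 E - log (E² + E + 1) + log (E² - E + 1)` has `ψ(0) = 0`, `ψ'(E) = 2 E² (2 + E²)/(1 + E² + E⁴) ≥ 0`.
(b) valley `0 ≤ t ≤ 2π/3`, `c = cos (t/2) ∈ [½, 1]`: `φ(c) = 4 E c + log (Cε - c) - log (Cε + c)` is concave in `c`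
(second derivative `-1/(Cε - c)² + 1/(Cε + c)²`), `φ(½) ≥ 2 E - log ((C + ½)/(C - ½)) ≥ 0`, `φ(1) ≥ 4π gz τ` for `τ ≠ 0`.
(c) hump: `z = -cos (t/2 + π/3) ∈ [½, 1]`; with `x0 = cos (t/2)`, `x2 = cos (t/2 + 2π/3)`: `x0 + x2 = -z`, `x0 x2 = z² - ¾`, so
`4π gH3 = φ(z) = log (Cε + z) + log Q - 2 log (Cε + ½) - log (Cε + 1) + 4 E (1 - z)`, `Q = Cε² + Cε z + z² - ¾`.
`φ(1) = 0` (`Q = (Cε + ½)²`), `φ(½) = log ((Cε - ½)/(Cε + ½)) + 2 E ≥ 0` (`Q = (Cε + 1)(Cε - ½)`), and `φ` is concave: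
`φ'' = -1/(Cε + z)² + (Cε² - 2 Cε z - 2 z² - 3/2)/Q² ≤ 0` since
`Q² - (Cε² - 2 Cε z - 2 z² - 3/2)(Cε + z)² = 2 Cε³ z + 6 Cε² z² + 6 Cε z³ + 2 z⁴ + (2 z² - 3/2)(Cε² + Cε z) + (3/2)(Cε + z)² + (z² - ¾)² ≥ 0`
(`(3/2)(Cε + z)² ≥ (3/2)(Cε² + Cε z)`).
(d) `kH3 ≥ 0`: `kH3 = E/(8π) (2 - (E² + 4 E + 1)/(E² + E + 1)² - 1/(1 + E)²)`, and with `u = E² + E + 1`, `v = (1 + E)²`:
`2 u² v - (E² + 4E + 1) v - u²` is a polynomial in `E` with nonnegative coefficients, divisible by `E²`.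
-/

set_option autoImplicit false

namespace Pool.Agent.MML

open Real MeasureTheory Set Filter Topology

private theorem k3_cosh (τ : ℝ) :
    cosh (τ / 2) = (exp (-τ / 2) ^ 2 + 1) / (2 * exp (-τ / 2)) := by
  have hE : exp (-τ / 2) ≠ 0 := (exp_pos _).ne'
  have h1 : exp (τ / 2) = (exp (-τ / 2))⁻¹ := by
    rw [← exp_neg]
    congr 1
    ring
  have h2 : exp (-(τ / 2)) = exp (-τ / 2) := by
    congr 1
    ring
  rw [cosh_eq, h1, h2]
  field_simp
  ring

theorem kH3_eq (τ : ℝ) : kH3 τ = exp (-τ / 2) / (8 * π) *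
    (2 - (exp (-τ / 2) ^ 2 + 4 * exp (-τ / 2) + 1) / (exp (-τ / 2) ^ 2 + exp (-τ / 2) + 1) ^ 2
      - 1 / (1 + exp (-τ / 2)) ^ 2) := by
  unfold kH3
  rw [k3_cosh]
  have hE : 0 < exp (-τ / 2) := exp_pos _
  generalize exp (-τ / 2) = E at *
  have hπ : π ≠ 0 := pi_pos.ne'
  have h1 : (E ^ 2 + 1) / (2 * E) + 1 / 2 = (E ^ 2 + E + 1) / (2 * E) := by
    field_simp
    ring
  have h2 : (E ^ 2 + 1) / (2 * E) + 1 = (1 + E) ^ 2 / (2 * E) := by
    field_simp
    ring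
  have h3 : 2 + (E ^ 2 + 1) / (2 * E) = (E ^ 2 + 4 * E + 1) / (2 * E) := by
    field_simp
    ring
  rw [h1, h2, h3]
  have h4 : E ^ 2 + E + 1 ≠ 0 := by positivity
  have h5 : 1 + E ≠ 0 := by positivity
  field_simp
  ring

/-- the polynomial of `kH3` -/
private theorem k3_frac {E : ℝ} (hE : 0 < E) :
    2 - (E ^ 2 + 4 * E + 1) / (E ^ 2 + E + 1) ^ 2 - 1 / (1 + E) ^ 2 =
      (2 * E ^ 6 + 8 * E ^ 5 + 14 * E ^ 4 + 12 * E ^ 3 + 3 * E ^ 2) /
        ((E ^ 2 + E + 1) ^ 2 * (1 + E) ^ 2) := by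
  have h4 : E ^ 2 + E + 1 ≠ 0 := by positivity
  have h5 : 1 + E ≠ 0 := by positivity
  field_simp
  ring

theorem kH3_nonneg (τ : ℝ) : 0 ≤ kH3 τ := by
  rw [kH3_eq, k3_frac (exp_pos _)]
  have := pi_pos
  positivity

/-- `kH3` is `O(exp (-τ))` for `τ → ∞` (indeed `O(exp (-3τ/2))`) and `O(exp (-τ/2))` for `τ → -∞` -/
theorem kH3_le : ∃ K, 0 ≤ K ∧ ∀ τ, kH3 τ ≤ K * dec τ := by
  refine ⟨(4 * π)⁻¹, by have := pi_pos; positivity, fun τ => ?_⟩
  have hπ := pi_pos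
  have h0 : dec τ = min (exp (-τ / 2) ^ 2) (exp (-τ / 2)) := by
    unfold dec
    rw [← exp_nat_mul]
    congr 2
    push_cast
    ring
  rw [kH3_eq, k3_frac (exp_pos _), h0]
  have hE : 0 < exp (-τ / 2) := exp_pos _
  generalize exp (-τ / 2) = E at *
  have hD : 0 < (E ^ 2 + E + 1) ^ 2 * (1 + E) ^ 2 := by positivity
  have e1 : (2 * E ^ 6 + 8 * E ^ 5 + 14 * E ^ 4 + 12 * E ^ 3 + 3 * E ^ 2) /
        ((E ^ 2 + E + 1) ^ 2 * (1 + E) ^ 2) ≤ 2 := by
    rw [div_le_iff₀ hD]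
    have : 2 * ((E ^ 2 + E + 1) ^ 2 * (1 + E) ^ 2) -
      (2 * E ^ 6 + 8 * E ^ 5 + 14 * E ^ 4 + 12 * E ^ 3 + 3 * E ^ 2) =
        2 * E ^ 4 + 8 * E ^ 3 + 13 * E ^ 2 + 8 * E + 2 := by ring
    have h2 : 0 ≤ 2 * E ^ 4 + 8 * E ^ 3 + 13 * E ^ 2 + 8 * E + 2 := by positivity
    linarith
  have e2 : (2 * E ^ 6 + 8 * E ^ 5 + 14 * E ^ 4 + 12 * E ^ 3 + 3 * E ^ 2) /
        ((E ^ 2 + E + 1) ^ 2 * (1 + E) ^ 2) ≤ 2 * E := by
    rw [div_le_iff₀ hD]
    have : 2 * E * ((E ^ 2 + E + 1) ^ 2 * (1 + E) ^ 2) -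
      (2 * E ^ 6 + 8 * E ^ 5 + 14 * E ^ 4 + 12 * E ^ 3 + 3 * E ^ 2) =
        2 * E ^ 7 + 6 * E ^ 6 + 8 * E ^ 5 + 6 * E ^ 4 + 4 * E ^ 3 + 5 * E ^ 2 + 2 * E := by ring
    have h2 : 0 ≤ 2 * E ^ 7 + 6 * E ^ 6 + 8 * E ^ 5 + 6 * E ^ 4 + 4 * E ^ 3 + 5 * E ^ 2 + 2 * E := by
      positivity
    linarith
  have h8 : 0 ≤ E / (8 * π) := by positivity
  have e3 : E / (8 * π) * 2 = (4 * π)⁻¹ * E := by
    field_simp
    ring
  have e4 : E / (8 * π) * (2 * E) = (4 * π)⁻¹ * E ^ 2 := by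
    field_simp
    ring
  rcases min_cases (E ^ 2) E with ⟨h, _⟩ | ⟨h, _⟩
  · rw [h, ← e4]
    exact mul_le_mul_of_nonneg_left e2 h8
  · rw [h, ← e3]
    exact mul_le_mul_of_nonneg_left e1 h8

theorem kH3_cont : Continuous kH3 := by
  unfold kH3
  have h1 : ∀ τ : ℝ, (cosh (τ / 2) + 1 / 2) ^ 2 ≠ 0 := fun τ => by
    have := cosh_pos (τ / 2)
    positivity
  have h2 : ∀ τ : ℝ, cosh (τ / 2) + 1 ≠ 0 := fun τ => by
    have := cosh_pos (τ / 2)
    positivity
  have c0 : Continuous fun τ : ℝ => cosh (τ / 2) :=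
    continuous_cosh.comp (continuous_id.div_const 2)
  have c1 : Continuous fun τ : ℝ => exp (-τ / 2) := by fun_prop
  exact continuous_const.mul (((continuous_const.mul c1).sub
    ((continuous_const.add c0).div ((c0.add continuous_const).pow 2) h1)).sub
    (continuous_const.div (c0.add continuous_const) h2))

private theorem k3_psi {E : ℝ} (hE : 0 ≤ E) :
    log (E ^ 2 + E + 1) - log (E ^ 2 - E + 1) ≤ 2 * E := by
  have p1 : ∀ x : ℝ, 0 < x ^ 2 + x + 1 := fun x => by nlinarith [sq_nonneg (x + 1 / 2)]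
  have p2 : ∀ x : ℝ, 0 < x ^ 2 - x + 1 := fun x => by nlinarith [sq_nonneg (x - 1 / 2)]
  have hd : ∀ x : ℝ, HasDerivAt (fun x : ℝ => 2 * x - log (x ^ 2 + x + 1) + log (x ^ 2 - x + 1))
      (2 * 1 - (2 * x + 1) / (x ^ 2 + x + 1) + (2 * x - 1) / (x ^ 2 - x + 1)) x := by
    intro x
    have a1 : HasDerivAt (fun x : ℝ => x ^ 2) (2 * x) x := by
      simpa using hasDerivAt_pow 2 x
    have a2 := hasDerivAt_id x
    exact ((a2.const_mul 2).sub (((a1.add a2).add_const 1).log (p1 x).ne')).add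
      (((a1.sub a2).add_const 1).log (p2 x).ne')
  have hmono : MonotoneOn (fun x : ℝ => 2 * x - log (x ^ 2 + x + 1) + log (x ^ 2 - x + 1))
      (Ici 0) := by
    refine monotoneOn_of_deriv_nonneg (convex_Ici 0)
      (fun x _ => (hd x).continuousAt.continuousWithinAt)
      (fun x _ => (hd x).differentiableAt.differentiableWithinAt) ?_
    intro x _
    rw [(hd x).deriv]
    have e : 2 * 1 - (2 * x + 1) / (x ^ 2 + x + 1) + (2 * x - 1) / (x ^ 2 - x + 1) =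
        2 * x ^ 2 * (2 + x ^ 2) / ((x ^ 2 + x + 1) * (x ^ 2 - x + 1)) := by
      have q1 := (p1 x).ne'
      have q2 := (p2 x).ne'
      rw [eq_div_iff (mul_ne_zero q1 q2), add_mul, sub_mul]
      have r1 : (2 * x + 1) / (x ^ 2 + x + 1) * ((x ^ 2 + x + 1) * (x ^ 2 - x + 1)) =
          (2 * x + 1) * (x ^ 2 - x + 1) := by
        rw [← mul_assoc, div_mul_cancel₀ _ q1]
      have r2 : (2 * x - 1) / (x ^ 2 - x + 1) * ((x ^ 2 + x + 1) * (x ^ 2 - x + 1)) =
          (2 * x - 1) * (x ^ 2 + x + 1) := by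
        rw [mul_comm (x ^ 2 + x + 1), ← mul_assoc, div_mul_cancel₀ _ q2]
      rw [r1, r2]
      ring
    rw [e]
    exact div_nonneg (by positivity) (mul_pos (p1 x) (p2 x)).le
  have h := hmono (mem_Ici.2 le_rfl) (mem_Ici.2 hE) hE
  simp at h
  linarith

private theorem k3_a (τ : ℝ) {ε : ℝ} (hε : 0 ≤ ε) :
    0 ≤ 2 * exp (-τ / 2) + log (cosh (τ / 2) + ε - 1 / 2) - log (cosh (τ / 2) + ε + 1 / 2) := by
  have hE : 0 < exp (-τ / 2) := exp_pos _
  have h0 := k3_psi hE.le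
  have hC := one_le_cosh (τ / 2)
  have h1 : log (cosh (τ / 2) + 1 / 2) - log (cosh (τ / 2) - 1 / 2) ≤ 2 * exp (-τ / 2) := by
    rw [← log_div (by linarith) (by linarith)]
    rw [← log_div (by positivity) (by nlinarith [sq_nonneg (exp (-τ / 2) - 1 / 2)])] at h0
    refine le_trans (le_of_eq ?_) h0
    congr 1
    rw [div_eq_div_iff (by linarith) (by nlinarith [sq_nonneg (exp (-τ / 2) - 1 / 2)]), k3_cosh]
    generalize exp (-τ / 2) = E at *
    field_simp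
    ring
  have h2 : log (cosh (τ / 2) - 1 / 2) - log (cosh (τ / 2) + 1 / 2) ≤
      log (cosh (τ / 2) + ε - 1 / 2) - log (cosh (τ / 2) + ε + 1 / 2) := by
    rw [← log_div (by linarith) (by linarith), ← log_div (by linarith) (by linarith)]
    refine log_le_log (div_pos (by linarith) (by linarith)) ?_
    rw [div_le_div_iff₀ (by linarith) (by linarith)]
    nlinarith
  linarith

private theorem k3_conc1 (A E : ℝ) (hA : 1 < A) :
    ConcaveOn ℝ (Icc (1 / 2) 1) (fun c => 4 * E * c + log (A - c) - log (A + c)) := by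
  have hd1 : ∀ x ∈ Icc (1 / 2 : ℝ) 1, HasDerivAt (fun c => 4 * E * c + log (A - c) - log (A + c))
      (4 * E * 1 + (-1) / (A - x) - 1 / (A + x)) x := by
    intro x hx
    have a1 : HasDerivAt (fun c : ℝ => A - c) (-1) x := by
      simpa using (hasDerivAt_id x).const_sub A
    have a2 : HasDerivAt (fun c : ℝ => A + c) 1 x := by
      simpa using (hasDerivAt_id x).const_add A
    have b1 : A - x ≠ 0 := by have := hx.2; intro h; linarith
    have b2 : A + x ≠ 0 := by have := hx.1; intro h; linarith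
    exact (((hasDerivAt_id x).const_mul (4 * E)).add (a1.log b1)).sub (a2.log b2)
  have hd2 : ∀ x ∈ Icc (1 / 2 : ℝ) 1, HasDerivAt (fun x => 4 * E * 1 + (-1) / (A - x) - 1 / (A + x))
      (-(1 / (A - x) ^ 2) + 1 / (A + x) ^ 2) x := by
    intro x hx
    have a1 : HasDerivAt (fun c : ℝ => A - c) (-1) x := by
      simpa using (hasDerivAt_id x).const_sub A
    have a2 : HasDerivAt (fun c : ℝ => A + c) 1 x := by
      simpa using (hasDerivAt_id x).const_add A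
    have b1 : A - x ≠ 0 := by have := hx.2; intro h; linarith
    have b2 : A + x ≠ 0 := by have := hx.1; intro h; linarith
    have h := (((hasDerivAt_const x (-1 : ℝ)).div a1 b1).const_add (4 * E * 1)).sub
      ((hasDerivAt_const x (1 : ℝ)).div a2 b2)
    refine h.congr_deriv ?_
    field_simp
    ring
  refine concaveOn_of_hasDerivWithinAt2_nonpos (convex_Icc _ _)
    (fun x hx => (hd1 x hx).continuousAt.continuousWithinAt)
    (fun x hx => (hd1 x (interior_subset hx)).hasDerivWithinAt)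
    (fun x hx => (hd2 x (interior_subset hx)).hasDerivWithinAt) ?_
  intro x hx
  have hx' := interior_subset hx
  have b1 : 0 < A - x := by have := hx'.2; linarith
  have b2 : A - x ≤ A + x := by have := hx'.1; linarith
  have : 1 / (A + x) ^ 2 ≤ 1 / (A - x) ^ 2 :=
    one_div_le_one_div_of_le (by positivity) (pow_le_pow_left₀ b1.le b2 2)
  linarith

private theorem k3_conc2 (A E K : ℝ) (hA : 1 < A) :
    ConcaveOn ℝ (Icc (1 / 2) 1)
      (fun z => log (A + z) + log (A ^ 2 + A * z + z ^ 2 - 3 / 4) + K + 4 * E * (1 - z)) := by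
  have hQ : ∀ x ∈ Icc (1 / 2 : ℝ) 1, 0 < A ^ 2 + A * x + x ^ 2 - 3 / 4 := by
    intro x hx
    nlinarith [hx.1, mul_nonneg (by linarith : (0 : ℝ) ≤ A) (by linarith [hx.1] : (0 : ℝ) ≤ x),
      sq_nonneg x]
  have hd1 : ∀ x ∈ Icc (1 / 2 : ℝ) 1, HasDerivAt
      (fun z => log (A + z) + log (A ^ 2 + A * z + z ^ 2 - 3 / 4) + K + 4 * E * (1 - z))
      (1 / (A + x) + (A + 2 * x) / (A ^ 2 + A * x + x ^ 2 - 3 / 4) + 4 * E * (-1)) x := by
    intro x hx
    have a1 : HasDerivAt (fun c : ℝ => 1 - c) (-1) x := by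
      simpa using (hasDerivAt_id x).const_sub 1
    have a2 : HasDerivAt (fun c : ℝ => A + c) 1 x := by
      simpa using (hasDerivAt_id x).const_add A
    have a3 : HasDerivAt (fun z : ℝ => A ^ 2 + A * z + z ^ 2 - 3 / 4) (A + 2 * x) x := by
      have q1 : HasDerivAt (fun x : ℝ => x ^ 2) (2 * x) x := by
        simpa using hasDerivAt_pow 2 x
      have q2 := ((((hasDerivAt_id x).const_mul A).const_add (A ^ 2)).add q1).sub_const (3 / 4)
      refine q2.congr_deriv ?_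
      ring
    have b2 : A + x ≠ 0 := by have := hx.1; intro h; linarith
    exact (((a2.log b2).add (a3.log (hQ x hx).ne')).add_const K).add (a1.const_mul (4 * E))
  have hd2 : ∀ x ∈ Icc (1 / 2 : ℝ) 1, HasDerivAt
      (fun x => 1 / (A + x) + (A + 2 * x) / (A ^ 2 + A * x + x ^ 2 - 3 / 4) + 4 * E * (-1))
      (-(1 / (A + x) ^ 2) + (A ^ 2 - 2 * A * x - 2 * x ^ 2 - 3 / 2) /
        (A ^ 2 + A * x + x ^ 2 - 3 / 4) ^ 2) x := by
    intro x hx
    have a2 : HasDerivAt (fun c : ℝ => A + c) 1 x := by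
      simpa using (hasDerivAt_id x).const_add A
    have a3 : HasDerivAt (fun z : ℝ => A ^ 2 + A * z + z ^ 2 - 3 / 4) (A + 2 * x) x := by
      have q1 : HasDerivAt (fun x : ℝ => x ^ 2) (2 * x) x := by
        simpa using hasDerivAt_pow 2 x
      have q2 := ((((hasDerivAt_id x).const_mul A).const_add (A ^ 2)).add q1).sub_const (3 / 4)
      refine q2.congr_deriv ?_
      ring
    have a4 : HasDerivAt (fun z : ℝ => A + 2 * z) 2 x := by
      simpa using ((hasDerivAt_id x).const_mul 2).const_add A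
    have b2 : A + x ≠ 0 := by have := hx.1; intro h; linarith
    have b3 := (hQ x hx).ne'
    have h := ((((hasDerivAt_const x (1 : ℝ)).div a2 b2)).add (a4.div a3 b3)).add_const (4 * E * (-1))
    refine h.congr_deriv ?_
    rw [zero_mul, one_mul, zero_sub, neg_div]
    congr 2
    ring
  refine concaveOn_of_hasDerivWithinAt2_nonpos (convex_Icc _ _)
    (fun x hx => (hd1 x hx).continuousAt.continuousWithinAt)
    (fun x hx => (hd1 x (interior_subset hx)).hasDerivWithinAt)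
    (fun x hx => (hd2 x (interior_subset hx)).hasDerivWithinAt) ?_
  intro z hz
  have hz' := interior_subset hz
  have b1 : 0 < A + z := by have := hz'.1; linarith
  have b2 := hQ z hz'
  have hz0 : 0 < z := by have := hz'.1; linarith
  have hA0 : 0 < A := by linarith
  have key : (A ^ 2 - 2 * A * z - 2 * z ^ 2 - 3 / 2) / (A ^ 2 + A * z + z ^ 2 - 3 / 4) ^ 2 ≤
      1 / (A + z) ^ 2 := by
    rw [div_le_div_iff₀ (by positivity) (by positivity)]
    have e : 1 * (A ^ 2 + A * z + z ^ 2 - 3 / 4) ^ 2 -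
        (A ^ 2 - 2 * A * z - 2 * z ^ 2 - 3 / 2) * (A + z) ^ 2 =
        2 * A ^ 3 * z + 6 * A ^ 2 * z ^ 2 + 6 * A * z ^ 3 + 2 * z ^ 4 +
          2 * z ^ 2 * (A ^ 2 + A * z) + (3 / 2) * (A * z + z ^ 2) + (z ^ 2 - 3 / 4) ^ 2 := by ring
    have h2 : 0 ≤ 2 * A ^ 3 * z + 6 * A ^ 2 * z ^ 2 + 6 * A * z ^ 3 + 2 * z ^ 4 +
          2 * z ^ 2 * (A ^ 2 + A * z) + (3 / 2) * (A * z + z ^ 2) + (z ^ 2 - 3 / 4) ^ 2 := by
      positivity
    linarith
  linarith

/-- lower bound of kernel III -/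
theorem gIII_lower {ε τ t : ℝ} (hε : 0 < ε) (hτ : τ ≠ 0) (ht : t ∈ Icc 0 (4 * π / 3)) :
    -(gIII ε τ t) ≤ mz τ := by
  have hπ := pi_pos
  have hC1 : 1 < cosh (τ / 2) := one_lt_cosh.2 (by intro h; apply hτ; linarith)
  have hA : 1 < cosh (τ / 2) + ε := by linarith
  have ha := k3_a τ hε.le
  have h4π : 0 < (4 * π)⁻¹ := by positivity
  unfold gIII mz
  split_ifs with h
  · -- valley
    have hc1 : cos (t / 2) ≤ 1 := cos_le_one _
    have hc2 : 1 / 2 ≤ cos (t / 2) := by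
      rw [← cos_pi_div_three]
      exact cos_le_cos_of_nonneg_of_le_pi (by linarith [ht.1]) (by linarith) (by linarith)
    have hcc := (k3_conc1 (cosh (τ / 2) + ε) (exp (-τ / 2)) hA).min_le_of_mem_Icc
      (left_mem_Icc.2 (by norm_num)) (right_mem_Icc.2 (by norm_num)) ⟨hc2, hc1⟩
    have hg : gV ε τ t = (4 * π)⁻¹ * (4 * exp (-τ / 2) * cos (t / 2)
        + log (cosh (τ / 2) + ε - cos (t / 2)) - log (cosh (τ / 2) + ε + cos (t / 2))) := by
      unfold gV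
      rw [show cosh (τ / 2) - cos (t / 2) + ε = cosh (τ / 2) + ε - cos (t / 2) by ring,
        show cosh (τ / 2) + cos (t / 2) + ε = cosh (τ / 2) + ε + cos (t / 2) by ring]
    rw [hg]
    rcases min_choice (4 * exp (-τ / 2) * (1 / 2) + log (cosh (τ / 2) + ε - 1 / 2) -
      log (cosh (τ / 2) + ε + 1 / 2)) (4 * exp (-τ / 2) * 1 + log (cosh (τ / 2) + ε - 1) -
      log (cosh (τ / 2) + ε + 1)) with hm | hm
    · rw [hm] at hcc
      refine le_trans ?_ (le_max_left _ _)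
      have : 0 ≤ (4 * π)⁻¹ * (4 * exp (-τ / 2) * cos (t / 2)
        + log (cosh (τ / 2) + ε - cos (t / 2)) - log (cosh (τ / 2) + ε + cos (t / 2))) := by
        refine mul_nonneg h4π.le (le_trans ?_ hcc)
        linarith
      linarith
    · rw [hm] at hcc
      refine le_trans ?_ (le_max_right _ _)
      refine neg_le_neg ?_
      unfold gz
      refine mul_le_mul_of_nonneg_left (le_trans ?_ hcc) h4π.le
      have h2 : log ((cosh (τ / 2) - 1) / (cosh (τ / 2) + 1)) ≤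
          log (cosh (τ / 2) + ε - 1) - log (cosh (τ / 2) + ε + 1) := by
        rw [← log_div (by linarith) (by linarith)]
        refine log_le_log (div_pos (by linarith) (by linarith)) ?_
        rw [div_le_div_iff₀ (by linarith) (by linarith)]
        nlinarith
      linarith
  · -- hump
    have hs1 : 2 * π / 3 ≤ t / 2 + π / 3 := by linarith [not_le.1 h]
    have hs2 : t / 2 + π / 3 ≤ π := by linarith [ht.2]
    obtain ⟨s, hs⟩ : ∃ s, s = t / 2 + π / 3 := ⟨_, rfl⟩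
    have hx0 : cos (t / 2) = cos s * (1 / 2) + sin s * (√3 / 2) := by
      have : t / 2 = s - π / 3 := by rw [hs]; ring
      rw [this, cos_sub, cos_pi_div_three, sin_pi_div_three]
    have hx2 : cos (t / 2 + 2 * π / 3) = cos s * (1 / 2) - sin s * (√3 / 2) := by
      have : t / 2 + 2 * π / 3 = s + π / 3 := by rw [hs]; ring
      rw [this, cos_add, cos_pi_div_three, sin_pi_div_three]
    have hsum : cos (t / 2) + cos (t / 2 + 2 * π / 3) = cos s := by rw [hx0, hx2]; ring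
    have hprod : cos (t / 2) * cos (t / 2 + 2 * π / 3) = cos s ^ 2 - 3 / 4 := by
      rw [hx0, hx2]
      have h3 : √3 ^ 2 = 3 := sq_sqrt (by norm_num)
      have h4 := sin_sq_add_cos_sq s
      have : (cos s * (1 / 2) + sin s * (√3 / 2)) * (cos s * (1 / 2) - sin s * (√3 / 2)) =
        cos s ^ 2 / 4 - sin s ^ 2 * (√3 ^ 2) / 4 := by ring
      rw [this, h3]
      linarith
    have hz1 : -cos s ≤ 1 := by linarith [neg_one_le_cos s]
    have hz2 : 1 / 2 ≤ -cos s := by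
      have h5 : cos s ≤ cos (2 * π / 3) :=
        cos_le_cos_of_nonneg_of_le_pi (by positivity) (by rw [hs]; exact hs2) (by rw [hs]; exact hs1)
      have h6 : cos (2 * π / 3) = -(1 / 2) := by
        have : 2 * π / 3 = π - π / 3 := by ring
        rw [this, cos_pi_sub, cos_pi_div_three]
      linarith
    have hcc := (k3_conc2 (cosh (τ / 2) + ε) (exp (-τ / 2))
      (-(2 * log (cosh (τ / 2) + ε + 1 / 2)) - log (cosh (τ / 2) + ε + 1)) hA).min_le_of_mem_Icc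
      (left_mem_Icc.2 (by norm_num)) (right_mem_Icc.2 (by norm_num)) ⟨hz2, hz1⟩
    have hg : gH3 ε τ t = (4 * π)⁻¹ * (log (cosh (τ / 2) + ε + -cos s) +
        log ((cosh (τ / 2) + ε) ^ 2 + (cosh (τ / 2) + ε) * -cos s + (-cos s) ^ 2 - 3 / 4) +
        (-(2 * log (cosh (τ / 2) + ε + 1 / 2)) - log (cosh (τ / 2) + ε + 1)) +
        4 * exp (-τ / 2) * (1 - -cos s)) := by
      unfold gH3
      rw [← hs, show cosh (τ / 2) - cos s + ε = cosh (τ / 2) + ε + -cos s by ring,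
        show cosh (τ / 2) + 1 / 2 + ε = cosh (τ / 2) + ε + 1 / 2 by ring,
        show cosh (τ / 2) + 1 + ε = cosh (τ / 2) + ε + 1 by ring]
      have hl : log (cosh (τ / 2) - cos (t / 2) + ε) + log (cosh (τ / 2) - cos (t / 2 + 2 * π / 3) + ε)
          = log ((cosh (τ / 2) + ε) ^ 2 + (cosh (τ / 2) + ε) * -cos s + (-cos s) ^ 2 - 3 / 4) := by
        have q1 := cos_le_one (t / 2)
        have q2 := cos_le_one (t / 2 + 2 * π / 3)
        rw [← log_mul (by linarith) (by linarith)]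
        congr 1
        have : (cosh (τ / 2) - cos (t / 2) + ε) * (cosh (τ / 2) - cos (t / 2 + 2 * π / 3) + ε) =
          (cosh (τ / 2) + ε) ^ 2 - (cosh (τ / 2) + ε) * (cos (t / 2) + cos (t / 2 + 2 * π / 3)) +
          cos (t / 2) * cos (t / 2 + 2 * π / 3) := by ring
        rw [this, hsum, hprod]
        ring
      rw [← hl]
      ring
    have hv1 : 0 ≤ log (cosh (τ / 2) + ε + 1 / 2) +
        log ((cosh (τ / 2) + ε) ^ 2 + (cosh (τ / 2) + ε) * (1 / 2) + (1 / 2) ^ 2 - 3 / 4) +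
        (-(2 * log (cosh (τ / 2) + ε + 1 / 2)) - log (cosh (τ / 2) + ε + 1)) +
        4 * exp (-τ / 2) * (1 - 1 / 2) := by
      have e1 : (cosh (τ / 2) + ε) ^ 2 + (cosh (τ / 2) + ε) * (1 / 2) + (1 / 2) ^ 2 - 3 / 4 =
        (cosh (τ / 2) + ε + 1) * (cosh (τ / 2) + ε - 1 / 2) := by ring
      rw [e1, log_mul (by linarith) (by linarith)]
      linarith
    have hv2 : 0 ≤ log (cosh (τ / 2) + ε + 1) +
        log ((cosh (τ / 2) + ε) ^ 2 + (cosh (τ / 2) + ε) * 1 + 1 ^ 2 - 3 / 4) +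
        (-(2 * log (cosh (τ / 2) + ε + 1 / 2)) - log (cosh (τ / 2) + ε + 1)) +
        4 * exp (-τ / 2) * (1 - 1) := by
      have e1 : (cosh (τ / 2) + ε) ^ 2 + (cosh (τ / 2) + ε) * 1 + 1 ^ 2 - 3 / 4 =
        (cosh (τ / 2) + ε + 1 / 2) * (cosh (τ / 2) + ε + 1 / 2) := by ring
      rw [e1, log_mul (by linarith) (by linarith)]
      linarith
    have hfin : 0 ≤ gH3 ε τ t := by
      rw [hg]
      exact mul_nonneg h4π.le ((le_min hv1 hv2).trans hcc)
    exact le_trans (by linarith) (le_max_left _ _)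

end Pool.Agent.MML
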