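import Pool.Agent.MML.KerIIIa

/-!
# MML, module KerIIIc: decay of kernel III

As in KerIIc: `dec τ = exp (-τ)` for `τ ≥ 0`, `exp (-τ/2)` for `τ ≤ 0`.  `E = exp (-τ/2)`, `C = cosh (τ/2)`, `S = sinh (τ/2)`.
`τ ≥ 1`: with `L(x) = log (1 - x/C) + 2 E x` (`|x| ≤ 1`): `4π gV 0 = L(c) - L(-c)`,
`4π gH3 0 = L(x0) + L(x1) + L(x2) - 2 L(-½) - L(-1)` (`x0 + x1 + x2 = 2 x1`).
`2 E - 1/C = 2 E³/(1 + E²)`, `|log (1 - y) + y| ≤ y²/(1 - |y|)` with `|y| = |x|/C ≤ 1/cosh (1/2) < 0.89`, `1/C ≤ 2 E`,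
so `|L(x)| ≤ K E² = K exp (-τ)`.  Derivative in `τ`: `∂L = x S/(2 C (C - x)) - E x`; `x S/(2 C²) - E x = O(E³)` and
`x S/(2 C (C - x)) - x S/(2 C²) = x² S/(2 C² (C - x)) = O(E²)`.
`τ ≤ -1`: all logarithms of quotients are bounded (`C - x ≥ C - 1 ≥ (1 - 1/cosh (1/2)) C`), and `E ≥ 1`.
-/

set_option autoImplicit false

namespace Pool.Agent.MML

open Real MeasureTheory Set Filter Topology

private theorem cosh_lb3 {τ : ℝ} (h : 1 ≤ |τ|) : 9 / 8 ≤ cosh (τ / 2) := by
  have h1 : cosh (τ / 2) = 1 + 2 * sinh (|τ| / 4) ^ 2 := by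
    have h2 : cosh (τ / 2) = cosh (2 * (|τ| / 4)) := by
      rw [← cosh_abs (τ / 2), abs_div, abs_of_pos (show (0 : ℝ) < 2 by norm_num)]
      congr 1
      ring
    rw [h2, cosh_two_mul, cosh_sq]
    ring
  have h3 : |τ| / 4 ≤ sinh (|τ| / 4) := self_le_sinh_iff.2 (by positivity)
  have h4 : (1 / 4 : ℝ) ≤ sinh (|τ| / 4) := by linarith
  rw [h1]
  nlinarith

private theorem L_bd3 {E C x : ℝ} (hE : 0 < E) (hC : C = (E + E⁻¹) / 2) (h9 : 9 / 8 ≤ C)
    (hx : |x| ≤ 1) : |log (1 - x / C) + 2 * E * x| ≤ 38 * min (E ^ 2) E := by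
  have hC0 : 0 < C := by linarith
  have hy : |x / C| ≤ C⁻¹ := by
    rw [abs_div, abs_of_pos hC0, div_eq_mul_inv]
    exact mul_le_of_le_one_left (by positivity) hx
  have hCi : C⁻¹ ≤ 8 / 9 := by
    rw [inv_le_comm₀ hC0 (by norm_num)]
    linarith
  have hy9 : |x / C| ≤ 8 / 9 := hy.trans hCi
  have hy1 : |x / C| < 1 := by linarith
  rcases le_total E 1 with h1 | h1
  · have hmin : min (E ^ 2) E = E ^ 2 := min_eq_left (by nlinarith)
    rw [hmin]
    have hC2 : C = (E ^ 2 + 1) / (2 * E) := by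
      rw [hC]
      field_simp
    have hCinv : C⁻¹ = 2 * E / (E ^ 2 + 1) := by rw [hC2, inv_div]
    have hCE : C⁻¹ ≤ 2 * E := by
      rw [hCinv, div_le_iff₀ (by positivity)]
      nlinarith [mul_pos hE (pow_pos hE 2)]
    have a1 : |x / C + log (1 - x / C)| ≤ 9 * (2 * E) ^ 2 := by
      have h2 := abs_log_sub_add_sum_range_le hy1 1
      simp only [Finset.sum_range_one, zero_add, pow_one, Nat.cast_zero, div_one,
        Nat.reduceAdd] at h2
      refine h2.trans ?_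
      rw [div_le_iff₀ (by linarith)]
      have h3 : |x / C| ^ 2 ≤ (2 * E) ^ 2 := pow_le_pow_left₀ (abs_nonneg _) (hy.trans hCE) 2
      have h4 : 1 ≤ 9 * (1 - |x / C|) := by linarith
      calc |x / C| ^ 2 ≤ (2 * E) ^ 2 := h3
        _ ≤ (2 * E) ^ 2 * (9 * (1 - |x / C|)) := le_mul_of_one_le_right (by positivity) h4
        _ = 9 * (2 * E) ^ 2 * (1 - |x / C|) := by ring
    have a2 : |2 * E * x - x / C| ≤ 2 * E ^ 2 := by
      have h2 : 2 * E * x - x / C = x * (2 * E - C⁻¹) := by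
        rw [div_eq_mul_inv]; ring
      rw [h2, abs_mul]
      have h3 : |2 * E - C⁻¹| ≤ 2 * E ^ 2 := by
        rw [abs_of_nonneg (by linarith), hCinv]
        have h4 : 2 * E - 2 * E / (E ^ 2 + 1) = 2 * E ^ 3 / (E ^ 2 + 1) := by
          field_simp
          ring
        rw [h4, div_le_iff₀ (by positivity)]
        have h5 : E ^ 3 ≤ E ^ 2 := by nlinarith [pow_pos hE 2]
        nlinarith [pow_pos hE 2, pow_pos hE 4]
      calc |x| * |2 * E - C⁻¹| ≤ 1 * (2 * E ^ 2) :=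
            mul_le_mul hx h3 (abs_nonneg _) (by norm_num)
        _ = 2 * E ^ 2 := by ring
    have a3 : log (1 - x / C) + 2 * E * x =
        (x / C + log (1 - x / C)) + (2 * E * x - x / C) := by ring
    rw [a3]
    refine (abs_add_le _ _).trans ?_
    linarith
  · have hmin : min (E ^ 2) E = E := min_eq_right (by nlinarith)
    rw [hmin]
    have a1 : |log (1 - x / C)| ≤ 8 := by
      have h2 := abs_log_sub_add_sum_range_le hy1 0
      simp only [Finset.range_zero, Finset.sum_empty, zero_add, pow_one] at h2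
      refine h2.trans ?_
      rw [div_le_iff₀ (by linarith)]
      linarith
    have a2 : |2 * E * x| ≤ 2 * E := by
      rw [abs_mul, abs_of_pos (by positivity)]
      exact mul_le_of_le_one_right (by positivity) hx
    refine (abs_add_le _ _).trans ?_
    linarith

private theorem l_bd3 {E C S x : ℝ} (hE : 0 < E) (hC : C = (E + E⁻¹) / 2) (hS : S = (E⁻¹ - E) / 2)
    (h9 : 9 / 8 ≤ C) (hx : |x| ≤ 1) :
    |x * S / (2 * C * (C - x)) - E * x| ≤ 38 * min (E ^ 2) E := by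
  have hC0 : 0 < C := by linarith
  have hx' := abs_le.1 hx
  have hCx : 0 < C - x := by linarith
  have hC2 : C = (E ^ 2 + 1) / (2 * E) := by
    rw [hC]
    field_simp
  have hS2 : S = (1 - E ^ 2) / (2 * E) := by
    rw [hS]
    field_simp
  have hSC : |S| ≤ C := by
    rw [abs_le, hS, hC]
    have := inv_pos.2 hE
    constructor <;> linarith
  rcases le_total E 1 with h1 | h1
  · have hmin : min (E ^ 2) E = E ^ 2 := min_eq_left (by nlinarith)
    rw [hmin]
    have hE2 : E ^ 2 ≤ 1 := pow_le_one₀ hE.le h1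
    have hCinv : C⁻¹ = 2 * E / (E ^ 2 + 1) := by rw [hC2, inv_div]
    have hCE : C⁻¹ ≤ 2 * E := by
      rw [hCinv, div_le_iff₀ (by positivity)]
      nlinarith [mul_pos hE (pow_pos hE 2)]
    have hSq : S / (2 * C ^ 2) = E * (1 - E ^ 2) / (E ^ 2 + 1) ^ 2 := by
      rw [hS2, hC2]
      field_simp
    have hSq0 : 0 ≤ S / (2 * C ^ 2) := by
      rw [hSq]
      exact div_nonneg (mul_nonneg hE.le (by linarith)) (by positivity)
    have hSqE : S / (2 * C ^ 2) ≤ E := by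
      rw [hSq, div_le_iff₀ (by positivity)]
      have : 1 - E ^ 2 ≤ (E ^ 2 + 1) ^ 2 := by nlinarith [pow_pos hE 2]
      exact mul_le_mul_of_nonneg_left this hE.le
    have b1 : |S / (2 * C ^ 2) - E| ≤ 4 * E ^ 2 := by
      rw [abs_sub_comm, abs_of_nonneg (by linarith), hSq]
      have h4 : E - E * (1 - E ^ 2) / (E ^ 2 + 1) ^ 2 = E ^ 3 * (3 + E ^ 2) / (E ^ 2 + 1) ^ 2 := by
        field_simp
        ring
      rw [h4, div_le_iff₀ (by positivity)]
      have h5 : E ^ 3 ≤ E ^ 2 := by nlinarith [pow_pos hE 2]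
      have h6 : 1 ≤ (E ^ 2 + 1) ^ 2 := by nlinarith [pow_pos hE 2]
      calc E ^ 3 * (3 + E ^ 2) ≤ E ^ 2 * 4 :=
            mul_le_mul h5 (by linarith) (by positivity) (by positivity)
        _ = 4 * E ^ 2 := by ring
        _ ≤ 4 * E ^ 2 * (E ^ 2 + 1) ^ 2 := le_mul_of_one_le_right (by positivity) h6
    have b2 : (C - x)⁻¹ ≤ 18 * E := by
      have h4 : C / 9 ≤ C - x := by linarith
      calc (C - x)⁻¹ ≤ (C / 9)⁻¹ := inv_anti₀ (by positivity) h4
        _ = 9 * C⁻¹ := by rw [inv_div, div_eq_mul_inv]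
        _ ≤ 9 * (2 * E) := by linarith
        _ = 18 * E := by ring
    have b3 : |S / (2 * C ^ 2) * (x * (C - x)⁻¹)| ≤ 18 * E ^ 2 := by
      rw [abs_mul, abs_mul, abs_of_nonneg hSq0, abs_of_pos (inv_pos.2 hCx)]
      calc S / (2 * C ^ 2) * (|x| * (C - x)⁻¹) ≤ E * (1 * (18 * E)) :=
            mul_le_mul hSqE (mul_le_mul hx b2 (by positivity) (by norm_num)) (by positivity) hE.le
        _ = 18 * E ^ 2 := by ring
    have b4 : x * S / (2 * C * (C - x)) - E * x =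
        x * ((S / (2 * C ^ 2) - E) + S / (2 * C ^ 2) * (x * (C - x)⁻¹)) := by
      field_simp
      ring
    rw [b4, abs_mul]
    calc |x| * |(S / (2 * C ^ 2) - E) + S / (2 * C ^ 2) * (x * (C - x)⁻¹)|
        ≤ 1 * (4 * E ^ 2 + 18 * E ^ 2) :=
          mul_le_mul hx ((abs_add_le _ _).trans (add_le_add b1 b3)) (abs_nonneg _) (by norm_num)
      _ ≤ 38 * E ^ 2 := by nlinarith [pow_pos hE 2]
  · have hmin : min (E ^ 2) E = E := min_eq_right (by nlinarith)
    rw [hmin]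
    have a1 : |x * S / (2 * C * (C - x))| ≤ 4 := by
      rw [abs_div, abs_mul, abs_of_pos (show 0 < 2 * C * (C - x) by positivity),
        div_le_iff₀ (by positivity)]
      have h4 : 1 / 8 ≤ C - x := by linarith
      calc |x| * |S| ≤ 1 * C := mul_le_mul hx hSC (abs_nonneg _) (by norm_num)
        _ = 4 * (2 * C * (1 / 8)) := by ring
        _ ≤ 4 * (2 * C * (C - x)) := by gcongr
    have a2 : |E * x| ≤ E := by
      rw [abs_mul, abs_of_pos hE]
      exact mul_le_of_le_one_right hE.le hx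
    refine (abs_sub _ _).trans ?_
    linarith

theorem gIII_decay : ∃ K, 0 ≤ K ∧ ∀ τ, 1 ≤ |τ| → ∀ t ∈ Icc (0 : ℝ) (4 * π / 3),
    |gIII 0 τ t| ≤ K * dec τ ∧ |gIIIs 0 τ t| ≤ K * dec τ := by
  refine ⟨38, by norm_num, fun τ hτ t ht => ?_⟩
  have hC9 := cosh_lb3 hτ
  obtain ⟨E, hE⟩ : ∃ E, E = exp (-τ / 2) := ⟨_, rfl⟩
  have hE0 : 0 < E := by rw [hE]; exact exp_pos _
  have hEi : E⁻¹ = exp (τ / 2) := by
    rw [hE, ← exp_neg]
    congr 1
    ring
  have hC : cosh (τ / 2) = (E + E⁻¹) / 2 := by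
    rw [cosh_eq, hEi, hE]
    rw [show -(τ / 2) = -τ / 2 by ring]
    ring
  have hS : sinh (τ / 2) = (E⁻¹ - E) / 2 := by
    rw [sinh_eq, hEi, hE]
    rw [show -(τ / 2) = -τ / 2 by ring]
  have hdec : dec τ = min (E ^ 2) E := by
    unfold dec
    rw [← hE]
    congr 1
    rw [hE, ← exp_nat_mul]
    congr 1
    push_cast
    ring
  rw [hdec]
  have hq : |(-(1 / 2) : ℝ)| ≤ 1 := by rw [abs_neg]; norm_num
  have ho : |(-1 : ℝ)| ≤ 1 := by rw [abs_neg]; norm_num
  obtain ⟨C, hCd⟩ : ∃ C, C = cosh (τ / 2) := ⟨_, rfl⟩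
  obtain ⟨S, hSd⟩ : ∃ S, S = sinh (τ / 2) := ⟨_, rfl⟩
  obtain ⟨c, hc⟩ : ∃ c, c = cos (t / 2) := ⟨_, rfl⟩
  obtain ⟨u, hu⟩ : ∃ u, u = cos (t / 2 + π / 3) := ⟨_, rfl⟩
  obtain ⟨v, hv⟩ : ∃ v, v = cos (t / 2 + 2 * π / 3) := ⟨_, rfl⟩
  have hcuv : c + v = u := by
    rw [hc, hu, hv, cos_add_cos]
    rw [show (t / 2 + (t / 2 + 2 * π / 3)) / 2 = t / 2 + π / 3 by ring,
      show (t / 2 - (t / 2 + 2 * π / 3)) / 2 = -(π / 3) by ring, cos_neg, cos_pi_div_three]
    ring
  have hv' : v = u - c := by linarith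
  have hc1 : |c| ≤ 1 := by rw [hc]; exact abs_cos_le_one _
  have hu1 : |u| ≤ 1 := by rw [hu]; exact abs_cos_le_one _
  have hv1 : |v| ≤ 1 := by rw [hv]; exact abs_cos_le_one _
  rw [← hCd] at hC9 hC
  rw [← hSd] at hS
  have hC0 : 0 < C := by linarith
  have hm : 0 ≤ min (E ^ 2) E := le_min (by positivity) hE0.le
  have hpi : (4 * π)⁻¹ * 6 ≤ 1 := by
    rw [inv_mul_le_iff₀ (by positivity)]
    linarith [pi_gt_three]
  have hpi0 : 0 ≤ (4 * π)⁻¹ := by positivity
  have hlog : ∀ x : ℝ, |x| ≤ 1 → log (C - x) = log C + log (1 - x / C) := by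
    intro x hx
    have hx' := abs_le.1 hx
    have h1 : 0 < 1 - x / C := by
      rw [sub_pos, div_lt_one hC0]
      linarith
    rw [← log_mul hC0.ne' h1.ne']
    congr 1
    field_simp
  have hfr : ∀ x : ℝ, |x| ≤ 1 → S / 2 / (C - x) = S / (2 * C) + x * S / (2 * C * (C - x)) := by
    intro x hx
    have hx' := abs_le.1 hx
    have h1 : C - x ≠ 0 := by
      have : 0 < C - x := by linarith
      exact this.ne'
    field_simp
    ring
  have fin : ∀ X : ℝ, |X| ≤ 6 * (38 * min (E ^ 2) E) → |(4 * π)⁻¹ * X| ≤ 38 * min (E ^ 2) E := by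
    intro X hX
    rw [abs_mul, abs_of_nonneg hpi0]
    calc (4 * π)⁻¹ * |X| ≤ (4 * π)⁻¹ * (6 * (38 * min (E ^ 2) E)) :=
          mul_le_mul_of_nonneg_left hX hpi0
      _ = ((4 * π)⁻¹ * 6) * (38 * min (E ^ 2) E) := by ring
      _ ≤ 1 * (38 * min (E ^ 2) E) := mul_le_mul_of_nonneg_right hpi (by positivity)
      _ = 38 * min (E ^ 2) E := one_mul _
  have L1 := L_bd3 hE0 hC hC9 hc1
  have L2 := L_bd3 hE0 hC hC9 (x := -c) (by rwa [abs_neg])
  have L3 := L_bd3 hE0 hC hC9 hu1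
  have L4 := L_bd3 hE0 hC hC9 hv1
  have L5 := L_bd3 hE0 hC hC9 hq
  have L6 := L_bd3 hE0 hC hC9 ho
  have l1 := l_bd3 hE0 hC hS hC9 hc1
  have l2 := l_bd3 hE0 hC hS hC9 (x := -c) (by rwa [abs_neg])
  have l3 := l_bd3 hE0 hC hS hC9 hu1
  have l4 := l_bd3 hE0 hC hS hC9 hv1
  have l5 := l_bd3 hE0 hC hS hC9 hq
  have l6 := l_bd3 hE0 hC hS hC9 ho
  have e1 := hlog c hc1
  have e2 := hlog (-c) (by rwa [abs_neg])
  have e3 := hlog u hu1
  have e4 := hlog v hv1
  have e5 := hlog (-(1 / 2)) hq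
  have e6 := hlog (-1) ho
  rw [sub_neg_eq_add] at e2 e5 e6
  have f1 := hfr c hc1
  have f2 := hfr (-c) (by rwa [abs_neg])
  have f3 := hfr u hu1
  have f4 := hfr v hv1
  have f5 := hfr (-(1 / 2)) hq
  have f6 := hfr (-1) ho
  have f5' : S / (C + 1 / 2) = 2 * (S / 2 / (C - -(1 / 2))) := by
    rw [sub_neg_eq_add, div_div, mul_div_assoc', mul_div_mul_left _ _ (by norm_num : (2 : ℝ) ≠ 0)]
  have key : ∀ a b d e f M : ℝ, |a| ≤ M → |b| ≤ M → |d| ≤ M → |e| ≤ M → |f| ≤ M →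
      |a + b + d - 2 * e - f| ≤ 6 * M := by
    intro a b d e f M ha hb hd he hf
    rw [abs_le] at *
    constructor <;> linarith
  unfold gIII gIIIs
  split_ifs with hts
  · constructor
    · unfold gV
      rw [← hCd, ← hc, ← hE, add_zero, add_zero, e1, e2]
      apply fin
      have h1 : 4 * E * c + (log C + log (1 - c / C)) - (log C + log (1 - -c / C)) =
          (log (1 - c / C) + 2 * E * c) - (log (1 - -c / C) + 2 * E * -c) := by ring
      rw [h1]
      refine (abs_sub _ _).trans ?_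
      linarith
    · unfold gVs
      rw [← hCd, ← hc, ← hE, ← hSd, add_zero, add_zero, f1, ← sub_neg_eq_add C c, f2]
      apply fin
      have h1 : -2 * E * c + (S / (2 * C) + c * S / (2 * C * (C - c))) -
          (S / (2 * C) + -c * S / (2 * C * (C - -c))) =
          (c * S / (2 * C * (C - c)) - E * c) - (-c * S / (2 * C * (C - -c)) - E * -c) := by ring
      rw [h1]
      refine (abs_sub _ _).trans ?_
      linarith
  · constructor
    · unfold gH3
      rw [← hCd, ← hc, ← hu, ← hv, ← hE, add_zero, add_zero, add_zero, add_zero, add_zero, e1, e3,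
        e4, e5, e6]
      apply fin
      have h1 : (log C + log (1 - c / C)) + (log C + log (1 - u / C)) + (log C + log (1 - v / C)) -
          2 * (log C + log (1 - -(1 / 2) / C)) - (log C + log (1 - -1 / C)) + 4 * E * (1 + u) =
          (log (1 - c / C) + 2 * E * c) + (log (1 - u / C) + 2 * E * u) +
          (log (1 - v / C) + 2 * E * v) -
          2 * (log (1 - -(1 / 2) / C) + 2 * E * -(1 / 2)) - (log (1 - -1 / C) + 2 * E * -1) +
          2 * E * (u - (c + v)) := by ring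
      rw [h1, hcuv, sub_self, mul_zero, add_zero]
      exact key _ _ _ _ _ _ L1 L3 L4 L5 L6
    · unfold gH3s
      rw [← hCd, ← hc, ← hu, ← hv, ← hE, ← hSd, add_zero, add_zero, add_zero, add_zero, add_zero,
        f1, f3, f4, f5', f5, ← sub_neg_eq_add C 1, f6]
      apply fin
      have h1 : (S / (2 * C) + c * S / (2 * C * (C - c))) +
          (S / (2 * C) + u * S / (2 * C * (C - u))) +
          (S / (2 * C) + v * S / (2 * C * (C - v))) -
          2 * (S / (2 * C) + -(1 / 2) * S / (2 * C * (C - -(1 / 2)))) -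
          (S / (2 * C) + -1 * S / (2 * C * (C - -1))) - 2 * E * (1 + u) =
          (c * S / (2 * C * (C - c)) - E * c) + (u * S / (2 * C * (C - u)) - E * u) +
          (v * S / (2 * C * (C - v)) - E * v) -
          2 * (-(1 / 2) * S / (2 * C * (C - -(1 / 2))) - E * -(1 / 2)) -
          (-1 * S / (2 * C * (C - -1)) - E * -1) + E * ((c + v) - u) := by ring
      rw [h1, hcuv, sub_self, mul_zero, add_zero]
      exact key _ _ _ _ _ _ l1 l3 l4 l5 l6

end Pool.Agent.MML
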