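import Pool.Agent.MML.KerLim
import Pool.Agent.MML.KerIIIb
import Pool.Agent.MML.KerIIIc
import Pool.Agent.MML.ConstII

/-!
# MML, module ConstIII: the integral of the hump density of kernel III

As in ConstII: `kH3_le` and `dec_int` give the integrability of `exp (ρτ) kH3`; `ker_id` for `kerIII R` with
`W s t = exp (ρ s) cos (ρ t)`, `R → ∞`:
`1/2 = -(∫ exp (ρτ) kH3) (∫_{2π/3}^{4π/3} cos (ρ t) dt)`, `∫_{2π/3}^{4π/3} cos (ρ t) dt = (sin (4πρ/3) - sin (2πρ/3))/ρ = 2 cos (πρ) sin (πρ/3)/ρ`.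
`KH3_lt`: for `3/4 < ρ < 1` the value is `< ρ/2`: `-4 cos (πρ) sin (πρ/3) = 2 (sin (2πρ/3) - sin (4πρ/3)) > 2`; with `x = 2πρ/3 ∈ (π/2, 2π/3)`,
`sin x - sin (2x) = sin x (1 - 2 cos x)`, `sin x = √(1 - c²)`, `c = cos x ∈ (-½, 0)`: `(1 - c²)(1 - 2c)² > 1` since
`(1 - c²)(1 - 4c + 4c²) - 1 = -4c + 3c² + 4c³ - 4c⁴ > 0` for `c ∈ (-½, 0)`.
-/

set_option autoImplicit false

namespace Pool.Agent.MML

open Real MeasureTheory Set Filter Topology

theorem KH3_int {ρ : ℝ} (h1 : 1 / 2 < ρ) (h2 : ρ < 1) :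
    Integrable (fun τ => exp (ρ * τ) * kH3 τ) := by
  have hm : Continuous (fun τ => exp (ρ * τ) * kH3 τ) := by
    have := kH3_cont
    fun_prop
  obtain ⟨K, _, hK⟩ := kH3_le
  refine ((dec_int h1 h2).const_mul K).mono' hm.aestronglyMeasurable
    (ae_of_all _ fun τ => ?_)
  rw [Real.norm_of_nonneg (mul_nonneg (exp_pos _).le (kH3_nonneg τ))]
  calc exp (ρ * τ) * kH3 τ ≤ exp (ρ * τ) * (K * dec τ) :=
        mul_le_mul_of_nonneg_left (hK τ) (exp_pos _).le
    _ = K * (exp (ρ * τ) * dec τ) := by ring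

namespace ConstIIIAux

theorem int_cos {ρ : ℝ} (hρ : 0 < ρ) (τ : ℝ) :
    ∫ t in (2 * π / 3)..(4 * π / 3), exp (ρ * τ) * cos (ρ * t) =
      exp (ρ * τ) * (2 * cos (π * ρ) * sin (π * ρ / 3) / ρ) := by
  rw [intervalIntegral.integral_const_mul]
  congr 1
  rw [intervalIntegral.integral_comp_mul_left (fun x => cos x) hρ.ne', integral_cos,
    sin_sub_sin]
  rw [show (ρ * (4 * π / 3) - ρ * (2 * π / 3)) / 2 = π * ρ / 3 by ring,
    show (ρ * (4 * π / 3) + ρ * (2 * π / 3)) / 2 = π * ρ by ring, smul_eq_mul]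
  field_simp

theorem lim_F {ρ : ℝ} (h1 : 1 / 2 < ρ) (h2 : ρ < 1) :
    Tendsto (fun R : ℝ => ∫ τ in (-R)..R, chi R τ * (exp (ρ * τ) * kH3 τ)) atTop
      (𝓝 (∫ τ, exp (ρ * τ) * kH3 τ)) := by
  have hint := KH3_int h1 h2
  have hcont : Continuous (fun τ => exp (ρ * τ) * kH3 τ) := by
    have := kH3_cont
    fun_prop
  have hnn : ∀ τ, 0 ≤ exp (ρ * τ) * kH3 τ := fun τ => mul_nonneg (exp_pos _).le (kH3_nonneg τ)
  have e : ∀ᶠ R : ℝ in atTop,
      ∫ τ, (Ioc (-R) R).indicator (fun τ => chi R τ * (exp (ρ * τ) * kH3 τ)) τ =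
        ∫ τ in (-R)..R, chi R τ * (exp (ρ * τ) * kH3 τ) := by
    filter_upwards [eventually_ge_atTop (0 : ℝ)] with R hR
    rw [intervalIntegral.integral_of_le (by linarith), integral_indicator measurableSet_Ioc]
  refine Tendsto.congr' e ?_
  refine tendsto_integral_filter_of_dominated_convergence (fun τ => exp (ρ * τ) * kH3 τ) ?_ ?_
    hint ?_
  · filter_upwards [eventually_ge_atTop (2 : ℝ)] with R hR
    exact (((chi_cont hR).1.mul hcont).aestronglyMeasurable).indicator measurableSet_Ioc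
  · filter_upwards [eventually_ge_atTop (2 : ℝ)] with R hR
    refine ae_of_all _ fun τ => ?_
    by_cases h : τ ∈ Ioc (-R) R
    · rw [indicator_of_mem h, norm_mul, Real.norm_of_nonneg (hnn τ)]
      have hm := chi_mem hR (τ := τ) (abs_le.2 ⟨h.1.le, h.2⟩)
      rw [Real.norm_of_nonneg hm.1]
      exact mul_le_of_le_one_left (hnn τ) hm.2
    · rw [indicator_of_notMem h, norm_zero]
      exact hnn τ
  · refine ae_of_all _ fun τ => ?_
    have : Tendsto (fun R => chi R τ * (exp (ρ * τ) * kH3 τ)) atTop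
        (𝓝 (1 * (exp (ρ * τ) * kH3 τ))) := (chi_tendsto τ).mul_const _
    rw [one_mul] at this
    refine this.congr' ?_
    filter_upwards [eventually_gt_atTop |τ|] with R hR
    rw [indicator_of_mem]
    have := abs_lt.1 hR
    exact ⟨this.1, this.2.le⟩

theorem err {ρ K R τ : ℝ} (hK : 0 ≤ K)
    (hdec : ∀ τ, 1 ≤ |τ| → ∀ t ∈ Icc (0 : ℝ) (4 * π / 3),
      |gIII 0 τ t| ≤ K * dec τ ∧ |gIIIs 0 τ t| ≤ K * dec τ) (hR : 2 ≤ R) (hτ : |τ| ≤ R) :
    ‖∫ t in (0 : ℝ)..(4 * π / 3), (2 * chi1 R τ * gIIIs 0 τ t + chi2 R τ * gIII 0 τ t)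
      * (exp (ρ * τ) * cos (ρ * t))‖ ≤ (4 * π / 3 * (42 * K)) / (R - 1) * (exp (ρ * τ) * dec τ) := by
  have hR1 : 0 < R - 1 := by linarith
  have hd := ConstIIAux.dec_nonneg τ
  have he := (exp_pos (ρ * τ)).le
  have hpi := pi_pos
  have hb : ∀ t ∈ Set.uIoc (0 : ℝ) (4 * π / 3),
      ‖(2 * chi1 R τ * gIIIs 0 τ t + chi2 R τ * gIII 0 τ t) * (exp (ρ * τ) * cos (ρ * t))‖ ≤
        42 * K / (R - 1) * (exp (ρ * τ) * dec τ) := by
    intro t ht
    rw [uIoc_of_le (by positivity)] at ht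
    have ht' : t ∈ Icc (0 : ℝ) (4 * π / 3) := ⟨ht.1.le, ht.2⟩
    have hcos := abs_cos_le_one (ρ * t)
    rw [norm_mul, norm_mul, Real.norm_eq_abs, Real.norm_eq_abs, Real.norm_eq_abs, abs_exp]
    have hmain : |2 * chi1 R τ * gIIIs 0 τ t + chi2 R τ * gIII 0 τ t| ≤
        42 * K / (R - 1) * dec τ := by
      by_cases h : |τ| ≤ 1
      · obtain ⟨_, a, b⟩ := chi_one hR h
        rw [a, b]
        simp only [mul_zero, zero_mul, add_zero, abs_zero]
        positivity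
      · push Not at h
        obtain ⟨g1, g2⟩ := hdec τ h.le t ht'
        have c1 := chi1_bd hR hτ
        have c2 := chi2_bd hR hτ
        calc |2 * chi1 R τ * gIIIs 0 τ t + chi2 R τ * gIII 0 τ t|
            ≤ |2 * chi1 R τ * gIIIs 0 τ t| + |chi2 R τ * gIII 0 τ t| := abs_add_le _ _
          _ = 2 * (|chi1 R τ| * |gIIIs 0 τ t|) + |chi2 R τ| * |gIII 0 τ t| := by
              rw [abs_mul, abs_mul, abs_mul, abs_two]; ring
          _ ≤ 2 * (6 / (R - 1) * (K * dec τ)) + 30 / (R - 1) * (K * dec τ) := by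
              have m1 := mul_le_mul c1 g2 (abs_nonneg _) (by positivity)
              have m2 := mul_le_mul c2 g1 (abs_nonneg _) (by positivity)
              linarith
          _ = 42 * K / (R - 1) * dec τ := by ring
    calc |2 * chi1 R τ * gIIIs 0 τ t + chi2 R τ * gIII 0 τ t| * (exp (ρ * τ) * |cos (ρ * t)|)
        ≤ 42 * K / (R - 1) * dec τ * (exp (ρ * τ) * 1) := by
          apply mul_le_mul hmain _ (by positivity) (by positivity)
          exact mul_le_mul_of_nonneg_left hcos he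
      _ = 42 * K / (R - 1) * (exp (ρ * τ) * dec τ) := by ring
  have := intervalIntegral.norm_integral_le_of_norm_le_const hb
  refine this.trans (le_of_eq ?_)
  rw [sub_zero, abs_of_nonneg (by positivity)]
  ring

theorem key {ρ K R : ℝ} (h1 : 1 / 2 < ρ) (h2 : ρ < 1) (hK : 0 ≤ K)
    (hdec : ∀ τ, 1 ≤ |τ| → ∀ t ∈ Icc (0 : ℝ) (4 * π / 3),
      |gIII 0 τ t| ≤ K * dec τ ∧ |gIIIs 0 τ t| ≤ K * dec τ) (hR : 2 ≤ R) :
    |(2 * cos (π * ρ) * sin (π * ρ / 3) / ρ) *
      (∫ τ in (-R)..R, chi R τ * (exp (ρ * τ) * kH3 τ)) + 1 / 2| ≤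
        (4 * π / 3 * (42 * K)) * (∫ τ, exp (ρ * τ) * dec τ) / (R - 1) := by
  have hρ : 0 < ρ := by linarith
  have hR1 : 0 < R - 1 := by linarith
  have hpi := pi_pos
  obtain ⟨K0, hk⟩ := kerIII R hR
  have hid := ker_id hk (ConstIIAux.c2f ρ) (by intro τ; simp) (by intro τ t; ring)
  simp only [mul_zero, exp_zero, cos_zero, mul_one] at hid
  unfold kerPart at hid
  set c : ℝ := 2 * cos (π * ρ) * sin (π * ρ / 3) / ρ with hc
  set A : ℝ → ℝ := fun τ => c * (chi R τ * (exp (ρ * τ) * kH3 τ)) with hA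
  set B : ℝ → ℝ := fun τ => ∫ t in (0 : ℝ)..(4 * π / 3),
    (2 * chi1 R τ * gIIIs 0 τ t + chi2 R τ * gIII 0 τ t) * (exp (ρ * τ) * cos (ρ * t)) with hB
  have hAB : (fun τ => (chi R τ * (0 * (∫ t in (0 : ℝ)..(2 * π / 3), exp (ρ * τ) * cos (ρ * t))
      + kH3 τ * ∫ t in (2 * π / 3)..(4 * π / 3), exp (ρ * τ) * cos (ρ * t))
    + ∫ t in (0 : ℝ)..(4 * π / 3), (2 * chi1 R τ * gIIIs 0 τ t + chi2 R τ * gIII 0 τ t)
      * (exp (ρ * τ) * cos (ρ * t)))) = fun τ => A τ + B τ := by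
    funext τ
    rw [int_cos hρ τ]
    simp only [hA, hB, hc]
    ring
  have hid' : 1 / 2 = -∫ τ in (-R)..R, (A τ + B τ) := by
    rw [← hAB]; exact hid
  have hcont : Continuous (fun τ => exp (ρ * τ) * kH3 τ) := by
    have := kH3_cont
    fun_prop
  have hAi : IntervalIntegrable A volume (-R) R := by
    apply Continuous.intervalIntegrable
    exact continuous_const.mul ((chi_cont hR).1.mul hcont)
  have hABi : IntervalIntegrable (fun τ => A τ + B τ) volume (-R) R := by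
    by_contra hno
    rw [intervalIntegral.integral_undef hno] at hid'
    norm_num at hid'
  have hBi : IntervalIntegrable B volume (-R) R := by
    have := hABi.sub hAi
    refine this.congr ?_
    intro τ _
    simp
  rw [intervalIntegral.integral_add hAi hBi] at hid'
  have hAe : ∫ τ in (-R)..R, A τ = c * ∫ τ in (-R)..R, chi R τ * (exp (ρ * τ) * kH3 τ) := by
    simp only [hA]
    rw [intervalIntegral.integral_const_mul]
  have e : c * (∫ τ in (-R)..R, chi R τ * (exp (ρ * τ) * kH3 τ)) + 1 / 2 = -∫ τ in (-R)..R, B τ := by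
    rw [← hAe]; linarith
  rw [e, abs_neg, ← Real.norm_eq_abs]
  have hdi := dec_int h1 h2
  have hb : ∀ᵐ τ : ℝ, τ ∈ Ioc (-R) R →
      ‖B τ‖ ≤ (4 * π / 3 * (42 * K)) / (R - 1) * (exp (ρ * τ) * dec τ) := by
    refine ae_of_all _ fun τ hτ => ?_
    exact err hK hdec hR (abs_le.2 ⟨hτ.1.le, hτ.2⟩)
  have hgi : IntervalIntegrable (fun τ => (4 * π / 3 * (42 * K)) / (R - 1) * (exp (ρ * τ) * dec τ))
      volume (-R) R := (hdi.const_mul _).intervalIntegrable
  have h3 := intervalIntegral.norm_integral_le_of_norm_le (by linarith) hb hgi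
  refine h3.trans ?_
  rw [intervalIntegral.integral_const_mul, intervalIntegral.integral_of_le (by linarith)]
  have h4 : ∫ τ in Ioc (-R) R, exp (ρ * τ) * dec τ ≤ ∫ τ, exp (ρ * τ) * dec τ := by
    apply setIntegral_le_integral hdi
    exact ae_of_all _ fun τ => mul_nonneg (exp_pos _).le (ConstIIAux.dec_nonneg τ)
  have h5 := mul_le_mul_of_nonneg_left h4
    (show 0 ≤ (4 * π / 3 * (42 * K)) / (R - 1) by positivity)
  refine h5.trans (le_of_eq ?_)
  ring

end ConstIIIAux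

theorem KH3_eq {ρ : ℝ} (h1 : 1 / 2 < ρ) (h2 : ρ < 1) :
    ∫ τ, exp (ρ * τ) * kH3 τ = ρ / (-4 * cos (π * ρ) * sin (π * ρ / 3)) := by
  set c : ℝ := 2 * cos (π * ρ) * sin (π * ρ / 3) / ρ with hc
  have hρ : 0 < ρ := by linarith
  have hcos : cos (π * ρ) < 0 := by
    apply cos_neg_of_pi_div_two_lt_of_lt
    · nlinarith [pi_pos]
    · nlinarith [pi_pos]
  have hsin : 0 < sin (π * ρ / 3) := by
    apply sin_pos_of_pos_of_lt_pi
    · have := pi_pos; positivity
    · nlinarith [pi_pos]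
  obtain ⟨K, hK, hdec⟩ := gIII_decay
  set J : ℝ := ∫ τ, exp (ρ * τ) * dec τ with hJ
  have key : ∀ R : ℝ, 2 ≤ R →
      |c * (∫ τ in (-R)..R, chi R τ * (exp (ρ * τ) * kH3 τ)) + 1 / 2| ≤
        (4 * π / 3 * (42 * K)) * J / (R - 1) := fun R hR =>
    ConstIIIAux.key h1 h2 hK hdec hR
  have l1 := ConstIIIAux.lim_F h1 h2
  have l2 : Tendsto (fun R : ℝ => c * (∫ τ in (-R)..R, chi R τ * (exp (ρ * τ) * kH3 τ)) + 1 / 2)
      atTop (𝓝 (c * (∫ τ, exp (ρ * τ) * kH3 τ) + 1 / 2)) := (l1.const_mul c).add_const _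
  have l3 : Tendsto (fun R : ℝ => (4 * π / 3 * (42 * K)) * J / (R - 1)) atTop (𝓝 0) := by
    apply Tendsto.div_atTop tendsto_const_nhds
    exact tendsto_atTop_add_const_right _ _ tendsto_id
  have l4 : Tendsto (fun R : ℝ => c * (∫ τ in (-R)..R, chi R τ * (exp (ρ * τ) * kH3 τ)) + 1 / 2)
      atTop (𝓝 0) := by
    apply squeeze_zero_norm' _ l3
    filter_upwards [eventually_ge_atTop 2] with R hR
    rw [Real.norm_eq_abs]
    exact key R hR
  have h0 := tendsto_nhds_unique l2 l4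
  set I : ℝ := ∫ τ, exp (ρ * τ) * kH3 τ with hI
  have h5 : 2 * cos (π * ρ) * sin (π * ρ / 3) * I = - (ρ / 2) := by
    have : c * I = - (1 / 2) := by linarith
    rw [hc] at this
    field_simp at this ⊢
    linarith
  have hne : (-4 * cos (π * ρ) * sin (π * ρ / 3)) ≠ 0 :=
    mul_ne_zero (mul_ne_zero (by norm_num) hcos.ne) hsin.ne'
  rw [eq_div_iff hne]
  linarith

theorem KH3_lt {ρ : ℝ} (h1 : 3 / 4 < ρ) (h2 : ρ < 1) : ∫ τ, exp (ρ * τ) * kH3 τ < ρ / 2 := by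
  rw [KH3_eq (by linarith) h2]
  have hpi := pi_pos
  set x : ℝ := 2 * π * ρ / 3 with hx
  have e1 : -4 * cos (π * ρ) * sin (π * ρ / 3) = 2 * (sin x - sin (2 * x)) := by
    rw [sin_sub_sin]
    rw [show (x - 2 * x) / 2 = -(π * ρ / 3) by rw [hx]; ring,
      show (x + 2 * x) / 2 = π * ρ by rw [hx]; ring, sin_neg]
    ring
  have hx1 : π / 2 < x := by rw [hx]; nlinarith
  have hx2 : x < 2 * π / 3 := by rw [hx]; nlinarith
  have hc1 : cos x < 0 := cos_neg_of_pi_div_two_lt_of_lt hx1 (by linarith)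
  have hc2 : -(1 / 2) < cos x := by
    have h3 : cos (2 * π / 3) < cos x :=
      cos_lt_cos_of_nonneg_of_le_pi (by linarith) (by linarith) hx2
    have h4 : cos (2 * π / 3) = -(1 / 2) := by
      rw [show 2 * π / 3 = π - π / 3 by ring, cos_pi_sub, cos_pi_div_three]
    linarith
  have hs : 0 < sin x := sin_pos_of_pos_of_lt_pi (by linarith) (by linarith)
  have hsc := sin_sq_add_cos_sq x
  have key : 1 < sin x - sin (2 * x) := by
    rw [sin_two_mul]
    have e2 : sin x - 2 * sin x * cos x = sin x * (1 - 2 * cos x) := by ring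
    rw [e2]
    set c := cos x with hc
    have h5 : 0 < sin x * (1 - 2 * c) := by
      refine mul_pos hs (by linarith)
    have h6 : 1 < (sin x * (1 - 2 * c)) ^ 2 := by
      have e3 : (sin x * (1 - 2 * c)) ^ 2 = (1 - c ^ 2) * (1 - 2 * c) ^ 2 := by
        rw [mul_pow, show sin x ^ 2 = 1 - c ^ 2 by linarith]
      rw [e3]
      have e4 : (1 - c ^ 2) * (1 - 2 * c) ^ 2 - 1 =
          -c * (4 - 3 * c - 4 * c ^ 2 + 4 * c ^ 3) := by ring
      have h7 : c ^ 2 ≤ 1 / 4 := by nlinarith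
      have h8 : -(1 / 8) ≤ c ^ 3 := by nlinarith
      have h9 : 0 < -c * (4 - 3 * c - 4 * c ^ 2 + 4 * c ^ 3) :=
        mul_pos (by linarith) (by nlinarith)
      linarith
    nlinarith
  rw [e1, div_lt_div_iff₀ (by linarith) (by norm_num)]
  have hρ : 0 < ρ := by linarith
  nlinarith

end Pool.Agent.MML
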