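import Pool.Agent.MML.Defs

/-!
# MML, module ConstZ: upper bound of the integral of `mz`

`ρ = 8/9`.  With `ω = exp (-τ/2)`: `(C - 1)/(C + 1) = ((1 - ω)/(1 + ω))²`, `gz τ = (ω - A(ω))/π`, `A(ω) = ½ log |(1 + ω)/(1 - ω)|`,
`exp (ρτ) dτ = -2 ω^(-2ρ-1) dω`, so `∫_ℝ exp (ρτ) mz τ dτ = (2/π) ∫_0^∞ ω^(-2ρ-1) (A(ω) - ω)⁺ dω`, `ω^(-2ρ-1) = ω^(-3) ω^(2/9)`.
Integrability: `A(ω) - ω = O(ω³)` at `0`, logarithmic singularity at `ω = 1`, and for `ω ≥ 1.2` `A(ω) - ω < 0` (`A` is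
decreasing on `(1, ∞)`, `A(1.2) = ½ log 11 < 1.2`).
Weighted AM-GM (concavity) `ω^(2/9) ≤ p^(2/9) (7/9 + (2/9) ω/p)`: use `p = 1/4` for `ω ≤ 1/2` (`(1/4)^(2/9) ≤ 0.7349`) and `p = 1`
for `1/2 ≤ ω ≤ 1.2`.
Primitives: `F3(ω) = ½ (1 - ω⁻²) A(ω) + ½ ω⁻¹` of `ω⁻³ (A(ω) - ω)`, `F3(0+) = 0`;
`F2(ω) = 1 - A(ω)/ω - ½ log |1 - ω²|` of `ω⁻² (A(ω) - ω)`, `F2(0+) = 0` (both are continuous at `ω = 1`:
`F3(1) = 1/2`, `F2(1) = 1 - log 2`).
`F3(1/2) = 1 - (3/4) log 3 = 0.176041`, `F2(1/2) = 1 + log 2 - (3/2) log 3 = 0.045229`,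
`F3(1.2) = (11/144) log 11 + 5/12 = 0.599838`, `F2(1.2) = 1 - (5/12) log 11 - ½ log 0.44 = 0.411367`.
Total: `(2/π) [0.7349 (7/9 · 0.176041 + 8/9 · 0.045229) + 7/9 (0.599838 - 0.176041) + 2/9 (0.411367 - 0.045229)] = 0.34453`.
The positive part: `A(ω) - ω > 0` on `(0, 1)` and on `(1, 1.19]` (`A` decreasing, `A(1.19) > 1.19`), and on `[1.19, 1.2]`
`(A(ω) - ω)⁺ ≤ A(ω) - ω + 0.0011`, which costs at most `(2/π) · 0.01 · 0.0011`.
It is also possible to work directly in `τ`: `exp (ρτ) = exp τ · exp (-τ/9)` and `exp (-τ/9) ≤ p^(2/9) (7/9 + (2/9) exp (-τ/2)/p)`.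
-/

set_option autoImplicit false

namespace Pool.Agent.MML

open Real MeasureTheory Set Filter Topology

namespace ConstZAux

/-- `A` -/
noncomputable def cA (w : ℝ) : ℝ := (log (1 + w) - log (1 - w)) / 2

/-- primitive of `w⁻³ (A - w)` -/
noncomputable def cF3 (w : ℝ) : ℝ :=
  (1 - (w ^ 2)⁻¹) * log (1 + w) / 4 + (1 + w) * (w ^ 2)⁻¹ * ((1 - w) * log (1 - w)) / 4 + w⁻¹ / 2

/-- primitive of `w⁻² (A - w)` -/
noncomputable def cF2 (w : ℝ) : ℝ :=
  1 - (1 + w⁻¹) * log (1 + w) / 2 + w⁻¹ * ((1 - w) * log (1 - w)) / 2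

theorem hasDeriv_F3 {w : ℝ} (h0 : 0 < w) (h1 : w ≠ 1) :
    HasDerivAt cF3 ((w ^ 3)⁻¹ * (cA w - w)) w := by
  have hw : w ≠ 0 := h0.ne'
  have hp : 1 + w ≠ 0 := by positivity
  have hm : 1 - w ≠ 0 := sub_ne_zero.2 h1.symm
  have d1 : HasDerivAt (fun x : ℝ => log (1 + x)) (1 / (1 + w)) w :=
    ((hasDerivAt_id w).const_add 1).log hp
  have d2 : HasDerivAt (fun x : ℝ => log (1 - x)) (-1 / (1 - w)) w :=
    ((hasDerivAt_id w).const_sub 1).log hm
  have d3 : HasDerivAt (fun x : ℝ => (x ^ 2)⁻¹) (-(2 * w) / (w ^ 2) ^ 2) w := by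
    have := (hasDerivAt_pow 2 w).fun_inv (by positivity)
    simpa using this
  have d4 : HasDerivAt (fun x : ℝ => x⁻¹) (-(w ^ 2)⁻¹) w := hasDerivAt_inv hw
  have d5 : HasDerivAt (fun x : ℝ => (1 - x) * log (1 - x))
      ((-1) * log (1 - w) + (1 - w) * (-1 / (1 - w))) w :=
    ((hasDerivAt_id w).const_sub 1).mul d2
  have d6 : HasDerivAt (fun x : ℝ => (1 + x) * (x ^ 2)⁻¹)
      (1 * (w ^ 2)⁻¹ + (1 + w) * (-(2 * w) / (w ^ 2) ^ 2)) w :=
    ((hasDerivAt_id w).const_add 1).mul d3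
  have d := (((((d3.const_sub 1).mul d1).div_const 4).add ((d6.mul d5).div_const 4)).add
    (d4.div_const 2))
  refine (d.congr_deriv ?_)
  unfold cA
  field_simp
  ring

theorem hasDeriv_F2 {w : ℝ} (h0 : 0 < w) (h1 : w ≠ 1) :
    HasDerivAt cF2 ((w ^ 2)⁻¹ * (cA w - w)) w := by
  have hw : w ≠ 0 := h0.ne'
  have hp : 1 + w ≠ 0 := by positivity
  have hm : 1 - w ≠ 0 := sub_ne_zero.2 h1.symm
  have d1 : HasDerivAt (fun x : ℝ => log (1 + x)) (1 / (1 + w)) w :=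
    ((hasDerivAt_id w).const_add 1).log hp
  have d2 : HasDerivAt (fun x : ℝ => log (1 - x)) (-1 / (1 - w)) w :=
    ((hasDerivAt_id w).const_sub 1).log hm
  have d4 : HasDerivAt (fun x : ℝ => x⁻¹) (-(w ^ 2)⁻¹) w := hasDerivAt_inv hw
  have d5 : HasDerivAt (fun x : ℝ => (1 - x) * log (1 - x))
      ((-1) * log (1 - w) + (1 - w) * (-1 / (1 - w))) w :=
    ((hasDerivAt_id w).const_sub 1).mul d2
  have d := ((((d4.const_add 1).mul d1).div_const 2).const_sub 1).add ((d4.mul d5).div_const 2)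
  refine (d.congr_deriv ?_)
  unfold cA
  field_simp
  ring

/-- the primitives in `τ` -/
noncomputable def pr (α β κ τ : ℝ) : ℝ :=
  -2 * (α * cF3 (exp (-τ / 2)) + β * cF2 (exp (-τ / 2))) + κ * (α * exp τ + 2 * β * exp (τ / 2))

/-- their derivatives -/
noncomputable def dp (α β κ τ : ℝ) : ℝ :=
  (α * exp τ + β * exp (τ / 2)) * (cA (exp (-τ / 2)) - exp (-τ / 2) + κ)

theorem exp_w2 (τ : ℝ) : exp τ = (exp (-τ / 2) ^ 2)⁻¹ := by
  rw [← exp_nat_mul, ← exp_neg]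
  congr 1
  push_cast
  ring

theorem exp_w1 (τ : ℝ) : exp (τ / 2) = (exp (-τ / 2))⁻¹ := by
  rw [← exp_neg]
  congr 1
  ring

theorem w_ne_one {τ : ℝ} (h : τ ≠ 0) : exp (-τ / 2) ≠ 1 := by
  rw [Ne, exp_eq_one_iff]
  intro h'
  apply h
  linarith

theorem pr_deriv (α β κ : ℝ) {τ : ℝ} (h : τ ≠ 0) : HasDerivAt (pr α β κ) (dp α β κ τ) τ := by
  have hw0 : 0 < exp (-τ / 2) := exp_pos _
  have dw : HasDerivAt (fun x : ℝ => exp (-x / 2)) (exp (-τ / 2) * (-1 / 2)) τ := by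
    have h1 : HasDerivAt (fun x : ℝ => -x / 2) (-1 / 2) τ := ((hasDerivAt_id τ).neg).div_const 2
    exact h1.exp
  have de : HasDerivAt (fun x : ℝ => exp x) (exp τ) τ := hasDerivAt_exp τ
  have de2 : HasDerivAt (fun x : ℝ => exp (x / 2)) (exp (τ / 2) * (1 / 2)) τ := by
    have h1 : HasDerivAt (fun x : ℝ => x / 2) (1 / 2) τ := (hasDerivAt_id τ).div_const 2
    exact h1.exp
  have d3 := (hasDeriv_F3 hw0 (w_ne_one h)).comp τ dw
  have d2 := (hasDeriv_F2 hw0 (w_ne_one h)).comp τ dw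
  have d := (((d3.const_mul α).add (d2.const_mul β)).const_mul (-2)).add
    (((de.const_mul α).add (de2.const_mul (2 * β))).const_mul κ)
  refine d.congr_deriv ?_
  unfold dp
  rw [exp_w2 τ, exp_w1 τ]
  field_simp
  ring

theorem F3_cont : Continuous (fun τ : ℝ => cF3 (exp (-τ / 2))) := by
  have hw : Continuous (fun τ : ℝ => exp (-τ / 2)) := by fun_prop
  have h1 : Continuous (fun τ : ℝ => (1 - exp (-τ / 2)) * log (1 - exp (-τ / 2))) :=
    Real.continuous_mul_log.comp (continuous_const.sub hw)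
  have h2 : Continuous (fun τ : ℝ => log (1 + exp (-τ / 2))) :=
    (continuous_const.add hw).log fun τ => (add_pos one_pos (exp_pos _)).ne'
  have h3 : Continuous (fun τ : ℝ => (exp (-τ / 2) ^ 2)⁻¹) :=
    (hw.pow 2).inv₀ fun τ => pow_ne_zero 2 (exp_pos _).ne'
  have h4 : Continuous (fun τ : ℝ => (exp (-τ / 2))⁻¹) := hw.inv₀ fun τ => (exp_pos _).ne'
  unfold cF3
  fun_prop

theorem F2_cont : Continuous (fun τ : ℝ => cF2 (exp (-τ / 2))) := by
  have hw : Continuous (fun τ : ℝ => exp (-τ / 2)) := by fun_prop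
  have h1 : Continuous (fun τ : ℝ => (1 - exp (-τ / 2)) * log (1 - exp (-τ / 2))) :=
    Real.continuous_mul_log.comp (continuous_const.sub hw)
  have h2 : Continuous (fun τ : ℝ => log (1 + exp (-τ / 2))) :=
    (continuous_const.add hw).log fun τ => (add_pos one_pos (exp_pos _)).ne'
  have h4 : Continuous (fun τ : ℝ => (exp (-τ / 2))⁻¹) := hw.inv₀ fun τ => (exp_pos _).ne'
  unfold cF2
  fun_prop

theorem pr_cont (α β κ : ℝ) : Continuous (pr α β κ) := by
  have h1 := F3_cont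
  have h2 := F2_cont
  unfold pr
  fun_prop

theorem cA_eq {w : ℝ} (h0 : 0 < w) (h1 : w < 1) : cA w = 1 / 2 * log ((1 + w) / (1 - w)) := by
  unfold cA
  rw [log_div (by positivity) (by linarith)]
  ring

theorem cA_ge {w : ℝ} (h0 : 0 < w) (h1 : w < 1) : w ≤ cA w := by
  rw [cA_eq h0 h1]
  have h := sum_range_le_log_div h0.le h1 1
  simpa using h

theorem cA_le {w : ℝ} (h0 : 0 < w) (h1 : w ≤ 1 / 2) : cA w ≤ w + (4 / 3) * w ^ 3 := by
  rw [cA_eq h0 (by linarith)]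
  have h := log_div_le_sum_range_add h0.le (by linarith) 1
  have e : ∑ i ∈ Finset.range 1, w ^ (2 * i + 1) / (2 * (i : ℝ) + 1) = w := by simp
  rw [e] at h
  refine h.trans ?_
  have h2 : w ^ (2 * 1 + 1) / (1 - w ^ 2) ≤ (4 / 3) * w ^ 3 := by
    rw [div_le_iff₀ (by nlinarith)]
    have : 0 < w ^ 3 := by positivity
    have h3 : 1 ≤ (4 / 3) * (1 - w ^ 2) := by nlinarith
    calc w ^ (2 * 1 + 1) = w ^ 3 * 1 := by ring
      _ ≤ w ^ 3 * ((4 / 3) * (1 - w ^ 2)) := mul_le_mul_of_nonneg_left h3 this.le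
      _ = _ := by ring
  linarith

/-- `log 11` -/
theorem log_eleven_lt : log 11 < 2.3978954 := by
  have h1 : log ((1 + 1 / 241) / (1 - 1 / 241) : ℝ) = 2 * log 11 - 3 * log 2 - log 3 - log 5 := by
    have e : ((1 + 1 / 241) / (1 - 1 / 241) : ℝ) = 11 ^ 2 / (2 ^ 3 * 3 * 5) := by norm_num
    rw [e, log_div (by norm_num) (by norm_num), log_mul (by norm_num) (by norm_num),
      log_mul (by norm_num) (by norm_num), log_pow, log_pow]
    push_cast
    ring
  have h2 := log_div_le_sum_range_add (x := 1 / 241) (by norm_num) (by norm_num) 1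
  rw [h1] at h2
  have e : ∑ i ∈ Finset.range 1, (1 / 241 : ℝ) ^ (2 * i + 1) / (2 * (i : ℝ) + 1) = 1 / 241 := by
    simp
  rw [e] at h2
  have h3 := log_two_lt_d9
  have h4 := log_three_lt_d9
  have h5 := log_five_lt_d9
  norm_num at h2
  linarith

theorem log_eleven_gt : 2.3978950 < log 11 := by
  have h1 : log ((1 + 1 / 241) / (1 - 1 / 241) : ℝ) = 2 * log 11 - 3 * log 2 - log 3 - log 5 := by
    have e : ((1 + 1 / 241) / (1 - 1 / 241) : ℝ) = 11 ^ 2 / (2 ^ 3 * 3 * 5) := by norm_num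
    rw [e, log_div (by norm_num) (by norm_num), log_mul (by norm_num) (by norm_num),
      log_mul (by norm_num) (by norm_num), log_pow, log_pow]
    push_cast
    ring
  have h2 := sum_range_le_log_div (x := 1 / 241) (by norm_num) (by norm_num) 1
  rw [h1] at h2
  have e : ∑ i ∈ Finset.range 1, (1 / 241 : ℝ) ^ (2 * i + 1) / (2 * (i : ℝ) + 1) = 1 / 241 := by
    simp
  rw [e] at h2
  have h3 := log_two_gt_d9
  have h4 := log_three_gt_d9
  have h5 := log_five_gt_d9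
  norm_num at h2
  linarith

/-- for `w ≥ 1.2` -/
theorem cA_big {w : ℝ} (h : 1.2 ≤ w) : cA w ≤ w := by
  have h1 : log (1 - w) = log (w - 1) := by
    rw [← log_neg_eq_log]
    congr 1
    ring
  have h2 : cA w = 1 / 2 * log ((1 + w) / (w - 1)) := by
    unfold cA
    rw [h1, log_div (by linarith) (by linarith)]
    ring
  have h3 : log ((1 + w) / (w - 1)) ≤ log 11 := by
    refine log_le_log (div_pos (by linarith) (by linarith)) ?_
    rw [div_le_iff₀ (by linarith)]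
    linarith
  have h4 := log_eleven_lt
  rw [h2]
  linarith

/-- for `1 < w < 1.2` -/
theorem cA_mid {w : ℝ} (h1w : 1 < w) (h : w < 1.2) : 0 ≤ cA w - w + 0.00106 := by
  have h1 : log (1 - w) = log (w - 1) := by
    rw [← log_neg_eq_log]
    congr 1
    ring
  have h2 : cA w = 1 / 2 * log ((1 + w) / (w - 1)) := by
    unfold cA
    rw [h1, log_div (by linarith) (by linarith)]
    ring
  have h3 : log 11 ≤ log ((1 + w) / (w - 1)) := by
    refine log_le_log (by norm_num) ?_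
    rw [le_div_iff₀ (by linarith)]
    linarith
  have h4 := log_eleven_gt
  rw [h2]
  linarith

theorem gz_eq {τ : ℝ} (h : τ ≠ 0) : gz τ = (exp (-τ / 2) - cA (exp (-τ / 2))) / π := by
  set w := exp (-τ / 2) with hw
  have hw0 : 0 < w := exp_pos _
  have hw1 : w ≠ 1 := w_ne_one h
  have hc : cosh (τ / 2) = (w⁻¹ + w) / 2 := by
    rw [cosh_eq, exp_w1 τ]
    congr 3
    ring
  have h1 : (cosh (τ / 2) - 1) / (cosh (τ / 2) + 1) = ((1 - w) / (1 + w)) ^ 2 := by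
    rw [hc]
    have : w⁻¹ + w + 2 ≠ 0 := by positivity
    have h3 : (w⁻¹ + w) / 2 + 1 ≠ 0 := by positivity
    field_simp
    ring
  unfold gz cA
  rw [h1, log_pow, log_div (sub_ne_zero.2 hw1.symm) (by positivity), ← hw]
  have := pi_pos
  push_cast
  field_simp
  ring

theorem mz_eq {τ : ℝ} (h : τ ≠ 0) :
    mz τ = max 0 ((cA (exp (-τ / 2)) - exp (-τ / 2)) / π) := by
  unfold mz
  rw [gz_eq h]
  congr 1
  ring

theorem mz_nonneg (τ : ℝ) : 0 ≤ mz τ := le_max_left _ _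

theorem mz_meas : Measurable mz := by
  unfold mz gz
  have h1 : Measurable (fun τ : ℝ => cosh (τ / 2)) := by
    exact (Real.continuous_cosh.comp (continuous_id.div_const 2)).measurable
  have h2 : Measurable (fun τ : ℝ => exp (-τ / 2)) := by fun_prop
  exact measurable_const.max (((measurable_const.mul ((measurable_const.mul h2).add
    ((h1.sub_const 1).div (h1.add_const 1)).log))).neg)

theorem exp_split (τ : ℝ) : exp ((8 / 9 : ℝ) * τ) = exp τ * exp (-τ / 2) ^ (2 / 9 : ℝ) := by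
  rw [← exp_mul, ← exp_add]
  congr 1
  ring

theorem exp_mul_w (τ : ℝ) : exp τ * exp (-τ / 2) = exp (τ / 2) := by
  rw [← exp_add]
  congr 1
  ring

theorem exp_bd1 (τ : ℝ) : exp ((8 / 9 : ℝ) * τ) ≤ 7 / 9 * exp τ + 2 / 9 * exp (τ / 2) := by
  have hw0 : 0 < exp (-τ / 2) := exp_pos _
  have h := rpow_one_add_le_one_add_mul_self (s := exp (-τ / 2) - 1) (by linarith)
    (p := 2 / 9) (by norm_num) (by norm_num)
  have e : 1 + (exp (-τ / 2) - 1) = exp (-τ / 2) := by ring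
  rw [e] at h
  rw [exp_split]
  calc exp τ * exp (-τ / 2) ^ (2 / 9 : ℝ) ≤ exp τ * (1 + 2 / 9 * (exp (-τ / 2) - 1)) :=
        mul_le_mul_of_nonneg_left h (exp_pos _).le
    _ = 7 / 9 * exp τ + 2 / 9 * (exp τ * exp (-τ / 2)) := by ring
    _ = _ := by rw [exp_mul_w]

theorem four_rpow : (1 : ℝ) ≤ 0.7349 * (4 : ℝ) ^ (2 / 9 : ℝ) := by
  have h9 : ((4 : ℝ) ^ (2 / 9 : ℝ)) ^ 9 = 16 := by
    rw [← rpow_natCast, ← rpow_mul (by norm_num)]
    have : (2 / 9 : ℝ) * ((9 : ℕ) : ℝ) = ((2 : ℕ) : ℝ) := by norm_num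
    rw [this, rpow_natCast]
    norm_num
  have h0 : 0 ≤ (4 : ℝ) ^ (2 / 9 : ℝ) := by positivity
  by_contra hcon
  rw [not_le] at hcon
  have h1 : (4 : ℝ) ^ (2 / 9 : ℝ) < 1 / 0.7349 := by
    rw [lt_div_iff₀ (by norm_num)]
    linarith
  have h2 : ((4 : ℝ) ^ (2 / 9 : ℝ)) ^ 9 < (1 / 0.7349) ^ 9 := pow_lt_pow_left₀ h1 h0 (by norm_num)
  rw [h9] at h2
  norm_num at h2

theorem exp_bd4 (τ : ℝ) : exp ((8 / 9 : ℝ) * τ) ≤
    0.7349 * (7 / 9) * exp τ + 0.7349 * (8 / 9) * exp (τ / 2) := by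
  have hw0 : 0 < exp (-τ / 2) := exp_pos _
  have h := rpow_one_add_le_one_add_mul_self (s := 4 * exp (-τ / 2) - 1) (by linarith)
    (p := 2 / 9) (by norm_num) (by norm_num)
  have e : 1 + (4 * exp (-τ / 2) - 1) = 4 * exp (-τ / 2) := by ring
  rw [e, mul_rpow (by norm_num) hw0.le] at h
  have h3 : exp (-τ / 2) ^ (2 / 9 : ℝ) ≤ 0.7349 * (7 / 9 + 8 / 9 * exp (-τ / 2)) := by
    have h4 : 0 ≤ exp (-τ / 2) ^ (2 / 9 : ℝ) := by positivity
    calc exp (-τ / 2) ^ (2 / 9 : ℝ) = 1 * exp (-τ / 2) ^ (2 / 9 : ℝ) := by ring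
      _ ≤ (0.7349 * (4 : ℝ) ^ (2 / 9 : ℝ)) * exp (-τ / 2) ^ (2 / 9 : ℝ) :=
          mul_le_mul_of_nonneg_right four_rpow h4
      _ = 0.7349 * ((4 : ℝ) ^ (2 / 9 : ℝ) * exp (-τ / 2) ^ (2 / 9 : ℝ)) := by ring
      _ ≤ 0.7349 * (1 + 2 / 9 * (4 * exp (-τ / 2) - 1)) :=
          mul_le_mul_of_nonneg_left h (by norm_num)
      _ = _ := by ring
  rw [exp_split]
  calc exp τ * exp (-τ / 2) ^ (2 / 9 : ℝ) ≤ exp τ * (0.7349 * (7 / 9 + 8 / 9 * exp (-τ / 2))) :=
        mul_le_mul_of_nonneg_left h3 (exp_pos _).le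
    _ = 0.7349 * (7 / 9) * exp τ + 0.7349 * (8 / 9) * (exp τ * exp (-τ / 2)) := by ring
    _ = _ := by rw [exp_mul_w]

/-- the two break points -/
noncomputable def pa : ℝ := -2 * log 1.2

noncomputable def pb : ℝ := 2 * log 2

theorem pa_neg : pa < 0 := by
  have := log_pos (x := 1.2) (by norm_num)
  unfold pa
  linarith

theorem pb_pos : 0 < pb := by
  have := log_pos (x := 2) (by norm_num)
  unfold pb
  linarith

theorem w_pa : exp (-pa / 2) = 1.2 := by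
  have e : -pa / 2 = log 1.2 := by unfold pa; ring
  rw [e, exp_log (by norm_num)]

theorem w_pb : exp (-pb / 2) = 1 / 2 := by
  have e : -pb / 2 = -log 2 := by unfold pb; ring
  rw [e, exp_neg, exp_log (by norm_num)]
  norm_num

theorem w_anti {x y : ℝ} (h : x < y) : exp (-y / 2) < exp (-x / 2) := exp_lt_exp.2 (by linarith)

theorem w_zero : exp (-(0 : ℝ) / 2) = 1 := by simp

theorem mz_zero_of {τ : ℝ} (h : τ ≤ pa) : mz τ = 0 := by
  have hne : τ ≠ 0 := (lt_of_le_of_lt h pa_neg).ne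
  have hw : 1.2 ≤ exp (-τ / 2) := by
    rw [← w_pa]
    exact exp_le_exp.2 (by linarith)
  have h2 := cA_big hw
  rw [mz_eq hne]
  refine max_eq_left ?_
  exact div_nonpos_of_nonpos_of_nonneg (by linarith) pi_pos.le

theorem mz_mid {τ : ℝ} (h : τ ∈ Ioo pa 0) :
    mz τ ≤ (cA (exp (-τ / 2)) - exp (-τ / 2) + 0.00106) / π ∧
      0 ≤ cA (exp (-τ / 2)) - exp (-τ / 2) + 0.00106 := by
  have hw1 : 1 < exp (-τ / 2) := by
    rw [← w_zero]
    exact w_anti h.2
  have hw2 : exp (-τ / 2) < 1.2 := by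
    rw [← w_pa]
    exact w_anti h.1
  have h3 := cA_mid hw1 hw2
  refine ⟨?_, h3⟩
  rw [mz_eq h.2.ne]
  refine max_le (div_nonneg h3 pi_pos.le) (div_le_div_of_nonneg_right (by linarith) pi_pos.le)

theorem mz_pos {τ : ℝ} (h : 0 < τ) :
    mz τ = (cA (exp (-τ / 2)) - exp (-τ / 2)) / π ∧
      0 ≤ cA (exp (-τ / 2)) - exp (-τ / 2) := by
  have hw1 : exp (-τ / 2) < 1 := by
    rw [← w_zero]
    exact w_anti h
  have h3 := cA_ge (exp_pos (-τ / 2)) hw1
  have h4 : 0 ≤ cA (exp (-τ / 2)) - exp (-τ / 2) := by linarith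
  refine ⟨?_, h4⟩
  rw [mz_eq h.ne']
  exact max_eq_right (div_nonneg h4 pi_pos.le)

theorem dp_int_mid {α β : ℝ} (ha : 0 ≤ α) (hb : 0 ≤ β) :
    IntegrableOn (dp α β 0.00106) (Ioc pa 0) := by
  refine intervalIntegral.integrableOn_deriv_of_nonneg (pr_cont α β _).continuousOn
    (fun x hx => pr_deriv α β _ hx.2.ne) fun x hx => ?_
  unfold dp
  have := (mz_mid hx).2
  positivity

theorem dp_int_pos {α β : ℝ} (ha : 0 ≤ α) (hb : 0 ≤ β) {x y : ℝ} (hx : 0 ≤ x) :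
    IntegrableOn (dp α β 0) (Ioc x y) := by
  refine intervalIntegral.integrableOn_deriv_of_nonneg (pr_cont α β _).continuousOn
    (fun z hz => pr_deriv α β _ (lt_of_le_of_lt hx hz.1).ne') fun z hz => ?_
  unfold dp
  have := (mz_pos (lt_of_le_of_lt hx hz.1)).2
  rw [add_zero]
  positivity

theorem F3_le {w : ℝ} (h0 : 0 < w) (h1 : w ≤ 1 / 2) : |cF3 w| ≤ w := by
  have h2 := cA_ge h0 (by linarith)
  have h3 := cA_le h0 h1
  have e : cF3 w = cA w / 2 - (cA w - w) / w ^ 2 / 2 := by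
    unfold cF3 cA
    field_simp
    ring
  have h4 : (cA w - w) / w ^ 2 ≤ (4 / 3) * w := by
    rw [div_le_iff₀ (by positivity)]
    nlinarith
  have h5 : 0 ≤ (cA w - w) / w ^ 2 := div_nonneg (by linarith) (by positivity)
  have h6 : w ^ 3 ≤ w / 4 := by
    have : w ^ 2 ≤ 1 / 4 := by nlinarith
    nlinarith
  rw [e, abs_le]
  constructor <;> linarith

theorem F2_le {w : ℝ} (h0 : 0 < w) (h1 : w ≤ 1 / 2) : |cF2 w| ≤ w := by
  have h2 := cA_ge h0 (by linarith)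
  have h3 := cA_le h0 h1
  have e : cF2 w = -((cA w - w) / w) - log (1 - w ^ 2) / 2 := by
    have e1 : (1 : ℝ) - w ^ 2 = (1 + w) * (1 - w) := by ring
    rw [e1, log_mul (by positivity) (by linarith)]
    unfold cF2 cA
    field_simp
    ring
  have h4 : (cA w - w) / w ≤ (4 / 3) * w ^ 2 := by
    rw [div_le_iff₀ h0]
    nlinarith
  have h5 : 0 ≤ (cA w - w) / w := div_nonneg (by linarith) h0.le
  have hw2 : w ^ 2 ≤ 1 / 4 := by nlinarith
  have h7 : log (1 - w ^ 2) ≤ 0 := log_nonpos (by linarith) (by nlinarith)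
  have h8 := one_sub_inv_le_log_of_pos (x := 1 - w ^ 2) (by linarith)
  have h9 : (1 - w ^ 2)⁻¹ ≤ 1 + (4 / 3) * w ^ 2 := by
    rw [inv_le_iff_one_le_mul₀ (by linarith)]
    nlinarith
  have h10 : w ^ 2 ≤ w / 2 := by nlinarith
  rw [e, abs_le]
  constructor <;> linarith

theorem pr_tendsto (α β : ℝ) : Tendsto (pr α β 0) atTop (𝓝 0) := by
  have hw : Tendsto (fun τ : ℝ => exp (-τ / 2)) atTop (𝓝 0) := by
    refine tendsto_exp_atBot.comp ?_
    have : (fun τ : ℝ => -τ / 2) = fun τ : ℝ => τ * (-1 / 2) := by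
      funext τ
      ring
    rw [this]
    exact tendsto_id.atTop_mul_const_of_neg (by norm_num)
  have hev : ∀ᶠ τ : ℝ in atTop, exp (-τ / 2) ≤ 1 / 2 := by
    filter_upwards [eventually_gt_atTop pb] with τ hτ
    rw [← w_pb]
    exact (w_anti hτ).le
  have t3 : Tendsto (fun τ : ℝ => cF3 (exp (-τ / 2))) atTop (𝓝 0) := by
    refine squeeze_zero_norm' ?_ hw
    filter_upwards [hev] with τ hτ
    exact F3_le (exp_pos _) hτ
  have t2 : Tendsto (fun τ : ℝ => cF2 (exp (-τ / 2))) atTop (𝓝 0) := by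
    refine squeeze_zero_norm' ?_ hw
    filter_upwards [hev] with τ hτ
    exact F2_le (exp_pos _) hτ
  have t := ((t3.const_mul α).add (t2.const_mul β)).const_mul (-2)
  have e : pr α β 0 = fun τ : ℝ => -2 * (α * cF3 (exp (-τ / 2)) + β * cF2 (exp (-τ / 2))) := by
    funext τ
    unfold pr
    ring
  rw [e]
  simpa using t

theorem dom {F G : ℝ → ℝ} {s : Set ℝ} (hs : MeasurableSet s) (hF : Measurable F)
    (hF0 : ∀ τ, 0 ≤ F τ) (hG : IntegrableOn G s) (h : ∀ τ ∈ s, F τ ≤ G τ) :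
    IntegrableOn F s :=
  Integrable.mono' hG hF.aestronglyMeasurable ((ae_restrict_iff' hs).2
    (Eventually.of_forall fun τ hτ => by
      rw [norm_of_nonneg (hF0 τ)]
      exact h τ hτ))

end ConstZAux

open ConstZAux

theorem MZ_int {ρ : ℝ} (h1 : 0 < ρ) (h2 : ρ < 3 / 2) :
    Integrable (fun τ => exp (ρ * τ) * mz τ) := by
  have hm : Measurable (fun τ => exp (ρ * τ) * mz τ) :=
    Measurable.mul (by fun_prop) mz_meas
  have hn : ∀ τ, 0 ≤ exp (ρ * τ) * mz τ := fun τ => mul_nonneg (exp_pos _).le (mz_nonneg τ)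
  have hpi := pi_gt_three
  have i1 : IntegrableOn (fun τ => exp (ρ * τ) * mz τ) (Iic pa) := by
    refine dom measurableSet_Iic hm hn (integrableOn_zero (μ := volume)) fun τ hτ => ?_
    rw [mz_zero_of hτ, mul_zero]
  have i2 : IntegrableOn (fun τ => exp (ρ * τ) * mz τ) (Ioc pa 0) := by
    rw [integrableOn_Ioc_iff_integrableOn_Ioo]
    refine dom measurableSet_Ioo hm hn
      ((dp_int_mid (α := 1) (β := 0) zero_le_one le_rfl).mono_set Ioo_subset_Ioc_self) ?_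
    intro τ hτ
    obtain ⟨m1, m2⟩ := mz_mid hτ
    have e1 : exp (ρ * τ) ≤ 1 := exp_le_one_iff.2 (mul_nonpos_of_nonneg_of_nonpos h1.le hτ.2.le)
    have e2 : 1 / 1.44 ≤ exp τ := by
      have : exp pa ≤ exp τ := exp_le_exp.2 hτ.1.le
      rw [exp_w2 pa, w_pa] at this
      norm_num at this ⊢
      linarith
    calc exp (ρ * τ) * mz τ ≤ 1 * mz τ := mul_le_mul_of_nonneg_right e1 (mz_nonneg τ)
      _ ≤ (cA (exp (-τ / 2)) - exp (-τ / 2) + 0.00106) / π := by rw [one_mul]; exact m1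
      _ ≤ (cA (exp (-τ / 2)) - exp (-τ / 2) + 0.00106) / 1.44 :=
          div_le_div_of_nonneg_left m2 (by norm_num) (by linarith)
      _ = (1 / 1.44) * (cA (exp (-τ / 2)) - exp (-τ / 2) + 0.00106) := by ring
      _ ≤ exp τ * (cA (exp (-τ / 2)) - exp (-τ / 2) + 0.00106) :=
          mul_le_mul_of_nonneg_right e2 m2
      _ = dp 1 0 0.00106 τ := by unfold dp; ring
  have i3 : IntegrableOn (fun τ => exp (ρ * τ) * mz τ) (Ioc 0 pb) := by
    refine dom measurableSet_Ioc hm hn ((dp_int_pos (α := 8) (β := 0) (by norm_num) le_rfl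
      (y := pb) le_rfl)) ?_
    intro τ hτ
    obtain ⟨m1, m2⟩ := mz_pos hτ.1
    have e1 : exp (ρ * τ) ≤ 8 := by
      have : exp (ρ * τ) ≤ exp (3 * log 2) := by
        refine exp_le_exp.2 ?_
        have h3 := hτ.2
        unfold pb at h3
        have h4 : 0 < τ := hτ.1
        nlinarith
      refine this.trans ?_
      have e : (3 : ℝ) * log 2 = log 8 := by
        have : (8 : ℝ) = 2 ^ 3 := by norm_num
        rw [this, log_pow]
        norm_num
      rw [e, exp_log (by norm_num)]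
    have e2 : 1 ≤ exp τ := one_le_exp hτ.1.le
    rw [m1]
    calc exp (ρ * τ) * ((cA (exp (-τ / 2)) - exp (-τ / 2)) / π)
        ≤ 8 * ((cA (exp (-τ / 2)) - exp (-τ / 2)) / 1) := by
          refine mul_le_mul e1 (div_le_div_of_nonneg_left m2 (by norm_num) (by linarith))
            (div_nonneg m2 pi_pos.le) (by norm_num)
      _ = (8 * 1) * (cA (exp (-τ / 2)) - exp (-τ / 2)) := by ring
      _ ≤ (8 * exp τ) * (cA (exp (-τ / 2)) - exp (-τ / 2)) :=
          mul_le_mul_of_nonneg_right (by linarith) m2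
      _ = dp 8 0 0 τ := by unfold dp; ring
  have i4 : IntegrableOn (fun τ => exp (ρ * τ) * mz τ) (Ioi pb) := by
    refine dom measurableSet_Ioi hm hn
      (integrableOn_exp_mul_Ioi (a := ρ - 3 / 2) (by linarith) pb) ?_
    intro τ hτ
    have hτ' : pb < τ := hτ
    obtain ⟨m1, m2⟩ := mz_pos (pb_pos.trans hτ')
    have hw : exp (-τ / 2) ≤ 1 / 2 := by
      rw [← w_pb]
      exact (w_anti hτ').le
    have h3 := cA_le (exp_pos _) hw
    have h4 : exp ((ρ - 3 / 2) * τ) = exp (ρ * τ) * exp (-τ / 2) ^ 3 := by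
      rw [← exp_nat_mul, ← exp_add]
      congr 1
      push_cast
      ring
    rw [h4, m1]
    refine mul_le_mul_of_nonneg_left ?_ (exp_pos _).le
    rw [div_le_iff₀ pi_pos]
    have h5 : 0 < exp (-τ / 2) ^ 3 := by positivity
    nlinarith
  have hu : (Iic pa ∪ Ioc pa 0) ∪ (Ioc 0 pb ∪ Ioi pb) = univ := by
    rw [Iic_union_Ioc_eq_Iic pa_neg.le, Ioc_union_Ioi_eq_Ioi pb_pos.le, Iic_union_Ioi]
  rw [← integrableOn_univ, ← hu]
  exact (i1.union i2).union (i3.union i4)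

theorem MZ_le : ∫ τ, exp ((8 / 9 : ℝ) * τ) * mz τ ≤ 0.3447 := by
  set f : ℝ → ℝ := fun τ => exp ((8 / 9 : ℝ) * τ) * mz τ with hf
  have hi : Integrable f := MZ_int (by norm_num) (by norm_num)
  have hpi := pi_pos
  -- splitting
  have s1 : ∫ τ, f τ = (∫ τ in Iic pa, f τ) + ∫ τ in Ioi pa, f τ := by
    rw [← integral_add_compl measurableSet_Iic hi, compl_Iic]
  have s2 : (∫ τ in pa..0, f τ) + ∫ τ in Ioi (0 : ℝ), f τ = ∫ τ in Ioi pa, f τ :=
    intervalIntegral.integral_interval_add_Ioi hi.integrableOn hi.integrableOn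
  have s3 : (∫ τ in (0 : ℝ)..pb, f τ) + ∫ τ in Ioi pb, f τ = ∫ τ in Ioi (0 : ℝ), f τ :=
    intervalIntegral.integral_interval_add_Ioi hi.integrableOn hi.integrableOn
  have s4 : ∫ τ in Iic pa, f τ = 0 := by
    rw [setIntegral_congr_fun (g := fun _ => (0 : ℝ)) measurableSet_Iic]
    · simp
    · intro τ hτ
      have : mz τ = 0 := mz_zero_of hτ
      simp only [hf, this, mul_zero]
  -- first piece
  have b3 : ∫ τ in pa..0, f τ ≤ (pr (7 / 9) (2 / 9) 0.00106 0 - pr (7 / 9) (2 / 9) 0.00106 pa) / π := by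
    have hI : IntervalIntegrable (dp (7 / 9) (2 / 9) 0.00106) volume pa 0 := by
      rw [intervalIntegrable_iff_integrableOn_Ioc_of_le pa_neg.le]
      exact dp_int_mid (by norm_num) (by norm_num)
    rw [← intervalIntegral.integral_eq_sub_of_hasDerivAt_of_le pa_neg.le
      (pr_cont _ _ _).continuousOn (fun x hx => pr_deriv _ _ _ hx.2.ne) hI,
      ← intervalIntegral.integral_div]
    refine intervalIntegral.integral_mono_on_of_le_Ioo pa_neg.le hi.intervalIntegrable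
      (hI.div_const π) fun τ hτ => ?_
    obtain ⟨m1, m2⟩ := mz_mid hτ
    have e1 := exp_bd1 τ
    calc f τ ≤ (7 / 9 * exp τ + 2 / 9 * exp (τ / 2)) *
          ((cA (exp (-τ / 2)) - exp (-τ / 2) + 0.00106) / π) :=
          mul_le_mul e1 m1 (mz_nonneg τ) (by positivity)
      _ = dp (7 / 9) (2 / 9) 0.00106 τ / π := by unfold dp; ring
  -- second piece
  have b2 : ∫ τ in (0 : ℝ)..pb, f τ ≤ (pr (7 / 9) (2 / 9) 0 pb - pr (7 / 9) (2 / 9) 0 0) / π := by
    have hI : IntervalIntegrable (dp (7 / 9) (2 / 9) 0) volume 0 pb := by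
      rw [intervalIntegrable_iff_integrableOn_Ioc_of_le pb_pos.le]
      exact dp_int_pos (by norm_num) (by norm_num) le_rfl
    rw [← intervalIntegral.integral_eq_sub_of_hasDerivAt_of_le pb_pos.le
      (pr_cont _ _ _).continuousOn (fun x hx => pr_deriv _ _ _ hx.1.ne') hI,
      ← intervalIntegral.integral_div]
    refine intervalIntegral.integral_mono_on_of_le_Ioo pb_pos.le hi.intervalIntegrable
      (hI.div_const π) fun τ hτ => ?_
    obtain ⟨m1, m2⟩ := mz_pos hτ.1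
    have e1 := exp_bd1 τ
    calc f τ ≤ (7 / 9 * exp τ + 2 / 9 * exp (τ / 2)) *
          ((cA (exp (-τ / 2)) - exp (-τ / 2)) / π) :=
          mul_le_mul e1 m1.le (mz_nonneg τ) (by positivity)
      _ = dp (7 / 9) (2 / 9) 0 τ / π := by unfold dp; ring
  -- third piece
  have b1 : ∫ τ in Ioi pb, f τ ≤ (0 - pr (0.7349 * (7 / 9)) (0.7349 * (8 / 9)) 0 pb) / π := by
    have hd : ∀ x ∈ Ici pb, HasDerivAt (pr (0.7349 * (7 / 9)) (0.7349 * (8 / 9)) 0)
        (dp (0.7349 * (7 / 9)) (0.7349 * (8 / 9)) 0 x) x := fun x hx =>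
      pr_deriv _ _ _ (lt_of_lt_of_le pb_pos hx).ne'
    have hn : ∀ x ∈ Ioi pb, 0 ≤ dp (0.7349 * (7 / 9)) (0.7349 * (8 / 9)) 0 x := by
      intro x hx
      have := (mz_pos (pb_pos.trans hx)).2
      unfold dp
      rw [add_zero]
      positivity
    have hI := integrableOn_Ioi_deriv_of_nonneg' hd hn (pr_tendsto _ _)
    rw [← integral_Ioi_of_hasDerivAt_of_nonneg' hd hn (pr_tendsto _ _), ← integral_div]
    refine setIntegral_mono_on hi.integrableOn (hI.div_const π) measurableSet_Ioi fun τ hτ => ?_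
    obtain ⟨m1, m2⟩ := mz_pos (pb_pos.trans hτ)
    have e1 := exp_bd4 τ
    calc f τ ≤ (0.7349 * (7 / 9) * exp τ + 0.7349 * (8 / 9) * exp (τ / 2)) *
          ((cA (exp (-τ / 2)) - exp (-τ / 2)) / π) :=
          mul_le_mul e1 m1.le (mz_nonneg τ) (by positivity)
      _ = dp (0.7349 * (7 / 9)) (0.7349 * (8 / 9)) 0 τ / π := by unfold dp; ring
  -- values
  have l2 := log_two_lt_d9
  have l2' := log_two_gt_d9
  have l3 := log_three_lt_d9
  have l3' := log_three_gt_d9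
  have l5 := log_five_lt_d9
  have l5' := log_five_gt_d9
  have l11 := log_eleven_lt
  have l11' := log_eleven_gt
  have v1 : cF3 (1 / 2) = 1 - 3 / 4 * log 3 := by
    unfold cF3
    have e1 : (1 : ℝ) + 1 / 2 = 3 / 2 := by norm_num
    have e2 : (1 : ℝ) - 1 / 2 = 1 / 2 := by norm_num
    rw [e1, e2, log_div (by norm_num) (by norm_num), log_div (by norm_num) (by norm_num), log_one]
    ring
  have v2 : cF2 (1 / 2) = 1 + log 2 - 3 / 2 * log 3 := by
    unfold cF2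
    have e1 : (1 : ℝ) + 1 / 2 = 3 / 2 := by norm_num
    have e2 : (1 : ℝ) - 1 / 2 = 1 / 2 := by norm_num
    rw [e1, e2, log_div (by norm_num) (by norm_num), log_div (by norm_num) (by norm_num), log_one]
    ring
  have g1 : log (1 + 1.2 : ℝ) = log 11 - log 5 := by
    have e1 : (1 + 1.2 : ℝ) = 11 / 5 := by norm_num
    rw [e1, log_div (by norm_num) (by norm_num)]
  have g2 : log (1 - 1.2 : ℝ) = -log 5 := by
    have e1 : (1 - 1.2 : ℝ) = -(1 / 5) := by norm_num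
    rw [e1, log_neg_eq_log, log_div (by norm_num) (by norm_num), log_one]
    ring
  have v3 : cF3 1.2 = 11 / 144 * log 11 + 5 / 12 := by
    unfold cF3
    rw [g1, g2]
    ring
  have v4 : cF2 1.2 = 1 - 11 / 12 * log 11 + log 5 := by
    unfold cF2
    rw [g1, g2]
    ring
  have p1 : pr (0.7349 * (7 / 9)) (0.7349 * (8 / 9)) 0 pb =
      -2 * (0.7349 * (7 / 9) * (1 - 3 / 4 * log 3) +
        0.7349 * (8 / 9) * (1 + log 2 - 3 / 2 * log 3)) := by
    unfold pr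
    rw [w_pb, v1, v2]
    ring
  have p2 : pr (7 / 9) (2 / 9) 0 pb =
      -2 * (7 / 9 * (1 - 3 / 4 * log 3) + 2 / 9 * (1 + log 2 - 3 / 2 * log 3)) := by
    unfold pr
    rw [w_pb, v1, v2]
    ring
  have p3 : pr (7 / 9) (2 / 9) 0.00106 pa =
      -2 * (7 / 9 * (11 / 144 * log 11 + 5 / 12) + 2 / 9 * (1 - 11 / 12 * log 11 + log 5)) +
        0.00106 * (7 / 9 * (1.2 ^ 2)⁻¹ + 2 * (2 / 9) * (1.2)⁻¹) := by
    unfold pr
    rw [exp_w2 pa, exp_w1 pa, w_pa, v3, v4]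
  have p4 : pr (7 / 9) (2 / 9) 0.00106 0 - pr (7 / 9) (2 / 9) 0 0 = 0.00106 * (11 / 9) := by
    unfold pr
    rw [exp_zero, zero_div, exp_zero]
    ring
  have hpi3 := pi_gt_d6
  rw [s1, s4, zero_add, ← s2, ← s3]
  have tot : (∫ τ in pa..0, f τ) + ((∫ τ in (0 : ℝ)..pb, f τ) + ∫ τ in Ioi pb, f τ) ≤
      (0.00106 * (11 / 9) - pr (7 / 9) (2 / 9) 0.00106 pa + pr (7 / 9) (2 / 9) 0 pb -
        pr (0.7349 * (7 / 9)) (0.7349 * (8 / 9)) 0 pb) / π := by
    rw [← p4]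
    refine (add_le_add b3 (add_le_add b2 b1)).trans (le_of_eq ?_)
    ring
  refine tot.trans ?_
  rw [div_le_iff₀ pi_pos, p1, p2, p3]
  norm_num
  nlinarith

end Pool.Agent.MML
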