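import Mathlib

/-!
# MML, module Defs: definitions

Problem MP_b22b9c_an.  `minMod`, `maxMod`, `nevT`, `lowerOrder`, `D` are the objects of the problem.
The other definitions are used in the proof: `C2F` (a function of two real variables of class `C²`
with its partial derivatives), `SH` (moreover periodic and subharmonic), `mN` (integral over a period),
the cut-off `chi`, the `bump`, and the structure `Ker` of a regularised kernel on a half strip.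
-/

set_option autoImplicit false

namespace Pool.Agent.MML

open Real MeasureTheory Set Filter Topology

/-- The minimum modulus `m_0(r,f)`. -/
noncomputable def minMod (f : ℂ → ℂ) (r : ℝ) : ℝ :=
  sInf ((fun z => ‖f z‖) '' Metric.sphere (0 : ℂ) r)

/-- The maximum modulus `M(r,f)`. -/
noncomputable def maxMod (f : ℂ → ℂ) (r : ℝ) : ℝ :=
  sSup ((fun z => ‖f z‖) '' Metric.sphere (0 : ℂ) r)

/-- The Nevanlinna characteristic `T(r,f)` of an entire function. -/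
noncomputable def nevT (f : ℂ → ℂ) (r : ℝ) : ℝ :=
  (2 * π)⁻¹ * ∫ θ in (0 : ℝ)..(2 * π), posLog ‖f (r * Complex.exp (θ * Complex.I))‖

/-- The lower order. -/
noncomputable def lowerOrder (f : ℂ → ℂ) : EReal :=
  liminf (fun r : ℝ => ((log (log (maxMod f r)) / log r : ℝ) : EReal)) atTop

/-- `limsup log m_0(r,f) / T(r,f)`, the logarithm of `0` being `-∞`. -/
noncomputable def minRatio (f : ℂ → ℂ) : EReal :=
  limsup (fun r : ℝ => ENNReal.log (ENNReal.ofReal (minMod f r)) / ((nevT f r : ℝ) : EReal)) atTop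

/-- The best constant `D(λ)`. -/
noncomputable def D (lam : ℝ) : EReal :=
  ⨅ (f : ℂ → ℂ) (_ : Differentiable ℂ f) (_ : ¬ ∃ c, ∀ z, f z = c)
    (_ : lowerOrder f = (lam : EReal)), minRatio f

/-- A function of class `C²` of two real variables, with its partial derivatives. -/
structure C2F (W Ws Wss Wt Wtt : ℝ → ℝ → ℝ) : Prop where
  ds : ∀ s t, HasDerivAt (fun x => W x t) (Ws s t) s
  dss : ∀ s t, HasDerivAt (fun x => Ws x t) (Wss s t) s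
  dt : ∀ s t, HasDerivAt (fun y => W s y) (Wt s t) t
  dtt : ∀ s t, HasDerivAt (fun y => Wt s y) (Wtt s t) t
  c0 : Continuous (fun p : ℝ × ℝ => W p.1 p.2)
  cs : Continuous (fun p : ℝ × ℝ => Ws p.1 p.2)
  css : Continuous (fun p : ℝ × ℝ => Wss p.1 p.2)
  ct : Continuous (fun p : ℝ × ℝ => Wt p.1 p.2)
  ctt : Continuous (fun p : ℝ × ℝ => Wtt p.1 p.2)

/-- A subharmonic function of class `C²`, of period `2 ℓ` in the second variable. -/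
structure SH (l : ℝ) (U Us Uss Ut Utt : ℝ → ℝ → ℝ) : Prop where
  c2 : C2F U Us Uss Ut Utt
  per : ∀ s t, U s (t + 2 * l) = U s t
  sub : ∀ s t, 0 ≤ Uss s t + Utt s t

/-- The integral over a period. -/
noncomputable def mN (l : ℝ) (U : ℝ → ℝ → ℝ) (s : ℝ) : ℝ := ∫ t in (-l)..l, U s t

/-- auxiliary variable of the cut-off -/
noncomputable def yc (R τ : ℝ) : ℝ := max 0 ((|τ| - 1) / (R - 1))

/-- The cut-off: `1` for `|τ| ≤ 1`, zero of order two at `|τ| = R`. -/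
noncomputable def chi (R τ : ℝ) : ℝ := (1 - yc R τ ^ 3) ^ 2

/-- derivative of `chi` -/
noncomputable def chi1 (R τ : ℝ) : ℝ :=
  -(6 * (yc R τ ^ 2 - yc R τ ^ 5) * SignType.sign τ) / (R - 1)

/-- second derivative of `chi` -/
noncomputable def chi2 (R τ : ℝ) : ℝ := -(6 * (2 * yc R τ - 5 * yc R τ ^ 4)) / (R - 1) ^ 2

/-- The bump, an approximation of the Dirac measure. -/
noncomputable def bump (a ε τ t : ℝ) : ℝ :=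
  a ^ 2 / (4 * π) * (ε * (cosh (a * τ) + cos (a * t))) / (cosh (a * τ) - cos (a * t) + ε) ^ 2

/-- A regularised kernel on the half strip `0 ≤ t ≤ b`, `|τ| ≤ R`.  For `0 < ε ≤ 1`, `g ε` is of class
`C¹` and piecewise `C²` (break at `t = x1`), its Laplacian is `bump a ε` plus a remainder which is
within `K0 ε` of `kv τ` (for `t < x1`) and of `kh τ` (for `t > x1`); for `1 ≤ |τ|` the functions
`g ε`, `gs ε` (derivative in `τ`) are within `K0 ε` of `g0`, `gs0`. -/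
structure Ker (R b a x1 K0 : ℝ) (g gs gss gt gtt rv rh : ℝ → ℝ → ℝ → ℝ)
    (kv kh : ℝ → ℝ) (g0 gs0 : ℝ → ℝ → ℝ) : Prop where
  hR : 2 ≤ R
  hx0 : 0 < x1
  hxb : x1 ≤ b
  ha : 0 < a
  hab : a * b ≤ π
  hK : 0 ≤ K0
  d1 : ∀ ε ∈ Ioc (0 : ℝ) 1, ∀ τ, ∀ t ∈ Icc 0 b, HasDerivAt (fun x => g ε x t) (gs ε τ t) τ
  d2 : ∀ ε ∈ Ioc (0 : ℝ) 1, ∀ τ, ∀ t ∈ Icc 0 b, HasDerivAt (fun x => gs ε x t) (gss ε τ t) τ
  d3 : ∀ ε ∈ Ioc (0 : ℝ) 1, ∀ τ, ∀ t ∈ Ioo 0 b, HasDerivAt (fun y => g ε τ y) (gt ε τ t) t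
  d4 : ∀ ε ∈ Ioc (0 : ℝ) 1, ∀ τ, ∀ t ∈ Ioo 0 b, t ≠ x1 →
    HasDerivAt (fun y => gt ε τ y) (gtt ε τ t) t
  c1 : ∀ ε ∈ Ioc (0 : ℝ) 1, ContinuousOn (fun p : ℝ × ℝ => g ε p.1 p.2) (univ ×ˢ Icc 0 b)
  c2 : ∀ ε ∈ Ioc (0 : ℝ) 1, ContinuousOn (fun p : ℝ × ℝ => gs ε p.1 p.2) (univ ×ˢ Icc 0 b)
  c3 : ∀ ε ∈ Ioc (0 : ℝ) 1, ContinuousOn (fun p : ℝ × ℝ => gss ε p.1 p.2) (univ ×ˢ Icc 0 b)
  c4 : ∀ ε ∈ Ioc (0 : ℝ) 1, ContinuousOn (fun p : ℝ × ℝ => gt ε p.1 p.2) (univ ×ˢ Icc 0 b)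
  c5 : ∀ ε ∈ Ioc (0 : ℝ) 1, ContinuousOn (fun p : ℝ × ℝ => rv ε p.1 p.2) (univ ×ˢ Icc 0 b)
  c6 : ∀ ε ∈ Ioc (0 : ℝ) 1, ContinuousOn (fun p : ℝ × ℝ => rh ε p.1 p.2) (univ ×ˢ Icc 0 b)
  e0 : ∀ ε ∈ Ioc (0 : ℝ) 1, ∀ τ, gt ε τ 0 = 0
  e1 : ∀ ε ∈ Ioc (0 : ℝ) 1, ∀ τ, gt ε τ b = 0
  e2 : ∀ ε ∈ Ioc (0 : ℝ) 1, ∀ τ, g ε τ b = 0
  lapv : ∀ ε ∈ Ioc (0 : ℝ) 1, ∀ τ, ∀ t ∈ Ioo 0 x1,
    gss ε τ t + gtt ε τ t = bump a ε τ t + rv ε τ t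
  laph : ∀ ε ∈ Ioc (0 : ℝ) 1, ∀ τ, ∀ t ∈ Ioo x1 b,
    gss ε τ t + gtt ε τ t = bump a ε τ t + rh ε τ t
  rvl : ∀ ε ∈ Ioc (0 : ℝ) 1, ∀ τ ∈ Icc (-R) R, ∀ t ∈ Icc 0 x1, |rv ε τ t - kv τ| ≤ K0 * ε
  rhl : ∀ ε ∈ Ioc (0 : ℝ) 1, ∀ τ ∈ Icc (-R) R, ∀ t ∈ Icc x1 b, |rh ε τ t - kh τ| ≤ K0 * ε
  kvc : Continuous kv
  khc : Continuous kh
  gl : ∀ ε ∈ Ioc (0 : ℝ) 1, ∀ τ ∈ Icc (-R) R, 1 ≤ |τ| → ∀ t ∈ Icc 0 b,
    |g ε τ t - g0 τ t| ≤ K0 * ε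
  gsl : ∀ ε ∈ Ioc (0 : ℝ) 1, ∀ τ ∈ Icc (-R) R, 1 ≤ |τ| → ∀ t ∈ Icc 0 b,
    |gs ε τ t - gs0 τ t| ≤ K0 * ε
  g0c : ContinuousOn (fun p : ℝ × ℝ => g0 p.1 p.2) ({τ | 1 ≤ |τ|} ×ˢ Icc 0 b)
  gs0c : ContinuousOn (fun p : ℝ × ℝ => gs0 p.1 p.2) ({τ | 1 ≤ |τ|} ×ˢ Icc 0 b)

/-- The part of the kernel identity which comes from the Laplacian of the kernel and the cut-off. -/
noncomputable def kerPart (R b x1 : ℝ) (kv kh : ℝ → ℝ) (g0 gs0 : ℝ → ℝ → ℝ)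
    (W : ℝ → ℝ → ℝ) : ℝ :=
  ∫ τ in (-R)..R, (chi R τ * (kv τ * (∫ t in (0 : ℝ)..x1, W τ t) + kh τ * ∫ t in x1..b, W τ t)
    + ∫ t in (0 : ℝ)..b, (2 * chi1 R τ * gs0 τ t + chi2 R τ * g0 τ t) * W τ t)

/-! ### kernel I -/

noncomputable def gI (a ε τ t : ℝ) : ℝ :=
  (4 * π)⁻¹ * (log (cosh (a * τ) - cos (a * t) + ε) - log (cosh (a * τ) + 1 + ε))

noncomputable def kI (a τ : ℝ) : ℝ := a ^ 2 / (4 * π) / (cosh (a * τ) + 1)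

noncomputable def hI (a τ : ℝ) : ℝ :=
  (4 * π)⁻¹ * log ((cosh (a * τ) + 1) / (cosh (a * τ) - 1))

/-! ### kernel II -/

/-- `√2 / 2` -/
noncomputable def q2 : ℝ := √2 / 2

/-- valley part, `0 ≤ t ≤ π/2` -/
noncomputable def gV (ε τ t : ℝ) : ℝ :=
  (4 * π)⁻¹ * (4 * exp (-τ / 2) * cos (t / 2)
    + log (cosh (τ / 2) - cos (t / 2) + ε) - log (cosh (τ / 2) + cos (t / 2) + ε))

/-- hump part, `π/2 ≤ t ≤ 3π/2` -/
noncomputable def gH (ε τ t : ℝ) : ℝ :=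
  (4 * π)⁻¹ * (log (cosh (τ / 2) - cos (t / 2) + ε) + log (cosh (τ / 2) + sin (t / 2) + ε)
    - 2 * log (cosh (τ / 2) + q2 + ε) + 2 * exp (-τ / 2) * (√2 - sin (t / 2) + cos (t / 2)))

open Classical in
noncomputable def gII (ε τ t : ℝ) : ℝ := if t ≤ π / 2 then gV ε τ t else gH ε τ t

/-- the density of the hump -/
noncomputable def kH (τ : ℝ) : ℝ :=
  (8 * π)⁻¹ * (√2 * exp (-τ / 2) - (1 + q2 * cosh (τ / 2)) / (cosh (τ / 2) + q2) ^ 2)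

/-- `g(τ, 0)` -/
noncomputable def gz (τ : ℝ) : ℝ :=
  (4 * π)⁻¹ * (4 * exp (-τ / 2) + log ((cosh (τ / 2) - 1) / (cosh (τ / 2) + 1)))

/-- the negative part of `g(τ, 0)` -/
noncomputable def mz (τ : ℝ) : ℝ := max 0 (-gz τ)

/-- decay of kernel II -/
noncomputable def dec (τ : ℝ) : ℝ := min (exp (-τ)) (exp (-τ / 2))

end Pool.Agent.MML
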