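import Pool.Agent.MML.Defs

/-!
# MML, module EtaA: the regularised logarithm of an entire function is smooth and subharmonic

`F(w) = f(exp (w/μ))`, `w = s + i t`, `F'(w) = f'(exp (w/μ)) exp (w/μ)/μ`; `Ue f μ η = ½ log (|F|² + η²)`.
`∂s |F|² = 2 Re (conj F · F')`, `∂t |F|² = 2 Re (conj F · i F')`, `Δ |F|² = 4 |F'|²`, `|∇ |F|²|² = 4 |F|² |F'|²`, so
`Δ Ue = ½ [4 |F'|²/(|F|² + η²) - 4 |F|² |F'|²/(|F|² + η²)²] = 2 η² |F'|²/(|F|² + η²)² ≥ 0`.
Period `2π μ` in `t`: `exp ((w + 2π μ i)/μ) = exp (w/μ)`.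
-/

set_option autoImplicit false

namespace Pool.Agent.MML

open Real MeasureTheory Set Filter Topology

/-- `F(s + i t)` -/
noncomputable def Fe (f : ℂ → ℂ) (μ s t : ℝ) : ℂ := f (Complex.exp ((s + t * Complex.I) / μ))

/-- `F'(s + i t)` -/
noncomputable def Fe' (f : ℂ → ℂ) (μ s t : ℝ) : ℂ :=
  deriv f (Complex.exp ((s + t * Complex.I) / μ)) * Complex.exp ((s + t * Complex.I) / μ) / μ

/-- regularised logarithm -/
noncomputable def Ue (f : ℂ → ℂ) (μ η s t : ℝ) : ℝ := 1 / 2 * log (‖Fe f μ s t‖ ^ 2 + η ^ 2)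

/-- its derivative in `s` -/
noncomputable def UeS (f : ℂ → ℂ) (μ η s t : ℝ) : ℝ :=
  (starRingEnd ℂ (Fe f μ s t) * Fe' f μ s t).re / (‖Fe f μ s t‖ ^ 2 + η ^ 2)

/-- the holomorphic function `F` -/
noncomputable def etaA_HF (f : ℂ → ℂ) (μ : ℝ) (w : ℂ) : ℂ := f (Complex.exp (w / μ))

theorem etaA_HF_diff {f : ℂ → ℂ} (hf : Differentiable ℂ f) (μ : ℝ) : Differentiable ℂ (etaA_HF f μ) := by
  intro w
  exact (hf _).comp w ((Complex.differentiable_exp _).comp w (by fun_prop))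

theorem etaA_HF_deriv {f : ℂ → ℂ} (hf : Differentiable ℂ f) (μ : ℝ) (w : ℂ) :
    deriv (etaA_HF f μ) w = deriv f (Complex.exp (w / μ)) * Complex.exp (w / μ) / μ := by
  have h1 : HasDerivAt (fun w : ℂ => w / (μ : ℂ)) (1 / (μ : ℂ)) w := (hasDerivAt_id w).div_const _
  have h2 := (hf (Complex.exp (w / μ))).hasDerivAt.comp w (h1.cexp)
  have h3 := h2.deriv
  have h4 : (f ∘ fun w : ℂ => Complex.exp (w / (μ : ℂ))) = etaA_HF f μ := rfl
  rw [h4] at h3
  rw [h3]
  ring

section gen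

variable {H : ℂ → ℂ}

theorem etaA_re_s (hH : Differentiable ℂ H) (s t : ℝ) :
    HasDerivAt (fun x : ℝ => (H (x + t * Complex.I)).re) (deriv H (s + t * Complex.I)).re s := by
  have h1 : HasDerivAt (fun x : ℝ => (x : ℂ) + t * Complex.I) 1 s :=
    (Complex.ofRealCLM.hasDerivAt (x := s)).add_const _
  have h2 : HasDerivAt (fun x : ℝ => H (x + t * Complex.I)) (deriv H (s + t * Complex.I)) s := by
    have := (hH (s + t * Complex.I)).hasDerivAt.comp s h1
    rw [mul_one] at this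
    exact this
  exact (Complex.reCLM.hasFDerivAt.comp_hasDerivAt s h2)

theorem etaA_im_s (hH : Differentiable ℂ H) (s t : ℝ) :
    HasDerivAt (fun x : ℝ => (H (x + t * Complex.I)).im) (deriv H (s + t * Complex.I)).im s := by
  have h1 : HasDerivAt (fun x : ℝ => (x : ℂ) + t * Complex.I) 1 s :=
    (Complex.ofRealCLM.hasDerivAt (x := s)).add_const _
  have h2 : HasDerivAt (fun x : ℝ => H (x + t * Complex.I)) (deriv H (s + t * Complex.I)) s := by
    have := (hH (s + t * Complex.I)).hasDerivAt.comp s h1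
    rw [mul_one] at this
    exact this
  exact (Complex.imCLM.hasFDerivAt.comp_hasDerivAt s h2)

theorem etaA_ct_t (hH : Differentiable ℂ H) (s t : ℝ) :
    HasDerivAt (fun y : ℝ => H (s + y * Complex.I)) (deriv H (s + t * Complex.I) * Complex.I) t := by
  have h1 : HasDerivAt (fun y : ℝ => (s : ℂ) + y * Complex.I) (1 * Complex.I) t :=
    ((Complex.ofRealCLM.hasDerivAt (x := t)).mul_const _).const_add _
  have := (hH (s + t * Complex.I)).hasDerivAt.comp t h1
  rw [one_mul] at this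
  exact this

theorem etaA_re_t (hH : Differentiable ℂ H) (s t : ℝ) :
    HasDerivAt (fun y : ℝ => (H (s + y * Complex.I)).re) (-(deriv H (s + t * Complex.I)).im) t := by
  have := (Complex.reCLM.hasFDerivAt.comp_hasDerivAt t (etaA_ct_t hH s t))
  refine HasDerivAt.congr_deriv this ?_
  simp

theorem etaA_im_t (hH : Differentiable ℂ H) (s t : ℝ) :
    HasDerivAt (fun y : ℝ => (H (s + y * Complex.I)).im) ((deriv H (s + t * Complex.I)).re) t := by
  have := (Complex.imCLM.hasFDerivAt.comp_hasDerivAt t (etaA_ct_t hH s t))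
  refine HasDerivAt.congr_deriv this ?_
  simp

theorem etaA_C2F_gen (hH : Differentiable ℂ H) {η : ℝ} (hη : 0 < η) :
    ∃ Uss Ut Utt : ℝ → ℝ → ℝ,
      C2F (fun s t : ℝ => 1 / 2 * log (‖H (s + t * Complex.I)‖ ^ 2 + η ^ 2))
        (fun s t : ℝ => (starRingEnd ℂ (H (s + t * Complex.I)) * deriv H (s + t * Complex.I)).re
          / (‖H (s + t * Complex.I)‖ ^ 2 + η ^ 2)) Uss Ut Utt ∧
      ∀ s t, 0 ≤ Uss s t + Utt s t := by
  have hH1 : Differentiable ℂ (deriv H) := by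
    have := (hH.contDiff (n := 2)).differentiable_deriv_two
    exact this
  have cH : Continuous fun p : ℝ × ℝ => H (p.1 + p.2 * Complex.I) := by
    have := hH.continuous
    fun_prop
  have cH1 : Continuous fun p : ℝ × ℝ => deriv H (p.1 + p.2 * Complex.I) := by
    have := hH1.continuous
    fun_prop
  have cH2 : Continuous fun p : ℝ × ℝ => deriv (deriv H) (p.1 + p.2 * Complex.I) := by
    have h2 := ((hH1.contDiff (n := 2)).differentiable_deriv_two)
    have := h2.continuous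
    fun_prop
  obtain ⟨a, ha⟩ : ∃ a : ℝ → ℝ → ℝ, a = fun s t : ℝ => (H (s + t * Complex.I)).re := ⟨_, rfl⟩
  obtain ⟨b, hb⟩ : ∃ b : ℝ → ℝ → ℝ, b = fun s t : ℝ => (H (s + t * Complex.I)).im := ⟨_, rfl⟩
  obtain ⟨a1, ha1⟩ : ∃ a : ℝ → ℝ → ℝ, a = fun s t : ℝ => (deriv H (s + t * Complex.I)).re := ⟨_, rfl⟩
  obtain ⟨b1, hb1⟩ : ∃ b : ℝ → ℝ → ℝ, b = fun s t : ℝ => (deriv H (s + t * Complex.I)).im := ⟨_, rfl⟩
  obtain ⟨a2, ha2⟩ : ∃ a : ℝ → ℝ → ℝ, a = fun s t : ℝ => (deriv (deriv H) (s + t * Complex.I)).re :=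
    ⟨_, rfl⟩
  obtain ⟨b2, hb2⟩ : ∃ b : ℝ → ℝ → ℝ, b = fun s t : ℝ => (deriv (deriv H) (s + t * Complex.I)).im :=
    ⟨_, rfl⟩
  have da_s : ∀ s t, HasDerivAt (fun x => a x t) (a1 s t) s := by
    intro s t; rw [ha, ha1]; exact etaA_re_s hH s t
  have db_s : ∀ s t, HasDerivAt (fun x => b x t) (b1 s t) s := by
    intro s t; rw [hb, hb1]; exact etaA_im_s hH s t
  have da_t : ∀ s t, HasDerivAt (fun x => a s x) (-b1 s t) t := by
    intro s t; rw [ha, hb1]; exact etaA_re_t hH s t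
  have db_t : ∀ s t, HasDerivAt (fun x => b s x) (a1 s t) t := by
    intro s t; rw [hb, ha1]; exact etaA_im_t hH s t
  have da1_s : ∀ s t, HasDerivAt (fun x => a1 x t) (a2 s t) s := by
    intro s t; rw [ha1, ha2]; exact etaA_re_s hH1 s t
  have db1_s : ∀ s t, HasDerivAt (fun x => b1 x t) (b2 s t) s := by
    intro s t; rw [hb1, hb2]; exact etaA_im_s hH1 s t
  have da1_t : ∀ s t, HasDerivAt (fun x => a1 s x) (-b2 s t) t := by
    intro s t; rw [ha1, hb2]; exact etaA_re_t hH1 s t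
  have db1_t : ∀ s t, HasDerivAt (fun x => b1 s x) (a2 s t) t := by
    intro s t; rw [hb1, ha2]; exact etaA_im_t hH1 s t
  have ca : Continuous fun p : ℝ × ℝ => a p.1 p.2 := by rw [ha]; exact Complex.continuous_re.comp cH
  have cb : Continuous fun p : ℝ × ℝ => b p.1 p.2 := by rw [hb]; exact Complex.continuous_im.comp cH
  have ca1 : Continuous fun p : ℝ × ℝ => a1 p.1 p.2 := by
    rw [ha1]; exact Complex.continuous_re.comp cH1
  have cb1 : Continuous fun p : ℝ × ℝ => b1 p.1 p.2 := by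
    rw [hb1]; exact Complex.continuous_im.comp cH1
  have ca2 : Continuous fun p : ℝ × ℝ => a2 p.1 p.2 := by
    rw [ha2]; exact Complex.continuous_re.comp cH2
  have cb2 : Continuous fun p : ℝ × ℝ => b2 p.1 p.2 := by
    rw [hb2]; exact Complex.continuous_im.comp cH2
  have eU : (fun s t : ℝ => 1 / 2 * log (‖H (s + t * Complex.I)‖ ^ 2 + η ^ 2))
      = fun s t => 1 / 2 * log (a s t ^ 2 + b s t ^ 2 + η ^ 2) := by
    funext s t
    rw [ha, hb, ← Complex.normSq_eq_norm_sq, Complex.normSq_apply]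
    congr 2
    ring
  have eS : (fun s t : ℝ => (starRingEnd ℂ (H (s + t * Complex.I)) *
        deriv H (s + t * Complex.I)).re / (‖H (s + t * Complex.I)‖ ^ 2 + η ^ 2))
      = fun s t => (a s t * a1 s t + b s t * b1 s t) / (a s t ^ 2 + b s t ^ 2 + η ^ 2) := by
    funext s t
    rw [ha, hb, ha1, hb1, ← Complex.normSq_eq_norm_sq, Complex.normSq_apply]
    simp only [Complex.mul_re, Complex.conj_re, Complex.conj_im]
    congr 1
    · ring
    · ring
  rw [eU, eS]
  have hpos : ∀ s t, 0 < a s t ^ 2 + b s t ^ 2 + η ^ 2 := fun s t => by positivity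
  have hne : ∀ s t, a s t ^ 2 + b s t ^ 2 + η ^ 2 ≠ 0 := fun s t => (hpos s t).ne'
  refine ⟨fun s t => (a1 s t ^ 2 + b1 s t ^ 2 + a s t * a2 s t + b s t * b2 s t)
      / (a s t ^ 2 + b s t ^ 2 + η ^ 2)
      - 2 * (a s t * a1 s t + b s t * b1 s t) ^ 2 / (a s t ^ 2 + b s t ^ 2 + η ^ 2) ^ 2,
    fun s t => (-(a s t * b1 s t) + b s t * a1 s t) / (a s t ^ 2 + b s t ^ 2 + η ^ 2),
    fun s t => (a1 s t ^ 2 + b1 s t ^ 2 - a s t * a2 s t - b s t * b2 s t)
      / (a s t ^ 2 + b s t ^ 2 + η ^ 2)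
      - 2 * (-(a s t * b1 s t) + b s t * a1 s t) ^ 2 / (a s t ^ 2 + b s t ^ 2 + η ^ 2) ^ 2,
    ?_, ?_⟩
  · refine ⟨?_, ?_, ?_, ?_, ?_, ?_, ?_, ?_, ?_⟩
    · intro s t
      have h := ((((da_s s t).pow 2).add ((db_s s t).pow 2)).add_const (η ^ 2)).log (hne s t)
      refine (h.const_mul (1 / 2)).congr_deriv ?_
      have := hne s t
      simp only [Pi.add_apply, Pi.pow_apply]
      field_simp
      norm_num
      ring
    · intro s t
      have hN := (((da_s s t).mul (da1_s s t)).add ((db_s s t).mul (db1_s s t)))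
      have hD := ((((da_s s t).pow 2).add ((db_s s t).pow 2)).add_const (η ^ 2))
      refine (hN.div hD (hne s t)).congr_deriv ?_
      have := hne s t
      simp only [Pi.add_apply, Pi.mul_apply, Pi.pow_apply]
      field_simp
      norm_num
      ring
    · intro s t
      have h := ((((da_t s t).pow 2).add ((db_t s t).pow 2)).add_const (η ^ 2)).log (hne s t)
      refine (h.const_mul (1 / 2)).congr_deriv ?_
      have := hne s t
      simp only [Pi.add_apply, Pi.pow_apply]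
      field_simp
      norm_num
      ring
    · intro s t
      have hN := (((da_t s t).mul (db1_t s t)).neg.add ((db_t s t).mul (da1_t s t)))
      have hD := ((((da_t s t).pow 2).add ((db_t s t).pow 2)).add_const (η ^ 2))
      refine (hN.div hD (hne s t)).congr_deriv ?_
      have := hne s t
      simp only [Pi.add_apply, Pi.mul_apply, Pi.pow_apply, Pi.neg_apply]
      field_simp
      norm_num
      ring
    · exact continuous_const.mul (Continuous.log (by fun_prop) (fun p => hne p.1 p.2))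
    · exact Continuous.div (by fun_prop) (by fun_prop) (fun p => hne p.1 p.2)
    · refine Continuous.sub ?_ ?_
      · exact Continuous.div (by fun_prop) (by fun_prop) (fun p => hne p.1 p.2)
      · exact Continuous.div (by fun_prop) (by fun_prop) (fun p => pow_ne_zero _ (hne p.1 p.2))
    · exact Continuous.div (by fun_prop) (by fun_prop) (fun p => hne p.1 p.2)
    · refine Continuous.sub ?_ ?_
      · exact Continuous.div (by fun_prop) (by fun_prop) (fun p => hne p.1 p.2)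
      · exact Continuous.div (by fun_prop) (by fun_prop) (fun p => pow_ne_zero _ (hne p.1 p.2))
  · intro s t
    have := hne s t
    have e : (a1 s t ^ 2 + b1 s t ^ 2 + a s t * a2 s t + b s t * b2 s t)
      / (a s t ^ 2 + b s t ^ 2 + η ^ 2)
      - 2 * (a s t * a1 s t + b s t * b1 s t) ^ 2 / (a s t ^ 2 + b s t ^ 2 + η ^ 2) ^ 2
      + ((a1 s t ^ 2 + b1 s t ^ 2 - a s t * a2 s t - b s t * b2 s t)
      / (a s t ^ 2 + b s t ^ 2 + η ^ 2)
      - 2 * (-(a s t * b1 s t) + b s t * a1 s t) ^ 2 / (a s t ^ 2 + b s t ^ 2 + η ^ 2) ^ 2)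
      = 2 * η ^ 2 * (a1 s t ^ 2 + b1 s t ^ 2) / (a s t ^ 2 + b s t ^ 2 + η ^ 2) ^ 2 := by
      field_simp
      ring
    rw [e]
    positivity

end gen

theorem SH_eta {f : ℂ → ℂ} (hf : Differentiable ℂ f) {μ η : ℝ} (hμ : 0 < μ) (hη : 0 < η) :
    ∃ Uss Ut Utt : ℝ → ℝ → ℝ, SH (π * μ) (Ue f μ η) (UeS f μ η) Uss Ut Utt := by
  obtain ⟨Uss, Ut, Utt, h1, h2⟩ := etaA_C2F_gen (etaA_HF_diff hf μ) hη
  refine ⟨Uss, Ut, Utt, ?_, ?_, h2⟩
  · have e1 : (fun s t : ℝ => 1 / 2 * log (‖etaA_HF f μ (s + t * Complex.I)‖ ^ 2 + η ^ 2)) = Ue f μ η := rfl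
    have e2 : (fun s t : ℝ => (starRingEnd ℂ (etaA_HF f μ (s + t * Complex.I)) *
        deriv (etaA_HF f μ) (s + t * Complex.I)).re
          / (‖etaA_HF f μ (s + t * Complex.I)‖ ^ 2 + η ^ 2)) = UeS f μ η := by
      funext s t
      rw [etaA_HF_deriv hf]
      rfl
    rw [← e1, ← e2]
    exact h1
  · intro s t
    have e : Fe f μ s (t + 2 * (π * μ)) = Fe f μ s t := by
      unfold Fe
      congr 1
      have hμ' : (μ : ℂ) ≠ 0 := by exact_mod_cast hμ.ne'
      have : ((s : ℂ) + ((t + 2 * (π * μ) : ℝ) : ℂ) * Complex.I) / μ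
          = ((s : ℂ) + t * Complex.I) / μ + 2 * π * Complex.I := by
        push_cast
        field_simp
        ring
      rw [this, Complex.exp_add, Complex.exp_two_pi_mul_I, mul_one]
    simp only [Ue, e]

theorem Ue_mono {f : ℂ → ℂ} {μ η : ℝ} (hη : 0 < η) (h1 : η ≤ 1) (s t : ℝ) :
    Ue f μ η s t ≤ Ue f μ 1 s t := by
  unfold Ue
  have h2 : (0 : ℝ) < ‖Fe f μ s t‖ ^ 2 + η ^ 2 := by positivity
  have h3 : ‖Fe f μ s t‖ ^ 2 + η ^ 2 ≤ ‖Fe f μ s t‖ ^ 2 + 1 ^ 2 := by
    gcongr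
  exact mul_le_mul_of_nonneg_left (Real.log_le_log h2 h3) (by norm_num)

theorem Ue_one_nonneg {f : ℂ → ℂ} {μ : ℝ} (s t : ℝ) : 0 ≤ Ue f μ 1 s t := by
  unfold Ue
  exact mul_nonneg (by norm_num) (Real.log_nonneg (by nlinarith [sq_nonneg ‖Fe f μ s t‖]))

end Pool.Agent.MML
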