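import Pool.Agent.MML.Defs

/-!
# MML, module Mean: integrals over a period

Differentiation under the integral sign (continuous partial derivatives), `Ut` is periodic (derivative of a periodic
function), so `∫ Utt = Ut(s, l) - Ut(s, -l) = 0`.
`symW s0 φ U s t = U (s0 + s) (φ + t) + U (s0 + s) (φ - t)`: the symmetrisation used with the kernels;
`mixW` is the same with a minus sign (derivative in `t` of the symmetrisation).
For `F ≥ 0` continuous and `2l` periodic, `0 ≤ b ≤ l`: `∫_0^b (F s (φ + t) + F s (φ - t)) dt ≤ ∫_{-l}^l F s t dt`.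
-/

set_option autoImplicit false

namespace Pool.Agent.MML

open Real MeasureTheory Set Filter Topology

/-- symmetrisation about `(s0, φ)` -/
noncomputable def symW (s0 φ : ℝ) (U : ℝ → ℝ → ℝ) (s t : ℝ) : ℝ := U (s0 + s) (φ + t) + U (s0 + s) (φ - t)

/-- antisymmetrisation about `(s0, φ)` -/
noncomputable def mixW (s0 φ : ℝ) (U : ℝ → ℝ → ℝ) (s t : ℝ) : ℝ := U (s0 + s) (φ + t) - U (s0 + s) (φ - t)

variable {l : ℝ} {U Us Uss Ut Utt : ℝ → ℝ → ℝ}

private theorem mean_cont_comp {F : ℝ → ℝ → ℝ} (hF : Continuous (fun p : ℝ × ℝ => F p.1 p.2))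
    {a b : ℝ × ℝ → ℝ} (ha : Continuous a) (hb : Continuous b) :
    Continuous fun p : ℝ × ℝ => F (a p) (b p) :=
  hF.comp (ha.prodMk hb)

theorem symW_C2 (h : C2F U Us Uss Ut Utt) (s0 φ : ℝ) :
    C2F (symW s0 φ U) (symW s0 φ Us) (symW s0 φ Uss) (mixW s0 φ Ut) (symW s0 φ Utt) := by
  have c1 : Continuous fun p : ℝ × ℝ => s0 + p.1 := by fun_prop
  have c2 : Continuous fun p : ℝ × ℝ => φ + p.2 := by fun_prop
  have c3 : Continuous fun p : ℝ × ℝ => φ - p.2 := by fun_prop
  refine ⟨fun s t => ?_, fun s t => ?_, fun s t => ?_, fun s t => ?_, ?_, ?_, ?_, ?_, ?_⟩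
  · exact ((h.ds (s0 + s) (φ + t)).comp_const_add s0 s).add
      ((h.ds (s0 + s) (φ - t)).comp_const_add s0 s)
  · exact ((h.dss (s0 + s) (φ + t)).comp_const_add s0 s).add
      ((h.dss (s0 + s) (φ - t)).comp_const_add s0 s)
  · exact ((h.dt (s0 + s) (φ + t)).comp_const_add φ t).add
      ((h.dt (s0 + s) (φ - t)).comp_const_sub φ t)
  · have h1 := ((h.dtt (s0 + s) (φ + t)).comp_const_add φ t).sub
      ((h.dtt (s0 + s) (φ - t)).comp_const_sub φ t)
    have e : symW s0 φ Utt s t = Utt (s0 + s) (φ + t) - -Utt (s0 + s) (φ - t) := by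
      unfold symW
      ring
    rw [e]
    exact h1
  · exact (mean_cont_comp h.c0 c1 c2).add (mean_cont_comp h.c0 c1 c3)
  · exact (mean_cont_comp h.cs c1 c2).add (mean_cont_comp h.cs c1 c3)
  · exact (mean_cont_comp h.css c1 c2).add (mean_cont_comp h.css c1 c3)
  · exact (mean_cont_comp h.ct c1 c2).sub (mean_cont_comp h.ct c1 c3)
  · exact (mean_cont_comp h.ctt c1 c2).add (mean_cont_comp h.ctt c1 c3)

private theorem mean_cont1 {F : ℝ → ℝ → ℝ} (hF : Continuous (fun p : ℝ × ℝ => F p.1 p.2)) (s : ℝ) :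
    Continuous (F s) :=
  hF.comp (continuous_const.prodMk continuous_id)

private theorem mean_deriv {F Fs : ℝ → ℝ → ℝ} (hF : Continuous (fun p : ℝ × ℝ => F p.1 p.2))
    (hFs : Continuous (fun p : ℝ × ℝ => Fs p.1 p.2))
    (hd : ∀ s t, HasDerivAt (fun x => F x t) (Fs s t) s) (s : ℝ) :
    HasDerivAt (mN l F) (mN l Fs s) s := by
  obtain ⟨C, hC⟩ := ((isCompact_Icc (a := s - 1) (b := s + 1)).prod
    (isCompact_uIcc (a := -l) (b := l))).exists_bound_of_continuousOn hFs.continuousOn
  have key := intervalIntegral.hasDerivAt_integral_of_dominated_loc_of_deriv_le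
    (μ := volume) (F := F) (F' := Fs) (x₀ := s) (a := -l) (b := l) (s := Icc (s - 1) (s + 1))
    (bound := fun _ => C)
    (Icc_mem_nhds (by linarith) (by linarith))
    (Eventually.of_forall fun x => (mean_cont1 hF x).aestronglyMeasurable)
    ((mean_cont1 hF s).intervalIntegrable _ _)
    (mean_cont1 hFs s).aestronglyMeasurable
    (Eventually.of_forall fun t ht x hx => hC (x, t) ⟨hx, uIoc_subset_uIcc ht⟩)
    intervalIntegrable_const
    (Eventually.of_forall fun t _ x _ => hd x t)
  exact key.2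

theorem mN_deriv (h : SH l U Us Uss Ut Utt) (s : ℝ) :
    HasDerivAt (mN l U) (mN l Us s) s :=
  mean_deriv h.c2.c0 h.c2.cs h.c2.ds s

/-- the periods of the derivatives -/
theorem SH_per (h : SH l U Us Uss Ut Utt) (s t : ℝ) :
    Us s (t + 2 * l) = Us s t ∧ Uss s (t + 2 * l) = Uss s t ∧ Ut s (t + 2 * l) = Ut s t ∧
      Utt s (t + 2 * l) = Utt s t := by
  have h1 : ∀ s t, Us s (t + 2 * l) = Us s t := by
    intro s t
    have a1 := h.c2.ds s (t + 2 * l)
    have e : (fun x => U x (t + 2 * l)) = fun x => U x t := funext fun x => h.per x t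
    rw [e] at a1
    exact a1.unique (h.c2.ds s t)
  have h2 : ∀ s t, Ut s (t + 2 * l) = Ut s t := by
    intro s t
    have a1 := (h.c2.dt s (t + 2 * l)).comp_add_const t (2 * l)
    have e : (fun x => U s (x + 2 * l)) = fun x => U s x := funext fun x => h.per s x
    rw [e] at a1
    exact a1.unique (h.c2.dt s t)
  refine ⟨h1 s t, ?_, h2 s t, ?_⟩
  · have a1 := h.c2.dss s (t + 2 * l)
    have e : (fun x => Us x (t + 2 * l)) = fun x => Us x t := funext fun x => h1 x t
    rw [e] at a1
    exact a1.unique (h.c2.dss s t)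
  · have a1 := (h.c2.dtt s (t + 2 * l)).comp_add_const t (2 * l)
    have e : (fun x => Ut s (x + 2 * l)) = fun x => Ut s x := funext fun x => h2 s x
    rw [e] at a1
    exact a1.unique (h.c2.dtt s t)

theorem mN_deriv2 (h : SH l U Us Uss Ut Utt) (s : ℝ) :
    HasDerivAt (mN l Us) (mN l (fun s t => Uss s t + Utt s t) s) s := by
  have h1 : HasDerivAt (mN l Us) (mN l Uss s) s := mean_deriv h.c2.cs h.c2.css h.c2.dss s
  have h2 : ∫ t in (-l)..l, Utt s t = 0 := by
    rw [intervalIntegral.integral_eq_sub_of_hasDerivAt (fun t _ => h.c2.dtt s t)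
      ((mean_cont1 h.c2.ctt s).intervalIntegrable _ _)]
    have := (SH_per h s (-l)).2.2.1
    rw [show -l + 2 * l = l by ring] at this
    rw [this, sub_self]
  have h3 : mN l (fun s t => Uss s t + Utt s t) s = mN l Uss s := by
    unfold mN
    rw [intervalIntegral.integral_add ((mean_cont1 h.c2.css s).intervalIntegrable _ _)
      ((mean_cont1 h.c2.ctt s).intervalIntegrable _ _), h2, add_zero]
  rw [h3]
  exact h1

theorem mN_cont {F : ℝ → ℝ → ℝ} (hF : Continuous (fun p : ℝ × ℝ => F p.1 p.2)) :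
    Continuous (mN l F) :=
  intervalIntegral.continuous_parametric_intervalIntegral_of_continuous' hF (-l) l

/-- part of a period -/
theorem sym_le (hl : 0 < l) {F : ℝ → ℝ → ℝ} (hF : Continuous (fun p : ℝ × ℝ => F p.1 p.2))
    (hper : ∀ s t, F s (t + 2 * l) = F s t) (h0 : ∀ s t, 0 ≤ F s t) {b : ℝ} (hb0 : 0 ≤ b)
    (hb : b ≤ l) (s0 φ s : ℝ) :
    ∫ t in (0 : ℝ)..b, symW s0 φ F s t ≤ mN l F (s0 + s) := by
  obtain ⟨f, hf⟩ : ∃ f : ℝ → ℝ, f = F (s0 + s) := ⟨_, rfl⟩
  have hfc : Continuous f := by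
    rw [hf]
    exact mean_cont1 hF (s0 + s)
  have hfp : Function.Periodic f (2 * l) := by
    intro t
    rw [hf]
    exact hper _ t
  have hf0 : ∀ t, 0 ≤ f t := by
    intro t
    rw [hf]
    exact h0 _ t
  have e1 : ∫ t in (0 : ℝ)..b, symW s0 φ F s t = ∫ t in (φ - b)..(φ + b), f t := by
    have e2 : ∀ t, symW s0 φ F s t = f (φ + t) + f (φ - t) := by
      intro t
      rw [hf]
      rfl
    have i1 : IntervalIntegrable (fun t => f (φ + t)) volume 0 b :=
      (hfc.comp (continuous_const.add continuous_id)).intervalIntegrable _ _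
    have i2 : IntervalIntegrable (fun t => f (φ - t)) volume 0 b :=
      (hfc.comp (continuous_const.sub continuous_id)).intervalIntegrable _ _
    simp only [e2]
    rw [intervalIntegral.integral_add i1 i2,
      intervalIntegral.integral_comp_add_left f φ, intervalIntegral.integral_comp_sub_left f φ,
      add_zero, sub_zero, add_comm,
      intervalIntegral.integral_add_adjacent_intervals (hfc.intervalIntegrable _ _)
      (hfc.intervalIntegrable _ _)]
  have e3 : mN l F (s0 + s) = ∫ t in (φ - l)..(φ + l), f t := by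
    unfold mN
    rw [← hf]
    have h1 := hfp.intervalIntegral_add_eq (-l) (φ - l)
    rw [show -l + 2 * l = l by ring, show φ - l + 2 * l = φ + l by ring] at h1
    exact h1
  rw [e1, e3]
  exact intervalIntegral.integral_mono_interval (by linarith) (by linarith) (by linarith)
    (Eventually.of_forall fun t => hf0 t) (hfc.intervalIntegrable _ _)

/-- part of a period, interval `[x, b]` -/
theorem sym_le' (hl : 0 < l) {F : ℝ → ℝ → ℝ} (hF : Continuous (fun p : ℝ × ℝ => F p.1 p.2))
    (hper : ∀ s t, F s (t + 2 * l) = F s t) (h0 : ∀ s t, 0 ≤ F s t) {x b : ℝ} (hx : 0 ≤ x)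
    (hxb : x ≤ b) (hb : b ≤ l) (s0 φ s : ℝ) :
    ∫ t in x..b, symW s0 φ F s t ≤ mN l F (s0 + s) := by
  refine le_trans ?_ (sym_le hl hF hper h0 (hx.trans hxb) hb s0 φ s)
  refine intervalIntegral.integral_mono_interval hx hxb le_rfl
    (Eventually.of_forall fun t => add_nonneg (h0 _ _) (h0 _ _)) ?_
  have h1 : Continuous fun t => symW s0 φ F s t :=
    ((mean_cont1 hF (s0 + s)).comp (continuous_const.add continuous_id)).add
      ((mean_cont1 hF (s0 + s)).comp (continuous_const.sub continuous_id))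
  exact h1.intervalIntegrable _ _

end Pool.Agent.MML
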