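import Pool.Agent.MML.EtaA
import Pool.Agent.MML.Mean

/-!
# MML, module EtaB: the mean of the regularised logarithm is nondecreasing and bounded below

`mN l (UeS)` is the derivative of `mN l (Ue)` and it is nondecreasing (its derivative is `mN l (Uss + Utt) ≥ 0`); as `s → -∞`
`|UeS| ≤ |F'|/(2η)` and `F' = f'(z) z/μ → 0` with `z = exp (w/μ) → 0`, so it tends to `0`: it is `≥ 0`.
Lower bound: `f` is not identically `0`, so there is `r1 > 0` with `f(z) ≠ 0` for `|z| = r1` (zeros are isolated);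
`s1 = μ log r1`, `Ue f μ η s1 t ≥ log |F(s1 + i t)| ≥ log min_{|z| = r1} |f|`, and `mN l (Ue f μ η)` is nondecreasing.
-/

set_option autoImplicit false

namespace Pool.Agent.MML

open Real MeasureTheory Set Filter Topology

/-- the modulus of the point `exp ((s + i t)/μ)` -/
theorem norm_expw (μ s t : ℝ) : ‖Complex.exp ((s + t * Complex.I) / μ)‖ = exp (s / μ) := by
  rw [Complex.norm_exp]
  congr 1
  have h : ((s : ℂ) + t * Complex.I) / μ = ((s / μ : ℝ) : ℂ) + ((t / μ : ℝ) : ℂ) * Complex.I := by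
    push_cast
    ring
  rw [h]
  simp

theorem UeS_le (f : ℂ → ℂ) (μ : ℝ) {η : ℝ} (hη : 0 < η) (s t : ℝ) :
    |UeS f μ η s t| ≤ ‖Fe' f μ s t‖ / (2 * η) := by
  unfold UeS
  have hpos : 0 < ‖Fe f μ s t‖ ^ 2 + η ^ 2 := by positivity
  rw [abs_div, abs_of_pos hpos, div_le_div_iff₀ hpos (by positivity)]
  have h1 : |(starRingEnd ℂ (Fe f μ s t) * Fe' f μ s t).re| ≤ ‖Fe f μ s t‖ * ‖Fe' f μ s t‖ := by
    refine (Complex.abs_re_le_norm _).trans ?_
    rw [norm_mul, RCLike.norm_conj]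
  have h2 : ‖Fe f μ s t‖ * (2 * η) ≤ ‖Fe f μ s t‖ ^ 2 + η ^ 2 := by
    nlinarith [sq_nonneg (‖Fe f μ s t‖ - η)]
  calc |(starRingEnd ℂ (Fe f μ s t) * Fe' f μ s t).re| * (2 * η)
      ≤ (‖Fe f μ s t‖ * ‖Fe' f μ s t‖) * (2 * η) := by gcongr
    _ = ‖Fe' f μ s t‖ * (‖Fe f μ s t‖ * (2 * η)) := by ring
    _ ≤ ‖Fe' f μ s t‖ * (‖Fe f μ s t‖ ^ 2 + η ^ 2) := by gcongr

theorem exists_bound_Fe' {f : ℂ → ℂ} (hf : Differentiable ℂ f) {μ : ℝ} (hμ : 0 < μ) :
    ∃ M : ℝ, 0 ≤ M ∧ ∀ s, s ≤ 0 → ∀ t, ‖Fe' f μ s t‖ ≤ M * exp (s / μ) := by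
  have hc : Continuous (deriv f) := by
    have h1 : Differentiable ℂ (deriv f) := by
      have := hf.contDiff (n := 2)
      exact (this.differentiable_deriv_two)
    exact h1.continuous
  obtain ⟨M, hM⟩ := (isCompact_closedBall (0 : ℂ) 1).exists_bound_of_continuousOn hc.continuousOn
  have hM0 : 0 ≤ M := (norm_nonneg _).trans (hM 0 (by simp))
  refine ⟨M / μ, by positivity, fun s hs t => ?_⟩
  unfold Fe'
  rw [norm_div, norm_mul, norm_expw, Complex.norm_real, Real.norm_of_nonneg hμ.le]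
  have h1 : exp (s / μ) ≤ 1 := by
    rw [Real.exp_le_one_iff]
    exact div_nonpos_of_nonpos_of_nonneg hs hμ.le
  have h2 := hM (Complex.exp ((s + t * Complex.I) / μ)) (by
    rw [mem_closedBall_zero_iff, norm_expw]
    exact h1)
  rw [div_mul_eq_mul_div]
  gcongr

theorem mN_UeS_abs {f : ℂ → ℂ} (hf : Differentiable ℂ f) {μ η : ℝ} (hμ : 0 < μ) (hη : 0 < η) :
    ∃ M : ℝ, ∀ s, s ≤ 0 → |mN (π * μ) (UeS f μ η) s| ≤ M * exp (s / μ) := by
  obtain ⟨M, hM0, hM⟩ := exists_bound_Fe' hf hμ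
  refine ⟨M / (2 * η) * |π * μ - -(π * μ)|, fun s hs => ?_⟩
  have h := intervalIntegral.norm_integral_le_of_norm_le_const (a := -(π * μ)) (b := π * μ)
    (f := fun t => UeS f μ η s t) (C := M * exp (s / μ) / (2 * η)) (fun t _ => by
      rw [Real.norm_eq_abs]
      refine (UeS_le f μ hη s t).trans ?_
      have := hM s hs t
      gcongr)
  rw [Real.norm_eq_abs] at h
  unfold mN
  refine h.trans (le_of_eq ?_)
  ring

theorem mN_UeS_monotone {f : ℂ → ℂ} (hf : Differentiable ℂ f) {μ η : ℝ} (hμ : 0 < μ)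
    (hη : 0 < η) : Monotone (mN (π * μ) (UeS f μ η)) := by
  obtain ⟨Uss, Ut, Utt, h⟩ := SH_eta hf hμ hη
  refine monotone_of_deriv_nonneg (fun s => (mN_deriv2 h s).differentiableAt) (fun s => ?_)
  rw [(mN_deriv2 h s).deriv]
  unfold mN
  have hl : (0 : ℝ) ≤ π * μ := by positivity
  exact intervalIntegral.integral_nonneg (by linarith) (fun t _ => h.sub s t)

theorem mN_UeS_nonneg {f : ℂ → ℂ} (hf : Differentiable ℂ f) {μ η : ℝ} (hμ : 0 < μ) (hη : 0 < η)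
    (s : ℝ) : 0 ≤ mN (π * μ) (UeS f μ η) s := by
  have hmono := mN_UeS_monotone hf hμ hη
  obtain ⟨M, hM⟩ := mN_UeS_abs hf hμ hη
  refine hmono.le_of_tendsto ?_ s
  have hexp : Tendsto (fun s : ℝ => M * exp (s / μ)) atBot (𝓝 0) := by
    have h1 : Tendsto (fun s : ℝ => exp (s / μ)) atBot (𝓝 0) :=
      Real.tendsto_exp_atBot.comp (tendsto_id.atBot_div_const hμ)
    simpa using h1.const_mul M
  refine squeeze_zero_norm' ?_ hexp
  filter_upwards [eventually_le_atBot (0 : ℝ)] with s hs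
  rw [Real.norm_eq_abs]
  exact hM s hs

theorem mN_Ue_mono {f : ℂ → ℂ} (hf : Differentiable ℂ f) {μ η : ℝ} (hμ : 0 < μ) (hη : 0 < η) :
    Monotone (mN (π * μ) (Ue f μ η)) := by
  obtain ⟨Uss, Ut, Utt, h⟩ := SH_eta hf hμ hη
  refine monotone_of_deriv_nonneg (fun s => (mN_deriv h s).differentiableAt) (fun s => ?_)
  rw [(mN_deriv h s).deriv]
  exact mN_UeS_nonneg hf hμ hη s

/-- a circle free of zeros -/
theorem exists_circle {f : ℂ → ℂ} (hf : Differentiable ℂ f) (hne : ∃ z, f z ≠ 0) :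
    ∃ r1 m : ℝ, 0 < r1 ∧ 0 < m ∧ ∀ z : ℂ, ‖z‖ = r1 → m ≤ ‖f z‖ := by
  have han : AnalyticOnNhd ℂ f univ := fun z _ => hf.analyticAt z
  have hev : ∀ᶠ z in 𝓝[≠] (0 : ℂ), f z ≠ 0 := by
    rcases (hf.analyticAt 0).eventually_eq_zero_or_eventually_ne_zero with h | h
    · exfalso
      obtain ⟨z, hz⟩ := hne
      exact hz (han.eqOn_zero_of_preconnected_of_eventuallyEq_zero isPreconnected_univ
        (mem_univ 0) h (mem_univ z))
    · exact h
  rw [eventually_nhdsWithin_iff, Metric.eventually_nhds_iff] at hev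
  obtain ⟨ε, hε, hball⟩ := hev
  have hcomp : IsCompact (Metric.sphere (0 : ℂ) (ε / 2)) := isCompact_sphere _ _
  have hnon : (Metric.sphere (0 : ℂ) (ε / 2)).Nonempty := by
    rw [NormedSpace.sphere_nonempty]
    positivity
  obtain ⟨z0, hz0, hmin⟩ := hcomp.exists_isMinOn hnon
    (f := fun z => ‖f z‖) hf.continuous.norm.continuousOn
  refine ⟨ε / 2, ‖f z0‖, by positivity, ?_, fun z hz => ?_⟩
  · rw [norm_pos_iff]
    rw [mem_sphere_zero_iff_norm] at hz0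
    refine hball ?_ ?_
    · rw [dist_zero_right, hz0]
      linarith
    · intro h0
      rw [mem_singleton_iff] at h0
      rw [h0, norm_zero] at hz0
      linarith
  · exact hmin (by rw [mem_sphere_zero_iff_norm]; exact hz)

theorem slice_cont {U : ℝ → ℝ → ℝ} (hU : Continuous (fun p : ℝ × ℝ => U p.1 p.2)) (s : ℝ) :
    Continuous (fun t => U s t) :=
  hU.comp (Continuous.prodMk continuous_const continuous_id)

theorem Ue_circle_lower {f : ℂ → ℂ} {r1 m : ℝ} (hr1 : 0 < r1) (hm : 0 < m)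
    (hfm : ∀ z : ℂ, ‖z‖ = r1 → m ≤ ‖f z‖) {μ : ℝ} (hμ : 0 < μ) (η t : ℝ) :
    log m ≤ Ue f μ η (μ * log r1) t := by
  have hn : ‖Complex.exp (((μ * log r1 : ℝ) + t * Complex.I) / μ)‖ = r1 := by
    rw [norm_expw, mul_div_cancel_left₀ _ hμ.ne', Real.exp_log hr1]
  have h1 : m ≤ ‖Fe f μ (μ * log r1) t‖ := hfm _ hn
  have h2 : log m = 1 / 2 * log (m ^ 2) := by
    rw [Real.log_pow]
    push_cast
    ring
  unfold Ue
  rw [h2]
  generalize ‖Fe f μ (μ * log r1) t‖ = x at h1 ⊢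
  have h3 : m ^ 2 ≤ x ^ 2 + η ^ 2 := by
    have h4 : m ^ 2 ≤ x ^ 2 := by gcongr
    have h5 : 0 ≤ η ^ 2 := sq_nonneg η
    linarith
  have h6 : log (m ^ 2) ≤ log (x ^ 2 + η ^ 2) :=
    Real.log_le_log (by positivity) h3
  linarith

theorem mN_Ue_lower_aux {f : ℂ → ℂ} (hf : Differentiable ℂ f) {r1 m : ℝ} (hr1 : 0 < r1)
    (hm : 0 < m) (hfm : ∀ z : ℂ, ‖z‖ = r1 → m ≤ ‖f z‖) {μ η : ℝ} (hμ : 0 < μ) (hη : 0 < η) :
    -(2 * (π * μ) * |log m|) ≤ mN (π * μ) (Ue f μ η) (μ * log r1) := by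
  have hl : (0 : ℝ) < π * μ := by positivity
  obtain ⟨Uss, Ut, Utt, h⟩ := SH_eta hf hμ hη
  have hcont : Continuous (fun t => Ue f μ η (μ * log r1) t) := slice_cont h.c2.c0 (μ * log r1)
  have hle : -(π * μ) ≤ π * μ := by linarith
  have hint := intervalIntegral.integral_mono_on (μ := volume) (a := -(π * μ)) (b := π * μ)
    (f := fun _ => log m) (g := fun t => Ue f μ η (μ * log r1) t) hle
    intervalIntegrable_const (hcont.intervalIntegrable _ _)
    (fun t _ => Ue_circle_lower hr1 hm hfm hμ η t)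
  rw [intervalIntegral.integral_const, smul_eq_mul] at hint
  refine le_trans ?_ hint
  have hab : -|log m| ≤ log m := neg_abs_le _
  have key : ∀ l y : ℝ, 0 < l → -|y| ≤ y → -(2 * l * |y|) ≤ (l - -l) * y := by
    intro l y hl hy
    nlinarith
  exact key _ _ hl hab

theorem mN_Ue_lower {f : ℂ → ℂ} (hf : Differentiable ℂ f) (hne : ∃ z, f z ≠ 0) {μ : ℝ}
    (hμ : 0 < μ) : ∃ C0 s1 : ℝ, 0 ≤ C0 ∧ ∀ η ∈ Ioc (0 : ℝ) 1, ∀ s, s1 ≤ s →
      -C0 ≤ mN (π * μ) (Ue f μ η) s := by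
  obtain ⟨r1, m, hr1, hm, hfm⟩ := exists_circle hf hne
  refine ⟨2 * (π * μ) * |log m|, μ * log r1, ?_, fun η hη s hs => ?_⟩
  · exact mul_nonneg (mul_nonneg (by norm_num) (mul_nonneg Real.pi_pos.le hμ.le)) (abs_nonneg _)
  exact le_trans (mN_Ue_lower_aux hf hr1 hm hfm hμ hη.1) (mN_Ue_mono hf hμ hη.1 hs)

end Pool.Agent.MML
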