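import Pool.Agent.MML.FinG
import Pool.Agent.MML.ConstIII
import Pool.Agent.MML.ConstZ
import Pool.Agent.MML.PtIII

/-!
# MML, module FinS: strict inequality `-πλ < D λ` for `1 < λ < 4/3`

`window_gen` with `ρ = 3λ/4 ∈ (3/4, 1)`, `μ = 4/3`, `kh = kH3`, `x = arccos c` (`c > 0` small), `a = ρπ/x`,
`q = 2 sin x (ρ Z + 1)/c`, `p = q/(1+q)`, `Z = ∫ exp (ρτ) mz`, `K = ∫ exp (ρτ) kH3 < ρ/2`.
-/

set_option autoImplicit false

namespace Pool.Agent.MML

open Real MeasureTheory Set Filter Topology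

theorem final_strict (lam : ℝ) (hl1 : 1 < lam) (hl2 : lam < 4 / 3) :
    ((-(π * lam) : ℝ) : EReal) < D lam := by
  set ρ : ℝ := 3 / 4 * lam with hρd
  have hρ1 : 3 / 4 < ρ := by rw [hρd]; linarith
  have hρ2 : ρ < 1 := by rw [hρd]; linarith
  have hρ : 0 < ρ := by linarith
  have hpi := Real.pi_pos
  set K := ∫ τ, exp (ρ * τ) * kH3 τ with hK
  set Z := ∫ τ, exp (ρ * τ) * mz τ with hZ
  have hKlt : K < ρ / 2 := KH3_lt hρ1 hρ2
  have hZ0 : 0 ≤ Z := by
    apply integral_nonneg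
    intro τ
    exact mul_nonneg (exp_pos _).le (le_max_left _ _)
  have hK0 : 0 ≤ K := by
    apply integral_nonneg
    intro τ
    exact mul_nonneg (exp_pos _).le (kH3_nonneg τ)
  set δ := ρ / 2 - K with hδ
  have hδ0 : 0 < δ := by rw [hδ]; linarith
  set B := ρ * (ρ * Z + 1) with hB
  have hB0 : 0 < B := by positivity
  set c := min (1 / 2) (δ / (2 * B)) with hc
  have hc0 : 0 < c := lt_min (by norm_num) (by positivity)
  have hc1 : c ≤ 1 / 2 := min_le_left _ _
  have hc2 : B * c < δ := by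
    have h1 : c ≤ δ / (2 * B) := min_le_right _ _
    have h2 : B * c ≤ B * (δ / (2 * B)) := mul_le_mul_of_nonneg_left h1 hB0.le
    have h3 : B * (δ / (2 * B)) = δ / 2 := by field_simp
    linarith
  set x := arccos c with hx
  have hcos : cos x = c := cos_arccos (by linarith) (by linarith)
  have hx0 : 0 < x := arccos_pos.2 (by linarith)
  have hxpi : x < π / 2 := arccos_lt_pi_div_two.2 hc0
  have hsin : 0 < sin x := sin_pos_of_pos_of_lt_pi hx0 (by linarith)
  have hsin1 : sin x ≤ 1 := sin_le_one x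
  have hsc : sin x ^ 2 + c ^ 2 = 1 := by rw [← hcos]; exact sin_sq_add_cos_sq x
  set a := ρ * π / x with ha
  have hax : ρ * π / a = x := by
    rw [ha]; field_simp
  have hρa : ρ < a := by
    rw [ha, lt_div_iff₀ hx0]
    have : x < π := by linarith
    exact mul_lt_mul_of_pos_left this hρ
  have hal : π / a ≤ π * (4 / 3) := by
    rw [ha]
    have : π / (ρ * π / x) = x / ρ := by field_simp
    rw [this, div_le_iff₀ hρ]
    nlinarith
  set q := 2 * sin x * (ρ * Z + 1) / c with hq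
  have hq0 : 0 < q := by positivity
  set p := q / (1 + q) with hp
  have hp0 : 0 ≤ p := by positivity
  have hp1 : p ≤ 1 := by
    rw [hp, div_le_one (by positivity)]; linarith
  have h1p : 1 - p = 1 / (1 + q) := by
    rw [hp]; field_simp; ring
  -- the value
  set v := p * (ρ / (2 * sin x)) + (1 - p) * K with hv
  have hvlt : v < ρ / 2 := by
    have e1 : v = (q * (ρ / (2 * sin x)) + K) / (1 + q) := by
      rw [hv, h1p, hp]; field_simp
    rw [e1, div_lt_iff₀ (by positivity)]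
    have e2 : q * (ρ / (2 * sin x)) = B / c := by
      rw [hq, hB]; field_simp
    have e3 : q * (ρ / 2) = B / c * sin x := by
      rw [hq, hB]; field_simp
    have e4 : B / c * (1 - sin x) ≤ B * c := by
      have h1 : (1 - sin x) ≤ c ^ 2 := by nlinarith
      calc B / c * (1 - sin x) ≤ B / c * c ^ 2 := by gcongr
        _ = B * c := by field_simp
    have e5 : ρ / 2 * (1 + q) = ρ / 2 + q * (ρ / 2) := by ring
    rw [e5, e2, e3]
    have e6 : B / c * (1 - sin x) = B / c - B / c * sin x := by ring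
    rw [hδ] at hc2
    linarith
  set κ1 := (v + ρ / 2) / 2 with hκ1
  have hκa : v < κ1 := by rw [hκ1]; linarith
  have hκb : κ1 < ρ / 2 := by rw [hκ1]; linarith
  have hv0 : 0 ≤ v := by
    have : 0 ≤ 1 - p := by linarith
    rw [hv]; positivity
  have hκ0 : 0 < κ1 := by linarith
  have hN : ρ ^ 2 * (p * ((1 - cos (ρ * π / a)) / (2 * ρ * sin (ρ * π / a)))
      + (1 - p) * ∫ τ, exp (ρ * τ) * mz τ) < p * (ρ / (2 * sin (ρ * π / a))) := by
    rw [hax, hcos, ← hZ]
    have e1 : p * (ρ / (2 * sin x)) - ρ ^ 2 * (p * ((1 - c) / (2 * ρ * sin x)) + (1 - p) * Z)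
        = ρ * (p * c / (2 * sin x) - (1 - p) * (ρ * Z)) := by
      field_simp; ring
    have e2 : p * c / (2 * sin x) = (1 - p) * (ρ * Z + 1) := by
      rw [h1p, hp, hq]; field_simp
    have e3 : 0 < 1 - p := by rw [h1p]; positivity
    have e4 : 0 < ρ * (p * c / (2 * sin x) - (1 - p) * (ρ * Z)) := by
      apply mul_pos hρ
      rw [e2]; nlinarith
    linarith
  have hw : ∀ f : ℂ → ℂ, Differentiable ℂ f → (∃ z, f z ≠ 0) → ∃ κ0 R C C0 s1 : ℝ, κ0 < κ1 ∧
      0 ≤ R ∧ 0 ≤ C ∧ 1 ≤ C0 ∧ Window f (4 / 3) ρ κ0 R C C0 s1 := by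
    intro f hf hne
    refine window_gen hf hne (by norm_num) hρ hρa hal hp0 hp1 kH3 kH3_cont kH3_nonneg
      (KH3_int (by linarith) hρ2) (dec_int (by linarith) hρ2) (MZ_int hρ (by linarith))
      mz_int ?_ ?_ hN
    · obtain ⟨K', hK', h⟩ := ptIII
      refine ⟨K', hK', ?_⟩
      intro R hR U Us Uss Ut Utt U1 h1 h2 h3 h4 h5 s0 φ
      exact h (π * (4 / 3)) R (by linarith) hR U Us Uss Ut Utt U1 h1 h2 h3 h4 h5 s0 φ
    · rw [hax]; exact hκa
  have hfin := final_gen (μ := 4 / 3) (ρ := ρ) (κ1 := κ1) (lam := lam) (by norm_num) hρ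
    (by rw [hρd]; ring) hκ0 hw
  refine lt_of_lt_of_le ?_ hfin
  have : -(π * lam) < -(2 * π * (4 / 3) * κ1) := by
    have h1 : 2 * π * (4 / 3) * κ1 < 2 * π * (4 / 3) * (ρ / 2) := by
      apply mul_lt_mul_of_pos_left hκb; positivity
    have h2 : 2 * π * (4 / 3) * (ρ / 2) = π * lam := by rw [hρd]; ring
    linarith
  exact_mod_cast this

end Pool.Agent.MML
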