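import Pool.Agent.MML.MainB

/-!
# MML, module Final: the lower bound of `D(λ)`

`λ ≥ 4/3`, `μ = 9λ/8 ≥ 3/2`, `λ = (8/9) μ`.  Let `f` be entire, not constant, of lower order `λ`, and suppose
`minRatio f < -(6/7) π λ`.  Take a real `c1 > (6/7) π λ` with `minRatio f < -c1`; for large `r`,
`log m_0(r,f)/T(r,f) < -c1`, and `T(r,f) > 0` for large `r` (`le_nevT`, `mN_tendsto`), so `m_0(r,f) ≤ exp (-c1 T(r,f))`.
With `r = exp (s/μ)`, `M = mN (π μ) (Ue f μ 1) s`: `T ≥ (M - π μ log 2)/(2π μ)`, so `c1 T ≥ c'' (M - π μ log 2)`,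
`c'' = c1/(2π μ) > (3/7) λ/μ = 8/21`; take `8/21 < c' < c''`: `c'' (M - π μ log 2) ≥ c' M` for large `s` (`mN_tendsto`).
The minimum modulus is attained (compact circle) at some `exp ((s + i t)/μ)`.  This contradicts `main_scaled`.
-/

set_option autoImplicit false

namespace Pool.Agent.MML

open Real MeasureTheory Set Filter Topology

/-- the minimum modulus is attained -/
private theorem minMod_mem {f : ℂ → ℂ} (hf : Differentiable ℂ f) {r : ℝ} (hr : 0 ≤ r) :
    ∃ z : ℂ, ‖z‖ = r ∧ ‖f z‖ = minMod f r := by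
  have hc : IsCompact ((fun z => ‖f z‖) '' Metric.sphere (0 : ℂ) r) :=
    (isCompact_sphere (0 : ℂ) r).image hf.continuous.norm
  have hne : (Metric.sphere (0 : ℂ) r).Nonempty := NormedSpace.sphere_nonempty.mpr hr
  obtain ⟨z, hz, hz'⟩ := hc.sInf_mem (hne.image _)
  refine ⟨z, ?_, hz'⟩
  simpa using hz

/-- the sign of the ratio -/
private theorem ratio_aux {m T x : ℝ} (hT : 0 < T)
    (h : ENNReal.log (ENNReal.ofReal m) / ((T : ℝ) : EReal) < (x : EReal)) :
    m ≤ exp (x * T) := by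
  have hT' : (0 : EReal) < ((T : ℝ) : EReal) := by exact_mod_cast hT
  rw [EReal.div_lt_iff hT' (EReal.coe_ne_top T), ← EReal.coe_mul, ENNReal.log_ofReal] at h
  by_cases hm : m ≤ 0
  · exact le_trans hm (exp_pos _).le
  · rw [if_neg hm] at h
    have h1 : log m < x * T := by exact_mod_cast h
    push Not at hm
    have h2 := (Real.log_lt_iff_lt_exp hm).mp h1
    exact h2.le

theorem final (lam : ℝ) (hl : 4 / 3 ≤ lam) : ((-(6 / 7 * π * lam) : ℝ) : EReal) ≤ D lam := by
  unfold D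
  refine le_iInf fun f => le_iInf fun hf => le_iInf fun hne => le_iInf fun hlo => ?_
  by_contra hcon
  rw [not_le] at hcon
  obtain ⟨x, hx1, hx2⟩ := EReal.lt_iff_exists_real_btwn.mp hcon
  have hx3 : x < -(6 / 7 * π * lam) := by exact_mod_cast hx2
  have hev : ∀ᶠ r : ℝ in atTop,
      ENNReal.log (ENNReal.ofReal (minMod f r)) / ((nevT f r : ℝ) : EReal) < (x : EReal) :=
    Filter.eventually_lt_of_limsup_lt hx1
  set μ : ℝ := 9 / 8 * lam with hμdef
  have hμ : 3 / 2 ≤ μ := by rw [hμdef]; linarith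
  have hμ0 : 0 < μ := by linarith
  have hlam : lam = 8 / 9 * μ := by rw [hμdef]; ring
  have hlo' : lowerOrder f = ((8 / 9 * μ : ℝ) : EReal) := by rw [hlo, ← hlam]
  have hpi : 0 < π := Real.pi_pos
  have hM := mN_tendsto hf hne hμ0 (by norm_num : (0 : ℝ) < 8 / 9) hlo'
  set c2 : ℝ := -x / (2 * π * μ) with hc2
  have hc2' : 8 / 21 < c2 := by
    rw [hc2, lt_div_iff₀ (by positivity)]
    have h7 : 6 / 7 * π * lam < -x := by linarith
    have h8 : 8 / 21 * (2 * π * μ) = 6 / 7 * π * lam := by rw [hlam]; ring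
    linarith
  set c' : ℝ := (8 / 21 + c2) / 2 with hc'
  have h1 : 8 / 21 < c' := by rw [hc']; linarith
  have h2 : c' < c2 := by rw [hc']; linarith
  apply main_scaled hf hne hμ hlo' h1
  have htend : Tendsto (fun s : ℝ => exp (s / μ)) atTop atTop :=
    Real.tendsto_exp_atTop.comp (tendsto_id.atTop_div_const hμ0)
  have hlog2 : 0 ≤ log 2 := Real.log_nonneg (by norm_num)
  filter_upwards [htend.eventually hev,
    hM.eventually_ge_atTop ((c2 * (π * μ * log 2)) / (c2 - c')),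
    hM.eventually_gt_atTop (π * μ * log 2)] with s hs hs1 hs2
  set M : ℝ := mN (π * μ) (Ue f μ 1) s with hMdef
  have hT := le_nevT hf hμ0 s
  rw [← hMdef] at hT
  have hTpos : 0 < nevT f (exp (s / μ)) := by
    by_contra hn
    push Not at hn
    have : 2 * π * μ * nevT f (exp (s / μ)) ≤ 0 :=
      mul_nonpos_of_nonneg_of_nonpos (by positivity) hn
    linarith
  have hm := ratio_aux hTpos hs
  obtain ⟨z, hz1, hz2⟩ := minMod_mem hf (exp_pos (s / μ)).le
  refine ⟨μ * Complex.arg z, ?_⟩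
  have hFe : Fe f μ s (μ * Complex.arg z) = f z := by
    unfold Fe
    congr 1
    have e1 : ((s : ℂ) + ((μ * Complex.arg z : ℝ) : ℂ) * Complex.I) / (μ : ℂ)
        = ((s / μ : ℝ) : ℂ) + (Complex.arg z : ℂ) * Complex.I := by
      have hμc : (μ : ℂ) ≠ 0 := by exact_mod_cast hμ0.ne'
      push_cast
      field_simp
    rw [e1, Complex.exp_add, ← Complex.ofReal_exp, ← hz1]
    exact Complex.norm_mul_exp_arg_mul_I z
  rw [hFe, hz2]
  refine le_trans hm (Real.exp_le_exp.mpr ?_)
  have hc2pos : 0 < c2 := by linarith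
  have hxT : x * nevT f (exp (s / μ)) = -(c2 * (2 * π * μ * nevT f (exp (s / μ)))) := by
    rw [hc2]
    field_simp
  have hk : c2 * (π * μ * log 2) ≤ M * (c2 - c') := by
    have := (div_le_iff₀ (by linarith : 0 < c2 - c')).mp hs1
    linarith
  have hk2 : c2 * (M - π * μ * log 2) ≤ c2 * (2 * π * μ * nevT f (exp (s / μ))) :=
    mul_le_mul_of_nonneg_left (by linarith) hc2pos.le
  rw [hxT]
  nlinarith

end Pool.Agent.MML
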