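import Pool.Agent.MML.EtaB

/-!
# MML, module GrowA: comparison with the characteristic and the maximum modulus

`log⁺ x ≤ ½ log (x² + 1) ≤ log⁺ x + ½ log 2` for `x ≥ 0`; with `r = exp (s/μ)` and `θ = t/μ`
`∫_{-πμ}^{πμ} log⁺ |F(s + i t)| dt = 2π μ T(r, f)` (periodicity moves `[-π, π]` to `[0, 2π]`).
`log_max_le`: for `|z| = r`, `f(z) ≠ 0`: Jensen's formula on the circle of centre `z` and radius `x ≤ r` gives
`log |f(z)| ≤ (1/2π) ∫ log |f(z + x e^{iθ})| dθ ≤ (1/2π) ∫ u1(z + x e^{iθ}) dθ`, `u1 = ½ log (|f|² + 1)`; multiply by `x` and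
integrate over `0 < x < r`: `(r²/2) log |f(z)| ≤ (1/2π) ∫_{D(z,r)} u1 ≤ (1/2π) ∫_{D(0,2r)} u1
 = (1/2π) ∫_0^{2r} x (1/μ) mN (π μ) (Ue f μ 1) (μ log x) dx ≤ (1/2π) 2 r² (1/μ) mN (π μ) (Ue f μ 1) (μ log (2 r))`
(`mN_Ue_mono`).  (Any other proof of an inequality of this kind is fine.)
-/

set_option autoImplicit false

namespace Pool.Agent.MML

open Real MeasureTheory Set Filter Topology

/-- `½ log (|f|² + 1)` -/
noncomputable def gaU (f : ℂ → ℂ) (z : ℂ) : ℝ := 1 / 2 * log (‖f z‖ ^ 2 + 1)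

theorem gaU_cont {f : ℂ → ℂ} (hf : Differentiable ℂ f) : Continuous (gaU f) := by
  have h : Continuous fun z => ‖f z‖ ^ 2 + 1 := (hf.continuous.norm.pow 2).add continuous_const
  exact continuous_const.mul (h.log fun z => by positivity)

theorem gaU_nonneg (f : ℂ → ℂ) (z : ℂ) : 0 ≤ gaU f z := by
  unfold gaU
  have : 0 ≤ log (‖f z‖ ^ 2 + 1) := log_nonneg (by nlinarith [sq_nonneg ‖f z‖])
  positivity

theorem gaU_posLog (f : ℂ → ℂ) (z : ℂ) : posLog ‖f z‖ ≤ gaU f z := by
  unfold gaU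
  rw [posLog_eq_log_max_one (norm_nonneg _)]
  have h1 : log (max 1 ‖f z‖ ^ 2) ≤ log (‖f z‖ ^ 2 + 1) := by
    have h0 : 0 < max 1 ‖f z‖ := lt_of_lt_of_le one_pos (le_max_left _ _)
    refine log_le_log (by positivity) ?_
    rcases max_cases (1 : ℝ) ‖f z‖ with ⟨h, _⟩ | ⟨h, _⟩ <;> rw [h]
    · nlinarith [sq_nonneg ‖f z‖]
    · linarith
  rw [log_pow] at h1
  push_cast at h1
  linarith

theorem gaU_le (f : ℂ → ℂ) (z : ℂ) : gaU f z ≤ posLog ‖f z‖ + 1 / 2 * log 2 := by
  unfold gaU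
  rw [posLog_eq_log_max_one (norm_nonneg _)]
  have h0 : 0 < max 1 ‖f z‖ := lt_of_lt_of_le one_pos (le_max_left _ _)
  have h1 : log (‖f z‖ ^ 2 + 1) ≤ log (max 1 ‖f z‖ ^ 2 * 2) := by
    refine log_le_log (by positivity) ?_
    have k1 : 1 ≤ max 1 ‖f z‖ := le_max_left _ _
    have k2 : ‖f z‖ ≤ max 1 ‖f z‖ := le_max_right _ _
    have k3 : ‖f z‖ ^ 2 ≤ max 1 ‖f z‖ ^ 2 := pow_le_pow_left₀ (norm_nonneg _) k2 2
    nlinarith
  rw [log_mul (by positivity) (by norm_num), log_pow] at h1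
  push_cast at h1
  linarith

/-- mean over a circle -/
noncomputable def gaM (f : ℂ → ℂ) (x : ℝ) : ℝ :=
  ∫ θ in (-π)..π, gaU f (x * Complex.exp (θ * Complex.I))

theorem gaU_circ_cont {f : ℂ → ℂ} (hf : Differentiable ℂ f) :
    Continuous (fun p : ℝ × ℝ => gaU f (p.1 * Complex.exp (p.2 * Complex.I))) :=
  (gaU_cont hf).comp (by fun_prop)

theorem gaU_per (f : ℂ → ℂ) (x θ : ℝ) :
    gaU f (x * Complex.exp ((θ + 2 * π : ℝ) * Complex.I)) =
      gaU f (x * Complex.exp (θ * Complex.I)) := by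
  have : Complex.exp ((θ + 2 * π : ℝ) * Complex.I) = Complex.exp (θ * Complex.I) := by
    push_cast
    rw [add_mul, Complex.exp_add, Complex.exp_two_pi_mul_I, mul_one]
  rw [this]

theorem gaM_eq (f : ℂ → ℂ) (x : ℝ) :
    gaM f x = ∫ θ in (0 : ℝ)..(2 * π), gaU f (x * Complex.exp (θ * Complex.I)) := by
  have hp : Function.Periodic (fun θ : ℝ => gaU f (x * Complex.exp (θ * Complex.I))) (2 * π) :=
    fun θ => gaU_per f x θ
  have h := hp.intervalIntegral_add_eq (-π) 0
  rw [zero_add, show -π + 2 * π = π by ring] at h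
  exact h

theorem mN_gaM {f : ℂ → ℂ} {μ : ℝ} (hμ : 0 < μ) (s : ℝ) :
    mN (π * μ) (Ue f μ 1) s = μ * gaM f (exp (s / μ)) := by
  unfold mN gaM
  have h := intervalIntegral.mul_integral_comp_mul_left (a := -π) (b := π)
    (f := Ue f μ 1 s) (c := μ)
  rw [show -(π * μ) = μ * -π by ring, mul_comm π μ, ← h]
  congr 1
  refine intervalIntegral.integral_congr fun θ _ => ?_
  simp only [Ue, Fe, gaU, one_pow]
  have e : Complex.exp (((s : ℂ) + ((μ * θ : ℝ) : ℂ) * Complex.I) / μ) =
      ((exp (s / μ) : ℝ) : ℂ) * Complex.exp (θ * Complex.I) := by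
    have hμ' : (μ : ℂ) ≠ 0 := by exact_mod_cast hμ.ne'
    rw [Complex.ofReal_exp, ← Complex.exp_add]
    congr 1
    push_cast
    field_simp
  rw [e]

theorem nevT_le {f : ℂ → ℂ} (hf : Differentiable ℂ f) {μ : ℝ} (hμ : 0 < μ) (s : ℝ) :
    2 * π * μ * nevT f (exp (s / μ)) ≤ mN (π * μ) (Ue f μ 1) s := by
  rw [mN_gaM hμ, gaM_eq]
  unfold nevT
  have hc1 : Continuous (fun θ : ℝ => posLog ‖f ((exp (s / μ) : ℝ) *
      Complex.exp (θ * Complex.I))‖) :=
    continuous_posLog.comp (hf.continuous.comp (by fun_prop)).norm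
  have hc2 : Continuous (fun θ : ℝ => gaU f ((exp (s / μ) : ℝ) *
      Complex.exp (θ * Complex.I))) := (gaU_cont hf).comp (by fun_prop)
  have h := intervalIntegral.integral_mono_on (μ := volume) (by positivity : (0 : ℝ) ≤ 2 * π)
    (hc1.intervalIntegrable _ _) (hc2.intervalIntegrable _ _) fun θ _ => gaU_posLog f _
  have hpi := pi_pos
  have key : ∀ J : ℝ, 2 * π * μ * ((2 * π)⁻¹ * J) = μ * J := fun J => by field_simp
  rw [key]
  exact mul_le_mul_of_nonneg_left h hμ.le

theorem le_nevT {f : ℂ → ℂ} (hf : Differentiable ℂ f) {μ : ℝ} (hμ : 0 < μ) (s : ℝ) :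
    mN (π * μ) (Ue f μ 1) s ≤ 2 * π * μ * nevT f (exp (s / μ)) + π * μ * log 2 := by
  rw [mN_gaM hμ, gaM_eq]
  unfold nevT
  have hc1 : Continuous (fun θ : ℝ => posLog ‖f ((exp (s / μ) : ℝ) *
      Complex.exp (θ * Complex.I))‖) :=
    continuous_posLog.comp (hf.continuous.comp (by fun_prop)).norm
  have hc2 : Continuous (fun θ : ℝ => gaU f ((exp (s / μ) : ℝ) *
      Complex.exp (θ * Complex.I))) := (gaU_cont hf).comp (by fun_prop)
  have hc3 : Continuous (fun θ : ℝ => posLog ‖f ((exp (s / μ) : ℝ) *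
      Complex.exp (θ * Complex.I))‖ + 1 / 2 * log 2) := hc1.add continuous_const
  have h := intervalIntegral.integral_mono_on (μ := volume) (by positivity : (0 : ℝ) ≤ 2 * π)
    (hc2.intervalIntegrable _ _) (hc3.intervalIntegrable _ _)
    fun θ _ => gaU_le f ((exp (s / μ) : ℝ) * Complex.exp (θ * Complex.I))
  rw [intervalIntegral.integral_add (hc1.intervalIntegrable _ _)
    (continuous_const.intervalIntegrable _ _), intervalIntegral.integral_const] at h
  have hpi := pi_pos
  calc μ * ∫ θ in (0 : ℝ)..(2 * π), gaU f ((exp (s / μ) : ℝ) * Complex.exp (θ * Complex.I))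
      ≤ μ * ((∫ θ in (0 : ℝ)..(2 * π),
        posLog ‖f ((exp (s / μ) : ℝ) * Complex.exp (θ * Complex.I))‖) +
          (2 * π - 0) • (1 / 2 * log 2)) := mul_le_mul_of_nonneg_left h hμ.le
    _ = _ := by
      have key : ∀ J : ℝ, μ * (J + (2 * π - 0) * (1 / 2 * log 2)) =
          2 * π * μ * ((2 * π)⁻¹ * J) + π * μ * log 2 := fun J => by
        field_simp
        ring
      rw [smul_eq_mul, key]

theorem gaMax_bdd {f : ℂ → ℂ} (hf : Differentiable ℂ f) (r : ℝ) :
    BddAbove ((fun z => ‖f z‖) '' Metric.sphere (0 : ℂ) r) :=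
  ((isCompact_sphere (0 : ℂ) r).image hf.continuous.norm).bddAbove

theorem gaCirc_mem {x : ℝ} (hx : 0 ≤ x) (θ : ℝ) :
    (x : ℂ) * Complex.exp (θ * Complex.I) ∈ Metric.sphere (0 : ℂ) x := by
  rw [mem_sphere_zero_iff_norm, norm_mul, Complex.norm_exp_ofReal_mul_I, mul_one,
    Complex.norm_real, norm_eq_abs, abs_of_nonneg hx]

theorem mN_le_max {f : ℂ → ℂ} (hf : Differentiable ℂ f) {μ : ℝ} (hμ : 0 < μ) (s : ℝ) :
    mN (π * μ) (Ue f μ 1) s ≤ π * μ * log (maxMod f (exp (s / μ)) ^ 2 + 1) := by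
  rw [mN_gaM hμ]
  unfold gaM
  have hc2 : Continuous (fun θ : ℝ => gaU f ((exp (s / μ) : ℝ) *
      Complex.exp (θ * Complex.I))) := (gaU_cont hf).comp (by fun_prop)
  have hpi := pi_pos
  have h := intervalIntegral.integral_mono_on (μ := volume) (by linarith : -π ≤ π)
    (hc2.intervalIntegrable _ _) (continuous_const.intervalIntegrable _ _)
    (g := fun _ => 1 / 2 * log (maxMod f (exp (s / μ)) ^ 2 + 1)) fun θ _ => by
      unfold gaU
      refine mul_le_mul_of_nonneg_left (log_le_log (by positivity) ?_) (by norm_num)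
      have h1 : ‖f ((exp (s / μ) : ℝ) * Complex.exp (θ * Complex.I))‖ ≤
          maxMod f (exp (s / μ)) :=
        le_csSup (gaMax_bdd hf _) ⟨_, gaCirc_mem (exp_pos _).le θ, rfl⟩
      have h2 := pow_le_pow_left₀ (norm_nonneg _) h1 2
      linarith
  rw [intervalIntegral.integral_const, smul_eq_mul] at h
  calc μ * ∫ θ in (-π)..π, gaU f ((exp (s / μ) : ℝ) * Complex.exp (θ * Complex.I))
      ≤ μ * ((π - -π) * (1 / 2 * log (maxMod f (exp (s / μ)) ^ 2 + 1))) :=
        mul_le_mul_of_nonneg_left h hμ.le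
    _ = _ := by ring

/-- polar coordinates in a disc -/
theorem gaPolar {w : ℂ → ℝ} (hw : Continuous w) {ρ : ℝ} (hρ : 0 < ρ) :
    ∫ z in Metric.ball (0 : ℂ) ρ, w z =
      ∫ x in (0 : ℝ)..ρ, x * ∫ θ in (-π)..π, w (x * Complex.exp (θ * Complex.I)) := by
  have hpi := pi_pos
  rw [← integral_indicator Metric.isOpen_ball.measurableSet,
    ← Complex.integral_comp_polarCoord_symm]
  have hm : MeasurableSet (Ioo (0 : ℝ) ρ ×ˢ Ioo (-π) π) := measurableSet_Ioo.prod measurableSet_Ioo
  have hmt : MeasurableSet polarCoord.target := polarCoord.open_target.measurableSet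
  have e : EqOn (fun p : ℝ × ℝ => p.1 • (Metric.ball (0 : ℂ) ρ).indicator w
      (Complex.polarCoord.symm p)) ((Ioo (0 : ℝ) ρ ×ˢ Ioo (-π) π).indicator
        fun p : ℝ × ℝ => p.1 * w (p.1 * Complex.exp (p.2 * Complex.I))) polarCoord.target := by
    intro p hp
    have hp1 : 0 < p.1 := hp.1
    have hp2 : p.2 ∈ Ioo (-π) π := hp.2
    have hz : Complex.polarCoord.symm p = p.1 * Complex.exp (p.2 * Complex.I) := by
      rw [Complex.polarCoord_symm_apply, Complex.exp_mul_I, Complex.ofReal_cos,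
        Complex.ofReal_sin]
    have hn : ‖(p.1 : ℂ) * Complex.exp (p.2 * Complex.I)‖ = p.1 := by
      have := gaCirc_mem hp1.le p.2
      rwa [mem_sphere_zero_iff_norm] at this
    simp only [hz, smul_eq_mul]
    by_cases h : p.1 < ρ
    · rw [indicator_of_mem (by rw [mem_ball_zero_iff, hn]; exact h),
        indicator_of_mem (show p ∈ Ioo (0 : ℝ) ρ ×ˢ Ioo (-π) π from ⟨⟨hp1, h⟩, hp2⟩)]
    · rw [indicator_of_notMem (by rw [mem_ball_zero_iff, hn]; exact h),
        indicator_of_notMem (fun hh => h hh.1.2), mul_zero]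
  rw [setIntegral_congr_fun hmt e, setIntegral_indicator hm]
  have hinter : polarCoord.target ∩ Ioo (0 : ℝ) ρ ×ˢ Ioo (-π) π =
      Ioo (0 : ℝ) ρ ×ˢ Ioo (-π) π := by
    refine inter_eq_self_of_subset_right ?_
    rintro p ⟨h1, h2⟩
    exact ⟨h1.1, h2⟩
  rw [hinter]
  have hc : Continuous (fun p : ℝ × ℝ => p.1 * w (p.1 * Complex.exp (p.2 * Complex.I))) :=
    continuous_fst.mul (hw.comp (by fun_prop))
  have hi : IntegrableOn (fun p : ℝ × ℝ => p.1 * w (p.1 * Complex.exp (p.2 * Complex.I)))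
      (Ioo (0 : ℝ) ρ ×ˢ Ioo (-π) π) ((volume : Measure ℝ).prod volume) := by
    have h1 : IntegrableOn (fun p : ℝ × ℝ => p.1 * w (p.1 * Complex.exp (p.2 * Complex.I)))
        (Icc (0 : ℝ) ρ ×ˢ Icc (-π) π) ((volume : Measure ℝ).prod volume) :=
      hc.continuousOn.integrableOn_compact (isCompact_Icc.prod isCompact_Icc)
    exact h1.mono_set (prod_mono Ioo_subset_Icc_self Ioo_subset_Icc_self)
  rw [Measure.volume_eq_prod, setIntegral_prod _ hi, intervalIntegral.integral_of_le hρ.le,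
    integral_Ioc_eq_integral_Ioo]
  refine setIntegral_congr_fun measurableSet_Ioo fun x _ => ?_
  simp only []
  rw [integral_const_mul, intervalIntegral.integral_of_le (by linarith : -π ≤ π),
    integral_Ioc_eq_integral_Ioo]

/-- Jensen's inequality on a circle -/
theorem gaJensen {f : ℂ → ℂ} (hf : Differentiable ℂ f) {z : ℂ} (hz : f z ≠ 0) {x : ℝ}
    (hx : 0 < x) : 2 * π * log ‖f z‖ ≤ ∫ θ in (-π)..π, gaU f (z + x * Complex.exp (θ * Complex.I)) := by
  have hpi := pi_pos
  have hA : AnalyticOnNhd ℂ f (Metric.closedBall z |x|) := fun y _ => hf.analyticAt y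
  have h := AnalyticOnNhd.circleAverage_log_norm hx.ne' hA hz
  have h0 : 0 ≤ ∑ᶠ u, MeromorphicOn.divisor f (Metric.closedBall z |x|) u *
      log (x * ‖z - u‖⁻¹) := by
    refine finsum_nonneg fun u => ?_
    by_cases hu : u ∈ Metric.closedBall z |x|
    · have hd : 0 ≤ MeromorphicOn.divisor f (Metric.closedBall z |x|) u :=
        MeromorphicOn.AnalyticOnNhd.divisor_nonneg hA u
      have hd' : (0 : ℝ) ≤ (MeromorphicOn.divisor f (Metric.closedBall z |x|) u : ℝ) := by
        exact_mod_cast hd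
      rcases eq_or_ne u z with rfl | hne
      · simp
      · refine mul_nonneg hd' (log_nonneg ?_)
        rw [mem_closedBall_iff_norm, abs_of_pos hx, norm_sub_rev] at hu
        have h1 : 0 < ‖z - u‖ := norm_pos_iff.2 (sub_ne_zero.2 hne.symm)
        rw [← div_eq_mul_inv, one_le_div h1]
        exact hu
    · rw [(MeromorphicOn.divisor f (Metric.closedBall z |x|)).apply_eq_zero_of_notMem hu]
      simp
  have hi1 : CircleIntegrable (fun y => log ‖f y‖) z x :=
    MeromorphicOn.circleIntegrable_log_norm fun y _ => (hf.analyticAt y).meromorphicAt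
  have hi2 : CircleIntegrable (gaU f) z x := (gaU_cont hf).continuousOn.circleIntegrable hx.le
  have h2 : circleAverage (fun y => log ‖f y‖) z x ≤ circleAverage (gaU f) z x := by
    refine circleAverage_mono hi1 hi2 fun y _ => ?_
    refine le_trans ?_ (gaU_posLog f y)
    exact le_max_right _ _
  have h3 : circleAverage (gaU f) z x =
      (2 * π)⁻¹ * ∫ θ in (-π)..π, gaU f (z + x * Complex.exp (θ * Complex.I)) := by
    rw [circleAverage_def, smul_eq_mul]
    congr 1
    have hp : Function.Periodic (fun θ : ℝ => gaU f (z + x * Complex.exp (θ * Complex.I)))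
        (2 * π) := fun θ => by
      have : Complex.exp ((θ + 2 * π : ℝ) * Complex.I) = Complex.exp (θ * Complex.I) := by
        push_cast
        rw [add_mul, Complex.exp_add, Complex.exp_two_pi_mul_I, mul_one]
      simp only [this]
    have h4 := hp.intervalIntegral_add_eq (-π) 0
    rw [zero_add, show -π + 2 * π = π by ring] at h4
    rw [h4]
    rfl
  have h5 : log ‖f z‖ ≤ (2 * π)⁻¹ *
      ∫ θ in (-π)..π, gaU f (z + x * Complex.exp (θ * Complex.I)) := by
    rw [← h3]
    refine le_trans ?_ h2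
    rw [h]
    linarith
  have key : ∀ J : ℝ, 2 * π * ((2 * π)⁻¹ * J) = J := fun J => by field_simp
  have h6 := mul_le_mul_of_nonneg_left h5 (show 0 ≤ 2 * π by positivity)
  rwa [key] at h6

theorem gaM_mono {f : ℂ → ℂ} (hf : Differentiable ℂ f) {x y : ℝ} (hx : 0 < x) (hxy : x ≤ y) :
    gaM f x ≤ gaM f y := by
  have h := mN_Ue_mono hf (μ := 1) (η := 1) one_pos one_pos (log_le_log hx hxy)
  rw [mN_gaM one_pos, mN_gaM one_pos, one_mul, one_mul, div_one, div_one, exp_log hx,
    exp_log (hx.trans_le hxy)] at h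
  exact h

theorem gaMain {f : ℂ → ℂ} (hf : Differentiable ℂ f) {z : ℂ} (hz : f z ≠ 0) {r : ℝ}
    (hr : 0 < r) (hzr : ‖z‖ = r) : π * log ‖f z‖ ≤ 2 * gaM f (2 * r) := by
  have hpi := pi_pos
  have hcz : Continuous (fun ζ => gaU f (z + ζ)) := (gaU_cont hf).comp (by fun_prop)
  -- lower bound
  have c1 : Continuous (fun x : ℝ => ∫ θ in (-π)..π,
      gaU f (z + x * Complex.exp (θ * Complex.I))) :=
    intervalIntegral.continuous_parametric_intervalIntegral_of_continuous'
      (by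
        have : Continuous (fun p : ℝ × ℝ => gaU f (z + p.1 * Complex.exp (p.2 * Complex.I))) :=
          (gaU_cont hf).comp (by fun_prop)
        exact this) _ _
  have c2 : Continuous (gaM f) := by
    unfold gaM
    exact intervalIntegral.continuous_parametric_intervalIntegral_of_continuous'
      (gaU_circ_cont hf) _ _
  have h1 : r ^ 2 / 2 * (2 * π * log ‖f z‖) ≤ ∫ ζ in Metric.ball (0 : ℂ) r, gaU f (z + ζ) := by
    rw [gaPolar hcz hr]
    have h2 : ∫ x in (0 : ℝ)..r, x * (2 * π * log ‖f z‖) = r ^ 2 / 2 * (2 * π * log ‖f z‖) := by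
      rw [intervalIntegral.integral_mul_const, integral_id]
      ring
    rw [← h2]
    refine intervalIntegral.integral_mono_on hr.le
      ((continuous_id.mul continuous_const).intervalIntegrable _ _)
      ((continuous_id.mul c1).intervalIntegrable _ _) fun x hx => ?_
    rcases hx.1.eq_or_lt with h0 | h0
    · rw [← h0]
      simp
    · exact mul_le_mul_of_nonneg_left (gaJensen hf hz h0) h0.le
  -- comparison of the discs
  have h3 : ∫ ζ in Metric.ball (0 : ℂ) r, gaU f (z + ζ) ≤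
      ∫ ζ in Metric.ball (0 : ℂ) (2 * r), gaU f ζ := by
    have h4 : ∫ ζ in Metric.ball (0 : ℂ) r, gaU f (z + ζ) = ∫ ζ in Metric.ball z r, gaU f ζ := by
      rw [← integral_indicator Metric.isOpen_ball.measurableSet,
        ← integral_indicator Metric.isOpen_ball.measurableSet,
        ← integral_add_left_eq_self ((Metric.ball z r).indicator (gaU f)) z]
      refine integral_congr_ae (Eventually.of_forall fun ζ => ?_)
      simp only [indicator, Metric.mem_ball, dist_eq_norm, add_sub_cancel_left, sub_zero]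
    rw [h4]
    refine setIntegral_mono_set ?_ ?_ ?_
    · exact ((gaU_cont hf).continuousOn.integrableOn_compact
        (isCompact_closedBall (0 : ℂ) (2 * r))).mono_set Metric.ball_subset_closedBall
    · exact Eventually.of_forall fun ζ => gaU_nonneg f ζ
    · refine LE.le.eventuallyLE fun ζ hζ => ?_
      rw [Metric.mem_ball, dist_eq_norm] at hζ
      rw [mem_ball_zero_iff]
      have := norm_le_norm_sub_add ζ z
      linarith
  have h5 : ∫ ζ in Metric.ball (0 : ℂ) (2 * r), gaU f ζ ≤ 2 * r ^ 2 * gaM f (2 * r) := by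
    rw [gaPolar (gaU_cont hf) (by linarith : 0 < 2 * r)]
    have h6 : ∫ x in (0 : ℝ)..(2 * r), x * gaM f (2 * r) = 2 * r ^ 2 * gaM f (2 * r) := by
      rw [intervalIntegral.integral_mul_const, integral_id]
      ring
    rw [← h6]
    refine intervalIntegral.integral_mono_on (by linarith)
      ((continuous_id.mul c2).intervalIntegrable _ _)
      ((continuous_id.mul continuous_const).intervalIntegrable _ _) fun x hx => ?_
    rcases hx.1.eq_or_lt with h0 | h0
    · rw [← h0]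
      simp
    · exact mul_le_mul_of_nonneg_left (gaM_mono hf h0 hx.2) h0.le
  have h7 := h1.trans (h3.trans h5)
  have h8 : r ^ 2 * (π * log ‖f z‖) ≤ r ^ 2 * (2 * gaM f (2 * r)) := by linarith
  exact le_of_mul_le_mul_left h8 (by positivity)

theorem log_max_le {f : ℂ → ℂ} (hf : Differentiable ℂ f) {μ : ℝ} (hμ : 0 < μ) {r : ℝ}
    (hr : 0 < r) : log (maxMod f r) ≤ 2 / (π * μ) * mN (π * μ) (Ue f μ 1) (μ * log (2 * r)) := by
  have hpi := pi_pos
  rw [mN_gaM hμ, mul_div_cancel_left₀ _ hμ.ne', exp_log (by linarith)]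
  have e : 2 / (π * μ) * (μ * gaM f (2 * r)) = 2 * gaM f (2 * r) / π := by field_simp
  rw [e, le_div_iff₀ hpi]
  have hne : ((fun z => ‖f z‖) '' Metric.sphere (0 : ℂ) r).Nonempty := by
    refine ⟨_, ⟨(r : ℂ) * Complex.exp ((0 : ℝ) * Complex.I), gaCirc_mem hr.le 0, rfl⟩⟩
  have hcpt := (isCompact_sphere (0 : ℂ) r).image hf.continuous.norm
  obtain ⟨z, hz, hzm⟩ := hcpt.sSup_mem hne
  have hzm' : ‖f z‖ = maxMod f r := hzm
  rw [mem_sphere_zero_iff_norm] at hz
  rw [← hzm']
  by_cases h0 : f z = 0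
  · rw [h0, norm_zero, log_zero, zero_mul]
    have : 0 ≤ gaM f (2 * r) := by
      unfold gaM
      exact intervalIntegral.integral_nonneg (by linarith) fun θ _ => gaU_nonneg f _
    linarith
  · have := gaMain hf h0 hr hz
    linarith

end Pool.Agent.MML
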