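import Pool.Agent.MML.GrowA

/-!
# MML, module GrowB: the lower order in terms of the mean

`lowerOrder f = ρ μ`, `P = mN (π μ) (Ue f μ 1)`, `s = μ log r`.
`grow_up`: if `c exp (ρ' s) ≤ P s` for large `s`, `ρ' > ρ`, `c > 0`, then by `mN_le_max` `c r^(ρ'μ) ≤ π μ log (maxMod² + 1)`, so
`log (maxMod f r) ≥ c' r^(ρ'μ)` for large `r` (`ρ' μ > 0` since `ρ > 0`), `log log maxMod/log r ≥ ρ' μ - o(1)`: the liminf is
`≥ ρ' μ > ρ μ`.
`grow_low`: if `P s ≤ C exp (ρ' s)` for large `s`, `ρ' < ρ`, take `ρ'' = max ρ' 0 < ρ` (so also `P s ≤ |C| exp (ρ'' s)` for `s ≥ 0`); by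
`log_max_le` `log (maxMod f r) ≤ C' r^(ρ''μ)` for large `r`, and `maxMod f r → ∞` (`f` is entire and not constant: Liouville), so
`log log maxMod/log r ≤ ρ'' μ + o(1)`: the liminf is `≤ ρ'' μ < ρ μ`.
`mN_tendsto`: `P → ∞` (it is nondecreasing; if it is bounded, `grow_low` with `ρ' = 0`).
-/

set_option autoImplicit false

namespace Pool.Agent.MML

open Real MeasureTheory Set Filter Topology

private theorem gb_exp {μ r : ℝ} (hμ : 0 < μ) (hr : 0 < r) : exp (μ * log r / μ) = r := by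
  rw [mul_div_assoc, mul_div_cancel₀ _ hμ.ne']
  exact Real.exp_log hr

private theorem gb_nonneg (f : ℂ → ℂ) (r : ℝ) : 0 ≤ maxMod f r := by
  unfold maxMod
  refine Real.sSup_nonneg ?_
  rintro _ ⟨z, _, rfl⟩
  exact norm_nonneg _

private theorem gb_ev (C : ℝ) {ε : ℝ} (hε : 0 < ε) : ∀ᶠ r : ℝ in atTop, C ≤ ε * log r :=
  (Tendsto.const_mul_atTop hε Real.tendsto_log_atTop).eventually_ge_atTop C

private theorem gb_le {f : ℂ → ℂ} (hf : Differentiable ℂ f) (z : ℂ) :
    ‖f z‖ ≤ maxMod f ‖z‖ := by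
  unfold maxMod
  refine le_csSup ?_ ⟨z, ?_, rfl⟩
  · exact ((isCompact_sphere (0 : ℂ) ‖z‖).image hf.continuous.norm).bddAbove
  · simp

/-- the maximum modulus is larger than `1` for arbitrarily large radii -/
private theorem gb_freq {f : ℂ → ℂ} (hf : Differentiable ℂ f) (hne : ¬ ∃ c, ∀ z, f z = c) :
    ∃ᶠ r in atTop, 1 < maxMod f r := by
  rw [Filter.frequently_atTop]
  intro a
  by_contra hc
  push Not at hc
  apply hne
  have hb : Bornology.IsBounded (Set.range f) := by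
    obtain ⟨C, hC⟩ := ((isCompact_closedBall (0 : ℂ) a).image hf.continuous.norm).bddAbove
    refine isBounded_iff_forall_norm_le.mpr ⟨max 1 C, ?_⟩
    rintro _ ⟨z, rfl⟩
    rcases le_or_gt a ‖z‖ with h | h
    · exact ((gb_le hf z).trans (hc _ h)).trans (le_max_left _ _)
    · refine le_trans (hC ⟨z, ?_, rfl⟩) (le_max_right _ _)
      rw [mem_closedBall_zero_iff]
      exact h.le
  exact ⟨f 0, fun z => hf.apply_eq_apply_of_bounded hb z 0⟩

theorem grow_up {f : ℂ → ℂ} (hf : Differentiable ℂ f) (hne : ¬ ∃ c, ∀ z, f z = c) {μ ρ : ℝ}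
    (hμ : 0 < μ) (hρ : 0 < ρ) (hlo : lowerOrder f = ((ρ * μ : ℝ) : EReal)) (ρ' c : ℝ)
    (h : ρ < ρ') (hc : 0 < c) :
    ¬ ∀ᶠ s in atTop, c * exp (ρ' * s) ≤ mN (π * μ) (Ue f μ 1) s := by
  intro hev
  have hρ' : 0 < ρ' := hρ.trans h
  have hπμ : 0 < π * μ := mul_pos Real.pi_pos hμ
  have ht : Tendsto (fun r : ℝ => μ * log r) atTop atTop :=
    Tendsto.const_mul_atTop hμ Real.tendsto_log_atTop
  have h1 := ht.eventually hev
  obtain ⟨c', hc'⟩ : ∃ c', c' = c / (4 * (π * μ)) := ⟨_, rfl⟩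
  have hc'0 : 0 < c' := by rw [hc']; positivity
  have h2 : ∀ᶠ r : ℝ in atTop, log 2 / (2 * c') ≤ exp (ρ' * (μ * log r)) :=
    (Real.tendsto_exp_atTop.comp (Tendsto.const_mul_atTop hρ' ht)).eventually_ge_atTop _
  have h3 := gb_ev (-log c') (by nlinarith : 0 < (ρ' - ρ) / 2 * μ)
  have h4 : (((ρ + ρ') / 2 * μ : ℝ) : EReal) ≤ lowerOrder f := by
    unfold lowerOrder
    refine Filter.le_liminf_of_le (by isBoundedDefault) ?_
    filter_upwards [h1, h2, h3, eventually_gt_atTop (1 : ℝ)] with r g1 g2 g3 g4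
    have hr : 0 < r := by linarith
    have hlr : 0 < log r := Real.log_pos g4
    rw [EReal.coe_le_coe_iff, le_div_iff₀ hlr]
    have g5 := g1.trans (mN_le_max hf hμ (μ * log r))
    rw [gb_exp hμ hr] at g5
    have hM := gb_nonneg f r
    -- the maximum modulus is large
    obtain ⟨E, hE⟩ : ∃ E, E = exp (ρ' * (μ * log r)) := ⟨_, rfl⟩
    rw [← hE] at g2 g5
    have hE0 : 0 < E := by rw [hE]; exact Real.exp_pos _
    have e1 : c * E = π * μ * (4 * c' * E) := by
      rw [hc']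
      field_simp
    rw [e1] at g5
    have g6 : 4 * c' * E ≤ log (maxMod f r ^ 2 + 1) := le_of_mul_le_mul_left g5 hπμ
    have g7 : 2 * log 2 ≤ 4 * c' * E := by
      rw [div_le_iff₀ (by positivity)] at g2
      linarith
    have g8 : 4 ≤ maxMod f r ^ 2 + 1 := by
      have a1 : log 4 ≤ log (maxMod f r ^ 2 + 1) := by
        have : log 4 = 2 * log 2 := by
          rw [show (4 : ℝ) = 2 ^ 2 by norm_num, Real.log_pow]
          norm_num
        linarith
      exact (Real.log_le_log_iff (by norm_num) (by positivity)).mp a1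
    have g9 : 1 ≤ maxMod f r := by nlinarith
    have g10 : log (maxMod f r ^ 2 + 1) ≤ log 2 + 2 * log (maxMod f r) := by
      have : log (2 * maxMod f r ^ 2) = log 2 + 2 * log (maxMod f r) := by
        rw [Real.log_mul (by norm_num) (by positivity), Real.log_pow]
        norm_num
      rw [← this]
      refine Real.log_le_log (by positivity) ?_
      nlinarith
    have g11 : c' * E ≤ log (maxMod f r) := by linarith
    have g12 : log c' + ρ' * (μ * log r) ≤ log (log (maxMod f r)) := by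
      have a1 : log (c' * E) = log c' + ρ' * (μ * log r) := by
        rw [Real.log_mul hc'0.ne' hE0.ne', hE, Real.log_exp]
      rw [← a1]
      exact Real.log_le_log (mul_pos hc'0 hE0) g11
    nlinarith
  rw [hlo, EReal.coe_le_coe_iff] at h4
  nlinarith

theorem grow_low {f : ℂ → ℂ} (hf : Differentiable ℂ f) (hne : ¬ ∃ c, ∀ z, f z = c) {μ ρ : ℝ}
    (hμ : 0 < μ) (hρ : 0 < ρ) (hlo : lowerOrder f = ((ρ * μ : ℝ) : EReal)) (ρ' C : ℝ)
    (h : ρ' < ρ) :
    ¬ ∀ᶠ s in atTop, mN (π * μ) (Ue f μ 1) s ≤ C * exp (ρ' * s) := by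
  intro hev
  have hπμ : 0 < π * μ := mul_pos Real.pi_pos hμ
  obtain ⟨q, hq⟩ : ∃ q, q = max ρ' 0 := ⟨_, rfl⟩
  have hq0 : 0 ≤ q := by rw [hq]; exact le_max_right _ _
  have hqρ' : ρ' ≤ q := by rw [hq]; exact le_max_left _ _
  have hqρ : q < ρ := by rw [hq]; exact max_lt h hρ
  have ht : Tendsto (fun r : ℝ => μ * log (2 * r)) atTop atTop :=
    Tendsto.const_mul_atTop hμ (Real.tendsto_log_atTop.comp
      (Tendsto.const_mul_atTop (by norm_num) tendsto_id))
  have h1 := ht.eventually hev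
  have h1' := ht.eventually_ge_atTop 0
  obtain ⟨c', hc'⟩ : ∃ c', c' = 2 / (π * μ) * (|C| + 1) * exp (q * (μ * log 2)) := ⟨_, rfl⟩
  have hc'0 : 0 < c' := by rw [hc']; positivity
  have h3 := gb_ev (log c') (by nlinarith : 0 < (ρ - q) / 2 * μ)
  have h4 : lowerOrder f ≤ (((ρ + q) / 2 * μ : ℝ) : EReal) := by
    unfold lowerOrder
    refine Filter.liminf_le_of_frequently_le' ?_
    refine ((gb_freq hf hne).and_eventually ((h1.and h1').and
      (h3.and (eventually_gt_atTop (1 : ℝ))))).mono ?_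
    rintro r ⟨g0, ⟨g1, g2⟩, g3, g4⟩
    have hr : 0 < r := by linarith
    have hlr : 0 < log r := Real.log_pos g4
    rw [EReal.coe_le_coe_iff, div_le_iff₀ hlr]
    have hlM : 0 < log (maxMod f r) := Real.log_pos g0
    obtain ⟨s, hs⟩ : ∃ s, s = μ * log (2 * r) := ⟨_, rfl⟩
    rw [← hs] at g1 g2
    have g5 := log_max_le hf hμ hr
    rw [← hs] at g5
    have g6 : C * exp (ρ' * s) ≤ (|C| + 1) * exp (q * s) := by
      have a1 : exp (ρ' * s) ≤ exp (q * s) :=
        Real.exp_le_exp.mpr (mul_le_mul_of_nonneg_right hqρ' g2)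
      have a2 : C ≤ |C| + 1 := by
        have := le_abs_self C
        linarith
      have a3 : 0 ≤ |C| + 1 := by positivity
      exact (mul_le_mul_of_nonneg_right a2 (Real.exp_pos _).le).trans
        (mul_le_mul_of_nonneg_left a1 a3)
    have g7 : log (maxMod f r) ≤ c' * exp (q * (μ * log r)) := by
      have a1 : exp (q * s) = exp (q * (μ * log 2)) * exp (q * (μ * log r)) := by
        rw [← Real.exp_add, hs, Real.log_mul (by norm_num) hr.ne']
        congr 1
        ring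
      have a2 : c' * exp (q * (μ * log r)) = 2 / (π * μ) * ((|C| + 1) * exp (q * s)) := by
        rw [a1, hc']
        ring
      rw [a2]
      refine g5.trans (mul_le_mul_of_nonneg_left (g1.trans g6) (by positivity))
    have g8 : log (log (maxMod f r)) ≤ log c' + q * (μ * log r) := by
      have a1 := Real.log_le_log hlM g7
      rw [Real.log_mul hc'0.ne' (Real.exp_pos _).ne', Real.log_exp] at a1
      exact a1
    nlinarith
  rw [hlo, EReal.coe_le_coe_iff] at h4
  nlinarith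

theorem mN_tendsto {f : ℂ → ℂ} (hf : Differentiable ℂ f) (hne : ¬ ∃ c, ∀ z, f z = c) {μ ρ : ℝ}
    (hμ : 0 < μ) (hρ : 0 < ρ) (hlo : lowerOrder f = ((ρ * μ : ℝ) : EReal)) :
    Tendsto (mN (π * μ) (Ue f μ 1)) atTop atTop := by
  have hm := mN_Ue_mono hf hμ (one_pos : (0 : ℝ) < 1)
  rcases tendsto_atTop_of_monotone hm with h | ⟨l, h⟩
  · exact h
  · exfalso
    refine grow_low hf hne hμ hρ hlo 0 l hρ (Filter.Eventually.of_forall fun s => ?_)
    rw [zero_mul, Real.exp_zero, mul_one]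
    exact hm.ge_of_tendsto h s

end Pool.Agent.MML
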