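import Pool.Agent.MML.Chi

/-!
# MML, module KerEps: the identity of Green for the regularised kernel

`L ε τ t := bump a ε τ t + (rv or rh) ε τ t - gss ε τ t` is `gtt ε τ t` for `t ∈ (0, b)`, `t ≠ x1` (`lapv`, `laph`), and it is
continuous in `t` on `[0, x1]` and on `[x1, b]` (with `rv`, `rh` respectively).
(1) For fixed `τ`: `(W gt - g Wt)' = W gtt - g Wtt` in `t` off `x1`, and `W gt - g Wt` is continuous on `[0, b]`, so
`∫_0^b W gtt = ∫_0^b g Wtt + [W gt - g Wt]_0^b = ∫_0^b g Wtt + g(τ,0) Wt(τ,0)` (`e0`, `e1`, `e2`).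
(2) For fixed `t`: `G = chi g`, `Gs = chi1 g + chi gs`, `Gss = chi2 g + 2 chi1 gs + chi gss`,
`(W Gs - G Ws)' = W Gss - G Wss`, and `G = Gs = 0` at `τ = ± R` (`chi_end`): `∫ W Gss dτ = ∫ G Wss dτ`.
(3) Multiply (1) by `chi R τ`, integrate in `τ`, integrate (2) in `t`, exchange the order of integration in (2)
(continuous functions on a rectangle) and add.
-/

set_option autoImplicit false

namespace Pool.Agent.MML

open Real MeasureTheory Set Filter Topology

/-- continuity on the strip `0 ≤ t ≤ b` -/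
private def KC (b : ℝ) (F : ℝ → ℝ → ℝ) : Prop :=
  ContinuousOn (fun p : ℝ × ℝ => F p.1 p.2) (univ ×ˢ Icc 0 b)

private theorem KC.mul {b : ℝ} {F G : ℝ → ℝ → ℝ} (hF : KC b F) (hG : KC b G) :
    KC b (fun τ t => F τ t * G τ t) := ContinuousOn.mul hF hG

private theorem KC.add {b : ℝ} {F G : ℝ → ℝ → ℝ} (hF : KC b F) (hG : KC b G) :
    KC b (fun τ t => F τ t + G τ t) := ContinuousOn.add hF hG

private theorem KC.sub {b : ℝ} {F G : ℝ → ℝ → ℝ} (hF : KC b F) (hG : KC b G) :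
    KC b (fun τ t => F τ t - G τ t) := ContinuousOn.sub hF hG

private theorem KC.of_cont {b : ℝ} {F : ℝ → ℝ → ℝ} (hF : Continuous fun p : ℝ × ℝ => F p.1 p.2) :
    KC b F := hF.continuousOn

private theorem KC.fst {b : ℝ} {f : ℝ → ℝ} (hf : Continuous f) : KC b (fun τ _ => f τ) :=
  (hf.comp continuous_fst).continuousOn

private theorem KC.slice {b : ℝ} {F : ℝ → ℝ → ℝ} (h : KC b F) (τ : ℝ) :
    ContinuousOn (fun t => F τ t) (Icc 0 b) :=
  ContinuousOn.comp (g := fun p : ℝ × ℝ => F p.1 p.2) (f := fun t : ℝ => (τ, t)) h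
    (continuous_const.prodMk continuous_id).continuousOn (fun t ht => ⟨mem_univ _, ht⟩)

private theorem KC.slice2 {b : ℝ} {F : ℝ → ℝ → ℝ} (h : KC b F) {t : ℝ} (ht : t ∈ Icc 0 b) :
    Continuous (fun τ => F τ t) :=
  ContinuousOn.comp_continuous (g := fun p : ℝ × ℝ => F p.1 p.2) (f := fun τ : ℝ => (τ, t)) h
    (continuous_id.prodMk continuous_const) (fun τ => ⟨mem_univ _, ht⟩)

private theorem KC.ii {b : ℝ} {F : ℝ → ℝ → ℝ} (h : KC b F) (τ : ℝ) {u v : ℝ} (hu : 0 ≤ u)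
    (huv : u ≤ v) (hv : v ≤ b) : IntervalIntegrable (fun t => F τ t) volume u v := by
  apply ContinuousOn.intervalIntegrable
  rw [uIcc_of_le huv]
  exact (h.slice τ).mono (Icc_subset_Icc hu hv)

private theorem KC.cont {b : ℝ} {F : ℝ → ℝ → ℝ} (h : KC b F) {u v : ℝ} (hu : 0 ≤ u)
    (huv : u ≤ v) (hv : v ≤ b) : Continuous (fun τ => ∫ t in u..v, F τ t) := by
  have hb : 0 ≤ b := hu.trans (huv.trans hv)
  have h1 : Continuous (Function.uncurry fun (τ t : ℝ) => F τ (max 0 (min t b))) :=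
    ContinuousOn.comp_continuous (g := fun p : ℝ × ℝ => F p.1 p.2)
      (f := fun p : ℝ × ℝ => (p.1, max 0 (min p.2 b))) h (by fun_prop)
      (fun p => ⟨mem_univ _, le_max_left _ _, max_le hb (min_le_right _ _)⟩)
  have h2 := intervalIntegral.continuous_parametric_intervalIntegral_of_continuous' (μ := volume)
    h1 u v
  have h3 : (fun τ => ∫ t in u..v, F τ t) = fun τ => ∫ t in u..v, F τ (max 0 (min t b)) := by
    funext τ
    refine intervalIntegral.integral_congr fun t ht => ?_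
    rw [uIcc_of_le huv] at ht
    have h4 : max 0 (min t b) = t := by
      rw [min_eq_left (ht.2.trans hv), max_eq_right (hu.trans ht.1)]
    simp only [h4]
  rw [h3]
  exact h2

private theorem KC.swap {b : ℝ} {F : ℝ → ℝ → ℝ} (h : KC b F) (hb : 0 ≤ b) {R : ℝ} (hR : 0 ≤ R) :
    ∫ τ in (-R)..R, ∫ t in (0 : ℝ)..b, F τ t = ∫ t in (0 : ℝ)..b, ∫ τ in (-R)..R, F τ t := by
  have hR' : -R ≤ R := by linarith
  simp only [intervalIntegral.integral_of_le hR', intervalIntegral.integral_of_le hb]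
  refine integral_integral_swap ?_
  rw [Measure.prod_restrict]
  have h1 : IntegrableOn (fun p : ℝ × ℝ => F p.1 p.2) (Icc (-R) R ×ˢ Icc 0 b) :=
    (ContinuousOn.mono h (prod_mono_left (subset_univ _))).integrableOn_compact
      (isCompact_Icc.prod isCompact_Icc)
  exact h1.mono_set (prod_mono Ioc_subset_Icc_self Ioc_subset_Icc_self)

private theorem ke_param {b : ℝ} {F : ℝ → ℝ → ℝ} (h : KC b F) (hb : 0 ≤ b) {R : ℝ} (hR : 0 ≤ R) :
    IntervalIntegrable (fun t => ∫ τ in (-R)..R, F τ t) volume 0 b := by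
  have h1 : Continuous (Function.uncurry fun (t τ : ℝ) => F τ (max 0 (min t b))) :=
    ContinuousOn.comp_continuous (g := fun p : ℝ × ℝ => F p.1 p.2)
      (f := fun p : ℝ × ℝ => (p.2, max 0 (min p.1 b))) h (by fun_prop)
      (fun p => ⟨mem_univ _, le_max_left _ _, max_le hb (min_le_right _ _)⟩)
  have h2 := intervalIntegral.continuous_parametric_intervalIntegral_of_continuous' (μ := volume)
    h1 (-R) R
  have h3 : EqOn (fun t => ∫ τ in (-R)..R, F τ (max 0 (min t b)))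
      (fun t => ∫ τ in (-R)..R, F τ t) (Icc 0 b) := by
    intro t ht
    have h4 : max 0 (min t b) = t := by
      rw [min_eq_left ht.2, max_eq_right ht.1]
    simp only [h4]
  apply ContinuousOn.intervalIntegrable
  rw [uIcc_of_le hb]
  exact h2.continuousOn.congr h3.symm

private theorem ke_bump (a : ℝ) {ε : ℝ} (hε : 0 < ε) :
    Continuous fun p : ℝ × ℝ => bump a ε p.1 p.2 := by
  unfold bump
  refine Continuous.div (by fun_prop) (by fun_prop) fun p => ?_
  have h1 := one_le_cosh (a * p.1)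
  have h2 := cos_le_one (a * p.2)
  have h3 : 0 < cosh (a * p.1) - cos (a * p.2) + ε := by linarith
  positivity

theorem ker_eps {R b a x1 K0 : ℝ} {g gs gss gt gtt rv rh : ℝ → ℝ → ℝ → ℝ} {kv kh : ℝ → ℝ}
    {g0 gs0 : ℝ → ℝ → ℝ} (hk : Ker R b a x1 K0 g gs gss gt gtt rv rh kv kh g0 gs0)
    {W Ws Wss Wt Wtt : ℝ → ℝ → ℝ} (hW : C2F W Ws Wss Wt Wtt) {ε : ℝ} (hε : ε ∈ Ioc (0 : ℝ) 1) :
    (∫ τ in (-R)..R, ∫ t in (0 : ℝ)..b, bump a ε τ t * (chi R τ * W τ t))
      + ∫ τ in (-R)..R, (chi R τ * ((∫ t in (0 : ℝ)..x1, rv ε τ t * W τ t)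
          + ∫ t in x1..b, rh ε τ t * W τ t)
        + ∫ t in (0 : ℝ)..b, (2 * chi1 R τ * gs ε τ t + chi2 R τ * g ε τ t) * W τ t)
    = (∫ τ in (-R)..R, chi R τ * ∫ t in (0 : ℝ)..b, g ε τ t * (Wss τ t + Wtt τ t))
      + ∫ τ in (-R)..R, chi R τ * g ε τ 0 * Wt τ 0 := by
  have hR := hk.hR
  have hx0 := hk.hx0
  have hxb := hk.hxb
  have hb0 : 0 < b := lt_of_lt_of_le hx0 hxb
  have hR0 : 0 ≤ R := by linarith
  obtain ⟨hc0, hc1, hc2⟩ := chi_cont hR
  have kg : KC b (g ε) := hk.c1 ε hε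
  have kgs : KC b (gs ε) := hk.c2 ε hε
  have kgss : KC b (gss ε) := hk.c3 ε hε
  have kgt : KC b (gt ε) := hk.c4 ε hε
  have krv : KC b (rv ε) := hk.c5 ε hε
  have krh : KC b (rh ε) := hk.c6 ε hε
  have kbu : KC b (bump a ε) := KC.of_cont (ke_bump a hε.1)
  have kW : KC b W := KC.of_cont hW.c0
  have kWss : KC b Wss := KC.of_cont hW.css
  have kWt : KC b Wt := KC.of_cont hW.ct
  have kWtt : KC b Wtt := KC.of_cont hW.ctt
  have kc : KC b (fun τ _ => chi R τ) := KC.fst hc0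
  have kc1 : KC b (fun τ _ => chi1 R τ) := KC.fst hc1
  have kc2 : KC b (fun τ _ => chi2 R τ) := KC.fst hc2
  have ktwo : KC b (fun _ _ => (2 : ℝ)) := KC.of_cont continuous_const
  -- part (1)
  have hA : ∀ τ : ℝ, (∫ t in (0 : ℝ)..b, bump a ε τ t * W τ t) +
      ((∫ t in (0 : ℝ)..x1, rv ε τ t * W τ t) + ∫ t in x1..b, rh ε τ t * W τ t) -
      (∫ t in (0 : ℝ)..b, gss ε τ t * W τ t) =
      (∫ t in (0 : ℝ)..b, g ε τ t * Wtt τ t) + g ε τ 0 * Wt τ 0 := by
    intro τ
    have hcont : ContinuousOn (fun t => W τ t * gt ε τ t - g ε τ t * Wt τ t) (Icc 0 b) :=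
      (KC.sub (KC.mul kW kgt) (KC.mul kg kWt)).slice τ
    have p1 : ∫ t in (0 : ℝ)..x1, (W τ t * (bump a ε τ t + rv ε τ t - gss ε τ t) -
        g ε τ t * Wtt τ t) = (W τ x1 * gt ε τ x1 - g ε τ x1 * Wt τ x1) -
        (W τ 0 * gt ε τ 0 - g ε τ 0 * Wt τ 0) := by
      refine intervalIntegral.integral_eq_sub_of_hasDerivAt_of_le
        (f := fun t => W τ t * gt ε τ t - g ε τ t * Wt τ t) hx0.le
        (hcont.mono (Icc_subset_Icc_right hxb)) ?_
        ((KC.sub (KC.mul kW (KC.sub (KC.add kbu krv) kgss)) (KC.mul kg kWtt)).ii τ le_rfl hx0.le hxb)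
      intro t ht
      have ht' : t ∈ Ioo 0 b := ⟨ht.1, lt_of_lt_of_le ht.2 hxb⟩
      have e1 := ((hW.dt τ t).mul (hk.d4 ε hε τ t ht' ht.2.ne)).sub
        ((hk.d3 ε hε τ t ht').mul (hW.dtt τ t))
      refine e1.congr_deriv ?_
      have e2 := hk.lapv ε hε τ t ht
      have e3 : bump a ε τ t + rv ε τ t - gss ε τ t = gtt ε τ t := by linarith
      rw [e3]
      ring
    have p2 : ∫ t in x1..b, (W τ t * (bump a ε τ t + rh ε τ t - gss ε τ t) -
        g ε τ t * Wtt τ t) = (W τ b * gt ε τ b - g ε τ b * Wt τ b) -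
        (W τ x1 * gt ε τ x1 - g ε τ x1 * Wt τ x1) := by
      refine intervalIntegral.integral_eq_sub_of_hasDerivAt_of_le
        (f := fun t => W τ t * gt ε τ t - g ε τ t * Wt τ t) hxb
        (hcont.mono (Icc_subset_Icc_left hx0.le)) ?_
        ((KC.sub (KC.mul kW (KC.sub (KC.add kbu krh) kgss)) (KC.mul kg kWtt)).ii τ hx0.le hxb le_rfl)
      intro t ht
      have ht' : t ∈ Ioo 0 b := ⟨hx0.trans ht.1, ht.2⟩
      have e1 := ((hW.dt τ t).mul (hk.d4 ε hε τ t ht' ht.1.ne')).sub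
        ((hk.d3 ε hε τ t ht').mul (hW.dtt τ t))
      refine e1.congr_deriv ?_
      have e2 := hk.laph ε hε τ t ht
      have e3 : bump a ε τ t + rh ε τ t - gss ε τ t = gtt ε τ t := by linarith
      rw [e3]
      ring
    have q1 : ∫ t in (0 : ℝ)..x1, (W τ t * (bump a ε τ t + rv ε τ t - gss ε τ t) -
        g ε τ t * Wtt τ t) = (∫ t in (0 : ℝ)..x1, bump a ε τ t * W τ t) +
        (∫ t in (0 : ℝ)..x1, rv ε τ t * W τ t) - (∫ t in (0 : ℝ)..x1, gss ε τ t * W τ t) -
        ∫ t in (0 : ℝ)..x1, g ε τ t * Wtt τ t := by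
      have i1 := (KC.mul kbu kW).ii τ le_rfl hx0.le hxb
      have i2 := (KC.mul krv kW).ii τ le_rfl hx0.le hxb
      have i3 := (KC.mul kgss kW).ii τ le_rfl hx0.le hxb
      have i4 := (KC.mul kg kWtt).ii τ le_rfl hx0.le hxb
      rw [← intervalIntegral.integral_add i1 i2, ← intervalIntegral.integral_sub (i1.add i2) i3,
        ← intervalIntegral.integral_sub ((i1.add i2).sub i3) i4]
      refine intervalIntegral.integral_congr fun t _ => ?_
      ring
    have q2 : ∫ t in x1..b, (W τ t * (bump a ε τ t + rh ε τ t - gss ε τ t) -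
        g ε τ t * Wtt τ t) = (∫ t in x1..b, bump a ε τ t * W τ t) +
        (∫ t in x1..b, rh ε τ t * W τ t) - (∫ t in x1..b, gss ε τ t * W τ t) -
        ∫ t in x1..b, g ε τ t * Wtt τ t := by
      have i1 := (KC.mul kbu kW).ii τ hx0.le hxb le_rfl
      have i2 := (KC.mul krh kW).ii τ hx0.le hxb le_rfl
      have i3 := (KC.mul kgss kW).ii τ hx0.le hxb le_rfl
      have i4 := (KC.mul kg kWtt).ii τ hx0.le hxb le_rfl
      rw [← intervalIntegral.integral_add i1 i2, ← intervalIntegral.integral_sub (i1.add i2) i3,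
        ← intervalIntegral.integral_sub ((i1.add i2).sub i3) i4]
      refine intervalIntegral.integral_congr fun t _ => ?_
      ring
    have s1 := intervalIntegral.integral_add_adjacent_intervals
      ((KC.mul kbu kW).ii τ le_rfl hx0.le hxb) ((KC.mul kbu kW).ii τ hx0.le hxb le_rfl)
    have s2 := intervalIntegral.integral_add_adjacent_intervals
      ((KC.mul kgss kW).ii τ le_rfl hx0.le hxb) ((KC.mul kgss kW).ii τ hx0.le hxb le_rfl)
    have s3 := intervalIntegral.integral_add_adjacent_intervals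
      ((KC.mul kg kWtt).ii τ le_rfl hx0.le hxb) ((KC.mul kg kWtt).ii τ hx0.le hxb le_rfl)
    rw [hk.e0 ε hε τ, mul_zero, zero_sub] at p1
    rw [hk.e1 ε hε τ, hk.e2 ε hε τ, mul_zero, zero_mul, sub_zero] at p2
    rw [q1] at p1
    rw [q2] at p2
    linarith
  -- part (2)
  have hB : ∀ t ∈ Icc 0 b, (∫ τ in (-R)..R, (2 * chi1 R τ * gs ε τ t + chi2 R τ * g ε τ t) * W τ t) +
      (∫ τ in (-R)..R, chi R τ * (gss ε τ t * W τ t)) =
      ∫ τ in (-R)..R, chi R τ * (g ε τ t * Wss τ t) := by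
    intro t ht
    obtain ⟨z1, z2, z3, z4⟩ := chi_end hR
    have i1 : IntervalIntegrable (fun τ => (2 * chi1 R τ * gs ε τ t + chi2 R τ * g ε τ t) * W τ t)
        volume (-R) R :=
      ((KC.mul (KC.add (KC.mul (KC.mul ktwo kc1) kgs) (KC.mul kc2 kg)) kW).slice2
        ht).intervalIntegrable _ _
    have i2 : IntervalIntegrable (fun τ => chi R τ * (gss ε τ t * W τ t)) volume (-R) R :=
      ((KC.mul kc (KC.mul kgss kW)).slice2 ht).intervalIntegrable _ _
    have i3 : IntervalIntegrable (fun τ => chi R τ * (g ε τ t * Wss τ t)) volume (-R) R :=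
      ((KC.mul kc (KC.mul kg kWss)).slice2 ht).intervalIntegrable _ _
    have p : ∫ τ in (-R)..R, ((2 * chi1 R τ * gs ε τ t + chi2 R τ * g ε τ t) * W τ t +
        chi R τ * (gss ε τ t * W τ t) - chi R τ * (g ε τ t * Wss τ t)) =
        (W R t * (chi1 R R * g ε R t + chi R R * gs ε R t) - chi R R * g ε R t * Ws R t) -
        (W (-R) t * (chi1 R (-R) * g ε (-R) t + chi R (-R) * gs ε (-R) t) -
          chi R (-R) * g ε (-R) t * Ws (-R) t) := by
      refine intervalIntegral.integral_eq_sub_of_hasDerivAt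
        (f := fun τ => W τ t * (chi1 R τ * g ε τ t + chi R τ * gs ε τ t) -
          chi R τ * g ε τ t * Ws τ t) ?_ ((i1.add i2).sub i3)
      intro τ _
      have e1 := ((hW.ds τ t).mul (((chi1_hasDeriv hR τ).mul (hk.d1 ε hε τ t ht)).add
        ((chi_hasDeriv hR τ).mul (hk.d2 ε hε τ t ht)))).sub
        (((chi_hasDeriv hR τ).mul (hk.d1 ε hε τ t ht)).mul (hW.dss τ t))
      refine e1.congr_deriv ?_
      simp only [Pi.mul_apply, Pi.add_apply]
      ring
    rw [z1, z2, z3, z4] at p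
    rw [intervalIntegral.integral_sub (i1.add i2) i3, intervalIntegral.integral_add i1 i2] at p
    linarith
  -- exchange of the integrals
  have k1 : KC b (fun τ t => (2 * chi1 R τ * gs ε τ t + chi2 R τ * g ε τ t) * W τ t) :=
    KC.mul (KC.add (KC.mul (KC.mul ktwo kc1) kgs) (KC.mul kc2 kg)) kW
  have k2 : KC b (fun τ t => chi R τ * (gss ε τ t * W τ t)) := KC.mul kc (KC.mul kgss kW)
  have k3 : KC b (fun τ t => chi R τ * (g ε τ t * Wss τ t)) := KC.mul kc (KC.mul kg kWss)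
  have hBi : (∫ τ in (-R)..R, ∫ t in (0 : ℝ)..b,
        (2 * chi1 R τ * gs ε τ t + chi2 R τ * g ε τ t) * W τ t) +
      (∫ τ in (-R)..R, ∫ t in (0 : ℝ)..b, chi R τ * (gss ε τ t * W τ t)) =
      ∫ τ in (-R)..R, ∫ t in (0 : ℝ)..b, chi R τ * (g ε τ t * Wss τ t) := by
    rw [k1.swap hb0.le hR0, k2.swap hb0.le hR0, k3.swap hb0.le hR0,
      ← intervalIntegral.integral_add]
    · refine intervalIntegral.integral_congr fun t ht => ?_
      rw [uIcc_of_le hb0.le] at ht
      exact hB t ht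
    · exact ke_param k1 hb0.le hR0
    · exact ke_param k2 hb0.le hR0
  -- continuity in `τ`
  have n1 : Continuous fun τ => ∫ t in (0 : ℝ)..b, bump a ε τ t * (chi R τ * W τ t) :=
    (KC.mul kbu (KC.mul kc kW)).cont le_rfl hb0.le le_rfl
  have n2 : Continuous fun τ => chi R τ * ((∫ t in (0 : ℝ)..x1, rv ε τ t * W τ t)
      + ∫ t in x1..b, rh ε τ t * W τ t) :=
    hc0.mul (((KC.mul krv kW).cont le_rfl hx0.le hxb).add
      ((KC.mul krh kW).cont hx0.le hxb le_rfl))
  have n3 := k1.cont (u := 0) (v := b) le_rfl hb0.le le_rfl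
  have n4 := k2.cont (u := 0) (v := b) le_rfl hb0.le le_rfl
  have n5 := k3.cont (u := 0) (v := b) le_rfl hb0.le le_rfl
  have n6 : Continuous fun τ => chi R τ * ∫ t in (0 : ℝ)..b, g ε τ t * Wtt τ t :=
    hc0.mul ((KC.mul kg kWtt).cont le_rfl hb0.le le_rfl)
  have n7 : Continuous fun τ => chi R τ * g ε τ 0 * Wt τ 0 :=
    (hc0.mul (kg.slice2 (left_mem_Icc.2 hb0.le))).mul (kWt.slice2 (left_mem_Icc.2 hb0.le))
  have hsum : ∀ τ, chi R τ * ∫ t in (0 : ℝ)..b, g ε τ t * (Wss τ t + Wtt τ t) =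
      (∫ t in (0 : ℝ)..b, chi R τ * (g ε τ t * Wss τ t)) +
        chi R τ * ∫ t in (0 : ℝ)..b, g ε τ t * Wtt τ t := by
    intro τ
    rw [intervalIntegral.integral_const_mul, ← mul_add, ← intervalIntegral.integral_add
      ((KC.mul kg kWss).ii τ le_rfl hb0.le le_rfl) ((KC.mul kg kWtt).ii τ le_rfl hb0.le le_rfl)]
    congr 1
    refine intervalIntegral.integral_congr fun t _ => ?_
    ring
  have hAc : ∀ τ, (∫ t in (0 : ℝ)..b, bump a ε τ t * (chi R τ * W τ t)) +
      chi R τ * ((∫ t in (0 : ℝ)..x1, rv ε τ t * W τ t) + ∫ t in x1..b, rh ε τ t * W τ t) =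
      (∫ t in (0 : ℝ)..b, chi R τ * (gss ε τ t * W τ t)) +
        chi R τ * (∫ t in (0 : ℝ)..b, g ε τ t * Wtt τ t) + chi R τ * g ε τ 0 * Wt τ 0 := by
    intro τ
    have e1 : ∫ t in (0 : ℝ)..b, bump a ε τ t * (chi R τ * W τ t) =
        chi R τ * ∫ t in (0 : ℝ)..b, bump a ε τ t * W τ t := by
      rw [← intervalIntegral.integral_const_mul]
      refine intervalIntegral.integral_congr fun t _ => ?_
      ring
    rw [e1, intervalIntegral.integral_const_mul]
    linear_combination chi R τ * hA τ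
  simp only [hsum]
  rw [intervalIntegral.integral_add (n2.intervalIntegrable _ _) (n3.intervalIntegrable _ _),
    intervalIntegral.integral_add (n5.intervalIntegrable _ _) (n6.intervalIntegrable _ _)]
  have f1 : (∫ τ in (-R)..R, ∫ t in (0 : ℝ)..b, bump a ε τ t * (chi R τ * W τ t)) +
      (∫ τ in (-R)..R, chi R τ * ((∫ t in (0 : ℝ)..x1, rv ε τ t * W τ t)
        + ∫ t in x1..b, rh ε τ t * W τ t)) =
      (∫ τ in (-R)..R, ∫ t in (0 : ℝ)..b, chi R τ * (gss ε τ t * W τ t)) +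
      (∫ τ in (-R)..R, chi R τ * ∫ t in (0 : ℝ)..b, g ε τ t * Wtt τ t) +
      ∫ τ in (-R)..R, chi R τ * g ε τ 0 * Wt τ 0 := by
    have n46 : Continuous fun τ => (∫ t in (0 : ℝ)..b, chi R τ * (gss ε τ t * W τ t)) +
        chi R τ * ∫ t in (0 : ℝ)..b, g ε τ t * Wtt τ t := n4.add n6
    rw [← intervalIntegral.integral_add (n1.intervalIntegrable _ _) (n2.intervalIntegrable _ _),
      ← intervalIntegral.integral_add (n4.intervalIntegrable _ _) (n6.intervalIntegrable _ _),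
      ← intervalIntegral.integral_add (n46.intervalIntegrable _ _)
        (n7.intervalIntegrable _ _)]
    refine intervalIntegral.integral_congr fun τ _ => ?_
    exact hAc τ
  linarith

end Pool.Agent.MML
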