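import Pool.Agent.MML.Defs

/-!
# MML, module KerIIa: kernel II is a regularised kernel

Notation: `C = cosh (τ/2)`, `S = sinh (τ/2)`, `E = exp (-τ/2)`, `c = cos (t/2)`, `s = sin (t/2)`, `q = q2 = √2/2`.
Derivatives of `gV`, `gH`: the formulas below.  Laplacians (`S² + s² = C² - c²`, `S² + c² = C² - s²`, `S² = C² - 1`):
`log (C - c + ε)`: `¼ ε (C + c)/(C - c + ε)²` (this is `4π bump (1/2) ε τ t`), `log (C + c + ε)`: `¼ ε (C - c)/(C + c + ε)²`,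
`log (C + s + ε)`: `¼ ε (C - s)/(C + s + ε)²`, `log (C + q + ε)`: `¼ (1 + (q + ε) C)/(C + q + ε)²`,
`4 E c`: `0`, `2 E (√2 - s + c)`: `½ √2 E`.
At `t = π/2` (`c = s = q`, `2 q = √2`): `gV = gH`, `gVs = gHs`, `gVss = gHss`, `gVt = gHt`.
At `t = 3π/2` (`c = -q`, `s = q`): `gH = 0`, `gHt = 0`.  At `t = 0`: `gVt = 0`.
Denominators: `C - c ≥ C - 1 ≥ 0`; in the hump `C - c ≥ 1 - q`; for `1 ≤ |τ|` `C - c ≥ cosh (1/2) - 1 > 0`.
-/

set_option autoImplicit false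

namespace Pool.Agent.MML

open Real MeasureTheory Set Filter Topology

noncomputable def gVs (ε τ t : ℝ) : ℝ :=
  (4 * π)⁻¹ * (-2 * exp (-τ / 2) * cos (t / 2)
    + sinh (τ / 2) / 2 / (cosh (τ / 2) - cos (t / 2) + ε)
    - sinh (τ / 2) / 2 / (cosh (τ / 2) + cos (t / 2) + ε))

noncomputable def gVss (ε τ t : ℝ) : ℝ :=
  (4 * π)⁻¹ * (exp (-τ / 2) * cos (t / 2)
    + cosh (τ / 2) / 4 / (cosh (τ / 2) - cos (t / 2) + ε)
    - sinh (τ / 2) ^ 2 / 4 / (cosh (τ / 2) - cos (t / 2) + ε) ^ 2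
    - cosh (τ / 2) / 4 / (cosh (τ / 2) + cos (t / 2) + ε)
    + sinh (τ / 2) ^ 2 / 4 / (cosh (τ / 2) + cos (t / 2) + ε) ^ 2)

noncomputable def gVt (ε τ t : ℝ) : ℝ :=
  (4 * π)⁻¹ * (-2 * exp (-τ / 2) * sin (t / 2)
    + sin (t / 2) / 2 / (cosh (τ / 2) - cos (t / 2) + ε)
    + sin (t / 2) / 2 / (cosh (τ / 2) + cos (t / 2) + ε))

noncomputable def gVtt (ε τ t : ℝ) : ℝ :=
  (4 * π)⁻¹ * (-exp (-τ / 2) * cos (t / 2)
    + cos (t / 2) / 4 / (cosh (τ / 2) - cos (t / 2) + ε)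
    - sin (t / 2) ^ 2 / 4 / (cosh (τ / 2) - cos (t / 2) + ε) ^ 2
    + cos (t / 2) / 4 / (cosh (τ / 2) + cos (t / 2) + ε)
    + sin (t / 2) ^ 2 / 4 / (cosh (τ / 2) + cos (t / 2) + ε) ^ 2)

noncomputable def rV (ε τ t : ℝ) : ℝ :=
  -(16 * π)⁻¹ * (ε * (cosh (τ / 2) - cos (t / 2))) / (cosh (τ / 2) + cos (t / 2) + ε) ^ 2

noncomputable def gHs (ε τ t : ℝ) : ℝ :=
  (4 * π)⁻¹ * (sinh (τ / 2) / 2 / (cosh (τ / 2) - cos (t / 2) + ε)
    + sinh (τ / 2) / 2 / (cosh (τ / 2) + sin (t / 2) + ε)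
    - sinh (τ / 2) / (cosh (τ / 2) + q2 + ε)
    - exp (-τ / 2) * (√2 - sin (t / 2) + cos (t / 2)))

noncomputable def gHss (ε τ t : ℝ) : ℝ :=
  (4 * π)⁻¹ * (cosh (τ / 2) / 4 / (cosh (τ / 2) - cos (t / 2) + ε)
    - sinh (τ / 2) ^ 2 / 4 / (cosh (τ / 2) - cos (t / 2) + ε) ^ 2
    + cosh (τ / 2) / 4 / (cosh (τ / 2) + sin (t / 2) + ε)
    - sinh (τ / 2) ^ 2 / 4 / (cosh (τ / 2) + sin (t / 2) + ε) ^ 2
    - cosh (τ / 2) / 2 / (cosh (τ / 2) + q2 + ε)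
    + sinh (τ / 2) ^ 2 / 2 / (cosh (τ / 2) + q2 + ε) ^ 2
    + exp (-τ / 2) / 2 * (√2 - sin (t / 2) + cos (t / 2)))

noncomputable def gHt (ε τ t : ℝ) : ℝ :=
  (4 * π)⁻¹ * (sin (t / 2) / 2 / (cosh (τ / 2) - cos (t / 2) + ε)
    + cos (t / 2) / 2 / (cosh (τ / 2) + sin (t / 2) + ε)
    - exp (-τ / 2) * (cos (t / 2) + sin (t / 2)))

noncomputable def gHtt (ε τ t : ℝ) : ℝ :=
  (4 * π)⁻¹ * (cos (t / 2) / 4 / (cosh (τ / 2) - cos (t / 2) + ε)
    - sin (t / 2) ^ 2 / 4 / (cosh (τ / 2) - cos (t / 2) + ε) ^ 2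
    - sin (t / 2) / 4 / (cosh (τ / 2) + sin (t / 2) + ε)
    - cos (t / 2) ^ 2 / 4 / (cosh (τ / 2) + sin (t / 2) + ε) ^ 2
    - exp (-τ / 2) / 2 * (cos (t / 2) - sin (t / 2)))

noncomputable def rH (ε τ t : ℝ) : ℝ :=
  (16 * π)⁻¹ * (ε * (cosh (τ / 2) - sin (t / 2))) / (cosh (τ / 2) + sin (t / 2) + ε) ^ 2
    + (8 * π)⁻¹ * (√2 * exp (-τ / 2)
      - (1 + (q2 + ε) * cosh (τ / 2)) / (cosh (τ / 2) + q2 + ε) ^ 2)

open Classical in
noncomputable def gIIs (ε τ t : ℝ) : ℝ := if t ≤ π / 2 then gVs ε τ t else gHs ε τ t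

open Classical in
noncomputable def gIIss (ε τ t : ℝ) : ℝ := if t ≤ π / 2 then gVss ε τ t else gHss ε τ t

open Classical in
noncomputable def gIIt (ε τ t : ℝ) : ℝ := if t ≤ π / 2 then gVt ε τ t else gHt ε τ t

open Classical in
noncomputable def gIItt (ε τ t : ℝ) : ℝ := if t ≤ π / 2 then gVtt ε τ t else gHtt ε τ t

/-! ### elementary facts -/

theorem kiia_p1 {ε : ℝ} (hε : 0 < ε) (τ t : ℝ) : 0 < cosh (τ / 2) - cos (t / 2) + ε := by
  have h1 := one_le_cosh (τ / 2)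
  have h2 := cos_le_one (t / 2)
  linarith

theorem kiia_p2 {ε : ℝ} (hε : 0 < ε) (τ t : ℝ) : 0 < cosh (τ / 2) + cos (t / 2) + ε := by
  have h1 := one_le_cosh (τ / 2)
  have h2 := neg_one_le_cos (t / 2)
  linarith

theorem kiia_p3 {ε : ℝ} (hε : 0 < ε) (τ t : ℝ) : 0 < cosh (τ / 2) + sin (t / 2) + ε := by
  have h1 := one_le_cosh (τ / 2)
  have h2 := neg_one_le_sin (t / 2)
  linarith

theorem kiia_q2pos : 0 < q2 := by
  unfold q2
  positivity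

theorem kiia_p4 {ε : ℝ} (hε : 0 ≤ ε) (τ : ℝ) : 0 < cosh (τ / 2) + q2 + ε := by
  have h1 := one_le_cosh (τ / 2)
  have h2 := kiia_q2pos
  linarith

theorem kiia_q2 : √2 = 2 * q2 := by
  unfold q2
  ring

theorem kiia_q2sq : q2 ^ 2 = 1 / 2 := by
  unfold q2
  rw [div_pow, sq_sqrt (by norm_num)]
  norm_num

theorem kiia_hC (τ : ℝ) : HasDerivAt (fun x => cosh (x / 2)) (sinh (τ / 2) / 2) τ := by
  have h := (hasDerivAt_cosh (τ / 2)).comp τ ((hasDerivAt_id τ).div_const 2)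
  exact h.congr_deriv (by simp; ring)

theorem kiia_hS (τ : ℝ) : HasDerivAt (fun x => sinh (x / 2)) (cosh (τ / 2) / 2) τ := by
  have h := (hasDerivAt_sinh (τ / 2)).comp τ ((hasDerivAt_id τ).div_const 2)
  refine h.congr_deriv ?_
  ring

theorem kiia_hE (τ : ℝ) : HasDerivAt (fun x => exp (-x / 2)) (-exp (-τ / 2) / 2) τ := by
  have h := (hasDerivAt_exp (-τ / 2)).comp τ (((hasDerivAt_id τ).neg).div_const 2)
  refine h.congr_deriv ?_
  ring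

theorem kiia_hc (t : ℝ) : HasDerivAt (fun x => cos (x / 2)) (-sin (t / 2) / 2) t := by
  have h := (hasDerivAt_cos (t / 2)).comp t ((hasDerivAt_id t).div_const 2)
  refine h.congr_deriv ?_
  ring

theorem kiia_hs (t : ℝ) : HasDerivAt (fun x => sin (x / 2)) (cos (t / 2) / 2) t := by
  have h := (hasDerivAt_sin (t / 2)).comp t ((hasDerivAt_id t).div_const 2)
  refine h.congr_deriv ?_
  ring

/-! ### derivatives of the pieces -/

theorem kiia_V1 {ε : ℝ} (hε : 0 < ε) (τ t : ℝ) :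
    HasDerivAt (fun x => gV ε x t) (gVs ε τ t) τ := by
  have h1 := (((kiia_hC τ).sub_const (cos (t / 2))).add_const ε).log (kiia_p1 hε τ t).ne'
  have h2 := (((kiia_hC τ).add_const (cos (t / 2))).add_const ε).log (kiia_p2 hε τ t).ne'
  have h3 := ((kiia_hE τ).const_mul 4).mul_const (cos (t / 2))
  have h := ((h3.add h1).sub h2).const_mul (4 * π)⁻¹
  unfold gV gVs
  refine h.congr_deriv ?_
  ring

theorem kiia_V2 {ε : ℝ} (hε : 0 < ε) (τ t : ℝ) :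
    HasDerivAt (fun x => gVs ε x t) (gVss ε τ t) τ := by
  have p1 := (kiia_p1 hε τ t).ne'
  have p2 := (kiia_p2 hε τ t).ne'
  have h1 := ((kiia_hS τ).div_const 2).div
    (((kiia_hC τ).sub_const (cos (t / 2))).add_const ε) p1
  have h2 := ((kiia_hS τ).div_const 2).div
    (((kiia_hC τ).add_const (cos (t / 2))).add_const ε) p2
  have h3 := ((kiia_hE τ).const_mul (-2)).mul_const (cos (t / 2))
  have h := ((h3.add h1).sub h2).const_mul (4 * π)⁻¹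
  unfold gVs gVss
  refine h.congr_deriv ?_
  congr 1
  field_simp
  ring

theorem kiia_V3 {ε : ℝ} (hε : 0 < ε) (τ t : ℝ) :
    HasDerivAt (fun y => gV ε τ y) (gVt ε τ t) t := by
  have h1 := (((kiia_hc t).const_sub (cosh (τ / 2))).add_const ε).log (kiia_p1 hε τ t).ne'
  have h2 := (((kiia_hc t).const_add (cosh (τ / 2))).add_const ε).log (kiia_p2 hε τ t).ne'
  have h3 := (kiia_hc t).const_mul (4 * exp (-τ / 2))
  have h := ((h3.add h1).sub h2).const_mul (4 * π)⁻¹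
  unfold gV gVt
  refine h.congr_deriv ?_
  ring

theorem kiia_V4 {ε : ℝ} (hε : 0 < ε) (τ t : ℝ) :
    HasDerivAt (fun y => gVt ε τ y) (gVtt ε τ t) t := by
  have p1 := (kiia_p1 hε τ t).ne'
  have p2 := (kiia_p2 hε τ t).ne'
  have h1 := ((kiia_hs t).div_const 2).div
    (((kiia_hc t).const_sub (cosh (τ / 2))).add_const ε) p1
  have h2 := ((kiia_hs t).div_const 2).div
    (((kiia_hc t).const_add (cosh (τ / 2))).add_const ε) p2
  have h3 := (kiia_hs t).const_mul (-2 * exp (-τ / 2))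
  have h := ((h3.add h1).add h2).const_mul (4 * π)⁻¹
  unfold gVt gVtt
  refine h.congr_deriv ?_
  congr 1
  field_simp
  ring

theorem kiia_H1 {ε : ℝ} (hε : 0 < ε) (τ t : ℝ) :
    HasDerivAt (fun x => gH ε x t) (gHs ε τ t) τ := by
  have h1 := (((kiia_hC τ).sub_const (cos (t / 2))).add_const ε).log (kiia_p1 hε τ t).ne'
  have h2 := (((kiia_hC τ).add_const (sin (t / 2))).add_const ε).log (kiia_p3 hε τ t).ne'
  have h4 := ((((kiia_hC τ).add_const q2).add_const ε).log (kiia_p4 hε.le τ).ne').const_mul 2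
  have h3 := ((kiia_hE τ).const_mul 2).mul_const (√2 - sin (t / 2) + cos (t / 2))
  have h := (((h1.add h2).sub h4).add h3).const_mul (4 * π)⁻¹
  unfold gH gHs
  refine h.congr_deriv ?_
  ring

theorem kiia_H2 {ε : ℝ} (hε : 0 < ε) (τ t : ℝ) :
    HasDerivAt (fun x => gHs ε x t) (gHss ε τ t) τ := by
  have p1 := (kiia_p1 hε τ t).ne'
  have p3 := (kiia_p3 hε τ t).ne'
  have p4 := (kiia_p4 hε.le τ).ne'
  have h1 := ((kiia_hS τ).div_const 2).div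
    (((kiia_hC τ).sub_const (cos (t / 2))).add_const ε) p1
  have h2 := ((kiia_hS τ).div_const 2).div
    (((kiia_hC τ).add_const (sin (t / 2))).add_const ε) p3
  have h4 := (kiia_hS τ).div (((kiia_hC τ).add_const q2).add_const ε) p4
  have h3 := (kiia_hE τ).mul_const (√2 - sin (t / 2) + cos (t / 2))
  have h := (((h1.add h2).sub h4).sub h3).const_mul (4 * π)⁻¹
  unfold gHs gHss
  refine h.congr_deriv ?_
  congr 1
  field_simp
  ring

theorem kiia_H3 {ε : ℝ} (hε : 0 < ε) (τ t : ℝ) :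
    HasDerivAt (fun y => gH ε τ y) (gHt ε τ t) t := by
  have h1 := (((kiia_hc t).const_sub (cosh (τ / 2))).add_const ε).log (kiia_p1 hε τ t).ne'
  have h2 := (((kiia_hs t).const_add (cosh (τ / 2))).add_const ε).log (kiia_p3 hε τ t).ne'
  have h3 := (((kiia_hs t).const_sub (√2)).add (kiia_hc t)).const_mul (2 * exp (-τ / 2))
  have h := (((h1.add h2).sub_const (2 * log (cosh (τ / 2) + q2 + ε))).add h3).const_mul
    (4 * π)⁻¹
  unfold gH gHt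
  refine h.congr_deriv ?_
  ring

theorem kiia_H4 {ε : ℝ} (hε : 0 < ε) (τ t : ℝ) :
    HasDerivAt (fun y => gHt ε τ y) (gHtt ε τ t) t := by
  have p1 := (kiia_p1 hε τ t).ne'
  have p3 := (kiia_p3 hε τ t).ne'
  have h1 := ((kiia_hs t).div_const 2).div
    (((kiia_hc t).const_sub (cosh (τ / 2))).add_const ε) p1
  have h2 := ((kiia_hc t).div_const 2).div
    (((kiia_hs t).const_add (cosh (τ / 2))).add_const ε) p3
  have h3 := ((kiia_hc t).add (kiia_hs t)).const_mul (exp (-τ / 2))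
  have h := ((h1.add h2).sub h3).const_mul (4 * π)⁻¹
  unfold gHt gHtt
  refine h.congr_deriv ?_
  congr 1
  field_simp
  ring

/-! ### matching at `t = π/2`, values at the ends -/

theorem kiia_cos : cos (π / 2 / 2) = q2 := by
  unfold q2
  rw [show π / 2 / 2 = π / 4 by ring, cos_pi_div_four]

theorem kiia_sin : sin (π / 2 / 2) = q2 := by
  unfold q2
  rw [show π / 2 / 2 = π / 4 by ring, sin_pi_div_four]

theorem kiia_cos3 : cos (3 * π / 2 / 2) = -q2 := by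
  unfold q2
  rw [show 3 * π / 2 / 2 = π - π / 4 by ring, cos_pi_sub, cos_pi_div_four]

theorem kiia_sin3 : sin (3 * π / 2 / 2) = q2 := by
  unfold q2
  rw [show 3 * π / 2 / 2 = π - π / 4 by ring, sin_pi_sub, sin_pi_div_four]

theorem kiia_m0 (ε τ : ℝ) : gV ε τ (π / 2) = gH ε τ (π / 2) := by
  unfold gV gH
  rw [kiia_cos, kiia_sin, kiia_q2]
  ring

theorem kiia_m1 (ε τ : ℝ) : gVs ε τ (π / 2) = gHs ε τ (π / 2) := by
  unfold gVs gHs
  rw [kiia_cos, kiia_sin, kiia_q2]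
  ring

theorem kiia_m2 (ε τ : ℝ) : gVss ε τ (π / 2) = gHss ε τ (π / 2) := by
  unfold gVss gHss
  rw [kiia_cos, kiia_sin, kiia_q2]
  ring

theorem kiia_m3 (ε τ : ℝ) : gVt ε τ (π / 2) = gHt ε τ (π / 2) := by
  unfold gVt gHt
  rw [kiia_cos, kiia_sin]
  ring

/-! ### continuity -/

theorem kiia_cV {ε : ℝ} (hε : 0 < ε) : Continuous (fun p : ℝ × ℝ => gV ε p.1 p.2) := by
  have p1 : ∀ p : ℝ × ℝ, cosh (p.1 / 2) - cos (p.2 / 2) + ε ≠ 0 := fun p =>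
    (kiia_p1 hε p.1 p.2).ne'
  have p2 : ∀ p : ℝ × ℝ, cosh (p.1 / 2) + cos (p.2 / 2) + ε ≠ 0 := fun p =>
    (kiia_p2 hε p.1 p.2).ne'
  unfold gV
  fun_prop (disch := assumption)

theorem kiia_cVs {ε : ℝ} (hε : 0 < ε) : Continuous (fun p : ℝ × ℝ => gVs ε p.1 p.2) := by
  have p1 : ∀ p : ℝ × ℝ, cosh (p.1 / 2) - cos (p.2 / 2) + ε ≠ 0 := fun p =>
    (kiia_p1 hε p.1 p.2).ne'
  have p2 : ∀ p : ℝ × ℝ, cosh (p.1 / 2) + cos (p.2 / 2) + ε ≠ 0 := fun p =>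
    (kiia_p2 hε p.1 p.2).ne'
  unfold gVs
  fun_prop (disch := assumption)

theorem kiia_cVss {ε : ℝ} (hε : 0 < ε) : Continuous (fun p : ℝ × ℝ => gVss ε p.1 p.2) := by
  have p1 : ∀ p : ℝ × ℝ, cosh (p.1 / 2) - cos (p.2 / 2) + ε ≠ 0 := fun p =>
    (kiia_p1 hε p.1 p.2).ne'
  have p2 : ∀ p : ℝ × ℝ, cosh (p.1 / 2) + cos (p.2 / 2) + ε ≠ 0 := fun p =>
    (kiia_p2 hε p.1 p.2).ne'
  have p1' : ∀ p : ℝ × ℝ, (cosh (p.1 / 2) - cos (p.2 / 2) + ε) ^ 2 ≠ 0 := fun p =>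
    pow_ne_zero 2 (p1 p)
  have p2' : ∀ p : ℝ × ℝ, (cosh (p.1 / 2) + cos (p.2 / 2) + ε) ^ 2 ≠ 0 := fun p =>
    pow_ne_zero 2 (p2 p)
  unfold gVss
  fun_prop (disch := assumption)

theorem kiia_cVt {ε : ℝ} (hε : 0 < ε) : Continuous (fun p : ℝ × ℝ => gVt ε p.1 p.2) := by
  have p1 : ∀ p : ℝ × ℝ, cosh (p.1 / 2) - cos (p.2 / 2) + ε ≠ 0 := fun p =>
    (kiia_p1 hε p.1 p.2).ne'
  have p2 : ∀ p : ℝ × ℝ, cosh (p.1 / 2) + cos (p.2 / 2) + ε ≠ 0 := fun p =>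
    (kiia_p2 hε p.1 p.2).ne'
  unfold gVt
  fun_prop (disch := assumption)

theorem kiia_cH {ε : ℝ} (hε : 0 < ε) : Continuous (fun p : ℝ × ℝ => gH ε p.1 p.2) := by
  have p1 : ∀ p : ℝ × ℝ, cosh (p.1 / 2) - cos (p.2 / 2) + ε ≠ 0 := fun p =>
    (kiia_p1 hε p.1 p.2).ne'
  have p3 : ∀ p : ℝ × ℝ, cosh (p.1 / 2) + sin (p.2 / 2) + ε ≠ 0 := fun p =>
    (kiia_p3 hε p.1 p.2).ne'
  have p4 : ∀ p : ℝ × ℝ, cosh (p.1 / 2) + q2 + ε ≠ 0 := fun p => (kiia_p4 hε.le p.1).ne'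
  unfold gH
  fun_prop (disch := assumption)

theorem kiia_cHs {ε : ℝ} (hε : 0 < ε) : Continuous (fun p : ℝ × ℝ => gHs ε p.1 p.2) := by
  have p1 : ∀ p : ℝ × ℝ, cosh (p.1 / 2) - cos (p.2 / 2) + ε ≠ 0 := fun p =>
    (kiia_p1 hε p.1 p.2).ne'
  have p3 : ∀ p : ℝ × ℝ, cosh (p.1 / 2) + sin (p.2 / 2) + ε ≠ 0 := fun p =>
    (kiia_p3 hε p.1 p.2).ne'
  have p4 : ∀ p : ℝ × ℝ, cosh (p.1 / 2) + q2 + ε ≠ 0 := fun p => (kiia_p4 hε.le p.1).ne'
  unfold gHs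
  fun_prop (disch := assumption)

theorem kiia_cHss {ε : ℝ} (hε : 0 < ε) : Continuous (fun p : ℝ × ℝ => gHss ε p.1 p.2) := by
  have p1 : ∀ p : ℝ × ℝ, cosh (p.1 / 2) - cos (p.2 / 2) + ε ≠ 0 := fun p =>
    (kiia_p1 hε p.1 p.2).ne'
  have p3 : ∀ p : ℝ × ℝ, cosh (p.1 / 2) + sin (p.2 / 2) + ε ≠ 0 := fun p =>
    (kiia_p3 hε p.1 p.2).ne'
  have p4 : ∀ p : ℝ × ℝ, cosh (p.1 / 2) + q2 + ε ≠ 0 := fun p => (kiia_p4 hε.le p.1).ne'
  have p1' : ∀ p : ℝ × ℝ, (cosh (p.1 / 2) - cos (p.2 / 2) + ε) ^ 2 ≠ 0 := fun p =>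
    pow_ne_zero 2 (p1 p)
  have p3' : ∀ p : ℝ × ℝ, (cosh (p.1 / 2) + sin (p.2 / 2) + ε) ^ 2 ≠ 0 := fun p =>
    pow_ne_zero 2 (p3 p)
  have p4' : ∀ p : ℝ × ℝ, (cosh (p.1 / 2) + q2 + ε) ^ 2 ≠ 0 := fun p =>
    pow_ne_zero 2 (p4 p)
  unfold gHss
  fun_prop (disch := assumption)

theorem kiia_cHt {ε : ℝ} (hε : 0 < ε) : Continuous (fun p : ℝ × ℝ => gHt ε p.1 p.2) := by
  have p1 : ∀ p : ℝ × ℝ, cosh (p.1 / 2) - cos (p.2 / 2) + ε ≠ 0 := fun p =>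
    (kiia_p1 hε p.1 p.2).ne'
  have p3 : ∀ p : ℝ × ℝ, cosh (p.1 / 2) + sin (p.2 / 2) + ε ≠ 0 := fun p =>
    (kiia_p3 hε p.1 p.2).ne'
  unfold gHt
  fun_prop (disch := assumption)

theorem kiia_crV {ε : ℝ} (hε : 0 < ε) : Continuous (fun p : ℝ × ℝ => rV ε p.1 p.2) := by
  have p2' : ∀ p : ℝ × ℝ, (cosh (p.1 / 2) + cos (p.2 / 2) + ε) ^ 2 ≠ 0 := fun p =>
    pow_ne_zero 2 (kiia_p2 hε p.1 p.2).ne'
  unfold rV
  fun_prop (disch := assumption)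

theorem kiia_crH {ε : ℝ} (hε : 0 < ε) : Continuous (fun p : ℝ × ℝ => rH ε p.1 p.2) := by
  have p3' : ∀ p : ℝ × ℝ, (cosh (p.1 / 2) + sin (p.2 / 2) + ε) ^ 2 ≠ 0 := fun p =>
    pow_ne_zero 2 (kiia_p3 hε p.1 p.2).ne'
  have p4' : ∀ p : ℝ × ℝ, (cosh (p.1 / 2) + q2 + ε) ^ 2 ≠ 0 := fun p =>
    pow_ne_zero 2 (kiia_p4 hε.le p.1).ne'
  unfold rH
  fun_prop (disch := assumption)

open Classical in
/-- gluing -/
theorem kiia_glue {f g : ℝ → ℝ → ℝ} (hf : Continuous (fun p : ℝ × ℝ => f p.1 p.2))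
    (hg : Continuous (fun p : ℝ × ℝ => g p.1 p.2)) (h : ∀ τ, f τ (π / 2) = g τ (π / 2)) :
    Continuous (fun p : ℝ × ℝ => if p.2 ≤ π / 2 then f p.1 p.2 else g p.1 p.2) := by
  refine Continuous.if_le hf hg continuous_snd continuous_const ?_
  intro p hp
  rw [hp, h]

open Classical in
theorem kiia_glueOn {f g : ℝ → ℝ → ℝ} {S : Set ℝ}
    (hf : ContinuousOn (fun p : ℝ × ℝ => f p.1 p.2) (S ×ˢ Icc 0 (3 * π / 2)))
    (hg : ContinuousOn (fun p : ℝ × ℝ => g p.1 p.2) (S ×ˢ Icc 0 (3 * π / 2)))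
    (h : ∀ τ, f τ (π / 2) = g τ (π / 2)) :
    ContinuousOn (fun p : ℝ × ℝ => if p.2 ≤ π / 2 then f p.1 p.2 else g p.1 p.2)
      (S ×ˢ Icc 0 (3 * π / 2)) := by
  have hπ := pi_pos
  have e : (fun p : ℝ × ℝ => if p.2 ≤ π / 2 then f p.1 p.2 else g p.1 p.2) =
      fun p : ℝ × ℝ => f p.1 (min p.2 (π / 2)) + g p.1 (max p.2 (π / 2)) - g p.1 (π / 2) := by
    funext p
    by_cases hp : p.2 ≤ π / 2
    · rw [if_pos hp, min_eq_left hp, max_eq_right hp]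
      ring
    · rw [if_neg hp, min_eq_right (le_of_not_ge hp), max_eq_left (le_of_not_ge hp), h]
      ring
  rw [e]
  have m1 : MapsTo (fun p : ℝ × ℝ => (p.1, min p.2 (π / 2))) (S ×ˢ Icc 0 (3 * π / 2))
      (S ×ˢ Icc 0 (3 * π / 2)) := by
    rintro ⟨x, y⟩ ⟨hx, hy⟩
    exact ⟨hx, le_min hy.1 (by positivity), (min_le_left _ _).trans hy.2⟩
  have m2 : MapsTo (fun p : ℝ × ℝ => (p.1, max p.2 (π / 2))) (S ×ˢ Icc 0 (3 * π / 2))
      (S ×ˢ Icc 0 (3 * π / 2)) := by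
    rintro ⟨x, y⟩ ⟨hx, hy⟩
    exact ⟨hx, hy.1.trans (le_max_left _ _), max_le hy.2 (by linarith)⟩
  have m3 : MapsTo (fun p : ℝ × ℝ => (p.1, π / 2)) (S ×ˢ Icc 0 (3 * π / 2))
      (S ×ˢ Icc 0 (3 * π / 2)) := by
    rintro ⟨x, y⟩ ⟨hx, hy⟩
    exact ⟨hx, by positivity, by show π / 2 ≤ 3 * π / 2; linarith⟩
  have c1 : Continuous (fun p : ℝ × ℝ => (p.1, min p.2 (π / 2))) := by fun_prop
  have c2 : Continuous (fun p : ℝ × ℝ => (p.1, max p.2 (π / 2))) := by fun_prop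
  have c3 : Continuous (fun p : ℝ × ℝ => (p.1, π / 2)) := by fun_prop
  exact ((hf.comp c1.continuousOn m1).add (hg.comp c2.continuousOn m2)).sub
    (hg.comp c3.continuousOn m3)

open Classical in
/-- derivative of a glued function in the second variable -/
theorem kiia_gd {f g f' g' : ℝ → ℝ} (hf : ∀ t, HasDerivAt f (f' t) t)
    (hg : ∀ t, HasDerivAt g (g' t) t) (h0 : f (π / 2) = g (π / 2))
    (h1 : f' (π / 2) = g' (π / 2)) (t : ℝ) :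
    HasDerivAt (fun y => if y ≤ π / 2 then f y else g y) (if t ≤ π / 2 then f' t else g' t) t := by
  rcases lt_trichotomy t (π / 2) with h | h | h
  · rw [if_pos h.le]
    refine (hf t).congr_of_eventuallyEq ?_
    filter_upwards [Iio_mem_nhds h] with y hy
    rw [if_pos (le_of_lt hy)]
  · subst h
    rw [if_pos le_rfl]
    have hl : HasDerivWithinAt (fun y => if y ≤ π / 2 then f y else g y) (f' (π / 2))
        (Iic (π / 2)) (π / 2) := by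
      refine (hf (π / 2)).hasDerivWithinAt.congr (fun y hy => ?_) ?_
      · exact if_pos hy
      · rw [if_pos le_rfl]
    have hr : HasDerivWithinAt (fun y => if y ≤ π / 2 then f y else g y) (f' (π / 2))
        (Ici (π / 2)) (π / 2) := by
      rw [h1]
      refine (hg (π / 2)).hasDerivWithinAt.congr (fun y hy => ?_) ?_
      · by_cases hy' : y ≤ π / 2
        · rw [if_pos hy']
          have : y = π / 2 := le_antisymm hy' hy
          rw [this, h0]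
        · rw [if_neg hy']
      · rw [if_pos le_rfl, h0]
    have hu := hl.union hr
    rw [Iic_union_Ici, hasDerivWithinAt_univ] at hu
    exact hu
  · rw [if_neg (not_le.2 h)]
    refine (hg t).congr_of_eventuallyEq ?_
    filter_upwards [Ioi_mem_nhds h] with y hy
    rw [if_neg (not_le.2 hy)]

open Classical in
theorem kiia_gd' {f g f' g' : ℝ → ℝ} (hf : ∀ t, HasDerivAt f (f' t) t)
    (hg : ∀ t, HasDerivAt g (g' t) t) (t : ℝ) (ht : t ≠ π / 2) :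
    HasDerivAt (fun y => if y ≤ π / 2 then f y else g y) (if t ≤ π / 2 then f' t else g' t) t := by
  rcases lt_trichotomy t (π / 2) with h | h | h
  · rw [if_pos h.le]
    refine (hf t).congr_of_eventuallyEq ?_
    filter_upwards [Iio_mem_nhds h] with y hy
    rw [if_pos (le_of_lt hy)]
  · exact absurd h ht
  · rw [if_neg (not_le.2 h)]
    refine (hg t).congr_of_eventuallyEq ?_
    filter_upwards [Ioi_mem_nhds h] with y hy
    rw [if_neg (not_le.2 hy)]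

/-! ### Laplacians -/

theorem kiia_bump (ε τ t : ℝ) : bump (1 / 2) ε τ t =
    (16 * π)⁻¹ * (ε * (cosh (τ / 2) + cos (t / 2))) /
      (cosh (τ / 2) - cos (t / 2) + ε) ^ 2 := by
  unfold bump
  rw [show (1 / 2 : ℝ) * τ = τ / 2 by ring, show (1 / 2 : ℝ) * t = t / 2 by ring]
  have hπ : (π : ℝ) ≠ 0 := pi_ne_zero
  congr 1
  field_simp
  ring

theorem kiia_lapV {ε : ℝ} (hε : 0 < ε) (τ t : ℝ) :
    gVss ε τ t + gVtt ε τ t = bump (1 / 2) ε τ t + rV ε τ t := by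
  rw [kiia_bump]
  unfold gVss gVtt rV
  have p1 := (kiia_p1 hε τ t).ne'
  have p2 := (kiia_p2 hε τ t).ne'
  have h1 : sinh (τ / 2) ^ 2 = cosh (τ / 2) ^ 2 - 1 := by
    have := cosh_sq (τ / 2)
    linarith
  have h2 : sin (t / 2) ^ 2 = 1 - cos (t / 2) ^ 2 := by
    have := sin_sq_add_cos_sq (t / 2)
    linarith
  rw [h1, h2]
  generalize cosh (τ / 2) = C at *
  generalize cos (t / 2) = c at *
  generalize exp (-τ / 2) = E
  have hπ : (π : ℝ) ≠ 0 := pi_ne_zero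
  field_simp
  ring

theorem kiia_lapH {ε : ℝ} (hε : 0 < ε) (τ t : ℝ) :
    gHss ε τ t + gHtt ε τ t = bump (1 / 2) ε τ t + rH ε τ t := by
  rw [kiia_bump]
  unfold gHss gHtt rH
  have p1 := (kiia_p1 hε τ t).ne'
  have p3 := (kiia_p3 hε τ t).ne'
  have p4 := (kiia_p4 hε.le τ).ne'
  have h1 : sinh (τ / 2) ^ 2 = cosh (τ / 2) ^ 2 - 1 := by
    have := cosh_sq (τ / 2)
    linarith
  have h2 : sin (t / 2) ^ 2 = 1 - cos (t / 2) ^ 2 := by
    have := sin_sq_add_cos_sq (t / 2)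
    linarith
  have hπ : (π : ℝ) ≠ 0 := pi_ne_zero
  -- the three logarithms separately
  have e1 : cosh (τ / 2) / 4 / (cosh (τ / 2) - cos (t / 2) + ε)
      - sinh (τ / 2) ^ 2 / 4 / (cosh (τ / 2) - cos (t / 2) + ε) ^ 2
      + cos (t / 2) / 4 / (cosh (τ / 2) - cos (t / 2) + ε)
      - sin (t / 2) ^ 2 / 4 / (cosh (τ / 2) - cos (t / 2) + ε) ^ 2 =
      ε * (cosh (τ / 2) + cos (t / 2)) / 4 / (cosh (τ / 2) - cos (t / 2) + ε) ^ 2 := by
    rw [h1, h2]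
    field_simp
    ring
  have e2 : cosh (τ / 2) / 4 / (cosh (τ / 2) + sin (t / 2) + ε)
      - sinh (τ / 2) ^ 2 / 4 / (cosh (τ / 2) + sin (t / 2) + ε) ^ 2
      - sin (t / 2) / 4 / (cosh (τ / 2) + sin (t / 2) + ε)
      - cos (t / 2) ^ 2 / 4 / (cosh (τ / 2) + sin (t / 2) + ε) ^ 2 =
      ε * (cosh (τ / 2) - sin (t / 2)) / 4 / (cosh (τ / 2) + sin (t / 2) + ε) ^ 2 := by
    have h3 : cos (t / 2) ^ 2 = 1 - sin (t / 2) ^ 2 := by linarith
    rw [h1, h3]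
    field_simp
    ring
  have e3 : cosh (τ / 2) / 2 / (cosh (τ / 2) + q2 + ε)
      - sinh (τ / 2) ^ 2 / 2 / (cosh (τ / 2) + q2 + ε) ^ 2 =
      (1 + (q2 + ε) * cosh (τ / 2)) / 2 / (cosh (τ / 2) + q2 + ε) ^ 2 := by
    rw [h1]
    field_simp
    ring
  have e4 : (4 * π)⁻¹ * (cosh (τ / 2) / 4 / (cosh (τ / 2) - cos (t / 2) + ε)
    - sinh (τ / 2) ^ 2 / 4 / (cosh (τ / 2) - cos (t / 2) + ε) ^ 2
    + cosh (τ / 2) / 4 / (cosh (τ / 2) + sin (t / 2) + ε)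
    - sinh (τ / 2) ^ 2 / 4 / (cosh (τ / 2) + sin (t / 2) + ε) ^ 2
    - cosh (τ / 2) / 2 / (cosh (τ / 2) + q2 + ε)
    + sinh (τ / 2) ^ 2 / 2 / (cosh (τ / 2) + q2 + ε) ^ 2
    + exp (-τ / 2) / 2 * (√2 - sin (t / 2) + cos (t / 2))) +
    (4 * π)⁻¹ * (cos (t / 2) / 4 / (cosh (τ / 2) - cos (t / 2) + ε)
    - sin (t / 2) ^ 2 / 4 / (cosh (τ / 2) - cos (t / 2) + ε) ^ 2
    - sin (t / 2) / 4 / (cosh (τ / 2) + sin (t / 2) + ε)
    - cos (t / 2) ^ 2 / 4 / (cosh (τ / 2) + sin (t / 2) + ε) ^ 2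
    - exp (-τ / 2) / 2 * (cos (t / 2) - sin (t / 2))) =
    (4 * π)⁻¹ * (ε * (cosh (τ / 2) + cos (t / 2)) / 4 / (cosh (τ / 2) - cos (t / 2) + ε) ^ 2
      + ε * (cosh (τ / 2) - sin (t / 2)) / 4 / (cosh (τ / 2) + sin (t / 2) + ε) ^ 2
      - (1 + (q2 + ε) * cosh (τ / 2)) / 2 / (cosh (τ / 2) + q2 + ε) ^ 2
      + exp (-τ / 2) / 2 * √2) := by
    rw [← e1, ← e2, ← e3]
    ring
  rw [e4]
  have i1 : (16 * π)⁻¹ = (4 * π)⁻¹ / 4 := by
    field_simp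
    norm_num
  have i2 : (8 * π)⁻¹ = (4 * π)⁻¹ / 2 := by
    field_simp
    norm_num
  rw [i1, i2]
  ring

/-! ### limits -/

theorem kiia_log {A ε m : ℝ} (hm : 0 < m) (hA : m ≤ A) (hε : 0 ≤ ε) :
    |log (A + ε) - log A| ≤ ε / m := by
  have hA0 : 0 < A := hm.trans_le hA
  have h1 : log A ≤ log (A + ε) := log_le_log hA0 (by linarith)
  rw [abs_of_nonneg (by linarith), ← log_div (by positivity) hA0.ne']
  have h2 := log_le_sub_one_of_pos (show 0 < (A + ε) / A by positivity)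
  refine h2.trans ?_
  have h3 : (A + ε) / A - 1 = ε / A := by
    field_simp
    ring
  rw [h3]
  exact div_le_div_of_nonneg_left hε hm hA

theorem kiia_inv {A ε m : ℝ} (hm : 0 < m) (hA : m ≤ A) (hε : 0 ≤ ε) :
    |1 / (A + ε) - 1 / A| ≤ ε / m ^ 2 := by
  have hA0 : 0 < A := hm.trans_le hA
  have h1 : 1 / (A + ε) - 1 / A = -(ε / (A * (A + ε))) := by
    field_simp
    ring
  rw [h1, abs_neg, abs_of_nonneg (by positivity)]
  apply div_le_div_of_nonneg_left hε (by positivity)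
  nlinarith

theorem kiia_cosh_le {R τ : ℝ} (hτ : τ ∈ Icc (-R) R) : cosh (τ / 2) ≤ cosh (R / 2) := by
  rw [cosh_le_cosh, abs_div, abs_div]
  have h1 : |τ| ≤ R := abs_le.2 hτ
  have h2 : R ≤ |R| := le_abs_self R
  exact div_le_div_of_nonneg_right (h1.trans h2) (abs_nonneg _)

theorem kiia_cosh_ge {τ : ℝ} (hτ : 1 ≤ |τ|) : cosh (1 / 2) ≤ cosh (τ / 2) := by
  rw [cosh_le_cosh, abs_div, abs_div]
  simp only [abs_one]
  exact div_le_div_of_nonneg_right hτ (abs_nonneg _)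

theorem kiia_m : 0 < cosh (1 / 2) - 1 := by
  have : 1 < cosh (1 / 2) := one_lt_cosh.2 (by norm_num)
  linarith

theorem kiia_sinh_le {R τ : ℝ} (hτ : τ ∈ Icc (-R) R) : |sinh (τ / 2)| ≤ cosh (R / 2) := by
  have h1 := kiia_cosh_le hτ
  have h2 := cosh_sq (τ / 2)
  have h3 : |sinh (τ / 2)| ^ 2 ≤ cosh (τ / 2) ^ 2 := by
    rw [sq_abs]
    linarith
  exact (pow_le_pow_iff_left₀ (abs_nonneg _) (cosh_pos _).le two_ne_zero).1 h3 |>.trans h1

theorem kiia_4pi : (4 * π)⁻¹ ≤ 1 ∧ 0 < (4 * π)⁻¹ := by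
  have h := pi_gt_three
  refine ⟨inv_le_one_of_one_le₀ (by linarith), by positivity⟩

theorem kiia_8pi : (8 * π)⁻¹ ≤ 1 ∧ 0 < (8 * π)⁻¹ := by
  have h := pi_gt_three
  refine ⟨inv_le_one_of_one_le₀ (by linarith), by positivity⟩

theorem kiia_16pi : (16 * π)⁻¹ ≤ 1 ∧ 0 < (16 * π)⁻¹ := by
  have h := pi_gt_three
  refine ⟨inv_le_one_of_one_le₀ (by linarith), by positivity⟩

/-- positions of the arguments of the logarithms for `1 ≤ |τ|` -/
theorem kiia_args {τ : ℝ} (hτ : 1 ≤ |τ|) (t : ℝ) :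
    cosh (1 / 2) - 1 ≤ cosh (τ / 2) - cos (t / 2) ∧
      cosh (1 / 2) - 1 ≤ cosh (τ / 2) + cos (t / 2) ∧
      cosh (1 / 2) - 1 ≤ cosh (τ / 2) + sin (t / 2) ∧
      cosh (1 / 2) - 1 ≤ cosh (τ / 2) + q2 := by
  have h1 := kiia_cosh_ge hτ
  have h2 := cos_le_one (t / 2)
  have h3 := neg_one_le_cos (t / 2)
  have h4 := neg_one_le_sin (t / 2)
  have h5 := kiia_q2pos
  refine ⟨by linarith, by linarith, by linarith, by linarith⟩

theorem kiia_glV {ε τ : ℝ} (hε : 0 ≤ ε) (hτ : 1 ≤ |τ|) (t : ℝ) :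
    |gV ε τ t - gV 0 τ t| ≤ 4 / (cosh (1 / 2) - 1) * ε := by
  obtain ⟨a1, a2, -, -⟩ := kiia_args hτ t
  have l1 := kiia_log kiia_m a1 hε
  have l2 := kiia_log kiia_m a2 hε
  obtain ⟨k1, k2⟩ := kiia_4pi
  have hm := kiia_m
  have e : gV ε τ t - gV 0 τ t = (4 * π)⁻¹ *
      ((log (cosh (τ / 2) - cos (t / 2) + ε) - log (cosh (τ / 2) - cos (t / 2))) -
        (log (cosh (τ / 2) + cos (t / 2) + ε) - log (cosh (τ / 2) + cos (t / 2)))) := by
    unfold gV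
    rw [add_zero, add_zero]
    ring
  rw [e, abs_mul, abs_of_pos k2]
  have h1 : |(log (cosh (τ / 2) - cos (t / 2) + ε) - log (cosh (τ / 2) - cos (t / 2))) -
        (log (cosh (τ / 2) + cos (t / 2) + ε) - log (cosh (τ / 2) + cos (t / 2)))| ≤
      ε / (cosh (1 / 2) - 1) + ε / (cosh (1 / 2) - 1) :=
    (abs_sub _ _).trans (add_le_add l1 l2)
  have h2 : 0 ≤ ε / (cosh (1 / 2) - 1) := by positivity
  calc _ ≤ 1 * (ε / (cosh (1 / 2) - 1) + ε / (cosh (1 / 2) - 1)) :=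
        mul_le_mul k1 h1 (abs_nonneg _) (by norm_num)
    _ ≤ 4 * (ε / (cosh (1 / 2) - 1)) := by linarith
    _ = _ := by ring

theorem kiia_glH {ε τ : ℝ} (hε : 0 ≤ ε) (hτ : 1 ≤ |τ|) (t : ℝ) :
    |gH ε τ t - gH 0 τ t| ≤ 4 / (cosh (1 / 2) - 1) * ε := by
  obtain ⟨a1, -, a3, a4⟩ := kiia_args hτ t
  have l1 := kiia_log kiia_m a1 hε
  have l3 := kiia_log kiia_m a3 hε
  have l4 := kiia_log kiia_m a4 hε
  obtain ⟨k1, k2⟩ := kiia_4pi
  have hm := kiia_m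
  have e : gH ε τ t - gH 0 τ t = (4 * π)⁻¹ *
      ((log (cosh (τ / 2) - cos (t / 2) + ε) - log (cosh (τ / 2) - cos (t / 2))) +
        (log (cosh (τ / 2) + sin (t / 2) + ε) - log (cosh (τ / 2) + sin (t / 2))) -
        2 * (log (cosh (τ / 2) + q2 + ε) - log (cosh (τ / 2) + q2))) := by
    unfold gH
    rw [add_zero, add_zero, add_zero]
    ring
  rw [e, abs_mul, abs_of_pos k2]
  have h2 : 0 ≤ ε / (cosh (1 / 2) - 1) := by positivity
  have h1 : |(log (cosh (τ / 2) - cos (t / 2) + ε) - log (cosh (τ / 2) - cos (t / 2))) +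
        (log (cosh (τ / 2) + sin (t / 2) + ε) - log (cosh (τ / 2) + sin (t / 2))) -
        2 * (log (cosh (τ / 2) + q2 + ε) - log (cosh (τ / 2) + q2))| ≤
      4 * (ε / (cosh (1 / 2) - 1)) := by
    rw [abs_le] at l1 l3 l4 ⊢
    constructor <;> linarith
  calc _ ≤ 1 * (4 * (ε / (cosh (1 / 2) - 1))) :=
        mul_le_mul k1 h1 (abs_nonneg _) (by norm_num)
    _ = _ := by ring

theorem kiia_gslV {R ε τ : ℝ} (hε : 0 ≤ ε) (hR : τ ∈ Icc (-R) R) (hτ : 1 ≤ |τ|) (t : ℝ) :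
    |gVs ε τ t - gVs 0 τ t| ≤ 2 * cosh (R / 2) / (cosh (1 / 2) - 1) ^ 2 * ε := by
  obtain ⟨a1, a2, -, -⟩ := kiia_args hτ t
  have l1 := kiia_inv kiia_m a1 hε
  have l2 := kiia_inv kiia_m a2 hε
  obtain ⟨k1, k2⟩ := kiia_4pi
  have hm := kiia_m
  have hs := kiia_sinh_le hR
  have hM := cosh_pos (R / 2)
  have e : gVs ε τ t - gVs 0 τ t = (4 * π)⁻¹ *
      (sinh (τ / 2) / 2 * (1 / (cosh (τ / 2) - cos (t / 2) + ε) -
        1 / (cosh (τ / 2) - cos (t / 2))) -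
      sinh (τ / 2) / 2 * (1 / (cosh (τ / 2) + cos (t / 2) + ε) -
        1 / (cosh (τ / 2) + cos (t / 2)))) := by
    unfold gVs
    rw [add_zero, add_zero]
    ring
  rw [e, abs_mul, abs_of_pos k2]
  have h2 : 0 ≤ ε / (cosh (1 / 2) - 1) ^ 2 := by positivity
  have hb : ∀ z, |z| ≤ ε / (cosh (1 / 2) - 1) ^ 2 →
      |sinh (τ / 2) / 2 * z| ≤ cosh (R / 2) * (ε / (cosh (1 / 2) - 1) ^ 2) := by
    intro z hz
    rw [abs_mul, abs_div]
    have : |sinh (τ / 2)| / |2| ≤ cosh (R / 2) := by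
      rw [abs_of_pos (by norm_num : (0 : ℝ) < 2)]
      have := abs_nonneg (sinh (τ / 2))
      linarith
    exact mul_le_mul this hz (abs_nonneg _) hM.le
  have h1 := (abs_sub (sinh (τ / 2) / 2 * (1 / (cosh (τ / 2) - cos (t / 2) + ε) -
        1 / (cosh (τ / 2) - cos (t / 2)))) (sinh (τ / 2) / 2 *
        (1 / (cosh (τ / 2) + cos (t / 2) + ε) - 1 / (cosh (τ / 2) + cos (t / 2))))).trans
    (add_le_add (hb _ l1) (hb _ l2))
  calc _ ≤ 1 * (cosh (R / 2) * (ε / (cosh (1 / 2) - 1) ^ 2) +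
        cosh (R / 2) * (ε / (cosh (1 / 2) - 1) ^ 2)) :=
        mul_le_mul k1 h1 (abs_nonneg _) (by norm_num)
    _ = _ := by ring

theorem kiia_gslH {R ε τ : ℝ} (hε : 0 ≤ ε) (hR : τ ∈ Icc (-R) R) (hτ : 1 ≤ |τ|) (t : ℝ) :
    |gHs ε τ t - gHs 0 τ t| ≤ 2 * cosh (R / 2) / (cosh (1 / 2) - 1) ^ 2 * ε := by
  obtain ⟨a1, -, a3, a4⟩ := kiia_args hτ t
  have l1 := kiia_inv kiia_m a1 hε
  have l3 := kiia_inv kiia_m a3 hε
  have l4 := kiia_inv kiia_m a4 hε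
  obtain ⟨k1, k2⟩ := kiia_4pi
  have hm := kiia_m
  have hs := kiia_sinh_le hR
  have hM := cosh_pos (R / 2)
  have e : gHs ε τ t - gHs 0 τ t = (4 * π)⁻¹ *
      (sinh (τ / 2) / 2 * (1 / (cosh (τ / 2) - cos (t / 2) + ε) -
        1 / (cosh (τ / 2) - cos (t / 2))) +
      sinh (τ / 2) / 2 * (1 / (cosh (τ / 2) + sin (t / 2) + ε) -
        1 / (cosh (τ / 2) + sin (t / 2))) -
      2 * (sinh (τ / 2) / 2 * (1 / (cosh (τ / 2) + q2 + ε) - 1 / (cosh (τ / 2) + q2)))) := by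
    unfold gHs
    rw [add_zero, add_zero, add_zero]
    ring
  rw [e, abs_mul, abs_of_pos k2]
  have h2 : 0 ≤ ε / (cosh (1 / 2) - 1) ^ 2 := by positivity
  have hb : ∀ z, |z| ≤ ε / (cosh (1 / 2) - 1) ^ 2 →
      |sinh (τ / 2) / 2 * z| ≤ cosh (R / 2) * (ε / (cosh (1 / 2) - 1) ^ 2) / 2 := by
    intro z hz
    rw [abs_mul, abs_div]
    have h3 : |sinh (τ / 2)| / |2| ≤ cosh (R / 2) / 2 := by
      rw [abs_of_pos (by norm_num : (0 : ℝ) < 2)]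
      linarith
    have h4 := mul_le_mul h3 hz (abs_nonneg _) (by positivity)
    refine h4.trans (le_of_eq ?_)
    ring
  have b1 := hb _ l1
  have b3 := hb _ l3
  have b4 := hb _ l4
  have h1 : |sinh (τ / 2) / 2 * (1 / (cosh (τ / 2) - cos (t / 2) + ε) -
        1 / (cosh (τ / 2) - cos (t / 2))) +
      sinh (τ / 2) / 2 * (1 / (cosh (τ / 2) + sin (t / 2) + ε) -
        1 / (cosh (τ / 2) + sin (t / 2))) -
      2 * (sinh (τ / 2) / 2 * (1 / (cosh (τ / 2) + q2 + ε) - 1 / (cosh (τ / 2) + q2)))| ≤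
      2 * (cosh (R / 2) * (ε / (cosh (1 / 2) - 1) ^ 2)) := by
    rw [abs_le] at b1 b3 b4 ⊢
    constructor <;> linarith
  calc _ ≤ 1 * (2 * (cosh (R / 2) * (ε / (cosh (1 / 2) - 1) ^ 2))) :=
        mul_le_mul k1 h1 (abs_nonneg _) (by norm_num)
    _ = _ := by ring

theorem kiia_rvl {R ε τ t : ℝ} (hε : 0 < ε) (hR : τ ∈ Icc (-R) R) (ht : t ∈ Icc 0 (π / 2)) :
    |rV ε τ t - 0| ≤ cosh (R / 2) * ε := by
  obtain ⟨k1, k2⟩ := kiia_16pi
  have hc : 0 ≤ cos (t / 2) := by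
    apply cos_nonneg_of_mem_Icc
    have := pi_pos
    exact ⟨by linarith [ht.1], by linarith [ht.2]⟩
  have hc1 := cos_le_one (t / 2)
  have hC := one_le_cosh (τ / 2)
  have hCM := kiia_cosh_le hR
  have hd : 1 ≤ (cosh (τ / 2) + cos (t / 2) + ε) ^ 2 := by nlinarith
  have e : rV ε τ t - 0 = -((16 * π)⁻¹ * (ε * (cosh (τ / 2) - cos (t / 2)) /
      (cosh (τ / 2) + cos (t / 2) + ε) ^ 2)) := by
    unfold rV
    ring
  have h0 : 0 ≤ ε * (cosh (τ / 2) - cos (t / 2)) := mul_nonneg hε.le (by linarith)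
  rw [e, abs_neg, abs_mul, abs_of_pos k2, abs_of_nonneg (by positivity)]
  have h1 : ε * (cosh (τ / 2) - cos (t / 2)) / (cosh (τ / 2) + cos (t / 2) + ε) ^ 2 ≤
      ε * (cosh (τ / 2) - cos (t / 2)) := div_le_self h0 hd
  have h2 : ε * (cosh (τ / 2) - cos (t / 2)) ≤ cosh (R / 2) * ε := by nlinarith
  calc _ ≤ 1 * (cosh (R / 2) * ε) :=
        mul_le_mul k1 (h1.trans h2) (by positivity) (by norm_num)
    _ = _ := one_mul _

theorem kiia_frac {ε C q M : ℝ} (hε : 0 < ε) (hε1 : ε ≤ 1) (hC : 1 ≤ C) (hCM : C ≤ M)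
    (hq : 0 < q) (hq1 : q ≤ 1) :
    |(1 + (q + ε) * C) / (C + q + ε) ^ 2 - (1 + q * C) / (C + q) ^ 2| ≤
      (M * (M + 1) ^ 2 + (1 + M) * (2 * M + 3)) * ε := by
  have hD : 1 ≤ C + q := by linarith
  have e : (1 + (q + ε) * C) / (C + q + ε) ^ 2 - (1 + q * C) / (C + q) ^ 2 =
      ε * (C * (C + q) ^ 2 - (1 + q * C) * (2 * (C + q) + ε)) /
        ((C + q + ε) ^ 2 * (C + q) ^ 2) := by
    have h1 : C + q ≠ 0 := by positivity
    have h2 : C + q + ε ≠ 0 := by positivity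
    field_simp
    ring
  rw [e, abs_div, abs_mul, abs_of_pos hε]
  have hden : 1 ≤ |(C + q + ε) ^ 2 * (C + q) ^ 2| := by
    rw [abs_of_nonneg (by positivity)]
    have h1 : 1 ≤ (C + q + ε) ^ 2 := by nlinarith
    have h2 : 1 ≤ (C + q) ^ 2 := by nlinarith
    nlinarith
  have hM1 : 1 ≤ M := hC.trans hCM
  have b1 : C * (C + q) ^ 2 ≤ M * (M + 1) ^ 2 := by
    apply mul_le_mul hCM _ (by positivity) (by linarith)
    apply pow_le_pow_left₀ (by linarith)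
    linarith
  have b2 : (1 + q * C) * (2 * (C + q) + ε) ≤ (1 + M) * (2 * M + 3) := by
    have h3 : q * C ≤ M := by nlinarith
    apply mul_le_mul (by linarith) (by linarith) (by positivity) (by linarith)
  have b3 : 0 ≤ C * (C + q) ^ 2 := by positivity
  have b4 : 0 ≤ (1 + q * C) * (2 * (C + q) + ε) := by positivity
  have hnum : |C * (C + q) ^ 2 - (1 + q * C) * (2 * (C + q) + ε)| ≤
      M * (M + 1) ^ 2 + (1 + M) * (2 * M + 3) := by
    rw [abs_le]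
    constructor <;> linarith
  calc _ ≤ ε * |C * (C + q) ^ 2 - (1 + q * C) * (2 * (C + q) + ε)| :=
        div_le_self (by positivity) hden
    _ ≤ ε * (M * (M + 1) ^ 2 + (1 + M) * (2 * M + 3)) :=
        mul_le_mul_of_nonneg_left hnum hε.le
    _ = _ := mul_comm _ _

theorem kiia_rhl {R ε τ t : ℝ} (hε : 0 < ε) (hε1 : ε ≤ 1) (hR : τ ∈ Icc (-R) R)
    (ht : t ∈ Icc (π / 2) (3 * π / 2)) :
    |rH ε τ t - kH τ| ≤ (cosh (R / 2) + (cosh (R / 2) * (cosh (R / 2) + 1) ^ 2 +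
      (1 + cosh (R / 2)) * (2 * cosh (R / 2) + 3))) * ε := by
  obtain ⟨k1, k2⟩ := kiia_16pi
  obtain ⟨k3, k4⟩ := kiia_8pi
  have hs : 0 ≤ sin (t / 2) := by
    apply sin_nonneg_of_nonneg_of_le_pi
    · have := pi_pos
      linarith [ht.1]
    · linarith [ht.2, pi_pos]
  have hs1 := sin_le_one (t / 2)
  have hC := one_le_cosh (τ / 2)
  have hCM := kiia_cosh_le hR
  have hq := kiia_q2pos
  have hq1 : q2 ≤ 1 := by
    have := kiia_q2sq
    nlinarith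
  have hd : 1 ≤ (cosh (τ / 2) + sin (t / 2) + ε) ^ 2 := by nlinarith
  have hf := kiia_frac hε hε1 hC hCM hq hq1
  have e : rH ε τ t - kH τ = (16 * π)⁻¹ * (ε * (cosh (τ / 2) - sin (t / 2)) /
      (cosh (τ / 2) + sin (t / 2) + ε) ^ 2) - (8 * π)⁻¹ *
      ((1 + (q2 + ε) * cosh (τ / 2)) / (cosh (τ / 2) + q2 + ε) ^ 2 -
        (1 + q2 * cosh (τ / 2)) / (cosh (τ / 2) + q2) ^ 2) := by
    unfold rH kH
    ring
  rw [e]
  have h0 : 0 ≤ ε * (cosh (τ / 2) - sin (t / 2)) := mul_nonneg hε.le (by linarith)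
  have h1 : |(16 * π)⁻¹ * (ε * (cosh (τ / 2) - sin (t / 2)) /
      (cosh (τ / 2) + sin (t / 2) + ε) ^ 2)| ≤ cosh (R / 2) * ε := by
    rw [abs_mul, abs_of_pos k2, abs_of_nonneg (by positivity)]
    have h1 : ε * (cosh (τ / 2) - sin (t / 2)) / (cosh (τ / 2) + sin (t / 2) + ε) ^ 2 ≤
        ε * (cosh (τ / 2) - sin (t / 2)) := div_le_self h0 hd
    have h2 : ε * (cosh (τ / 2) - sin (t / 2)) ≤ cosh (R / 2) * ε := by nlinarith
    calc _ ≤ 1 * (cosh (R / 2) * ε) :=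
          mul_le_mul k1 (h1.trans h2) (by positivity) (by norm_num)
      _ = _ := one_mul _
  have h2 : |(8 * π)⁻¹ * ((1 + (q2 + ε) * cosh (τ / 2)) / (cosh (τ / 2) + q2 + ε) ^ 2 -
        (1 + q2 * cosh (τ / 2)) / (cosh (τ / 2) + q2) ^ 2)| ≤
      (cosh (R / 2) * (cosh (R / 2) + 1) ^ 2 +
      (1 + cosh (R / 2)) * (2 * cosh (R / 2) + 3)) * ε := by
    rw [abs_mul, abs_of_pos k4]
    calc _ ≤ 1 * ((cosh (R / 2) * (cosh (R / 2) + 1) ^ 2 +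
          (1 + cosh (R / 2)) * (2 * cosh (R / 2) + 3)) * ε) :=
          mul_le_mul k3 hf (abs_nonneg _) (by norm_num)
      _ = _ := one_mul _
  refine (abs_sub _ _).trans ((add_le_add h1 h2).trans (le_of_eq ?_))
  ring

theorem kiia_onV : ContinuousOn (fun p : ℝ × ℝ => gV 0 p.1 p.2)
    ({τ | 1 ≤ |τ|} ×ˢ Icc 0 (3 * π / 2)) := by
  have p1 : ∀ p ∈ ({τ | 1 ≤ |τ|} ×ˢ Icc 0 (3 * π / 2) : Set (ℝ × ℝ)),
      cosh (p.1 / 2) - cos (p.2 / 2) + 0 ≠ 0 := fun p hp => by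
    have := (kiia_args hp.1 p.2).1
    have := kiia_m
    have : 0 < cosh (p.1 / 2) - cos (p.2 / 2) + 0 := by linarith
    exact this.ne'
  have p2 : ∀ p ∈ ({τ | 1 ≤ |τ|} ×ˢ Icc 0 (3 * π / 2) : Set (ℝ × ℝ)),
      cosh (p.1 / 2) + cos (p.2 / 2) + 0 ≠ 0 := fun p hp => by
    have := (kiia_args hp.1 p.2).2.1
    have := kiia_m
    have : 0 < cosh (p.1 / 2) + cos (p.2 / 2) + 0 := by linarith
    exact this.ne'
  unfold gV
  fun_prop (disch := assumption)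

theorem kiia_onVs : ContinuousOn (fun p : ℝ × ℝ => gVs 0 p.1 p.2)
    ({τ | 1 ≤ |τ|} ×ˢ Icc 0 (3 * π / 2)) := by
  have p1 : ∀ p ∈ ({τ | 1 ≤ |τ|} ×ˢ Icc 0 (3 * π / 2) : Set (ℝ × ℝ)),
      cosh (p.1 / 2) - cos (p.2 / 2) + 0 ≠ 0 := fun p hp => by
    have := (kiia_args hp.1 p.2).1
    have := kiia_m
    have : 0 < cosh (p.1 / 2) - cos (p.2 / 2) + 0 := by linarith
    exact this.ne'
  have p2 : ∀ p ∈ ({τ | 1 ≤ |τ|} ×ˢ Icc 0 (3 * π / 2) : Set (ℝ × ℝ)),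
      cosh (p.1 / 2) + cos (p.2 / 2) + 0 ≠ 0 := fun p hp => by
    have := (kiia_args hp.1 p.2).2.1
    have := kiia_m
    have : 0 < cosh (p.1 / 2) + cos (p.2 / 2) + 0 := by linarith
    exact this.ne'
  unfold gVs
  fun_prop (disch := assumption)

theorem kiia_onH : ContinuousOn (fun p : ℝ × ℝ => gH 0 p.1 p.2)
    ({τ | 1 ≤ |τ|} ×ˢ Icc 0 (3 * π / 2)) := by
  have p1 : ∀ p ∈ ({τ | 1 ≤ |τ|} ×ˢ Icc 0 (3 * π / 2) : Set (ℝ × ℝ)),
      cosh (p.1 / 2) - cos (p.2 / 2) + 0 ≠ 0 := fun p hp => by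
    have := (kiia_args hp.1 p.2).1
    have := kiia_m
    have : 0 < cosh (p.1 / 2) - cos (p.2 / 2) + 0 := by linarith
    exact this.ne'
  have p3 : ∀ p ∈ ({τ | 1 ≤ |τ|} ×ˢ Icc 0 (3 * π / 2) : Set (ℝ × ℝ)),
      cosh (p.1 / 2) + sin (p.2 / 2) + 0 ≠ 0 := fun p hp => by
    have := (kiia_args hp.1 p.2).2.2.1
    have := kiia_m
    have : 0 < cosh (p.1 / 2) + sin (p.2 / 2) + 0 := by linarith
    exact this.ne'
  have p4 : ∀ p ∈ ({τ | 1 ≤ |τ|} ×ˢ Icc 0 (3 * π / 2) : Set (ℝ × ℝ)),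
      cosh (p.1 / 2) + q2 + 0 ≠ 0 := fun p hp => (kiia_p4 le_rfl p.1).ne'
  unfold gH
  fun_prop (disch := assumption)

theorem kiia_onHs : ContinuousOn (fun p : ℝ × ℝ => gHs 0 p.1 p.2)
    ({τ | 1 ≤ |τ|} ×ˢ Icc 0 (3 * π / 2)) := by
  have p1 : ∀ p ∈ ({τ | 1 ≤ |τ|} ×ˢ Icc 0 (3 * π / 2) : Set (ℝ × ℝ)),
      cosh (p.1 / 2) - cos (p.2 / 2) + 0 ≠ 0 := fun p hp => by
    have := (kiia_args hp.1 p.2).1
    have := kiia_m
    have : 0 < cosh (p.1 / 2) - cos (p.2 / 2) + 0 := by linarith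
    exact this.ne'
  have p3 : ∀ p ∈ ({τ | 1 ≤ |τ|} ×ˢ Icc 0 (3 * π / 2) : Set (ℝ × ℝ)),
      cosh (p.1 / 2) + sin (p.2 / 2) + 0 ≠ 0 := fun p hp => by
    have := (kiia_args hp.1 p.2).2.2.1
    have := kiia_m
    have : 0 < cosh (p.1 / 2) + sin (p.2 / 2) + 0 := by linarith
    exact this.ne'
  have p4 : ∀ p ∈ ({τ | 1 ≤ |τ|} ×ˢ Icc 0 (3 * π / 2) : Set (ℝ × ℝ)),
      cosh (p.1 / 2) + q2 + 0 ≠ 0 := fun p hp => (kiia_p4 le_rfl p.1).ne'
  unfold gHs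
  fun_prop (disch := assumption)

theorem kiia_kH : Continuous kH := by
  have p4 : ∀ τ : ℝ, (cosh (τ / 2) + q2) ^ 2 ≠ 0 := fun τ => by
    have := kiia_p4 le_rfl τ
    rw [add_zero] at this
    exact pow_ne_zero 2 this.ne'
  unfold kH
  fun_prop (disch := assumption)

theorem kerII (R : ℝ) (hR : 2 ≤ R) :
    ∃ K0, Ker R (3 * π / 2) (1 / 2) (π / 2) K0 gII gIIs gIIss gIIt gIItt rV rH
      (fun _ => 0) kH (gII 0) (gIIs 0) := by
  have hπ := pi_pos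
  have hm := kiia_m
  have hM := one_le_cosh (R / 2)
  set m := cosh (1 / 2) - 1 with hmdef
  set M := cosh (R / 2) with hMdef
  have n1 : 0 ≤ 4 / m := by positivity
  have n2 : 0 ≤ 2 * M / m ^ 2 := by positivity
  have n3 : 0 ≤ M * (M + 1) ^ 2 + (1 + M) * (2 * M + 3) := by positivity
  refine ⟨4 / m + 2 * M / m ^ 2 + M + (M * (M + 1) ^ 2 + (1 + M) * (2 * M + 3)), ?_⟩
  refine
    { hR := hR
      hx0 := by positivity
      hxb := by linarith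
      ha := by norm_num
      hab := by linarith
      hK := by positivity
      d1 := ?_
      d2 := ?_
      d3 := ?_
      d4 := ?_
      c1 := ?_
      c2 := ?_
      c3 := ?_
      c4 := ?_
      c5 := fun ε hε => (kiia_crV hε.1).continuousOn
      c6 := fun ε hε => (kiia_crH hε.1).continuousOn
      e0 := ?_
      e1 := ?_
      e2 := ?_
      lapv := ?_
      laph := ?_
      rvl := ?_
      rhl := ?_
      kvc := continuous_const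
      khc := kiia_kH
      gl := ?_
      gsl := ?_
      g0c := ?_
      gs0c := ?_ }
  · intro ε hε τ t _
    by_cases ht : t ≤ π / 2
    · simp only [gII, gIIs, if_pos ht]
      exact kiia_V1 hε.1 τ t
    · simp only [gII, gIIs, if_neg ht]
      exact kiia_H1 hε.1 τ t
  · intro ε hε τ t _
    by_cases ht : t ≤ π / 2
    · simp only [gIIs, gIIss, if_pos ht]
      exact kiia_V2 hε.1 τ t
    · simp only [gIIs, gIIss, if_neg ht]
      exact kiia_H2 hε.1 τ t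
  · intro ε hε τ t _
    exact kiia_gd (kiia_V3 hε.1 τ) (kiia_H3 hε.1 τ) (kiia_m0 ε τ) (kiia_m3 ε τ) t
  · intro ε hε τ t _ hne
    exact kiia_gd' (kiia_V4 hε.1 τ) (kiia_H4 hε.1 τ) t hne
  · intro ε hε
    exact (kiia_glue (kiia_cV hε.1) (kiia_cH hε.1) (kiia_m0 ε)).continuousOn
  · intro ε hε
    exact (kiia_glue (kiia_cVs hε.1) (kiia_cHs hε.1) (kiia_m1 ε)).continuousOn
  · intro ε hε
    exact (kiia_glue (kiia_cVss hε.1) (kiia_cHss hε.1) (kiia_m2 ε)).continuousOn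
  · intro ε hε
    exact (kiia_glue (kiia_cVt hε.1) (kiia_cHt hε.1) (kiia_m3 ε)).continuousOn
  · intro ε hε τ
    have h0 : (0 : ℝ) ≤ π / 2 := by positivity
    simp only [gIIt, if_pos h0, gVt]
    simp
  · intro ε hε τ
    have h0 : ¬ (3 * π / 2 ≤ π / 2) := by linarith
    simp only [gIIt, if_neg h0, gHt]
    rw [kiia_cos3, kiia_sin3]
    have e : cosh (τ / 2) - -q2 + ε = cosh (τ / 2) + q2 + ε := by ring
    rw [e]
    ring
  · intro ε hε τ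
    have h0 : ¬ (3 * π / 2 ≤ π / 2) := by linarith
    simp only [gII, if_neg h0, gH]
    rw [kiia_cos3, kiia_sin3, kiia_q2]
    have e : cosh (τ / 2) - -q2 + ε = cosh (τ / 2) + q2 + ε := by ring
    rw [e]
    ring
  · intro ε hε τ t ht
    have h0 : t ≤ π / 2 := ht.2.le
    simp only [gIIss, gIItt, if_pos h0]
    exact kiia_lapV hε.1 τ t
  · intro ε hε τ t ht
    have h0 : ¬ (t ≤ π / 2) := not_le.2 ht.1
    simp only [gIIss, gIItt, if_neg h0]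
    exact kiia_lapH hε.1 τ t
  · intro ε hε τ hτ t ht
    refine (kiia_rvl hε.1 hτ ht).trans ?_
    exact mul_le_mul_of_nonneg_right (by linarith) hε.1.le
  · intro ε hε τ hτ t ht
    refine (kiia_rhl hε.1 hε.2 hτ ht).trans ?_
    exact mul_le_mul_of_nonneg_right (by linarith) hε.1.le
  · intro ε hε τ hτ h1 t _
    by_cases ht : t ≤ π / 2
    · simp only [gII, if_pos ht]
      refine (kiia_glV hε.1.le h1 t).trans ?_
      exact mul_le_mul_of_nonneg_right (by linarith) hε.1.le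
    · simp only [gII, if_neg ht]
      refine (kiia_glH hε.1.le h1 t).trans ?_
      exact mul_le_mul_of_nonneg_right (by linarith) hε.1.le
  · intro ε hε τ hτ h1 t _
    by_cases ht : t ≤ π / 2
    · simp only [gIIs, if_pos ht]
      refine (kiia_gslV hε.1.le hτ h1 t).trans ?_
      exact mul_le_mul_of_nonneg_right (by linarith) hε.1.le
    · simp only [gIIs, if_neg ht]
      refine (kiia_gslH hε.1.le hτ h1 t).trans ?_
      exact mul_le_mul_of_nonneg_right (by linarith) hε.1.le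
  · exact kiia_glueOn kiia_onV kiia_onH (kiia_m0 0)
  · exact kiia_glueOn kiia_onVs kiia_onHs (kiia_m1 0)

end Pool.Agent.MML
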