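import Pool.Agent.MML.Defs
import Pool.Agent.MML.KerIIa

/-!
# MML, module KerIIIa: kernel III is a regularised kernel

Same as KerIIa (`gV`, `gVs`, ... are reused), with the valley `0 ≤ t ≤ 2π/3` and the hump `2π/3 ≤ t ≤ 4π/3`.
Notation: `C = cosh (τ/2)`, `S = sinh (τ/2)`, `E = exp (-τ/2)`, `x0 = cos (t/2)`, `x1 = cos (t/2 + π/3)`, `x2 = cos (t/2 + 2π/3)`,
`xj' = -½ sin (t/2 + jπ/3)`.  `x0 + x2 = x1`, so `x0 + x1 + x2 = 2 x1`.
`4π gH3 = Σ_j log (C - xj + ε) - 2 log (C + ½ + ε) - log (C + 1 + ε) + 4 E (1 + x1)`.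
Laplacian of `log (C - xj + ε)`: `¼ ε (C + xj)/(C - xj + ε)²` (for `j = 0` this is `4π bump (1/2) ε τ t`, for `j = 1, 2` it is a
remainder, `C - xj ≥ 3/2` in the hump), of `log (C + h + ε)`: `¼ (1 + (h + ε) C)/(C + h + ε)²`, of `4 E (1 + x1)`: `E`.
At `t = 2π/3`: `(x0, x1, x2) = (½, -½, -1)`, so `gH3 = gV` (all `τ`, hence also the `τ` derivatives), `gH3t = gVt`.
At `t = 4π/3`: `(x0, x1, x2) = (-½, -1, -½)`: `gH3 = 0`, `gH3t = 0`.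
-/

set_option autoImplicit false

namespace Pool.Agent.MML

open Real MeasureTheory Set Filter Topology

noncomputable def gH3 (ε τ t : ℝ) : ℝ :=
  (4 * π)⁻¹ * (log (cosh (τ / 2) - cos (t / 2) + ε) + log (cosh (τ / 2) - cos (t / 2 + π / 3) + ε)
    + log (cosh (τ / 2) - cos (t / 2 + 2 * π / 3) + ε) - 2 * log (cosh (τ / 2) + 1 / 2 + ε)
    - log (cosh (τ / 2) + 1 + ε) + 4 * exp (-τ / 2) * (1 + cos (t / 2 + π / 3)))

noncomputable def gH3s (ε τ t : ℝ) : ℝ :=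
  (4 * π)⁻¹ * (sinh (τ / 2) / 2 / (cosh (τ / 2) - cos (t / 2) + ε)
    + sinh (τ / 2) / 2 / (cosh (τ / 2) - cos (t / 2 + π / 3) + ε)
    + sinh (τ / 2) / 2 / (cosh (τ / 2) - cos (t / 2 + 2 * π / 3) + ε)
    - sinh (τ / 2) / (cosh (τ / 2) + 1 / 2 + ε) - sinh (τ / 2) / 2 / (cosh (τ / 2) + 1 + ε)
    - 2 * exp (-τ / 2) * (1 + cos (t / 2 + π / 3)))

noncomputable def gH3ss (ε τ t : ℝ) : ℝ :=
  (4 * π)⁻¹ * (cosh (τ / 2) / 4 / (cosh (τ / 2) - cos (t / 2) + ε)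
    - sinh (τ / 2) ^ 2 / 4 / (cosh (τ / 2) - cos (t / 2) + ε) ^ 2
    + cosh (τ / 2) / 4 / (cosh (τ / 2) - cos (t / 2 + π / 3) + ε)
    - sinh (τ / 2) ^ 2 / 4 / (cosh (τ / 2) - cos (t / 2 + π / 3) + ε) ^ 2
    + cosh (τ / 2) / 4 / (cosh (τ / 2) - cos (t / 2 + 2 * π / 3) + ε)
    - sinh (τ / 2) ^ 2 / 4 / (cosh (τ / 2) - cos (t / 2 + 2 * π / 3) + ε) ^ 2
    - cosh (τ / 2) / 2 / (cosh (τ / 2) + 1 / 2 + ε)
    + sinh (τ / 2) ^ 2 / 2 / (cosh (τ / 2) + 1 / 2 + ε) ^ 2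
    - cosh (τ / 2) / 4 / (cosh (τ / 2) + 1 + ε)
    + sinh (τ / 2) ^ 2 / 4 / (cosh (τ / 2) + 1 + ε) ^ 2
    + exp (-τ / 2) * (1 + cos (t / 2 + π / 3)))

noncomputable def gH3t (ε τ t : ℝ) : ℝ :=
  (4 * π)⁻¹ * (sin (t / 2) / 2 / (cosh (τ / 2) - cos (t / 2) + ε)
    + sin (t / 2 + π / 3) / 2 / (cosh (τ / 2) - cos (t / 2 + π / 3) + ε)
    + sin (t / 2 + 2 * π / 3) / 2 / (cosh (τ / 2) - cos (t / 2 + 2 * π / 3) + ε)
    - 2 * exp (-τ / 2) * sin (t / 2 + π / 3))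

noncomputable def gH3tt (ε τ t : ℝ) : ℝ :=
  (4 * π)⁻¹ * (cos (t / 2) / 4 / (cosh (τ / 2) - cos (t / 2) + ε)
    - sin (t / 2) ^ 2 / 4 / (cosh (τ / 2) - cos (t / 2) + ε) ^ 2
    + cos (t / 2 + π / 3) / 4 / (cosh (τ / 2) - cos (t / 2 + π / 3) + ε)
    - sin (t / 2 + π / 3) ^ 2 / 4 / (cosh (τ / 2) - cos (t / 2 + π / 3) + ε) ^ 2
    + cos (t / 2 + 2 * π / 3) / 4 / (cosh (τ / 2) - cos (t / 2 + 2 * π / 3) + ε)
    - sin (t / 2 + 2 * π / 3) ^ 2 / 4 / (cosh (τ / 2) - cos (t / 2 + 2 * π / 3) + ε) ^ 2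
    - exp (-τ / 2) * cos (t / 2 + π / 3))

noncomputable def rH3 (ε τ t : ℝ) : ℝ :=
  (16 * π)⁻¹ * (ε * (cosh (τ / 2) + cos (t / 2 + π / 3)))
      / (cosh (τ / 2) - cos (t / 2 + π / 3) + ε) ^ 2
    + (16 * π)⁻¹ * (ε * (cosh (τ / 2) + cos (t / 2 + 2 * π / 3)))
      / (cosh (τ / 2) - cos (t / 2 + 2 * π / 3) + ε) ^ 2
    + (16 * π)⁻¹ * (4 * exp (-τ / 2)
      - 2 * (1 + (1 / 2 + ε) * cosh (τ / 2)) / (cosh (τ / 2) + 1 / 2 + ε) ^ 2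
      - (1 + (1 + ε) * cosh (τ / 2)) / (cosh (τ / 2) + 1 + ε) ^ 2)

/-- the density of the hump of kernel III -/
noncomputable def kH3 (τ : ℝ) : ℝ :=
  (16 * π)⁻¹ * (4 * exp (-τ / 2) - (2 + cosh (τ / 2)) / (cosh (τ / 2) + 1 / 2) ^ 2
    - 1 / (cosh (τ / 2) + 1))

open Classical in
noncomputable def gIII (ε τ t : ℝ) : ℝ := if t ≤ 2 * π / 3 then gV ε τ t else gH3 ε τ t

open Classical in
noncomputable def gIIIs (ε τ t : ℝ) : ℝ := if t ≤ 2 * π / 3 then gVs ε τ t else gH3s ε τ t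

open Classical in
noncomputable def gIIIss (ε τ t : ℝ) : ℝ := if t ≤ 2 * π / 3 then gVss ε τ t else gH3ss ε τ t

open Classical in
noncomputable def gIIIt (ε τ t : ℝ) : ℝ := if t ≤ 2 * π / 3 then gVt ε τ t else gH3t ε τ t

open Classical in
noncomputable def gIIItt (ε τ t : ℝ) : ℝ := if t ≤ 2 * π / 3 then gVtt ε τ t else gH3tt ε τ t

/-! ### elementary facts -/

theorem kiiia_p {ε : ℝ} (hε : 0 < ε) (τ x : ℝ) : 0 < cosh (τ / 2) - cos x + ε := by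
  have h1 := one_le_cosh (τ / 2)
  have h2 := cos_le_one x
  linarith

theorem kiiia_ph {ε h : ℝ} (hε : 0 ≤ ε) (hh : 0 ≤ h) (τ : ℝ) : 0 < cosh (τ / 2) + h + ε := by
  have h1 := one_le_cosh (τ / 2)
  linarith

theorem kiiia_hc (a t : ℝ) : HasDerivAt (fun x => cos (x / 2 + a)) (-sin (t / 2 + a) / 2) t := by
  have h := (hasDerivAt_cos (t / 2 + a)).comp t (((hasDerivAt_id t).div_const 2).add_const a)
  refine h.congr_deriv ?_
  ring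

theorem kiiia_hs (a t : ℝ) : HasDerivAt (fun x => sin (x / 2 + a)) (cos (t / 2 + a) / 2) t := by
  have h := (hasDerivAt_sin (t / 2 + a)).comp t (((hasDerivAt_id t).div_const 2).add_const a)
  refine h.congr_deriv ?_
  ring

/-! ### derivatives of the pieces -/

/-- `log (cosh (τ/2) - c + ε)` -/
theorem kiiia_L1 {ε : ℝ} (hε : 0 < ε) (τ x : ℝ) :
    HasDerivAt (fun y => log (cosh (y / 2) - cos x + ε))
      (sinh (τ / 2) / 2 / (cosh (τ / 2) - cos x + ε)) τ :=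
  (((kiia_hC τ).sub_const (cos x)).add_const ε).log (kiiia_p hε τ x).ne'

theorem kiiia_L1h {ε h : ℝ} (hε : 0 < ε) (hh : 0 ≤ h) (τ : ℝ) :
    HasDerivAt (fun y => log (cosh (y / 2) + h + ε))
      (sinh (τ / 2) / 2 / (cosh (τ / 2) + h + ε)) τ :=
  (((kiia_hC τ).add_const h).add_const ε).log (kiiia_ph hε.le hh τ).ne'

theorem kiiia_L2 {ε : ℝ} (hε : 0 < ε) (τ x : ℝ) :
    HasDerivAt (fun y => sinh (y / 2) / 2 / (cosh (y / 2) - cos x + ε))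
      (cosh (τ / 2) / 4 / (cosh (τ / 2) - cos x + ε)
        - sinh (τ / 2) ^ 2 / 4 / (cosh (τ / 2) - cos x + ε) ^ 2) τ := by
  have p1 := (kiiia_p hε τ x).ne'
  have h1 := ((kiia_hS τ).div_const 2).div
    (((kiia_hC τ).sub_const (cos x)).add_const ε) p1
  refine h1.congr_deriv ?_
  field_simp
  ring

theorem kiiia_L2h {ε h : ℝ} (hε : 0 < ε) (hh : 0 ≤ h) (τ : ℝ) :
    HasDerivAt (fun y => sinh (y / 2) / 2 / (cosh (y / 2) + h + ε))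
      (cosh (τ / 2) / 4 / (cosh (τ / 2) + h + ε)
        - sinh (τ / 2) ^ 2 / 4 / (cosh (τ / 2) + h + ε) ^ 2) τ := by
  have p1 := (kiiia_ph hε.le hh τ).ne'
  have h1 := ((kiia_hS τ).div_const 2).div
    (((kiia_hC τ).add_const h).add_const ε) p1
  refine h1.congr_deriv ?_
  field_simp
  ring

theorem kiiia_L3 {ε : ℝ} (hε : 0 < ε) (τ a t : ℝ) :
    HasDerivAt (fun y => log (cosh (τ / 2) - cos (y / 2 + a) + ε))
      (sin (t / 2 + a) / 2 / (cosh (τ / 2) - cos (t / 2 + a) + ε)) t := by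
  have h := (((kiiia_hc a t).const_sub (cosh (τ / 2))).add_const ε).log
    (kiiia_p hε τ (t / 2 + a)).ne'
  refine h.congr_deriv ?_
  ring

theorem kiiia_L4 {ε : ℝ} (hε : 0 < ε) (τ a t : ℝ) :
    HasDerivAt (fun y => sin (y / 2 + a) / 2 / (cosh (τ / 2) - cos (y / 2 + a) + ε))
      (cos (t / 2 + a) / 4 / (cosh (τ / 2) - cos (t / 2 + a) + ε)
        - sin (t / 2 + a) ^ 2 / 4 / (cosh (τ / 2) - cos (t / 2 + a) + ε) ^ 2) t := by
  have p1 := (kiiia_p hε τ (t / 2 + a)).ne'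
  have h1 := ((kiiia_hs a t).div_const 2).div
    (((kiiia_hc a t).const_sub (cosh (τ / 2))).add_const ε) p1
  refine h1.congr_deriv ?_
  field_simp
  ring

theorem kiiia_H1 {ε : ℝ} (hε : 0 < ε) (τ t : ℝ) :
    HasDerivAt (fun x => gH3 ε x t) (gH3s ε τ t) τ := by
  have h0 := kiiia_L1 hε τ (t / 2)
  have h1 := kiiia_L1 hε τ (t / 2 + π / 3)
  have h2 := kiiia_L1 hε τ (t / 2 + 2 * π / 3)
  have h3 := (kiiia_L1h hε (by norm_num : (0 : ℝ) ≤ 1 / 2) τ).const_mul 2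
  have h4 := kiiia_L1h hε (by norm_num : (0 : ℝ) ≤ 1) τ
  have h5 := ((kiia_hE τ).const_mul 4).mul_const (1 + cos (t / 2 + π / 3))
  have h := (((((h0.add h1).add h2).sub h3).sub h4).add h5).const_mul (4 * π)⁻¹
  unfold gH3 gH3s
  refine h.congr_deriv ?_
  ring

theorem kiiia_H2 {ε : ℝ} (hε : 0 < ε) (τ t : ℝ) :
    HasDerivAt (fun x => gH3s ε x t) (gH3ss ε τ t) τ := by
  have h0 := kiiia_L2 hε τ (t / 2)
  have h1 := kiiia_L2 hε τ (t / 2 + π / 3)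
  have h2 := kiiia_L2 hε τ (t / 2 + 2 * π / 3)
  have h3 := (kiiia_L2h hε (by norm_num : (0 : ℝ) ≤ 1 / 2) τ).const_mul 2
  have h4 := kiiia_L2h hε (by norm_num : (0 : ℝ) ≤ 1) τ
  have h5 := ((kiia_hE τ).const_mul 2).mul_const (1 + cos (t / 2 + π / 3))
  have h := (((((h0.add h1).add h2).sub h3).sub h4).sub h5).const_mul (4 * π)⁻¹
  have e : (fun x => gH3s ε x t) = fun y => (4 * π)⁻¹ *
      (sinh (y / 2) / 2 / (cosh (y / 2) - cos (t / 2) + ε)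
        + sinh (y / 2) / 2 / (cosh (y / 2) - cos (t / 2 + π / 3) + ε)
        + sinh (y / 2) / 2 / (cosh (y / 2) - cos (t / 2 + 2 * π / 3) + ε)
        - 2 * (sinh (y / 2) / 2 / (cosh (y / 2) + 1 / 2 + ε))
        - sinh (y / 2) / 2 / (cosh (y / 2) + 1 + ε)
        - 2 * exp (-y / 2) * (1 + cos (t / 2 + π / 3))) := by
    funext y
    unfold gH3s
    ring
  rw [e]
  refine h.congr_deriv ?_
  unfold gH3ss
  ring

theorem kiiia_H3 {ε : ℝ} (hε : 0 < ε) (τ t : ℝ) :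
    HasDerivAt (fun y => gH3 ε τ y) (gH3t ε τ t) t := by
  have h0 := kiiia_L3 hε τ 0 t
  simp only [add_zero] at h0
  have h1 := kiiia_L3 hε τ (π / 3) t
  have h2 := kiiia_L3 hε τ (2 * π / 3) t
  have h5 := ((kiiia_hc (π / 3) t).const_add 1).const_mul (4 * exp (-τ / 2))
  have h := (((((h0.add h1).add h2).sub_const (2 * log (cosh (τ / 2) + 1 / 2 + ε))).sub_const
    (log (cosh (τ / 2) + 1 + ε))).add h5).const_mul (4 * π)⁻¹
  unfold gH3 gH3t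
  refine h.congr_deriv ?_
  ring

theorem kiiia_H4 {ε : ℝ} (hε : 0 < ε) (τ t : ℝ) :
    HasDerivAt (fun y => gH3t ε τ y) (gH3tt ε τ t) t := by
  have h0 := kiiia_L4 hε τ 0 t
  simp only [add_zero] at h0
  have h1 := kiiia_L4 hε τ (π / 3) t
  have h2 := kiiia_L4 hε τ (2 * π / 3) t
  have h5 := (kiiia_hs (π / 3) t).const_mul (2 * exp (-τ / 2))
  have h := (((h0.add h1).add h2).sub h5).const_mul (4 * π)⁻¹
  unfold gH3t gH3tt
  refine h.congr_deriv ?_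
  ring

/-! ### matching at `t = 2π/3`, values at the ends -/

theorem kiiia_c0 : cos (2 * π / 3 / 2) = 1 / 2 := by
  rw [show 2 * π / 3 / 2 = π / 3 by ring, cos_pi_div_three]

theorem kiiia_c1 : cos (2 * π / 3 / 2 + π / 3) = -(1 / 2) := by
  rw [show 2 * π / 3 / 2 + π / 3 = π - π / 3 by ring, cos_pi_sub, cos_pi_div_three]

theorem kiiia_c2 : cos (2 * π / 3 / 2 + 2 * π / 3) = -1 := by
  rw [show 2 * π / 3 / 2 + 2 * π / 3 = π by ring, cos_pi]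

theorem kiiia_s0 : sin (2 * π / 3 / 2) = √3 / 2 := by
  rw [show 2 * π / 3 / 2 = π / 3 by ring, sin_pi_div_three]

theorem kiiia_s1 : sin (2 * π / 3 / 2 + π / 3) = √3 / 2 := by
  rw [show 2 * π / 3 / 2 + π / 3 = π - π / 3 by ring, sin_pi_sub, sin_pi_div_three]

theorem kiiia_s2 : sin (2 * π / 3 / 2 + 2 * π / 3) = 0 := by
  rw [show 2 * π / 3 / 2 + 2 * π / 3 = π by ring, sin_pi]

theorem kiiia_c0' : cos (4 * π / 3 / 2) = -(1 / 2) := by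
  rw [show 4 * π / 3 / 2 = π - π / 3 by ring, cos_pi_sub, cos_pi_div_three]

theorem kiiia_c1' : cos (4 * π / 3 / 2 + π / 3) = -1 := by
  rw [show 4 * π / 3 / 2 + π / 3 = π by ring, cos_pi]

theorem kiiia_c2' : cos (4 * π / 3 / 2 + 2 * π / 3) = -(1 / 2) := by
  rw [show 4 * π / 3 / 2 + 2 * π / 3 = π / 3 + π by ring, cos_add_pi, cos_pi_div_three]

theorem kiiia_s0' : sin (4 * π / 3 / 2) = √3 / 2 := by
  rw [show 4 * π / 3 / 2 = π - π / 3 by ring, sin_pi_sub, sin_pi_div_three]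

theorem kiiia_s1' : sin (4 * π / 3 / 2 + π / 3) = 0 := by
  rw [show 4 * π / 3 / 2 + π / 3 = π by ring, sin_pi]

theorem kiiia_s2' : sin (4 * π / 3 / 2 + 2 * π / 3) = -(√3 / 2) := by
  rw [show 4 * π / 3 / 2 + 2 * π / 3 = π / 3 + π by ring, sin_add_pi, sin_pi_div_three]

theorem kiiia_m0 (ε τ : ℝ) : gV ε τ (2 * π / 3) = gH3 ε τ (2 * π / 3) := by
  unfold gV gH3
  rw [kiiia_c0, kiiia_c1, kiiia_c2]
  simp only [sub_neg_eq_add]
  ring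

theorem kiiia_m1 (ε τ : ℝ) : gVs ε τ (2 * π / 3) = gH3s ε τ (2 * π / 3) := by
  unfold gVs gH3s
  rw [kiiia_c0, kiiia_c1, kiiia_c2]
  simp only [sub_neg_eq_add]
  ring

theorem kiiia_m2 (ε τ : ℝ) : gVss ε τ (2 * π / 3) = gH3ss ε τ (2 * π / 3) := by
  unfold gVss gH3ss
  rw [kiiia_c0, kiiia_c1, kiiia_c2]
  simp only [sub_neg_eq_add]
  ring

theorem kiiia_m3 (ε τ : ℝ) : gVt ε τ (2 * π / 3) = gH3t ε τ (2 * π / 3) := by
  unfold gVt gH3t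
  rw [kiiia_c0, kiiia_c1, kiiia_c2, kiiia_s0, kiiia_s1, kiiia_s2]
  simp only [sub_neg_eq_add]
  ring

/-! ### continuity -/

theorem kiiia_cH {ε : ℝ} (hε : 0 < ε) : Continuous (fun p : ℝ × ℝ => gH3 ε p.1 p.2) := by
  have p0 : ∀ p : ℝ × ℝ, cosh (p.1 / 2) - cos (p.2 / 2) + ε ≠ 0 := fun p =>
    (kiiia_p hε p.1 _).ne'
  have p1 : ∀ p : ℝ × ℝ, cosh (p.1 / 2) - cos (p.2 / 2 + π / 3) + ε ≠ 0 := fun p =>
    (kiiia_p hε p.1 _).ne'
  have p2 : ∀ p : ℝ × ℝ, cosh (p.1 / 2) - cos (p.2 / 2 + 2 * π / 3) + ε ≠ 0 := fun p =>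
    (kiiia_p hε p.1 _).ne'
  have p3 : ∀ p : ℝ × ℝ, cosh (p.1 / 2) + 1 / 2 + ε ≠ 0 := fun p =>
    (kiiia_ph hε.le (by norm_num) p.1).ne'
  have p4 : ∀ p : ℝ × ℝ, cosh (p.1 / 2) + 1 + ε ≠ 0 := fun p =>
    (kiiia_ph hε.le (by norm_num) p.1).ne'
  unfold gH3
  fun_prop (disch := assumption)

theorem kiiia_cHs {ε : ℝ} (hε : 0 < ε) : Continuous (fun p : ℝ × ℝ => gH3s ε p.1 p.2) := by
  have p0 : ∀ p : ℝ × ℝ, cosh (p.1 / 2) - cos (p.2 / 2) + ε ≠ 0 := fun p =>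
    (kiiia_p hε p.1 _).ne'
  have p1 : ∀ p : ℝ × ℝ, cosh (p.1 / 2) - cos (p.2 / 2 + π / 3) + ε ≠ 0 := fun p =>
    (kiiia_p hε p.1 _).ne'
  have p2 : ∀ p : ℝ × ℝ, cosh (p.1 / 2) - cos (p.2 / 2 + 2 * π / 3) + ε ≠ 0 := fun p =>
    (kiiia_p hε p.1 _).ne'
  have p3 : ∀ p : ℝ × ℝ, cosh (p.1 / 2) + 1 / 2 + ε ≠ 0 := fun p =>
    (kiiia_ph hε.le (by norm_num) p.1).ne'
  have p4 : ∀ p : ℝ × ℝ, cosh (p.1 / 2) + 1 + ε ≠ 0 := fun p =>
    (kiiia_ph hε.le (by norm_num) p.1).ne'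
  unfold gH3s
  fun_prop (disch := assumption)

theorem kiiia_cHss {ε : ℝ} (hε : 0 < ε) : Continuous (fun p : ℝ × ℝ => gH3ss ε p.1 p.2) := by
  have p0 : ∀ p : ℝ × ℝ, cosh (p.1 / 2) - cos (p.2 / 2) + ε ≠ 0 := fun p =>
    (kiiia_p hε p.1 _).ne'
  have p1 : ∀ p : ℝ × ℝ, cosh (p.1 / 2) - cos (p.2 / 2 + π / 3) + ε ≠ 0 := fun p =>
    (kiiia_p hε p.1 _).ne'
  have p2 : ∀ p : ℝ × ℝ, cosh (p.1 / 2) - cos (p.2 / 2 + 2 * π / 3) + ε ≠ 0 := fun p =>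
    (kiiia_p hε p.1 _).ne'
  have p3 : ∀ p : ℝ × ℝ, cosh (p.1 / 2) + 1 / 2 + ε ≠ 0 := fun p =>
    (kiiia_ph hε.le (by norm_num) p.1).ne'
  have p4 : ∀ p : ℝ × ℝ, cosh (p.1 / 2) + 1 + ε ≠ 0 := fun p =>
    (kiiia_ph hε.le (by norm_num) p.1).ne'
  have q0 : ∀ p : ℝ × ℝ, (cosh (p.1 / 2) - cos (p.2 / 2) + ε) ^ 2 ≠ 0 := fun p =>
    pow_ne_zero 2 (p0 p)
  have q1 : ∀ p : ℝ × ℝ, (cosh (p.1 / 2) - cos (p.2 / 2 + π / 3) + ε) ^ 2 ≠ 0 := fun p =>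
    pow_ne_zero 2 (p1 p)
  have q2 : ∀ p : ℝ × ℝ, (cosh (p.1 / 2) - cos (p.2 / 2 + 2 * π / 3) + ε) ^ 2 ≠ 0 := fun p =>
    pow_ne_zero 2 (p2 p)
  have q3 : ∀ p : ℝ × ℝ, (cosh (p.1 / 2) + 1 / 2 + ε) ^ 2 ≠ 0 := fun p =>
    pow_ne_zero 2 (p3 p)
  have q4 : ∀ p : ℝ × ℝ, (cosh (p.1 / 2) + 1 + ε) ^ 2 ≠ 0 := fun p =>
    pow_ne_zero 2 (p4 p)
  unfold gH3ss
  fun_prop (disch := assumption)

theorem kiiia_cHt {ε : ℝ} (hε : 0 < ε) : Continuous (fun p : ℝ × ℝ => gH3t ε p.1 p.2) := by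
  have p0 : ∀ p : ℝ × ℝ, cosh (p.1 / 2) - cos (p.2 / 2) + ε ≠ 0 := fun p =>
    (kiiia_p hε p.1 _).ne'
  have p1 : ∀ p : ℝ × ℝ, cosh (p.1 / 2) - cos (p.2 / 2 + π / 3) + ε ≠ 0 := fun p =>
    (kiiia_p hε p.1 _).ne'
  have p2 : ∀ p : ℝ × ℝ, cosh (p.1 / 2) - cos (p.2 / 2 + 2 * π / 3) + ε ≠ 0 := fun p =>
    (kiiia_p hε p.1 _).ne'
  unfold gH3t
  fun_prop (disch := assumption)

theorem kiiia_crH {ε : ℝ} (hε : 0 < ε) : Continuous (fun p : ℝ × ℝ => rH3 ε p.1 p.2) := by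
  have q1 : ∀ p : ℝ × ℝ, (cosh (p.1 / 2) - cos (p.2 / 2 + π / 3) + ε) ^ 2 ≠ 0 := fun p =>
    pow_ne_zero 2 (kiiia_p hε p.1 _).ne'
  have q2 : ∀ p : ℝ × ℝ, (cosh (p.1 / 2) - cos (p.2 / 2 + 2 * π / 3) + ε) ^ 2 ≠ 0 := fun p =>
    pow_ne_zero 2 (kiiia_p hε p.1 _).ne'
  have q3 : ∀ p : ℝ × ℝ, (cosh (p.1 / 2) + 1 / 2 + ε) ^ 2 ≠ 0 := fun p =>
    pow_ne_zero 2 (kiiia_ph hε.le (by norm_num) p.1).ne'
  have q4 : ∀ p : ℝ × ℝ, (cosh (p.1 / 2) + 1 + ε) ^ 2 ≠ 0 := fun p =>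
    pow_ne_zero 2 (kiiia_ph hε.le (by norm_num) p.1).ne'
  unfold rH3
  fun_prop (disch := assumption)

open Classical in
/-- gluing -/
theorem kiiia_glue {f g : ℝ → ℝ → ℝ} {c : ℝ} (hf : Continuous (fun p : ℝ × ℝ => f p.1 p.2))
    (hg : Continuous (fun p : ℝ × ℝ => g p.1 p.2)) (h : ∀ τ, f τ c = g τ c) :
    Continuous (fun p : ℝ × ℝ => if p.2 ≤ c then f p.1 p.2 else g p.1 p.2) := by
  refine Continuous.if_le hf hg continuous_snd continuous_const ?_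
  intro p hp
  rw [hp, h]

open Classical in
theorem kiiia_glueOn {f g : ℝ → ℝ → ℝ} {S : Set ℝ} {c b : ℝ} (hc : 0 ≤ c) (hcb : c ≤ b)
    (hf : ContinuousOn (fun p : ℝ × ℝ => f p.1 p.2) (S ×ˢ Icc 0 b))
    (hg : ContinuousOn (fun p : ℝ × ℝ => g p.1 p.2) (S ×ˢ Icc 0 b))
    (h : ∀ τ, f τ c = g τ c) :
    ContinuousOn (fun p : ℝ × ℝ => if p.2 ≤ c then f p.1 p.2 else g p.1 p.2)
      (S ×ˢ Icc 0 b) := by
  have e : (fun p : ℝ × ℝ => if p.2 ≤ c then f p.1 p.2 else g p.1 p.2) =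
      fun p : ℝ × ℝ => f p.1 (min p.2 c) + g p.1 (max p.2 c) - g p.1 c := by
    funext p
    by_cases hp : p.2 ≤ c
    · rw [if_pos hp, min_eq_left hp, max_eq_right hp]
      ring
    · rw [if_neg hp, min_eq_right (le_of_not_ge hp), max_eq_left (le_of_not_ge hp), h]
      ring
  rw [e]
  have m1 : MapsTo (fun p : ℝ × ℝ => (p.1, min p.2 c)) (S ×ˢ Icc 0 b) (S ×ˢ Icc 0 b) := by
    rintro ⟨x, y⟩ ⟨hx, hy⟩
    exact ⟨hx, le_min hy.1 hc, (min_le_left _ _).trans hy.2⟩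
  have m2 : MapsTo (fun p : ℝ × ℝ => (p.1, max p.2 c)) (S ×ˢ Icc 0 b) (S ×ˢ Icc 0 b) := by
    rintro ⟨x, y⟩ ⟨hx, hy⟩
    exact ⟨hx, hy.1.trans (le_max_left _ _), max_le hy.2 hcb⟩
  have m3 : MapsTo (fun p : ℝ × ℝ => (p.1, c)) (S ×ˢ Icc 0 b) (S ×ˢ Icc 0 b) := by
    rintro ⟨x, y⟩ ⟨hx, hy⟩
    exact ⟨hx, hc, hcb⟩
  have c1 : Continuous (fun p : ℝ × ℝ => (p.1, min p.2 c)) := by fun_prop
  have c2 : Continuous (fun p : ℝ × ℝ => (p.1, max p.2 c)) := by fun_prop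
  have c3 : Continuous (fun p : ℝ × ℝ => (p.1, c)) := by fun_prop
  exact ((hf.comp c1.continuousOn m1).add (hg.comp c2.continuousOn m2)).sub
    (hg.comp c3.continuousOn m3)

open Classical in
/-- derivative of a glued function in the second variable -/
theorem kiiia_gd {f g f' g' : ℝ → ℝ} {c : ℝ} (hf : ∀ t, HasDerivAt f (f' t) t)
    (hg : ∀ t, HasDerivAt g (g' t) t) (h0 : f c = g c) (h1 : f' c = g' c) (t : ℝ) :
    HasDerivAt (fun y => if y ≤ c then f y else g y) (if t ≤ c then f' t else g' t) t := by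
  rcases lt_trichotomy t c with h | h | h
  · rw [if_pos h.le]
    refine (hf t).congr_of_eventuallyEq ?_
    filter_upwards [Iio_mem_nhds h] with y hy
    rw [if_pos (le_of_lt hy)]
  · subst h
    rw [if_pos le_rfl]
    have hl : HasDerivWithinAt (fun y => if y ≤ t then f y else g y) (f' t) (Iic t) t := by
      refine (hf t).hasDerivWithinAt.congr (fun y hy => ?_) ?_
      · exact if_pos hy
      · rw [if_pos le_rfl]
    have hr : HasDerivWithinAt (fun y => if y ≤ t then f y else g y) (f' t) (Ici t) t := by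
      rw [h1]
      refine (hg t).hasDerivWithinAt.congr (fun y hy => ?_) ?_
      · by_cases hy' : y ≤ t
        · rw [if_pos hy']
          have : y = t := le_antisymm hy' hy
          rw [this, h0]
        · rw [if_neg hy']
      · rw [if_pos le_rfl, h0]
    have hu := hl.union hr
    rw [Iic_union_Ici, hasDerivWithinAt_univ] at hu
    exact hu
  · rw [if_neg (not_le.2 h)]
    refine (hg t).congr_of_eventuallyEq ?_
    filter_upwards [Ioi_mem_nhds h] with y hy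
    rw [if_neg (not_le.2 hy)]

open Classical in
theorem kiiia_gd' {f g f' g' : ℝ → ℝ} {c : ℝ} (hf : ∀ t, HasDerivAt f (f' t) t)
    (hg : ∀ t, HasDerivAt g (g' t) t) (t : ℝ) (ht : t ≠ c) :
    HasDerivAt (fun y => if y ≤ c then f y else g y) (if t ≤ c then f' t else g' t) t := by
  rcases lt_trichotomy t c with h | h | h
  · rw [if_pos h.le]
    refine (hf t).congr_of_eventuallyEq ?_
    filter_upwards [Iio_mem_nhds h] with y hy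
    rw [if_pos (le_of_lt hy)]
  · exact absurd h ht
  · rw [if_neg (not_le.2 h)]
    refine (hg t).congr_of_eventuallyEq ?_
    filter_upwards [Ioi_mem_nhds h] with y hy
    rw [if_neg (not_le.2 hy)]

/-! ### Laplacians -/

theorem kiiia_lapx {ε : ℝ} (hε : 0 < ε) (τ x : ℝ) :
    cosh (τ / 2) / 4 / (cosh (τ / 2) - cos x + ε)
      - sinh (τ / 2) ^ 2 / 4 / (cosh (τ / 2) - cos x + ε) ^ 2
      + (cos x / 4 / (cosh (τ / 2) - cos x + ε)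
      - sin x ^ 2 / 4 / (cosh (τ / 2) - cos x + ε) ^ 2) =
      ε * (cosh (τ / 2) + cos x) / 4 / (cosh (τ / 2) - cos x + ε) ^ 2 := by
  have p1 := (kiiia_p hε τ x).ne'
  have h1 : sinh (τ / 2) ^ 2 = cosh (τ / 2) ^ 2 - 1 := by
    have := cosh_sq (τ / 2)
    linarith
  have h2 : sin x ^ 2 = 1 - cos x ^ 2 := by
    have := sin_sq_add_cos_sq x
    linarith
  rw [h1, h2]
  field_simp
  ring

theorem kiiia_laph {ε h : ℝ} (hε : 0 < ε) (hh : 0 ≤ h) (τ : ℝ) :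
    cosh (τ / 2) / 4 / (cosh (τ / 2) + h + ε)
      - sinh (τ / 2) ^ 2 / 4 / (cosh (τ / 2) + h + ε) ^ 2 =
      (1 + (h + ε) * cosh (τ / 2)) / 4 / (cosh (τ / 2) + h + ε) ^ 2 := by
  have p1 := (kiiia_ph hε.le hh τ).ne'
  have h1 : sinh (τ / 2) ^ 2 = cosh (τ / 2) ^ 2 - 1 := by
    have := cosh_sq (τ / 2)
    linarith
  rw [h1]
  field_simp
  ring

theorem kiiia_lapH {ε : ℝ} (hε : 0 < ε) (τ t : ℝ) :
    gH3ss ε τ t + gH3tt ε τ t = bump (1 / 2) ε τ t + rH3 ε τ t := by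
  rw [kiia_bump]
  have e0 := kiiia_lapx hε τ (t / 2)
  have e1 := kiiia_lapx hε τ (t / 2 + π / 3)
  have e2 := kiiia_lapx hε τ (t / 2 + 2 * π / 3)
  have e3 := kiiia_laph hε (by norm_num : (0 : ℝ) ≤ 1 / 2) τ
  have e4 := kiiia_laph hε (by norm_num : (0 : ℝ) ≤ 1) τ
  have e : gH3ss ε τ t + gH3tt ε τ t = (4 * π)⁻¹ *
      (ε * (cosh (τ / 2) + cos (t / 2)) / 4 / (cosh (τ / 2) - cos (t / 2) + ε) ^ 2
      + ε * (cosh (τ / 2) + cos (t / 2 + π / 3)) / 4 /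
        (cosh (τ / 2) - cos (t / 2 + π / 3) + ε) ^ 2
      + ε * (cosh (τ / 2) + cos (t / 2 + 2 * π / 3)) / 4 /
        (cosh (τ / 2) - cos (t / 2 + 2 * π / 3) + ε) ^ 2
      - 2 * ((1 + (1 / 2 + ε) * cosh (τ / 2)) / 4 / (cosh (τ / 2) + 1 / 2 + ε) ^ 2)
      - (1 + (1 + ε) * cosh (τ / 2)) / 4 / (cosh (τ / 2) + 1 + ε) ^ 2
      + exp (-τ / 2)) := by
    rw [← e0, ← e1, ← e2, ← e3, ← e4]
    unfold gH3ss gH3tt
    ring
  rw [e]
  unfold rH3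
  have i1 : (16 * π)⁻¹ = (4 * π)⁻¹ / 4 := by
    have hπ : (π : ℝ) ≠ 0 := pi_ne_zero
    field_simp
    norm_num
  rw [i1]
  ring

/-! ### limits -/

theorem kiiia_args {τ : ℝ} (hτ : 1 ≤ |τ|) (x : ℝ) :
    cosh (1 / 2) - 1 ≤ cosh (τ / 2) - cos x := by
  have h1 := kiia_cosh_ge hτ
  have h2 := cos_le_one x
  linarith

theorem kiiia_argh {τ h : ℝ} (hτ : 1 ≤ |τ|) (hh : 0 ≤ h) :
    cosh (1 / 2) - 1 ≤ cosh (τ / 2) + h := by
  have h1 := kiia_cosh_ge hτ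
  linarith

theorem kiiia_glH {ε τ : ℝ} (hε : 0 ≤ ε) (hτ : 1 ≤ |τ|) (t : ℝ) :
    |gH3 ε τ t - gH3 0 τ t| ≤ 6 / (cosh (1 / 2) - 1) * ε := by
  have l0 := kiia_log kiia_m (kiiia_args hτ (t / 2)) hε
  have l1 := kiia_log kiia_m (kiiia_args hτ (t / 2 + π / 3)) hε
  have l2 := kiia_log kiia_m (kiiia_args hτ (t / 2 + 2 * π / 3)) hε
  have l3 := kiia_log kiia_m (kiiia_argh hτ (by norm_num : (0 : ℝ) ≤ 1 / 2)) hε
  have l4 := kiia_log kiia_m (kiiia_argh hτ (by norm_num : (0 : ℝ) ≤ 1)) hε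
  obtain ⟨k1, k2⟩ := kiia_4pi
  have hm := kiia_m
  have e : gH3 ε τ t - gH3 0 τ t = (4 * π)⁻¹ *
      ((log (cosh (τ / 2) - cos (t / 2) + ε) - log (cosh (τ / 2) - cos (t / 2))) +
        (log (cosh (τ / 2) - cos (t / 2 + π / 3) + ε) -
          log (cosh (τ / 2) - cos (t / 2 + π / 3))) +
        (log (cosh (τ / 2) - cos (t / 2 + 2 * π / 3) + ε) -
          log (cosh (τ / 2) - cos (t / 2 + 2 * π / 3))) -
        2 * (log (cosh (τ / 2) + 1 / 2 + ε) - log (cosh (τ / 2) + 1 / 2)) -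
        (log (cosh (τ / 2) + 1 + ε) - log (cosh (τ / 2) + 1))) := by
    unfold gH3
    simp only [add_zero]
    ring
  rw [e, abs_mul, abs_of_pos k2]
  have h2 : 0 ≤ ε / (cosh (1 / 2) - 1) := by positivity
  have h1 : |(log (cosh (τ / 2) - cos (t / 2) + ε) - log (cosh (τ / 2) - cos (t / 2))) +
        (log (cosh (τ / 2) - cos (t / 2 + π / 3) + ε) -
          log (cosh (τ / 2) - cos (t / 2 + π / 3))) +
        (log (cosh (τ / 2) - cos (t / 2 + 2 * π / 3) + ε) -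
          log (cosh (τ / 2) - cos (t / 2 + 2 * π / 3))) -
        2 * (log (cosh (τ / 2) + 1 / 2 + ε) - log (cosh (τ / 2) + 1 / 2)) -
        (log (cosh (τ / 2) + 1 + ε) - log (cosh (τ / 2) + 1))| ≤
      6 * (ε / (cosh (1 / 2) - 1)) := by
    rw [abs_le] at l0 l1 l2 l3 l4 ⊢
    constructor <;> linarith
  calc _ ≤ 1 * (6 * (ε / (cosh (1 / 2) - 1))) :=
        mul_le_mul k1 h1 (abs_nonneg _) (by norm_num)
    _ = _ := by ring

theorem kiiia_gslH {R ε τ : ℝ} (hε : 0 ≤ ε) (hR : τ ∈ Icc (-R) R) (hτ : 1 ≤ |τ|) (t : ℝ) :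
    |gH3s ε τ t - gH3s 0 τ t| ≤ 6 * cosh (R / 2) / (cosh (1 / 2) - 1) ^ 2 * ε := by
  have l0 := kiia_inv kiia_m (kiiia_args hτ (t / 2)) hε
  have l1 := kiia_inv kiia_m (kiiia_args hτ (t / 2 + π / 3)) hε
  have l2 := kiia_inv kiia_m (kiiia_args hτ (t / 2 + 2 * π / 3)) hε
  have l3 := kiia_inv kiia_m (kiiia_argh hτ (by norm_num : (0 : ℝ) ≤ 1 / 2)) hε
  have l4 := kiia_inv kiia_m (kiiia_argh hτ (by norm_num : (0 : ℝ) ≤ 1)) hε
  obtain ⟨k1, k2⟩ := kiia_4pi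
  have hm := kiia_m
  have hs := kiia_sinh_le hR
  have hM := cosh_pos (R / 2)
  have e : gH3s ε τ t - gH3s 0 τ t = (4 * π)⁻¹ *
      (sinh (τ / 2) / 2 * (1 / (cosh (τ / 2) - cos (t / 2) + ε) -
        1 / (cosh (τ / 2) - cos (t / 2))) +
      sinh (τ / 2) / 2 * (1 / (cosh (τ / 2) - cos (t / 2 + π / 3) + ε) -
        1 / (cosh (τ / 2) - cos (t / 2 + π / 3))) +
      sinh (τ / 2) / 2 * (1 / (cosh (τ / 2) - cos (t / 2 + 2 * π / 3) + ε) -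
        1 / (cosh (τ / 2) - cos (t / 2 + 2 * π / 3))) -
      2 * (sinh (τ / 2) / 2 * (1 / (cosh (τ / 2) + 1 / 2 + ε) - 1 / (cosh (τ / 2) + 1 / 2))) -
      sinh (τ / 2) / 2 * (1 / (cosh (τ / 2) + 1 + ε) - 1 / (cosh (τ / 2) + 1))) := by
    unfold gH3s
    simp only [add_zero]
    ring
  rw [e, abs_mul, abs_of_pos k2]
  have h2 : 0 ≤ ε / (cosh (1 / 2) - 1) ^ 2 := by positivity
  have hb : ∀ z, |z| ≤ ε / (cosh (1 / 2) - 1) ^ 2 →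
      |sinh (τ / 2) / 2 * z| ≤ cosh (R / 2) * (ε / (cosh (1 / 2) - 1) ^ 2) := by
    intro z hz
    rw [abs_mul, abs_div]
    have h3 : |sinh (τ / 2)| / |2| ≤ cosh (R / 2) := by
      rw [abs_of_pos (by norm_num : (0 : ℝ) < 2)]
      have := abs_nonneg (sinh (τ / 2))
      linarith
    exact mul_le_mul h3 hz (abs_nonneg _) (by positivity)
  have b0 := hb _ l0
  have b1 := hb _ l1
  have b2 := hb _ l2
  have b3 := hb _ l3
  have b4 := hb _ l4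
  have h1 : |sinh (τ / 2) / 2 * (1 / (cosh (τ / 2) - cos (t / 2) + ε) -
        1 / (cosh (τ / 2) - cos (t / 2))) +
      sinh (τ / 2) / 2 * (1 / (cosh (τ / 2) - cos (t / 2 + π / 3) + ε) -
        1 / (cosh (τ / 2) - cos (t / 2 + π / 3))) +
      sinh (τ / 2) / 2 * (1 / (cosh (τ / 2) - cos (t / 2 + 2 * π / 3) + ε) -
        1 / (cosh (τ / 2) - cos (t / 2 + 2 * π / 3))) -
      2 * (sinh (τ / 2) / 2 * (1 / (cosh (τ / 2) + 1 / 2 + ε) - 1 / (cosh (τ / 2) + 1 / 2))) -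
      sinh (τ / 2) / 2 * (1 / (cosh (τ / 2) + 1 + ε) - 1 / (cosh (τ / 2) + 1))| ≤
      6 * (cosh (R / 2) * (ε / (cosh (1 / 2) - 1) ^ 2)) := by
    rw [abs_le] at b0 b1 b2 b3 b4 ⊢
    constructor <;> linarith
  calc _ ≤ 1 * (6 * (cosh (R / 2) * (ε / (cosh (1 / 2) - 1) ^ 2))) :=
        mul_le_mul k1 h1 (abs_nonneg _) (by norm_num)
    _ = _ := by ring

theorem kiiia_rvl {R ε τ t : ℝ} (hε : 0 < ε) (hR : τ ∈ Icc (-R) R) (ht : t ∈ Icc 0 (2 * π / 3)) :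
    |rV ε τ t - 0| ≤ cosh (R / 2) * ε := by
  obtain ⟨k1, k2⟩ := kiia_16pi
  have hc : 0 ≤ cos (t / 2) := by
    apply cos_nonneg_of_mem_Icc
    have := pi_pos
    exact ⟨by linarith [ht.1], by linarith [ht.2]⟩
  have hc1 := cos_le_one (t / 2)
  have hC := one_le_cosh (τ / 2)
  have hCM := kiia_cosh_le hR
  have hd : 1 ≤ (cosh (τ / 2) + cos (t / 2) + ε) ^ 2 := by nlinarith
  have e : rV ε τ t - 0 = -((16 * π)⁻¹ * (ε * (cosh (τ / 2) - cos (t / 2)) /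
      (cosh (τ / 2) + cos (t / 2) + ε) ^ 2)) := by
    unfold rV
    ring
  have h0 : 0 ≤ ε * (cosh (τ / 2) - cos (t / 2)) := mul_nonneg hε.le (by linarith)
  rw [e, abs_neg, abs_mul, abs_of_pos k2, abs_of_nonneg (by positivity)]
  have h1 : ε * (cosh (τ / 2) - cos (t / 2)) / (cosh (τ / 2) + cos (t / 2) + ε) ^ 2 ≤
      ε * (cosh (τ / 2) - cos (t / 2)) := div_le_self h0 hd
  have h2 : ε * (cosh (τ / 2) - cos (t / 2)) ≤ cosh (R / 2) * ε := by nlinarith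
  calc _ ≤ 1 * (cosh (R / 2) * ε) :=
        mul_le_mul k1 (h1.trans h2) (by positivity) (by norm_num)
    _ = _ := one_mul _

theorem kiiia_rem {R ε τ x : ℝ} (hε : 0 < ε) (hR : τ ∈ Icc (-R) R) (hx : cos x ≤ 0) :
    |(16 * π)⁻¹ * (ε * (cosh (τ / 2) + cos x)) / (cosh (τ / 2) - cos x + ε) ^ 2| ≤
      cosh (R / 2) * ε := by
  obtain ⟨k1, k2⟩ := kiia_16pi
  have hc1 := neg_one_le_cos x
  have hC := one_le_cosh (τ / 2)
  have hCM := kiia_cosh_le hR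
  have hd : 1 ≤ (cosh (τ / 2) - cos x + ε) ^ 2 := by nlinarith
  have e : (16 * π)⁻¹ * (ε * (cosh (τ / 2) + cos x)) / (cosh (τ / 2) - cos x + ε) ^ 2 =
      (16 * π)⁻¹ * (ε * (cosh (τ / 2) + cos x) / (cosh (τ / 2) - cos x + ε) ^ 2) := by
    ring
  have h0 : 0 ≤ ε * (cosh (τ / 2) + cos x) := mul_nonneg hε.le (by linarith)
  rw [e, abs_mul, abs_of_pos k2, abs_of_nonneg (by positivity)]
  have h1 : ε * (cosh (τ / 2) + cos x) / (cosh (τ / 2) - cos x + ε) ^ 2 ≤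
      ε * (cosh (τ / 2) + cos x) := div_le_self h0 hd
  have h2 : ε * (cosh (τ / 2) + cos x) ≤ cosh (R / 2) * ε := by nlinarith
  calc _ ≤ 1 * (cosh (R / 2) * ε) :=
        mul_le_mul k1 (h1.trans h2) (by positivity) (by norm_num)
    _ = _ := one_mul _

theorem kiiia_rhl {R ε τ t : ℝ} (hε : 0 < ε) (hε1 : ε ≤ 1) (hR : τ ∈ Icc (-R) R)
    (ht : t ∈ Icc (2 * π / 3) (4 * π / 3)) :
    |rH3 ε τ t - kH3 τ| ≤ (2 * cosh (R / 2) + 3 * (cosh (R / 2) * (cosh (R / 2) + 1) ^ 2 +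
      (1 + cosh (R / 2)) * (2 * cosh (R / 2) + 3))) * ε := by
  obtain ⟨k1, k2⟩ := kiia_16pi
  have hπ := pi_pos
  have hx1 : cos (t / 2 + π / 3) ≤ 0 := by
    apply cos_nonpos_of_pi_div_two_le_of_le
    · linarith [ht.1]
    · linarith [ht.2]
  have hx2 : cos (t / 2 + 2 * π / 3) ≤ 0 := by
    apply cos_nonpos_of_pi_div_two_le_of_le
    · linarith [ht.1]
    · linarith [ht.2]
  have hC := one_le_cosh (τ / 2)
  have hCM := kiia_cosh_le hR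
  have r1 := kiiia_rem hε hR hx1
  have r2 := kiiia_rem hε hR hx2
  have f1 := kiia_frac hε hε1 hC hCM (by norm_num : (0 : ℝ) < 1 / 2) (by norm_num)
  have f2 := kiia_frac hε hε1 hC hCM (by norm_num : (0 : ℝ) < 1) le_rfl
  set K := cosh (R / 2) * (cosh (R / 2) + 1) ^ 2 +
      (1 + cosh (R / 2)) * (2 * cosh (R / 2) + 3) with hK
  have hC1 : cosh (τ / 2) + 1 ≠ 0 := by positivity
  have hfr : 1 / (cosh (τ / 2) + 1) = (1 + 1 * cosh (τ / 2)) / (cosh (τ / 2) + 1) ^ 2 := by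
    field_simp
    ring
  have e : rH3 ε τ t - kH3 τ =
      (16 * π)⁻¹ * (ε * (cosh (τ / 2) + cos (t / 2 + π / 3)))
      / (cosh (τ / 2) - cos (t / 2 + π / 3) + ε) ^ 2
      + (16 * π)⁻¹ * (ε * (cosh (τ / 2) + cos (t / 2 + 2 * π / 3)))
      / (cosh (τ / 2) - cos (t / 2 + 2 * π / 3) + ε) ^ 2
      - (16 * π)⁻¹ * (2 * ((1 + (1 / 2 + ε) * cosh (τ / 2)) / (cosh (τ / 2) + 1 / 2 + ε) ^ 2 -
        (1 + 1 / 2 * cosh (τ / 2)) / (cosh (τ / 2) + 1 / 2) ^ 2) +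
        ((1 + (1 + ε) * cosh (τ / 2)) / (cosh (τ / 2) + 1 + ε) ^ 2 -
        (1 + 1 * cosh (τ / 2)) / (cosh (τ / 2) + 1) ^ 2)) := by
    unfold rH3 kH3
    rw [hfr]
    ring
  rw [e]
  have h3 : |(16 * π)⁻¹ *
        (2 * ((1 + (1 / 2 + ε) * cosh (τ / 2)) / (cosh (τ / 2) + 1 / 2 + ε) ^ 2 -
        (1 + 1 / 2 * cosh (τ / 2)) / (cosh (τ / 2) + 1 / 2) ^ 2) +
        ((1 + (1 + ε) * cosh (τ / 2)) / (cosh (τ / 2) + 1 + ε) ^ 2 -
        (1 + 1 * cosh (τ / 2)) / (cosh (τ / 2) + 1) ^ 2))| ≤ 3 * (K * ε) := by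
    rw [abs_mul, abs_of_pos k2]
    have h4 : |2 * ((1 + (1 / 2 + ε) * cosh (τ / 2)) / (cosh (τ / 2) + 1 / 2 + ε) ^ 2 -
        (1 + 1 / 2 * cosh (τ / 2)) / (cosh (τ / 2) + 1 / 2) ^ 2) +
        ((1 + (1 + ε) * cosh (τ / 2)) / (cosh (τ / 2) + 1 + ε) ^ 2 -
        (1 + 1 * cosh (τ / 2)) / (cosh (τ / 2) + 1) ^ 2)| ≤ 3 * (K * ε) := by
      rw [abs_le] at f1 f2 ⊢
      constructor <;> linarith
    calc _ ≤ 1 * (3 * (K * ε)) := mul_le_mul k1 h4 (abs_nonneg _) (by norm_num)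
      _ = _ := one_mul _
  rw [abs_le] at r1 r2 h3 ⊢
  constructor <;> nlinarith

theorem kiiia_sub {S : Set ℝ} {f : ℝ × ℝ → ℝ} (h : ContinuousOn f (S ×ˢ Icc 0 (3 * π / 2))) :
    ContinuousOn f (S ×ˢ Icc 0 (4 * π / 3)) := by
  have hπ := pi_pos
  refine h.mono (Set.prod_mono_right (Icc_subset_Icc_right ?_))
  linarith

theorem kiiia_onH : ContinuousOn (fun p : ℝ × ℝ => gH3 0 p.1 p.2)
    ({τ | 1 ≤ |τ|} ×ˢ Icc 0 (4 * π / 3)) := by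
  have hm := kiia_m
  have p0 : ∀ p ∈ ({τ | 1 ≤ |τ|} ×ˢ Icc 0 (4 * π / 3) : Set (ℝ × ℝ)),
      cosh (p.1 / 2) - cos (p.2 / 2) + 0 ≠ 0 := fun p hp => by
    have := kiiia_args hp.1 (p.2 / 2)
    have : 0 < cosh (p.1 / 2) - cos (p.2 / 2) + 0 := by linarith
    exact this.ne'
  have p1 : ∀ p ∈ ({τ | 1 ≤ |τ|} ×ˢ Icc 0 (4 * π / 3) : Set (ℝ × ℝ)),
      cosh (p.1 / 2) - cos (p.2 / 2 + π / 3) + 0 ≠ 0 := fun p hp => by
    have := kiiia_args hp.1 (p.2 / 2 + π / 3)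
    have : 0 < cosh (p.1 / 2) - cos (p.2 / 2 + π / 3) + 0 := by linarith
    exact this.ne'
  have p2 : ∀ p ∈ ({τ | 1 ≤ |τ|} ×ˢ Icc 0 (4 * π / 3) : Set (ℝ × ℝ)),
      cosh (p.1 / 2) - cos (p.2 / 2 + 2 * π / 3) + 0 ≠ 0 := fun p hp => by
    have := kiiia_args hp.1 (p.2 / 2 + 2 * π / 3)
    have : 0 < cosh (p.1 / 2) - cos (p.2 / 2 + 2 * π / 3) + 0 := by linarith
    exact this.ne'
  have p3 : ∀ p ∈ ({τ | 1 ≤ |τ|} ×ˢ Icc 0 (4 * π / 3) : Set (ℝ × ℝ)),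
      cosh (p.1 / 2) + 1 / 2 + 0 ≠ 0 := fun p _ =>
    (kiiia_ph le_rfl (by norm_num) p.1).ne'
  have p4 : ∀ p ∈ ({τ | 1 ≤ |τ|} ×ˢ Icc 0 (4 * π / 3) : Set (ℝ × ℝ)),
      cosh (p.1 / 2) + 1 + 0 ≠ 0 := fun p _ =>
    (kiiia_ph le_rfl (by norm_num) p.1).ne'
  unfold gH3
  fun_prop (disch := assumption)

theorem kiiia_onHs : ContinuousOn (fun p : ℝ × ℝ => gH3s 0 p.1 p.2)
    ({τ | 1 ≤ |τ|} ×ˢ Icc 0 (4 * π / 3)) := by
  have hm := kiia_m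
  have p0 : ∀ p ∈ ({τ | 1 ≤ |τ|} ×ˢ Icc 0 (4 * π / 3) : Set (ℝ × ℝ)),
      cosh (p.1 / 2) - cos (p.2 / 2) + 0 ≠ 0 := fun p hp => by
    have := kiiia_args hp.1 (p.2 / 2)
    have : 0 < cosh (p.1 / 2) - cos (p.2 / 2) + 0 := by linarith
    exact this.ne'
  have p1 : ∀ p ∈ ({τ | 1 ≤ |τ|} ×ˢ Icc 0 (4 * π / 3) : Set (ℝ × ℝ)),
      cosh (p.1 / 2) - cos (p.2 / 2 + π / 3) + 0 ≠ 0 := fun p hp => by
    have := kiiia_args hp.1 (p.2 / 2 + π / 3)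
    have : 0 < cosh (p.1 / 2) - cos (p.2 / 2 + π / 3) + 0 := by linarith
    exact this.ne'
  have p2 : ∀ p ∈ ({τ | 1 ≤ |τ|} ×ˢ Icc 0 (4 * π / 3) : Set (ℝ × ℝ)),
      cosh (p.1 / 2) - cos (p.2 / 2 + 2 * π / 3) + 0 ≠ 0 := fun p hp => by
    have := kiiia_args hp.1 (p.2 / 2 + 2 * π / 3)
    have : 0 < cosh (p.1 / 2) - cos (p.2 / 2 + 2 * π / 3) + 0 := by linarith
    exact this.ne'
  have p3 : ∀ p ∈ ({τ | 1 ≤ |τ|} ×ˢ Icc 0 (4 * π / 3) : Set (ℝ × ℝ)),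
      cosh (p.1 / 2) + 1 / 2 + 0 ≠ 0 := fun p _ =>
    (kiiia_ph le_rfl (by norm_num) p.1).ne'
  have p4 : ∀ p ∈ ({τ | 1 ≤ |τ|} ×ˢ Icc 0 (4 * π / 3) : Set (ℝ × ℝ)),
      cosh (p.1 / 2) + 1 + 0 ≠ 0 := fun p _ =>
    (kiiia_ph le_rfl (by norm_num) p.1).ne'
  unfold gH3s
  fun_prop (disch := assumption)

theorem kiiia_kH : Continuous kH3 := by
  have q3 : ∀ τ : ℝ, (cosh (τ / 2) + 1 / 2) ^ 2 ≠ 0 := fun τ => by
    have := kiiia_ph le_rfl (by norm_num : (0 : ℝ) ≤ 1 / 2) τ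
    rw [add_zero] at this
    exact pow_ne_zero 2 this.ne'
  have q4 : ∀ τ : ℝ, cosh (τ / 2) + 1 ≠ 0 := fun τ => by
    have := kiiia_ph le_rfl (by norm_num : (0 : ℝ) ≤ 1) τ
    rw [add_zero] at this
    exact this.ne'
  unfold kH3
  fun_prop (disch := assumption)

theorem kerIII (R : ℝ) (hR : 2 ≤ R) :
    ∃ K0, Ker R (4 * π / 3) (1 / 2) (2 * π / 3) K0 gIII gIIIs gIIIss gIIIt gIIItt rV rH3
      (fun _ => 0) kH3 (gIII 0) (gIIIs 0) := by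
  have hπ := pi_pos
  have hm := kiia_m
  have hM := one_le_cosh (R / 2)
  set m := cosh (1 / 2) - 1 with hmdef
  set M := cosh (R / 2) with hMdef
  have n1 : 0 ≤ 1 / m := by positivity
  have n2 : 0 ≤ M / m ^ 2 := by positivity
  have n3 : 0 ≤ M * (M + 1) ^ 2 + (1 + M) * (2 * M + 3) := by positivity
  have n4 : 4 / m = 4 * (1 / m) := by ring
  have n5 : 6 / m = 6 * (1 / m) := by ring
  have n6 : 2 * M / m ^ 2 = 2 * (M / m ^ 2) := by ring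
  have n7 : 6 * M / m ^ 2 = 6 * (M / m ^ 2) := by ring
  refine ⟨6 / m + 6 * M / m ^ 2 + 2 * M + 3 * (M * (M + 1) ^ 2 + (1 + M) * (2 * M + 3)), ?_⟩
  refine
    { hR := hR
      hx0 := by positivity
      hxb := by linarith
      ha := by norm_num
      hab := by linarith
      hK := by positivity
      d1 := ?_
      d2 := ?_
      d3 := ?_
      d4 := ?_
      c1 := ?_
      c2 := ?_
      c3 := ?_
      c4 := ?_
      c5 := fun ε hε => (kiia_crV hε.1).continuousOn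
      c6 := fun ε hε => (kiiia_crH hε.1).continuousOn
      e0 := ?_
      e1 := ?_
      e2 := ?_
      lapv := ?_
      laph := ?_
      rvl := ?_
      rhl := ?_
      kvc := continuous_const
      khc := kiiia_kH
      gl := ?_
      gsl := ?_
      g0c := ?_
      gs0c := ?_ }
  · intro ε hε τ t _
    by_cases ht : t ≤ 2 * π / 3
    · simp only [gIII, gIIIs, if_pos ht]
      exact kiia_V1 hε.1 τ t
    · simp only [gIII, gIIIs, if_neg ht]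
      exact kiiia_H1 hε.1 τ t
  · intro ε hε τ t _
    by_cases ht : t ≤ 2 * π / 3
    · simp only [gIIIs, gIIIss, if_pos ht]
      exact kiia_V2 hε.1 τ t
    · simp only [gIIIs, gIIIss, if_neg ht]
      exact kiiia_H2 hε.1 τ t
  · intro ε hε τ t _
    exact kiiia_gd (kiia_V3 hε.1 τ) (kiiia_H3 hε.1 τ) (kiiia_m0 ε τ) (kiiia_m3 ε τ) t
  · intro ε hε τ t _ hne
    exact kiiia_gd' (kiia_V4 hε.1 τ) (kiiia_H4 hε.1 τ) t hne
  · intro ε hε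
    exact (kiiia_glue (kiia_cV hε.1) (kiiia_cH hε.1) (kiiia_m0 ε)).continuousOn
  · intro ε hε
    exact (kiiia_glue (kiia_cVs hε.1) (kiiia_cHs hε.1) (kiiia_m1 ε)).continuousOn
  · intro ε hε
    exact (kiiia_glue (kiia_cVss hε.1) (kiiia_cHss hε.1) (kiiia_m2 ε)).continuousOn
  · intro ε hε
    exact (kiiia_glue (kiia_cVt hε.1) (kiiia_cHt hε.1) (kiiia_m3 ε)).continuousOn
  · intro ε hε τ
    have h0 : (0 : ℝ) ≤ 2 * π / 3 := by positivity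
    simp only [gIIIt, if_pos h0, gVt]
    simp
  · intro ε hε τ
    have h0 : ¬ (4 * π / 3 ≤ 2 * π / 3) := by linarith
    simp only [gIIIt, if_neg h0, gH3t]
    rw [kiiia_c0', kiiia_c1', kiiia_c2', kiiia_s0', kiiia_s1', kiiia_s2']
    ring
  · intro ε hε τ
    have h0 : ¬ (4 * π / 3 ≤ 2 * π / 3) := by linarith
    simp only [gIII, if_neg h0, gH3]
    rw [kiiia_c0', kiiia_c1', kiiia_c2']
    simp only [sub_neg_eq_add]
    ring
  · intro ε hε τ t ht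
    have h0 : t ≤ 2 * π / 3 := ht.2.le
    simp only [gIIIss, gIIItt, if_pos h0]
    exact kiia_lapV hε.1 τ t
  · intro ε hε τ t ht
    have h0 : ¬ (t ≤ 2 * π / 3) := not_le.2 ht.1
    simp only [gIIIss, gIIItt, if_neg h0]
    exact kiiia_lapH hε.1 τ t
  · intro ε hε τ hτ t ht
    refine (kiiia_rvl hε.1 hτ ht).trans ?_
    exact mul_le_mul_of_nonneg_right (by linarith) hε.1.le
  · intro ε hε τ hτ t ht
    refine (kiiia_rhl hε.1 hε.2 hτ ht).trans ?_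
    exact mul_le_mul_of_nonneg_right (by linarith) hε.1.le
  · intro ε hε τ hτ h1 t _
    by_cases ht : t ≤ 2 * π / 3
    · simp only [gIII, if_pos ht]
      refine (kiia_glV hε.1.le h1 t).trans ?_
      exact mul_le_mul_of_nonneg_right (by linarith) hε.1.le
    · simp only [gIII, if_neg ht]
      refine (kiiia_glH hε.1.le h1 t).trans ?_
      exact mul_le_mul_of_nonneg_right (by linarith) hε.1.le
  · intro ε hε τ hτ h1 t _
    by_cases ht : t ≤ 2 * π / 3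
    · simp only [gIIIs, if_pos ht]
      refine (kiia_gslV hε.1.le hτ h1 t).trans ?_
      exact mul_le_mul_of_nonneg_right (by linarith) hε.1.le
    · simp only [gIIIs, if_neg ht]
      refine (kiiia_gslH hε.1.le hτ h1 t).trans ?_
      exact mul_le_mul_of_nonneg_right (by linarith) hε.1.le
  · exact kiiia_glueOn (by positivity) (by linarith) (kiiia_sub kiia_onV) kiiia_onH (kiiia_m0 0)
  · exact kiiia_glueOn (by positivity) (by linarith) (kiiia_sub kiia_onVs) kiiia_onHs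
      (kiiia_m1 0)

end Pool.Agent.MML
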