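import Pool.Agent.MML.Defs

/-!
# MML, module Peak: the bump tends to half the Dirac measure on the half strip

Substitute `x = a τ`, `y = a t`: `a = 1`, `Y = a b ≤ π`.  With `A = cosh x + ε`,
`bump 1 ε x y = (4π)⁻¹ ε (cosh x + cos y)/(cosh x - cos y + ε)² = (4π)⁻¹ (∂x (sinh x/(A - cos y)) + ∂y (sin y/(A - cos y)))`.
Mass on `|x| ≤ X`, `0 ≤ y ≤ π`: the `y` part vanishes (`sin 0 = sin π = 0`), the `x` part is
`(4π)⁻¹ · 2 sinh X ∫_0^π dy/(cosh X + ε - cos y) = (4π)⁻¹ · 2 sinh X · π/√((cosh X + ε)² - 1) → 1/2` as `ε → 0`.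
(`∫_0^π dy/(A - cos y) = π/√(A²-1)` for `A > 1`: for instance, mean value property of `(1 + r z)/(1 - r z)` on the unit
circle, `A = (1 + r²)/(2 r)`.)
Away from the origin (`cosh x - cos y ≥ δ'`) the bump is at most `(4π)⁻¹ ε (cosh X + 1)/δ'²`, so it tends to `0` uniformly,
and on the rectangle with `Y < π` the mass also tends to `1/2`.  The bump is nonnegative for `0 ≤ y ≤ π`.  Then the usual
argument for peak functions (continuity of `φ` at `(0,0)`, `φ` bounded on the rectangle).
-/

set_option autoImplicit false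

namespace Pool.Agent.MML

open Real MeasureTheory Set Filter Topology

private theorem den_pos {a ε τ t : ℝ} (hε : 0 < ε) :
    0 < cosh (a * τ) - cos (a * t) + ε := by
  have h1 := Real.one_le_cosh (a * τ)
  have h2 := Real.cos_le_one (a * t)
  linarith

private theorem num_nonneg {a τ t : ℝ} : 0 ≤ cosh (a * τ) + cos (a * t) := by
  have h1 := Real.one_le_cosh (a * τ)
  have h2 := Real.neg_one_le_cos (a * t)
  linarith

private theorem bump_nn {a ε τ t : ℝ} (hε : 0 < ε) : 0 ≤ bump a ε τ t := by
  unfold bump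
  have h1 := @num_nonneg a τ t
  have hpi := Real.pi_pos
  positivity

theorem bump_nonneg {a ε τ t b : ℝ} (ha : 0 < a) (hab : a * b ≤ π) (hε : 0 < ε)
    (ht : t ∈ Icc 0 b) : 0 ≤ bump a ε τ t := bump_nn hε

private theorem bump_cont {a ε : ℝ} (hε : 0 < ε) :
    Continuous (fun p : ℝ × ℝ => bump a ε p.1 p.2) := by
  unfold bump
  refine Continuous.div (by fun_prop) (by fun_prop) (fun p => ?_)
  have := @den_pos a ε p.1 p.2 hε
  positivity

/-- the part which is a derivative in the first variable -/
private noncomputable def PP (a ε τ t : ℝ) : ℝ :=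
  (a * cosh (a * τ) * (cosh (a * τ) - cos (a * t) + ε) - sinh (a * τ) * (a * sinh (a * τ)))
    / (cosh (a * τ) - cos (a * t) + ε) ^ 2

private noncomputable def QQ (a ε τ t : ℝ) : ℝ :=
  (a * cos (a * t) * (cosh (a * τ) - cos (a * t) + ε) - sin (a * t) * (a * sin (a * t)))
    / (cosh (a * τ) - cos (a * t) + ε) ^ 2

private theorem bump_eq {a ε τ t : ℝ} (hε : 0 < ε) :
    bump a ε τ t = a / (4 * π) * (PP a ε τ t + QQ a ε τ t) := by
  have h := @den_pos a ε τ t hε
  have hpi := Real.pi_pos
  have h1 : cosh (a * τ) ^ 2 = sinh (a * τ) ^ 2 + 1 := Real.cosh_sq (a * τ)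
  have h2 : sin (a * t) ^ 2 + cos (a * t) ^ 2 = 1 := Real.sin_sq_add_cos_sq (a * t)
  unfold bump PP QQ
  rw [← add_div, div_mul_eq_mul_div, div_mul_eq_mul_div, mul_div_assoc', div_div, div_div]
  have h3 : sinh (a * τ) ^ 2 = cosh (a * τ) ^ 2 - 1 := by linarith
  have h4 : sin (a * t) ^ 2 = 1 - cos (a * t) ^ 2 := by linarith
  congr 1
  · linear_combination (a ^ 2) * h3 + (a ^ 2) * h4
  · ring

private theorem hasDerivP {a ε τ t : ℝ} (hε : 0 < ε) :
    HasDerivAt (fun x => sinh (a * x) / (cosh (a * x) - cos (a * t) + ε)) (PP a ε τ t) τ := by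
  have h := @den_pos a ε τ t hε
  have h1 : HasDerivAt (fun x => sinh (a * x)) (a * cosh (a * τ)) τ := by
    have := (Real.hasDerivAt_sinh (a * τ)).comp τ ((hasDerivAt_id τ).const_mul a)
    exact this.congr_deriv (by ring)
  have h2 : HasDerivAt (fun x => cosh (a * x) - cos (a * t) + ε) (a * sinh (a * τ)) τ := by
    have := ((Real.hasDerivAt_cosh (a * τ)).comp τ ((hasDerivAt_id τ).const_mul a)).sub_const
      (cos (a * t)) |>.add_const ε
    exact this.congr_deriv (by ring)
  exact h1.div h2 h.ne'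

private theorem hasDerivQ {a ε τ t : ℝ} (hε : 0 < ε) :
    HasDerivAt (fun x => sin (a * x) / (cosh (a * τ) - cos (a * x) + ε)) (QQ a ε τ t) t := by
  have h := @den_pos a ε τ t hε
  have h1 : HasDerivAt (fun x => sin (a * x)) (a * cos (a * t)) t := by
    have := (Real.hasDerivAt_sin (a * t)).comp t ((hasDerivAt_id t).const_mul a)
    exact this.congr_deriv (by ring)
  have h2 : HasDerivAt (fun x => cosh (a * τ) - cos (a * x) + ε) (a * sin (a * t)) t := by
    have := ((Real.hasDerivAt_cos (a * t)).comp t ((hasDerivAt_id t).const_mul a)).const_sub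
      (cosh (a * τ)) |>.add_const ε
    exact this.congr_deriv (by ring)
  exact h1.div h2 h.ne'

private theorem PP_cont {a ε : ℝ} (hε : 0 < ε) :
    Continuous (fun p : ℝ × ℝ => PP a ε p.1 p.2) := by
  unfold PP
  refine Continuous.div (by fun_prop) (by fun_prop) (fun p => ?_)
  have := @den_pos a ε p.1 p.2 hε
  positivity

private theorem QQ_cont {a ε : ℝ} (hε : 0 < ε) :
    Continuous (fun p : ℝ × ℝ => QQ a ε p.1 p.2) := by
  unfold QQ
  refine Continuous.div (by fun_prop) (by fun_prop) (fun p => ?_)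
  have := @den_pos a ε p.1 p.2 hε
  positivity

/-- the Poisson integral -/
private theorem poisson {a A : ℝ} (ha : 0 < a) (hA : 1 < A) :
    ∫ t in (0 : ℝ)..(π / a), 1 / (A - cos (a * t)) = π / (a * √(A ^ 2 - 1)) := by
  set s := √(A ^ 2 - 1) with hs
  have hs0 : 0 < s := Real.sqrt_pos.2 (by nlinarith)
  have hs2 : s ^ 2 = A ^ 2 - 1 := Real.sq_sqrt (by nlinarith)
  set c := A + s with hc
  have hden : ∀ t, 0 < A - cos (a * t) := fun t => by
    have := Real.cos_le_one (a * t); linarith
  have hdc : ∀ t, 0 < c - cos (a * t) := fun t => by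
    have := hden t; linarith
  have hder : ∀ t, HasDerivAt (fun x => x / s + 2 / (a * s) * arctan (sin (a * x) / (c - cos (a * x))))
      (1 / (A - cos (a * t))) t := by
    intro t
    have h1 : HasDerivAt (fun x => sin (a * x)) (a * cos (a * t)) t := by
      have := (Real.hasDerivAt_sin (a * t)).comp t ((hasDerivAt_id t).const_mul a)
      exact this.congr_deriv (by ring)
    have h2 : HasDerivAt (fun x => c - cos (a * x)) (a * sin (a * t)) t := by
      have := ((Real.hasDerivAt_cos (a * t)).comp t ((hasDerivAt_id t).const_mul a)).const_sub c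
      exact this.congr_deriv (by ring)
    have h3 := (((hasDerivAt_id t).div_const s).add (((h1.div h2 (hdc t).ne').arctan).const_mul
      (2 / (a * s))))
    refine h3.congr_deriv ?_
    have h4 : sin (a * t) ^ 2 = 1 - cos (a * t) ^ 2 := by
      have := Real.sin_sq_add_cos_sq (a * t); linarith
    have hx := hden t
    have hy := hdc t
    have hq : (c - cos (a * t)) ^ 2 + sin (a * t) ^ 2 = 2 * c * (A - cos (a * t)) := by
      rw [h4]
      have : c ^ 2 + 1 = 2 * A * c := by
        rw [hc]; nlinarith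
      nlinarith
    have hcpos : 0 < c := by rw [hc]; linarith
    have e1 : (a * cos (a * t) * (c - cos (a * t)) - sin (a * t) * (a * sin (a * t)))
        / (c - cos (a * t)) ^ 2 = a * (c * cos (a * t) - 1) / (c - cos (a * t)) ^ 2 := by
      congr 1
      linear_combination (-a) * h4
    have e2 : 1 + (sin (a * t) / (c - cos (a * t))) ^ 2
        = 2 * c * (A - cos (a * t)) / (c - cos (a * t)) ^ 2 := by
      rw [← hq]
      field_simp
    simp only [Pi.div_apply]
    rw [e1, e2]
    field_simp
    have : c * (A - s) = 1 := by rw [hc]; nlinarith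
    nlinarith
  have hI : IntervalIntegrable (fun t => 1 / (A - cos (a * t))) volume 0 (π / a) := by
    apply Continuous.intervalIntegrable
    exact Continuous.div continuous_const (by fun_prop) (fun t => (hden t).ne')
  rw [intervalIntegral.integral_eq_sub_of_hasDerivAt (fun t _ => hder t) hI]
  have e1 : a * (π / a) = π := by field_simp
  rw [e1]
  simp
  field_simp

private theorem mass {a R ε : ℝ} (ha : 0 < a) (hR : 0 < R) (hε : 0 < ε) :
    ∫ τ in (-R)..R, ∫ t in (0 : ℝ)..(π / a), bump a ε τ t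
      = sinh (a * R) / (2 * √((cosh (a * R) + ε) ^ 2 - 1)) := by
  have hpi := Real.pi_pos
  have hP := @PP_cont a ε hε
  have hQ := @QQ_cont a ε hε
  have e1 : ∀ τ, ∫ t in (0 : ℝ)..(π / a), bump a ε τ t
      = a / (4 * π) * ∫ t in (0 : ℝ)..(π / a), PP a ε τ t := by
    intro τ
    have hPt : Continuous (fun t => PP a ε τ t) := by
      have := hP.comp (Continuous.prodMk (continuous_const (y := τ)) continuous_id)
      exact this
    have hQt : Continuous (fun t => QQ a ε τ t) := by
      have := hQ.comp (Continuous.prodMk (continuous_const (y := τ)) continuous_id)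
      exact this
    have : ∀ t, bump a ε τ t = a / (4 * π) * (PP a ε τ t + QQ a ε τ t) := fun t => bump_eq hε
    simp_rw [this]
    rw [intervalIntegral.integral_const_mul, intervalIntegral.integral_add
      (hPt.intervalIntegrable _ _) (hQt.intervalIntegrable _ _)]
    have hz : ∫ t in (0 : ℝ)..(π / a), QQ a ε τ t = 0 := by
      have hd : ∀ t ∈ uIcc 0 (π / a), HasDerivAt
          (fun x => sin (a * x) / (cosh (a * τ) - cos (a * x) + ε)) (QQ a ε τ t) t :=
        fun t _ => hasDerivQ hε
      rw [intervalIntegral.integral_eq_sub_of_hasDerivAt hd (hQt.intervalIntegrable _ _)]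
      have e1 : a * (π / a) = π := by field_simp
      rw [e1]
      simp
    rw [hz, add_zero]
  simp_rw [e1]
  rw [intervalIntegral.integral_const_mul]
  rw [intervalIntegral_intervalIntegral_swap]
  · have e2 : ∀ t, ∫ τ in (-R)..R, PP a ε τ t
        = 2 * sinh (a * R) * (1 / ((cosh (a * R) + ε) - cos (a * t))) := by
      intro t
      have hPt : Continuous (fun τ => PP a ε τ t) := by
        have := hP.comp (Continuous.prodMk continuous_id (continuous_const (y := t)))
        exact this
      have hd : ∀ τ ∈ uIcc (-R) R, HasDerivAt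
          (fun x => sinh (a * x) / (cosh (a * x) - cos (a * t) + ε)) (PP a ε τ t) τ :=
        fun τ _ => hasDerivP hε
      rw [intervalIntegral.integral_eq_sub_of_hasDerivAt hd (hPt.intervalIntegrable _ _)]
      have e3 : a * (-R) = -(a * R) := by ring
      rw [e3, Real.sinh_neg, Real.cosh_neg]
      have h := @den_pos a ε R t hε
      have h' : (cosh (a * R) + ε) - cos (a * t) = cosh (a * R) - cos (a * t) + ε := by ring
      rw [h']
      field_simp
      ring
    simp_rw [e2]
    rw [intervalIntegral.integral_const_mul, poisson ha]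
    · field_simp
      ring
    · have := Real.one_le_cosh (a * R)
      linarith
  · have hc : IntegrableOn (Function.uncurry fun x t => PP a ε x t) (uIcc (-R) R ×ˢ uIcc 0 (π / a)) := by
      apply ContinuousOn.integrableOn_compact
      · exact isCompact_uIcc.prod isCompact_uIcc
      · exact hP.continuousOn
    exact hc.mono_set (Set.prod_mono uIoc_subset_uIcc uIoc_subset_uIcc)

private theorem mass_lim {a R : ℝ} (ha : 0 < a) (hR : 0 < R) :
    Tendsto (fun ε : ℝ => sinh (a * R) / (2 * √((cosh (a * R) + ε) ^ 2 - 1))) (𝓝[>] 0)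
      (𝓝 (1 / 2)) := by
  have hs : 0 < sinh (a * R) := Real.sinh_pos_iff.2 (by positivity)
  have h0 : √((cosh (a * R) + 0) ^ 2 - 1) = sinh (a * R) := by
    rw [add_zero, Real.cosh_sq]
    have : sinh (a * R) ^ 2 + 1 - 1 = sinh (a * R) ^ 2 := by ring
    rw [this, Real.sqrt_sq hs.le]
  have hc : ContinuousAt (fun ε : ℝ => sinh (a * R) / (2 * √((cosh (a * R) + ε) ^ 2 - 1))) 0 := by
    apply ContinuousAt.div continuousAt_const (by fun_prop)
    rw [h0]
    positivity
  have := hc.tendsto
  simp only [h0] at this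
  have e : sinh (a * R) / (2 * sinh (a * R)) = 1 / 2 := by field_simp
  rw [e] at this
  exact this.mono_left nhdsWithin_le_nhds

private theorem cc_pos {a τ t : ℝ} (ha : 0 < a) (ht : t ∈ Icc 0 (π / a)) (hne : (τ, t) ≠ (0, 0)) :
    0 < cosh (a * τ) - cos (a * t) := by
  by_cases hτ : τ = 0
  · have ht0 : 0 < t := by
      rcases ht.1.lt_or_eq with h | h
      · exact h
      · exact absurd (by rw [hτ, ← h]) hne
    have h1 : a * t ≤ π := by
      have := mul_le_mul_of_nonneg_left ht.2 ha.le
      have e1 : a * (π / a) = π := by field_simp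
      rwa [e1] at this
    have h2 : cos (a * t) < cos 0 :=
      Real.cos_lt_cos_of_nonneg_of_le_pi le_rfl h1 (by positivity)
    rw [Real.cos_zero] at h2
    have := Real.one_le_cosh (a * τ)
    linarith
  · have h1 : 1 < cosh (a * τ) := Real.one_lt_cosh.2 (by positivity)
    have := Real.cos_le_one (a * t)
    linarith

theorem peak (R b a : ℝ) (hR : 0 < R) (hb : 0 < b) (ha : 0 < a) (hab : a * b ≤ π)
    (φ : ℝ → ℝ → ℝ) (hφ : Continuous (fun p : ℝ × ℝ => φ p.1 p.2)) :
    Tendsto (fun ε : ℝ => ∫ τ in (-R)..R, ∫ t in (0 : ℝ)..b, bump a ε τ t * φ τ t)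
      (𝓝[>] 0) (𝓝 (φ 0 0 / 2)) := by
  have hpi := Real.pi_pos
  set B := π / a with hB
  have hbB : b ≤ B := by rw [hB, le_div_iff₀ ha]; linarith
  set s : Set (ℝ × ℝ) := Icc (-R) R ×ˢ Icc 0 B with hs
  have hsm : MeasurableSet s := measurableSet_Icc.prod measurableSet_Icc
  have hsc : IsCompact s := isCompact_Icc.prod isCompact_Icc
  set g : ℝ × ℝ → ℝ := (univ ×ˢ Iic b).indicator (fun p => φ p.1 p.2) with hg
  have hsint : ∀ f : ℝ × ℝ → ℝ, Continuous f → ∀ c : ℝ, 0 ≤ c →
      ∫ p in Icc (-R) R ×ˢ Icc 0 c, f p = ∫ τ in (-R)..R, ∫ t in (0 : ℝ)..c, f (τ, t) := by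
    intro f hf c hc
    have hint : IntegrableOn f (Icc (-R) R ×ˢ Icc 0 c) :=
      hf.continuousOn.integrableOn_compact (isCompact_Icc.prod isCompact_Icc)
    rw [Measure.volume_eq_prod] at hint ⊢
    rw [setIntegral_prod _ hint]
    rw [intervalIntegral.integral_of_le (by linarith), integral_Icc_eq_integral_Ioc]
    apply setIntegral_congr_fun measurableSet_Ioc
    intro τ _
    simp only
    rw [intervalIntegral.integral_of_le hc, integral_Icc_eq_integral_Ioc]
  have key := tendsto_setIntegral_peak_smul_of_integrableOn_of_tendsto (μ := (volume : Measure (ℝ × ℝ)))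
    (l := 𝓝[>] (0 : ℝ)) (φ := fun ε p => 2 * bump a ε p.1 p.2) (x₀ := ((0 : ℝ), (0 : ℝ)))
    (s := s) (t := s) (g := g) (a := φ 0 0) hsm hsm subset_rfl self_mem_nhdsWithin
    hsc.measure_lt_top.ne ?_ ?_ ?_ ?_ ?_ ?_
  · have h2 := key.div_const 2
    refine h2.congr' ?_
    filter_upwards [self_mem_nhdsWithin] with ε hε
    have hε' : 0 < ε := hε
    have hcont : Continuous (fun p : ℝ × ℝ => bump a ε p.1 p.2 * φ p.1 p.2) :=
      (bump_cont hε').mul hφ
    rw [← hsint (fun p => bump a ε p.1 p.2 * φ p.1 p.2) hcont b hb.le]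
    have e1 : (fun p : ℝ × ℝ => (2 * bump a ε p.1 p.2) • g p)
        = (univ ×ˢ Iic b).indicator (fun p => 2 * (bump a ε p.1 p.2 * φ p.1 p.2)) := by
      funext p
      simp only [hg, indicator]
      split_ifs
      · simp only [smul_eq_mul]; ring
      · simp
    rw [e1, setIntegral_indicator (MeasurableSet.univ.prod measurableSet_Iic)]
    have e2 : s ∩ (univ ×ˢ Iic b) = Icc (-R) R ×ˢ Icc 0 b := by
      ext p
      simp only [hs, mem_inter_iff, mem_prod, mem_Icc, mem_univ, mem_Iic, true_and]
      constructor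
      · rintro ⟨⟨h1, h2⟩, h3⟩
        exact ⟨h1, h2.1, h3⟩
      · rintro ⟨h1, h2⟩
        exact ⟨⟨h1, h2.1, h2.2.trans hbB⟩, h2.2⟩
    rw [e2, integral_const_mul]
    ring
  · filter_upwards [self_mem_nhdsWithin] with ε hε p _
    have := @bump_nn a ε p.1 p.2 hε
    positivity
  · intro u hu hxu
    by_cases hne : (s \ u).Nonempty
    · have hcomp : IsCompact (s \ u) := hsc.diff hu
      have hcc : ContinuousOn (fun p : ℝ × ℝ => cosh (a * p.1) - cos (a * p.2)) (s \ u) := by
        fun_prop
      obtain ⟨p0, hp0, hmin⟩ := hcomp.exists_isMinOn hne hcc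
      set m := cosh (a * p0.1) - cos (a * p0.2) with hm
      have hmpos : 0 < m := by
        apply cc_pos ha hp0.1.2
        intro h
        apply hp0.2
        have : p0 = (0, 0) := h
        rw [this]; exact hxu
      rw [Metric.tendstoUniformlyOn_iff]
      intro δ hδ
      set K := 2 * (a ^ 2 / (4 * π) * (cosh (a * R) + 1)) / m ^ 2 with hK
      have hKpos : 0 < K := by
        have := Real.one_le_cosh (a * R)
        positivity
      have hev : ∀ᶠ ε : ℝ in 𝓝[>] 0, ε < δ / K := by
        have : Iio (δ / K) ∈ 𝓝 (0 : ℝ) := Iio_mem_nhds (by positivity)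
        exact mem_nhdsWithin_of_mem_nhds this
      filter_upwards [self_mem_nhdsWithin, hev] with ε hε hε2 p hp
      have hε' : 0 < ε := hε
      simp only [Pi.zero_apply]
      rw [dist_comm, dist_zero_right, Real.norm_eq_abs]
      have hnn := @bump_nn a ε p.1 p.2 hε'
      rw [abs_of_nonneg (by positivity)]
      have hmp : m ≤ cosh (a * p.1) - cos (a * p.2) := hmin hp
      have hch : cosh (a * p.1) ≤ cosh (a * R) := by
        rw [Real.cosh_le_cosh, abs_mul, abs_mul]
        have : |p.1| ≤ |R| := by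
          rw [abs_of_pos hR]
          exact abs_le.2 ⟨hp.1.1.1, hp.1.1.2⟩
        gcongr
      have hco := Real.cos_le_one (a * p.2)
      have hbd : 2 * bump a ε p.1 p.2 ≤ K * ε := by
        unfold bump
        have hnum := @num_nonneg a p.1 p.2
        have hden : m ^ 2 ≤ (cosh (a * p.1) - cos (a * p.2) + ε) ^ 2 := by
          apply pow_le_pow_left₀ hmpos.le
          linarith
        have : a ^ 2 / (4 * π) * (ε * (cosh (a * p.1) + cos (a * p.2)))
            / (cosh (a * p.1) - cos (a * p.2) + ε) ^ 2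
            ≤ a ^ 2 / (4 * π) * (ε * (cosh (a * R) + 1)) / m ^ 2 := by
          gcongr
        calc 2 * (a ^ 2 / (4 * π) * (ε * (cosh (a * p.1) + cos (a * p.2)))
            / (cosh (a * p.1) - cos (a * p.2) + ε) ^ 2)
            ≤ 2 * (a ^ 2 / (4 * π) * (ε * (cosh (a * R) + 1)) / m ^ 2) := by gcongr
          _ = K * ε := by rw [hK]; field_simp
      calc 2 * bump a ε p.1 p.2 ≤ K * ε := hbd
        _ < K * (δ / K) := by gcongr
        _ = δ := by field_simp
    · rw [not_nonempty_iff_eq_empty] at hne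
      rw [hne]
      exact tendstoUniformlyOn_empty
  · have h2 : Tendsto (fun ε : ℝ => 2 * (sinh (a * R) / (2 * √((cosh (a * R) + ε) ^ 2 - 1))))
        (𝓝[>] 0) (𝓝 (2 * (1 / 2))) := (mass_lim ha hR).const_mul 2
    rw [show (2 : ℝ) * (1 / 2) = 1 by norm_num] at h2
    refine h2.congr' ?_
    filter_upwards [self_mem_nhdsWithin] with ε hε
    have hε' : 0 < ε := hε
    rw [integral_const_mul, hs, hsint (fun p => bump a ε p.1 p.2) (bump_cont hε') B
      (by positivity), hB, mass ha hR hε']
  · filter_upwards [self_mem_nhdsWithin] with ε hε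
    exact ((bump_cont hε).const_mul 2).aestronglyMeasurable
  · apply Integrable.indicator
    · exact hφ.continuousOn.integrableOn_compact hsc
    · exact MeasurableSet.univ.prod measurableSet_Iic
  · have h1 : Tendsto (fun p : ℝ × ℝ => φ p.1 p.2) (𝓝[s] (0, 0)) (𝓝 (φ 0 0)) :=
      (hφ.tendsto (0, 0)).mono_left nhdsWithin_le_nhds
    refine h1.congr' ?_
    have : (univ ×ˢ Iic b : Set (ℝ × ℝ)) ∈ 𝓝 ((0 : ℝ), (0 : ℝ)) :=
      prod_mem_nhds univ_mem (Iic_mem_nhds hb)
    filter_upwards [mem_nhdsWithin_of_mem_nhds this] with p hp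
    rw [hg, indicator_of_mem hp]

end Pool.Agent.MML
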