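import Pool.Agent.MML.KerEps
import Pool.Agent.MML.Peak

/-!
# MML, module KerLim: limit `ε → 0` in the kernel identity

`ker_part_lim`: the second integral on the left of `ker_eps` tends to `kerPart R b x1 kv kh g0 gs0 W`: for `|τ| ≤ R` the
integrands differ by at most `C K0 ε` times `sup |W|` (`rvl`, `rhl`, and, as `chi1`, `chi2` vanish for `|τ| ≤ 1`, `gl`, `gsl`
for `1 ≤ |τ| ≤ R`).
The first integral on the left tends to `chi R 0 * W 0 0/2 = W 0 0/2` (`peak` with `φ τ t = chi R τ * W τ t`).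
`ker_ineq`: `Wt τ 0 = 0`, `-g ε ≤ h` for `τ ≠ 0`, `0 ≤ Wss + Wtt`:
`- ∫ chi ∫ g (Wss + Wtt) ≤ ∫ chi h ∫ (Wss + Wtt)` for each `ε`, then `ε → 0`.
`ker_id`: harmonic `W` with `Wt τ 0 = 0`.
`ker_id2`: harmonic `W` with `W 0 0 = 0`; the last integral of `ker_eps` tends to `∫ chi g00 Wt` by dominated convergence.
-/

set_option autoImplicit false

namespace Pool.Agent.MML

open Real MeasureTheory Set Filter Topology

/-- continuity of a parametric integral over a part of `[0, b]` -/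
theorem kl_cont_param {b : ℝ} (hb : 0 ≤ b) {k W : ℝ → ℝ → ℝ}
    (hk : ContinuousOn (fun p : ℝ × ℝ => k p.1 p.2) (univ ×ˢ Icc 0 b))
    (hW : Continuous (fun p : ℝ × ℝ => W p.1 p.2)) {u v : ℝ} (hu : u ∈ Icc 0 b)
    (hv : v ∈ Icc 0 b) : Continuous fun τ => ∫ t in u..v, k τ t * W τ t := by
  have h1 : Continuous (fun p : ℝ × ℝ => k p.1 (max 0 (min p.2 b)) * W p.1 p.2) := by
    refine Continuous.mul ?_ hW
    have h0 : (fun p : ℝ × ℝ => k p.1 (max 0 (min p.2 b))) =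
      (fun p : ℝ × ℝ => k p.1 p.2) ∘ (fun p : ℝ × ℝ => (p.1, max 0 (min p.2 b))) := rfl
    rw [h0]
    refine hk.comp_continuous (by fun_prop) ?_
    intro p
    exact ⟨mem_univ _, le_max_left _ _, max_le hb (min_le_right _ _)⟩
  have h2 := intervalIntegral.continuous_parametric_intervalIntegral_of_continuous'
    (f := fun τ t => k τ (max 0 (min t b)) * W τ t) h1 u v (μ := volume)
  refine h2.congr fun τ => ?_
  refine intervalIntegral.integral_congr fun t ht => ?_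
  have h3 : t ∈ Icc 0 b := by
    have h4 : uIcc u v ⊆ Icc 0 b := by
      rw [← uIcc_of_le hb] at hu hv ⊢
      exact uIcc_subset_uIcc hu hv
    exact h4 ht
  show k τ (max 0 (min t b)) * W τ t = k τ t * W τ t
  rw [min_eq_left h3.2, max_eq_right h3.1]

theorem kl_slice {b : ℝ} {k : ℝ → ℝ → ℝ}
    (hk : ContinuousOn (fun p : ℝ × ℝ => k p.1 p.2) (univ ×ˢ Icc 0 b)) (τ : ℝ) :
    ContinuousOn (fun t => k τ t) (Icc 0 b) := by
  have h0 : (fun t => k τ t) = (fun p : ℝ × ℝ => k p.1 p.2) ∘ (fun t : ℝ => (τ, t)) := rfl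
  rw [h0]
  exact hk.comp (by fun_prop) fun t ht => ⟨mem_univ _, ht⟩

theorem kl_diff_bd {u v δ C : ℝ} (huv : u ≤ v) {f f0 w : ℝ → ℝ} (hf : ContinuousOn f (Icc u v))
    (hf0 : ContinuousOn f0 (Icc u v)) (hw : ContinuousOn w (Icc u v))
    (h : ∀ t ∈ Icc u v, |f t - f0 t| ≤ δ) (hC : ∀ t ∈ Icc u v, |w t| ≤ C) (hδ : 0 ≤ δ) :
    |(∫ t in u..v, f t * w t) - ∫ t in u..v, f0 t * w t| ≤ δ * C * (v - u) := by
  have i1 : IntervalIntegrable (fun t => f t * w t) volume u v :=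
    (hf.mul hw).intervalIntegrable_of_Icc huv
  have i2 : IntervalIntegrable (fun t => f0 t * w t) volume u v :=
    (hf0.mul hw).intervalIntegrable_of_Icc huv
  rw [← intervalIntegral.integral_sub i1 i2]
  have h1 := intervalIntegral.norm_integral_le_of_norm_le_const (a := u) (b := v)
    (f := fun t => f t * w t - f0 t * w t) (C := δ * C) (by
      intro t ht
      rw [uIoc_of_le huv] at ht
      have ht' : t ∈ Icc u v := ⟨ht.1.le, ht.2⟩
      rw [← sub_mul, Real.norm_eq_abs, abs_mul]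
      exact mul_le_mul (h t ht') (hC t ht') (abs_nonneg _) hδ)
  rw [Real.norm_eq_abs, abs_of_nonneg (sub_nonneg.2 huv)] at h1
  exact h1

variable {R b a x1 K0 : ℝ} {g gs gss gt gtt rv rh : ℝ → ℝ → ℝ → ℝ} {kv kh : ℝ → ℝ}
    {g0 gs0 : ℝ → ℝ → ℝ}

/-- the integrand of the second integral of `ker_eps` -/
noncomputable def klF (R b x1 : ℝ) (g gs rv rh : ℝ → ℝ → ℝ → ℝ) (W : ℝ → ℝ → ℝ) (ε τ : ℝ) : ℝ :=
  chi R τ * ((∫ t in (0 : ℝ)..x1, rv ε τ t * W τ t) + ∫ t in x1..b, rh ε τ t * W τ t)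
    + ∫ t in (0 : ℝ)..b, (2 * chi1 R τ * gs ε τ t + chi2 R τ * g ε τ t) * W τ t

/-- the integrand of `kerPart` -/
noncomputable def klF0 (R b x1 : ℝ) (kv kh : ℝ → ℝ) (g0 gs0 : ℝ → ℝ → ℝ) (W : ℝ → ℝ → ℝ)
    (τ : ℝ) : ℝ :=
  chi R τ * (kv τ * (∫ t in (0 : ℝ)..x1, W τ t) + kh τ * ∫ t in x1..b, W τ t)
    + ∫ t in (0 : ℝ)..b, (2 * chi1 R τ * gs0 τ t + chi2 R τ * g0 τ t) * W τ t

theorem klF_cont (hk : Ker R b a x1 K0 g gs gss gt gtt rv rh kv kh g0 gs0) {W : ℝ → ℝ → ℝ}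
    (hW : Continuous (fun p : ℝ × ℝ => W p.1 p.2)) {ε : ℝ} (hε : ε ∈ Ioc (0 : ℝ) 1) :
    Continuous (klF R b x1 g gs rv rh W ε) := by
  have hb : 0 ≤ b := hk.hx0.le.trans hk.hxb
  obtain ⟨c0, c1, c2⟩ := chi_cont hk.hR
  have m0 : (0 : ℝ) ∈ Icc 0 b := ⟨le_rfl, hb⟩
  have m1 : x1 ∈ Icc 0 b := ⟨hk.hx0.le, hk.hxb⟩
  have m2 : b ∈ Icc 0 b := ⟨hb, le_rfl⟩
  unfold klF
  refine (c0.mul ((kl_cont_param hb (hk.c5 ε hε) hW m0 m1).add
    (kl_cont_param hb (hk.c6 ε hε) hW m1 m2))).add ?_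
  refine kl_cont_param (k := fun τ t => 2 * chi1 R τ * gs ε τ t + chi2 R τ * g ε τ t) hb ?_ hW
    m0 m2
  have d1 : ContinuousOn (fun p : ℝ × ℝ => chi1 R p.1) (univ ×ˢ Icc 0 b) :=
    (c1.comp continuous_fst).continuousOn
  have d2 : ContinuousOn (fun p : ℝ × ℝ => chi2 R p.1) (univ ×ˢ Icc 0 b) :=
    (c2.comp continuous_fst).continuousOn
  exact ((continuousOn_const.mul d1).mul (hk.c2 ε hε)).add (d2.mul (hk.c1 ε hε))

theorem kl_bound (R b : ℝ) {W : ℝ → ℝ → ℝ} (hW : Continuous (fun p : ℝ × ℝ => W p.1 p.2)) :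
    ∃ C : ℝ, 0 ≤ C ∧ ∀ τ ∈ Icc (-R) R, ∀ t ∈ Icc 0 b, |W τ t| ≤ C := by
  have hc : IsCompact ((Icc (-R) R) ×ˢ (Icc 0 b) : Set (ℝ × ℝ)) := isCompact_Icc.prod isCompact_Icc
  obtain ⟨C, hC⟩ := hc.exists_bound_of_continuousOn hW.continuousOn
  refine ⟨max C 0, le_max_right _ _, fun τ hτ t ht => ?_⟩
  exact (hC (τ, t) ⟨hτ, ht⟩).trans (le_max_left _ _)

theorem klF_sub (hk : Ker R b a x1 K0 g gs gss gt gtt rv rh kv kh g0 gs0) {W : ℝ → ℝ → ℝ}
    (hW : Continuous (fun p : ℝ × ℝ => W p.1 p.2)) {C : ℝ} (hC0 : 0 ≤ C)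
    (hC : ∀ τ ∈ Icc (-R) R, ∀ t ∈ Icc 0 b, |W τ t| ≤ C) {ε : ℝ} (hε : ε ∈ Ioc (0 : ℝ) 1)
    {τ : ℝ} (hτ : τ ∈ Icc (-R) R) :
    |klF R b x1 g gs rv rh W ε τ - klF0 R b x1 kv kh g0 gs0 W τ| ≤ 44 * K0 * C * b * ε := by
  have hR := hk.hR
  have hb : 0 ≤ b := hk.hx0.le.trans hk.hxb
  have hK := hk.hK
  have hWs : ContinuousOn (fun t => W τ t) (Icc 0 b) :=
    (hW.comp (Continuous.prodMk_right τ)).continuousOn
  have s1 : Icc 0 x1 ⊆ Icc 0 b := Icc_subset_Icc le_rfl hk.hxb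
  have s2 : Icc x1 b ⊆ Icc 0 b := Icc_subset_Icc hk.hx0.le le_rfl
  have habs : |τ| ≤ R := abs_le.2 hτ
  have hKε : 0 ≤ K0 * ε := mul_nonneg hK hε.1.le
  have e1 : |(∫ t in (0 : ℝ)..x1, rv ε τ t * W τ t) - ∫ t in (0 : ℝ)..x1, kv τ * W τ t| ≤
      K0 * ε * C * (x1 - 0) :=
    kl_diff_bd hk.hx0.le ((kl_slice (hk.c5 ε hε) τ).mono s1) continuousOn_const (hWs.mono s1)
      (fun t ht => hk.rvl ε hε τ hτ t ht) (fun t ht => hC τ hτ t (s1 ht)) hKε
  have e2 : |(∫ t in x1..b, rh ε τ t * W τ t) - ∫ t in x1..b, kh τ * W τ t| ≤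
      K0 * ε * C * (b - x1) :=
    kl_diff_bd hk.hxb ((kl_slice (hk.c6 ε hε) τ).mono s2) continuousOn_const (hWs.mono s2)
      (fun t ht => hk.rhl ε hε τ hτ t ht) (fun t ht => hC τ hτ t (s2 ht)) hKε
  have e3 : |(∫ t in (0 : ℝ)..b, (2 * chi1 R τ * gs ε τ t + chi2 R τ * g ε τ t) * W τ t) -
      ∫ t in (0 : ℝ)..b, (2 * chi1 R τ * gs0 τ t + chi2 R τ * g0 τ t) * W τ t| ≤
      42 * (K0 * ε) * C * (b - 0) := by
    rcases le_or_gt 1 |τ| with h1 | h1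
    · have hs0 : ContinuousOn (fun t => gs0 τ t) (Icc 0 b) := by
        have h0 : (fun t => gs0 τ t) = (fun p : ℝ × ℝ => gs0 p.1 p.2) ∘ (fun t : ℝ => (τ, t)) := rfl
        rw [h0]
        exact hk.gs0c.comp (by fun_prop) fun t ht => ⟨h1, ht⟩
      have hg0 : ContinuousOn (fun t => g0 τ t) (Icc 0 b) := by
        have h0 : (fun t => g0 τ t) = (fun p : ℝ × ℝ => g0 p.1 p.2) ∘ (fun t : ℝ => (τ, t)) := rfl
        rw [h0]
        exact hk.g0c.comp (by fun_prop) fun t ht => ⟨h1, ht⟩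
      refine kl_diff_bd hb ?_ ?_ hWs ?_ (fun t ht => hC τ hτ t ht) (by positivity)
      · exact (continuousOn_const.mul (kl_slice (hk.c2 ε hε) τ)).add
          (continuousOn_const.mul (kl_slice (hk.c1 ε hε) τ))
      · exact (continuousOn_const.mul hs0).add (continuousOn_const.mul hg0)
      · intro t ht
        have b1 := hk.gl ε hε τ hτ h1 t ht
        have b2 := hk.gsl ε hε τ hτ h1 t ht
        have hR1 : 6 / (R - 1) ≤ 6 := by
          rw [div_le_iff₀ (by linarith)]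
          nlinarith
        have hR2 : 30 / (R - 1) ≤ 30 := by
          rw [div_le_iff₀ (by linarith)]
          nlinarith
        have b3 := (chi1_bd hR habs).trans hR1
        have b4 := (chi2_bd hR habs).trans hR2
        have e : 2 * chi1 R τ * gs ε τ t + chi2 R τ * g ε τ t -
            (2 * chi1 R τ * gs0 τ t + chi2 R τ * g0 τ t) =
            2 * chi1 R τ * (gs ε τ t - gs0 τ t) + chi2 R τ * (g ε τ t - g0 τ t) := by ring
        show |2 * chi1 R τ * gs ε τ t + chi2 R τ * g ε τ t -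
            (2 * chi1 R τ * gs0 τ t + chi2 R τ * g0 τ t)| ≤ _
        rw [e]
        refine (abs_add_le _ _).trans ?_
        rw [abs_mul, abs_mul, abs_mul, abs_two]
        have q1 : 2 * |chi1 R τ| * |gs ε τ t - gs0 τ t| ≤ 2 * 6 * (K0 * ε) :=
          mul_le_mul (by linarith) b2 (abs_nonneg _) (by norm_num)
        have q2 : |chi2 R τ| * |g ε τ t - g0 τ t| ≤ 30 * (K0 * ε) :=
          mul_le_mul b4 b1 (abs_nonneg _) (by norm_num)
        linarith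
    · obtain ⟨_, z1, z2⟩ := chi_one hR h1.le
      have q1 : ∀ k k' : ℝ → ℝ, (∫ t in (0 : ℝ)..b, (2 * chi1 R τ * k t + chi2 R τ * k' t) * W τ t)
          = 0 := by
        intro k k'
        rw [z1, z2]
        simp
      rw [q1 (fun t => gs ε τ t) (fun t => g ε τ t), q1 (fun t => gs0 τ t) (fun t => g0 τ t)]
      simp only [sub_zero, abs_zero]
      positivity
  obtain ⟨p1, p2⟩ := chi_mem hR habs
  rw [intervalIntegral.integral_const_mul] at e1 e2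
  unfold klF klF0
  generalize (∫ t in (0 : ℝ)..x1, rv ε τ t * W τ t) = A1 at *
  generalize (∫ t in x1..b, rh ε τ t * W τ t) = A2 at *
  generalize (∫ t in (0 : ℝ)..b, (2 * chi1 R τ * gs ε τ t + chi2 R τ * g ε τ t) * W τ t) = A3 at *
  generalize (∫ t in (0 : ℝ)..b, (2 * chi1 R τ * gs0 τ t + chi2 R τ * g0 τ t) * W τ t) = A4 at *
  generalize (kv τ * ∫ t in (0 : ℝ)..x1, W τ t) = A5 at *
  generalize (kh τ * ∫ t in x1..b, W τ t) = A6 at *
  have e : chi R τ * (A1 + A2) + A3 - (chi R τ * (A5 + A6) + A4) =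
      chi R τ * ((A1 - A5) + (A2 - A6)) + (A3 - A4) := by ring
  rw [e]
  refine (abs_add_le _ _).trans ?_
  have q3 : |chi R τ * ((A1 - A5) + (A2 - A6))| ≤ 1 * (K0 * ε * C * (x1 - 0) + K0 * ε * C * (b - x1)) := by
    rw [abs_mul, abs_of_nonneg p1]
    exact mul_le_mul p2 ((abs_add_le _ _).trans (add_le_add e1 e2)) (abs_nonneg _) (by norm_num)
  have q4 : 0 ≤ K0 * ε * C * b := mul_nonneg (mul_nonneg hKε hC0) hb
  have q5 : 1 * (K0 * ε * C * (x1 - 0) + K0 * ε * C * (b - x1)) + 42 * (K0 * ε) * C * (b - 0) =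
      43 * (K0 * ε * C * b) := by ring
  have q6 : 44 * K0 * C * b * ε = 44 * (K0 * ε * C * b) := by ring
  rw [q6]
  linarith

theorem ker_part_lim (hk : Ker R b a x1 K0 g gs gss gt gtt rv rh kv kh g0 gs0)
    {W Ws Wss Wt Wtt : ℝ → ℝ → ℝ} (hW : C2F W Ws Wss Wt Wtt) :
    Tendsto (fun ε : ℝ => ∫ τ in (-R)..R, (chi R τ * ((∫ t in (0 : ℝ)..x1, rv ε τ t * W τ t)
          + ∫ t in x1..b, rh ε τ t * W τ t)
        + ∫ t in (0 : ℝ)..b, (2 * chi1 R τ * gs ε τ t + chi2 R τ * g ε τ t) * W τ t))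
      (𝓝[>] 0) (𝓝 (kerPart R b x1 kv kh g0 gs0 W)) := by
  have hR := hk.hR
  obtain ⟨C, hC0, hC⟩ := kl_bound R b hW.c0
  have hev : ∀ᶠ ε : ℝ in 𝓝[>] 0, ε ∈ Ioc (0 : ℝ) 1 := Ioc_mem_nhdsGT (by norm_num)
  have h1 : (1 : ℝ) ∈ Ioc (0 : ℝ) 1 := ⟨by norm_num, le_rfl⟩
  have hC' : 0 ≤ 44 * K0 * C * b := by
    have := hk.hK
    have hb : 0 ≤ b := hk.hx0.le.trans hk.hxb
    positivity
  show Tendsto (fun ε : ℝ => ∫ τ in (-R)..R, klF R b x1 g gs rv rh W ε τ) (𝓝[>] 0)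
    (𝓝 (∫ τ in (-R)..R, klF0 R b x1 kv kh g0 gs0 W τ))
  have hmem : ∀ τ, τ ∈ uIoc (-R) R → τ ∈ Icc (-R) R := by
    intro τ hτ
    rw [uIoc_of_le (by linarith)] at hτ
    exact ⟨hτ.1.le, hτ.2⟩
  refine intervalIntegral.tendsto_integral_filter_of_dominated_convergence
    (fun τ => |klF R b x1 g gs rv rh W 1 τ| + 2 * (44 * K0 * C * b)) ?_ ?_ ?_ ?_
  · filter_upwards [hev] with ε hε
    exact (klF_cont hk hW.c0 hε).aestronglyMeasurable
  · filter_upwards [hev] with ε hε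
    refine Eventually.of_forall fun τ hτ => ?_
    have e1 := klF_sub hk hW.c0 hC0 hC hε (hmem τ hτ)
    have e2 := klF_sub hk hW.c0 hC0 hC h1 (hmem τ hτ)
    have e3 : 44 * K0 * C * b * ε ≤ 44 * K0 * C * b * 1 := mul_le_mul_of_nonneg_left hε.2 hC'
    rw [Real.norm_eq_abs]
    have e4 : klF R b x1 g gs rv rh W ε τ = klF R b x1 g gs rv rh W 1 τ +
        ((klF R b x1 g gs rv rh W ε τ - klF0 R b x1 kv kh g0 gs0 W τ) -
        (klF R b x1 g gs rv rh W 1 τ - klF0 R b x1 kv kh g0 gs0 W τ)) := by ring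
    rw [e4]
    refine (abs_add_le _ _).trans (add_le_add le_rfl ?_)
    refine (abs_sub _ _).trans ?_
    linarith
  · exact ((klF_cont hk hW.c0 h1).abs.add continuous_const).intervalIntegrable _ _
  · refine Eventually.of_forall fun τ hτ => ?_
    rw [tendsto_iff_norm_sub_tendsto_zero]
    refine squeeze_zero' (Eventually.of_forall fun ε => norm_nonneg _)
      (g := fun ε => 44 * K0 * C * b * ε) ?_ ?_
    · filter_upwards [hev] with ε hε
      exact klF_sub hk hW.c0 hC0 hC hε (hmem τ hτ)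
    · have : Tendsto (fun ε : ℝ => 44 * K0 * C * b * ε) (𝓝 0) (𝓝 (44 * K0 * C * b * 0)) :=
        tendsto_const_nhds.mul tendsto_id
      rw [mul_zero] at this
      exact this.mono_left nhdsWithin_le_nhds

/-- the limit of the right-hand side of `ker_eps` -/
theorem kl_rhs (hk : Ker R b a x1 K0 g gs gss gt gtt rv rh kv kh g0 gs0)
    {W Ws Wss Wt Wtt : ℝ → ℝ → ℝ} (hW : C2F W Ws Wss Wt Wtt) :
    Tendsto (fun ε : ℝ => (∫ τ in (-R)..R, chi R τ * ∫ t in (0 : ℝ)..b,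
        g ε τ t * (Wss τ t + Wtt τ t)) + ∫ τ in (-R)..R, chi R τ * g ε τ 0 * Wt τ 0)
      (𝓝[>] 0) (𝓝 (W 0 0 / 2 + kerPart R b x1 kv kh g0 gs0 W)) := by
  have hR := hk.hR
  have hev : ∀ᶠ ε : ℝ in 𝓝[>] 0, ε ∈ Ioc (0 : ℝ) 1 := Ioc_mem_nhdsGT (by norm_num)
  have h1 := peak R b a (by linarith) (hk.hx0.trans_le hk.hxb) hk.ha hk.hab
    (fun τ t => chi R τ * W τ t) (((chi_cont hR).1.comp continuous_fst).mul hW.c0)
  have h2 : chi R 0 = 1 := (chi_one hR (by simp)).1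
  simp only [h2, one_mul] at h1
  refine (h1.add (ker_part_lim hk hW)).congr' ?_
  filter_upwards [hev] with ε hε
  exact ker_eps hk hW hε

theorem ker_ineq (hk : Ker R b a x1 K0 g gs gss gt gtt rv rh kv kh g0 gs0)
    {W Ws Wss Wt Wtt : ℝ → ℝ → ℝ} (hW : C2F W Ws Wss Wt Wtt) (hW0 : ∀ τ, Wt τ 0 = 0)
    (hsub : ∀ τ t, 0 ≤ Wss τ t + Wtt τ t) (h : ℝ → ℝ) (hh : IntervalIntegrable h volume (-R) R)
    (hg : ∀ ε ∈ Ioc (0 : ℝ) 1, ∀ τ, τ ≠ 0 → ∀ t ∈ Icc 0 b, -(g ε τ t) ≤ h τ) :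
    -(W 0 0) / 2 ≤ kerPart R b x1 kv kh g0 gs0 W
      + ∫ τ in (-R)..R, chi R τ * h τ * ∫ t in (0 : ℝ)..b, (Wss τ t + Wtt τ t) := by
  have hR := hk.hR
  have hb : 0 ≤ b := hk.hx0.le.trans hk.hxb
  have m0 : (0 : ℝ) ∈ Icc 0 b := ⟨le_rfl, hb⟩
  have m2 : b ∈ Icc 0 b := ⟨hb, le_rfl⟩
  have hev : ∀ᶠ ε : ℝ in 𝓝[>] 0, ε ∈ Ioc (0 : ℝ) 1 := Ioc_mem_nhdsGT (by norm_num)
  have hL : Continuous (fun p : ℝ × ℝ => Wss p.1 p.2 + Wtt p.1 p.2) := hW.css.add hW.ctt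
  have hI : Continuous fun τ => ∫ t in (0 : ℝ)..b, (Wss τ t + Wtt τ t) := by
    have := kl_cont_param (k := fun _ _ => (1 : ℝ)) (W := fun τ t => Wss τ t + Wtt τ t) hb
      continuousOn_const hL m0 m2
    simpa only [one_mul] using this
  have i1 : IntervalIntegrable (fun τ => chi R τ * h τ * ∫ t in (0 : ℝ)..b, (Wss τ t + Wtt τ t))
      volume (-R) R :=
    (hh.continuousOn_mul (chi_cont hR).1.continuousOn).mul_continuousOn hI.continuousOn
  have key : -(∫ τ in (-R)..R, chi R τ * h τ * ∫ t in (0 : ℝ)..b, (Wss τ t + Wtt τ t)) ≤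
      W 0 0 / 2 + kerPart R b x1 kv kh g0 gs0 W := by
    refine ge_of_tendsto (kl_rhs hk hW) ?_
    filter_upwards [hev] with ε hε
    have z : (∫ τ in (-R)..R, chi R τ * g ε τ 0 * Wt τ 0) = 0 := by
      simp only [hW0, mul_zero, intervalIntegral.integral_zero]
    rw [z, add_zero, ← intervalIntegral.integral_neg]
    refine intervalIntegral.integral_mono_ae_restrict (by linarith) i1.neg ?_ ?_
    · exact ((chi_cont hR).1.mul (kl_cont_param hb (hk.c1 ε hε) hL m0 m2)).intervalIntegrable _ _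
    · rw [EventuallyLE, ae_restrict_iff' measurableSet_Icc]
      have hne : ∀ᵐ τ : ℝ, τ ≠ 0 := by
        rw [ae_iff]
        simp
      filter_upwards [hne] with τ hτ0 hτ
      have habs : |τ| ≤ R := abs_le.2 hτ
      obtain ⟨p1, _⟩ := chi_mem hR habs
      show -(chi R τ * h τ * ∫ t in (0 : ℝ)..b, (Wss τ t + Wtt τ t)) ≤
        chi R τ * ∫ t in (0 : ℝ)..b, g ε τ t * (Wss τ t + Wtt τ t)
      rw [mul_assoc, ← mul_neg]
      refine mul_le_mul_of_nonneg_left ?_ p1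
      rw [← neg_mul, ← intervalIntegral.integral_const_mul]
      have hLs : ContinuousOn (fun t => Wss τ t + Wtt τ t) (Icc 0 b) :=
        (hL.comp (Continuous.prodMk_right τ)).continuousOn
      refine intervalIntegral.integral_mono_on hb
        ((continuousOn_const.mul hLs).intervalIntegrable_of_Icc hb)
        (((kl_slice (hk.c1 ε hε) τ).mul hLs).intervalIntegrable_of_Icc hb) ?_
      intro t ht
      have h1 := hg ε hε τ hτ0 t ht
      exact mul_le_mul_of_nonneg_right (by linarith) (hsub τ t)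
  linarith

theorem ker_id (hk : Ker R b a x1 K0 g gs gss gt gtt rv rh kv kh g0 gs0)
    {W Ws Wss Wt Wtt : ℝ → ℝ → ℝ} (hW : C2F W Ws Wss Wt Wtt) (hW0 : ∀ τ, Wt τ 0 = 0)
    (hharm : ∀ τ t, Wss τ t + Wtt τ t = 0) :
    W 0 0 / 2 = -kerPart R b x1 kv kh g0 gs0 W := by
  have h := kl_rhs hk hW
  simp only [hharm, hW0, mul_zero, intervalIntegral.integral_zero, add_zero] at h
  have := tendsto_nhds_unique h tendsto_const_nhds
  linarith

theorem ker_id2 (hk : Ker R b a x1 K0 g gs gss gt gtt rv rh kv kh g0 gs0)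
    {W Ws Wss Wt Wtt : ℝ → ℝ → ℝ} (hW : C2F W Ws Wss Wt Wtt) (hW0 : W 0 0 = 0)
    (hharm : ∀ τ t, Wss τ t + Wtt τ t = 0) (g00 H : ℝ → ℝ)
    (hH : IntervalIntegrable H volume (-R) R)
    (hb : ∀ ε ∈ Ioc (0 : ℝ) 1, ∀ τ, τ ≠ 0 → |g ε τ 0| ≤ H τ)
    (hl : ∀ τ, τ ≠ 0 → Tendsto (fun ε : ℝ => g ε τ 0) (𝓝[>] 0) (𝓝 (g00 τ))) :
    kerPart R b x1 kv kh g0 gs0 W = ∫ τ in (-R)..R, chi R τ * g00 τ * Wt τ 0 := by
  have hR := hk.hR
  have hb0 : 0 ≤ b := hk.hx0.le.trans hk.hxb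
  have hev : ∀ᶠ ε : ℝ in 𝓝[>] 0, ε ∈ Ioc (0 : ℝ) 1 := Ioc_mem_nhdsGT (by norm_num)
  have h := kl_rhs hk hW
  simp only [hharm, mul_zero, intervalIntegral.integral_zero, zero_add, hW0, zero_div] at h
  refine tendsto_nhds_unique h ?_
  have hne : ∀ᵐ τ : ℝ, τ ≠ 0 := by
    rw [ae_iff]
    simp
  have hWt : Continuous fun τ => Wt τ 0 := hW.ct.comp (Continuous.prodMk_left 0)
  refine intervalIntegral.tendsto_integral_filter_of_dominated_convergence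
    (fun τ => H τ * |Wt τ 0|) ?_ ?_ ?_ ?_
  · filter_upwards [hev] with ε hε
    have hgc : Continuous fun τ => g ε τ 0 := by
      have h0 : (fun τ => g ε τ 0) = (fun p : ℝ × ℝ => g ε p.1 p.2) ∘ (fun τ : ℝ => (τ, (0 : ℝ))) :=
        rfl
      rw [h0]
      exact (hk.c1 ε hε).comp_continuous (by fun_prop) fun τ => ⟨mem_univ _, le_rfl, hb0⟩
    exact (((chi_cont hR).1.mul hgc).mul hWt).aestronglyMeasurable
  · filter_upwards [hev] with ε hε
    filter_upwards [hne] with τ hτ0 hτ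
    rw [uIoc_of_le (by linarith)] at hτ
    have habs : |τ| ≤ R := abs_le.2 ⟨hτ.1.le, hτ.2⟩
    obtain ⟨p1, p2⟩ := chi_mem hR habs
    rw [Real.norm_eq_abs, abs_mul, abs_mul, abs_of_nonneg p1]
    refine mul_le_mul_of_nonneg_right ?_ (abs_nonneg _)
    have h1 := hb ε hε τ hτ0
    have h2 := abs_nonneg (g ε τ 0)
    nlinarith
  · exact hH.mul_continuousOn hWt.abs.continuousOn
  · filter_upwards [hne] with τ hτ0 _
    exact ((tendsto_const_nhds.mul (hl τ hτ0)).mul tendsto_const_nhds)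

end Pool.Agent.MML
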