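import Pool.Agent.MML.KerLim
import Pool.Agent.MML.KerIIb
import Pool.Agent.MML.KerIIc
import Pool.Agent.MML.Mean

/-!
# MML, module PtII: pointwise inequality from kernel II

`ker_ineq` for `kerII R` with `W = symW s0 φ U` (`W 0 0 = 2 U s0 φ`, `Wt τ 0 = 0`), `h = mz` (`gII_lower`, `mz_int`).
With `3π/2 ≤ l`, `P = mN l U1`, `N = mN l U`: `kv = 0`, `kh = kH ≥ 0` and
`∫_{π/2}^{3π/2} W ≤ ∫ symW U1 ≤ P` (`sym_le'`);
the error: for `1 ≤ |τ|` `|(2 chi1 gs0 + chi2 g0)| ≤ (12 + 30) K/(R - 1) dec τ` and `∫_0^b |W| ≤ mN l |U| ≤ 2 P - N`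
(`|U| = 2 U⁺ - U ≤ 2 U1 - U`), for `|τ| ≤ 1` it vanishes and the right side is nonnegative;
`∫_0^b (Wss + Wtt) ≤ mN l (Uss + Utt)` (`sym_le`, `SH_per`), `chi, mz ≥ 0`.
-/

set_option autoImplicit false

namespace Pool.Agent.MML

open Real MeasureTheory Set Filter Topology

/-- comparison of integrals, without integrability of the smaller function -/
private theorem ptII_mono {f g : ℝ → ℝ} {R : ℝ} (hR : 0 ≤ R)
    (hg : IntervalIntegrable g volume (-R) R) (h : ∀ τ ∈ Icc (-R) R, f τ ≤ g τ)
    (h0 : ∀ τ ∈ Icc (-R) R, 0 ≤ g τ) : ∫ τ in (-R)..R, f τ ≤ ∫ τ in (-R)..R, g τ := by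
  by_cases hf : IntervalIntegrable f volume (-R) R
  · exact intervalIntegral.integral_mono_on (by linarith) hf hg h
  · rw [intervalIntegral.integral_undef hf]
    exact intervalIntegral.integral_nonneg (by linarith) h0

private theorem ptII_dec : Continuous dec := by
  unfold dec
  fun_prop

private theorem ptII_cont2 {F : ℝ → ℝ → ℝ} (hF : Continuous (fun p : ℝ × ℝ => F p.1 p.2))
    (s0 φ τ : ℝ) : Continuous (fun t => symW s0 φ F τ t) := by
  unfold symW
  have h1 : Continuous (fun t : ℝ => F (s0 + τ) (φ + t)) :=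
    hF.comp (Continuous.prodMk continuous_const (continuous_const.add continuous_id))
  have h2 : Continuous (fun t : ℝ => F (s0 + τ) (φ - t)) :=
    hF.comp (Continuous.prodMk continuous_const (continuous_const.sub continuous_id))
  exact h1.add h2

theorem ptII : ∃ K, 0 ≤ K ∧ ∀ (l R : ℝ), 3 * π / 2 ≤ l → 2 ≤ R →
    ∀ (U Us Uss Ut Utt U1 : ℝ → ℝ → ℝ), SH l U Us Uss Ut Utt →
      Continuous (fun p : ℝ × ℝ => U1 p.1 p.2) → (∀ s t, 0 ≤ U1 s t) →
      (∀ s t, U s t ≤ U1 s t) → (∀ s t, U1 s (t + 2 * l) = U1 s t) → ∀ s0 φ : ℝ,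
        -(U s0 φ) ≤ ∫ τ in (-R)..R,
          (chi R τ * kH τ * mN l U1 (s0 + τ)
            + K / (R - 1) * dec τ * (2 * mN l U1 (s0 + τ) - mN l U (s0 + τ))
            + chi R τ * mz τ * mN l (fun s t => Uss s t + Utt s t) (s0 + τ)) := by
  obtain ⟨Kd, hKd, hdec⟩ := gII_decay
  refine ⟨42 * Kd, by positivity, ?_⟩
  intro l R hl hR U Us Uss Ut Utt U1 hU hc1 h10 hle hper1 s0 φ
  obtain ⟨K0, hk⟩ := kerII R hR
  have hπ := Real.pi_pos
  have hl0 : 0 < l := by linarith
  have hR0 : 0 ≤ R := by linarith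
  have hR1 : 0 < R - 1 := by linarith
  have hc0 : Continuous (fun p : ℝ × ℝ => U p.1 p.2) := hU.c2.c0
  have hcL : Continuous (fun p : ℝ × ℝ => Uss p.1 p.2 + Utt p.1 p.2) := hU.c2.css.add hU.c2.ctt
  have hperL : ∀ s t, Uss s (t + 2 * l) + Utt s (t + 2 * l) = Uss s t + Utt s t := by
    intro s t
    obtain ⟨-, h1, -, h2⟩ := SH_per hU s t
    rw [h1, h2]
  set W := symW s0 φ U with hWdef
  have hW := symW_C2 hU.c2 s0 φ
  have hW0 : ∀ τ, mixW s0 φ Ut τ 0 = 0 := by
    intro τ
    unfold mixW
    simp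
  have hsub : ∀ τ t, 0 ≤ symW s0 φ Uss τ t + symW s0 φ Utt τ t := by
    intro τ t
    unfold symW
    have h1 := hU.sub (s0 + τ) (φ + t)
    have h2 := hU.sub (s0 + τ) (φ - t)
    linarith
  have hmain := ker_ineq hk hW hW0 hsub mz (mz_int (-R) R)
    (fun ε hε τ hτ t ht => gII_lower hε.1 hτ ht)
  have hW00 : W 0 0 = 2 * U s0 φ := by
    rw [hWdef]
    unfold symW
    simp only [add_zero, sub_zero]
    ring
  rw [← hWdef, hW00] at hmain
  -- positivity
  have hP0 : ∀ s, 0 ≤ mN l U1 s := by
    intro s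
    unfold mN
    exact intervalIntegral.integral_nonneg (by linarith) fun t _ => h10 s t
  have hint : ∀ {F : ℝ → ℝ → ℝ}, Continuous (fun p : ℝ × ℝ => F p.1 p.2) → ∀ s x y : ℝ,
      IntervalIntegrable (fun t => F s t) volume x y := by
    intro F hF s x y
    exact (hF.comp (Continuous.prodMk continuous_const continuous_id)).intervalIntegrable x y
  have hNP : ∀ s, mN l U s ≤ mN l U1 s := by
    intro s
    unfold mN
    exact intervalIntegral.integral_mono_on (by linarith) (hint hc0 s _ _) (hint hc1 s _ _)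
      fun t _ => hle s t
  have hPN : ∀ s, mN l (fun s t => 2 * U1 s t - U s t) s = 2 * mN l U1 s - mN l U s := by
    intro s
    unfold mN
    rw [intervalIntegral.integral_sub ((hint hc1 s _ _).const_mul 2) (hint hc0 s _ _),
      intervalIntegral.integral_const_mul]
  have hL0 : ∀ s, 0 ≤ mN l (fun s t => Uss s t + Utt s t) s := by
    intro s
    unfold mN
    exact intervalIntegral.integral_nonneg (by linarith) fun t _ => hU.sub s t
  have hd0 : ∀ τ, 0 ≤ dec τ := by
    intro τ
    unfold dec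
    positivity
  have hmz0 : ∀ τ, 0 ≤ mz τ := fun τ => le_max_left _ _
  have hchi : ∀ τ ∈ Icc (-R) R, 0 ≤ chi R τ ∧ chi R τ ≤ 1 := fun τ hτ =>
    chi_mem hR (abs_le.2 hτ)
  have hK1 : 0 ≤ 42 * Kd / (R - 1) := by positivity
  have hcP : Continuous (fun τ => mN l U1 (s0 + τ)) :=
    (mN_cont hc1).comp (continuous_const.add continuous_id)
  have hcN : Continuous (fun τ => mN l U (s0 + τ)) :=
    (mN_cont hc0).comp (continuous_const.add continuous_id)
  have hcLL : Continuous (fun τ => mN l (fun s t => Uss s t + Utt s t) (s0 + τ)) :=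
    (mN_cont (F := fun s t => Uss s t + Utt s t) hcL).comp (continuous_const.add continuous_id)
  have hcchi : Continuous (chi R) := (chi_cont hR).1
  set g1 : ℝ → ℝ := fun τ => chi R τ * kH τ * mN l U1 (s0 + τ)
    + 42 * Kd / (R - 1) * dec τ * (2 * mN l U1 (s0 + τ) - mN l U (s0 + τ)) with hg1
  set g2 : ℝ → ℝ := fun τ => chi R τ * mz τ * mN l (fun s t => Uss s t + Utt s t) (s0 + τ)
    with hg2
  have hi1 : IntervalIntegrable g1 volume (-R) R := by
    refine Continuous.intervalIntegrable ?_ _ _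
    exact ((hcchi.mul kH_cont).mul hcP).add ((continuous_const.mul ptII_dec).mul
      ((continuous_const.mul hcP).sub hcN))
  have hi2 : IntervalIntegrable g2 volume (-R) R := by
    have h1 : IntervalIntegrable (fun τ => (chi R τ *
        mN l (fun s t => Uss s t + Utt s t) (s0 + τ)) * mz τ) volume (-R) R :=
      (mz_int (-R) R).continuousOn_mul (hcchi.mul hcLL).continuousOn
    refine h1.congr ?_
    intro τ _
    simp only [hg2]
    ring
  have h1 : kerPart R (3 * π / 2) (π / 2) (fun _ => 0) kH (gII 0) (gIIs 0) W ≤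
      ∫ τ in (-R)..R, g1 τ := by
    unfold kerPart
    refine ptII_mono hR0 hi1 ?_ ?_
    · intro τ hτ
      obtain ⟨c0, c1⟩ := hchi τ hτ
      have hA : ∫ t in (π / 2)..(3 * π / 2), W τ t ≤ mN l U1 (s0 + τ) := by
        refine le_trans ?_ (sym_le' hl0 hc1 hper1 h10 (x := π / 2) (b := 3 * π / 2) (by positivity)
          (by linarith) hl s0 φ τ)
        refine intervalIntegral.integral_mono_on (by linarith)
          ((ptII_cont2 hc0 s0 φ τ).intervalIntegrable _ _)
          ((ptII_cont2 hc1 s0 φ τ).intervalIntegrable _ _) ?_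
        intro t _
        rw [hWdef]
        unfold symW
        exact add_le_add (hle _ _) (hle _ _)
      have hB : ∫ t in (0 : ℝ)..(3 * π / 2),
          (2 * chi1 R τ * gIIs 0 τ t + chi2 R τ * gII 0 τ t) * W τ t ≤
          42 * Kd / (R - 1) * dec τ * (2 * mN l U1 (s0 + τ) - mN l U (s0 + τ)) := by
        rcases le_total |τ| 1 with h2 | h2
        · obtain ⟨-, h3, h4⟩ := chi_one hR h2
          simp only [h3, h4, mul_zero, zero_mul, add_zero, intervalIntegral.integral_zero]
          have h5 := hP0 (s0 + τ)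
          have h6 := hNP (s0 + τ)
          exact mul_nonneg (mul_nonneg hK1 (hd0 τ)) (by linarith)
        · have habs : |τ| ≤ R := abs_le.2 hτ
          have b1 := chi1_bd hR habs
          have b2 := chi2_bd hR habs
          set c : ℝ := 42 * Kd / (R - 1) * dec τ with hc
          have hc0' : 0 ≤ c := mul_nonneg hK1 (hd0 τ)
          have hcF : Continuous (fun p : ℝ × ℝ => 2 * U1 p.1 p.2 - U p.1 p.2) :=
            (continuous_const.mul hc1).sub hc0
          have h3 : ∀ t ∈ Ioc (0 : ℝ) (3 * π / 2),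
              ‖(2 * chi1 R τ * gIIs 0 τ t + chi2 R τ * gII 0 τ t) * W τ t‖ ≤
              c * symW s0 φ (fun s t => 2 * U1 s t - U s t) τ t := by
            intro t ht
            obtain ⟨d1, d2⟩ := hdec τ h2 t ⟨ht.1.le, ht.2⟩
            rw [norm_mul, Real.norm_eq_abs, Real.norm_eq_abs]
            have h4 : |2 * chi1 R τ * gIIs 0 τ t + chi2 R τ * gII 0 τ t| ≤ c := by
              refine (abs_add_le _ _).trans ?_
              rw [abs_mul, abs_mul, abs_mul, abs_of_pos (by norm_num : (0 : ℝ) < 2)]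
              have h5 : |chi1 R τ| * |gIIs 0 τ t| ≤ 6 / (R - 1) * (Kd * dec τ) :=
                mul_le_mul b1 d2 (abs_nonneg _) (by positivity)
              have h6 : |chi2 R τ| * |gII 0 τ t| ≤ 30 / (R - 1) * (Kd * dec τ) :=
                mul_le_mul b2 d1 (abs_nonneg _) (by positivity)
              calc 2 * |chi1 R τ| * |gIIs 0 τ t| + |chi2 R τ| * |gII 0 τ t|
                  ≤ 2 * (6 / (R - 1) * (Kd * dec τ)) + 30 / (R - 1) * (Kd * dec τ) := by linarith
                _ = c := by rw [hc]; ring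
            have h7 : |W τ t| ≤ symW s0 φ (fun s t => 2 * U1 s t - U s t) τ t := by
              rw [hWdef]
              unfold symW
              have h8 : ∀ s t, |U s t| ≤ 2 * U1 s t - U s t := by
                intro s t
                have e1 := h10 s t
                have e2 := hle s t
                rw [abs_le]
                constructor <;> linarith
              exact (abs_add_le _ _).trans (add_le_add (h8 _ _) (h8 _ _))
            exact mul_le_mul h4 h7 (abs_nonneg _) hc0'
          have hπ0 : (0 : ℝ) ≤ 3 * π / 2 := by positivity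
          have h9i : IntervalIntegrable (fun t => c * symW s0 φ (fun s t => 2 * U1 s t - U s t) τ t)
              volume 0 (3 * π / 2) :=
            ((ptII_cont2 (F := fun s t => 2 * U1 s t - U s t) hcF s0 φ τ).intervalIntegrable
              0 (3 * π / 2)).const_mul c
          have h9 := intervalIntegral.norm_integral_le_of_norm_le hπ0
            (Eventually.of_forall fun t ht => h3 t ht) h9i
          refine (le_abs_self _).trans ?_
          rw [Real.norm_eq_abs] at h9
          refine h9.trans ?_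
          rw [intervalIntegral.integral_const_mul]
          refine mul_le_mul_of_nonneg_left ?_ hc0'
          rw [← hPN]
          refine sym_le hl0 (F := fun s t => 2 * U1 s t - U s t) hcF ?_ ?_ hπ0 hl s0 φ τ
          · intro s t
            rw [hper1, hU.per]
          · intro s t
            have e1 := h10 s t
            have e2 := hle s t
            linarith
      have hA' := mul_le_mul_of_nonneg_left hA (mul_nonneg c0 (kH_nonneg τ))
      simp only [hg1]
      rw [zero_mul, zero_add, ← mul_assoc]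
      exact add_le_add hA' hB
    · intro τ hτ
      obtain ⟨c0, c1⟩ := hchi τ hτ
      simp only [hg1]
      have h5 := hP0 (s0 + τ)
      have h6 := hNP (s0 + τ)
      exact add_nonneg (mul_nonneg (mul_nonneg c0 (kH_nonneg τ)) h5)
        (mul_nonneg (mul_nonneg hK1 (hd0 τ)) (by linarith))
  have h2 : ∫ τ in (-R)..R, chi R τ * mz τ *
      ∫ t in (0 : ℝ)..(3 * π / 2), (symW s0 φ Uss τ t + symW s0 φ Utt τ t) ≤
      ∫ τ in (-R)..R, g2 τ := by
    refine ptII_mono hR0 hi2 ?_ ?_
    · intro τ hτ
      obtain ⟨c0, c1⟩ := hchi τ hτ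
      simp only [hg2]
      refine mul_le_mul_of_nonneg_left ?_ (mul_nonneg c0 (hmz0 τ))
      have h3 := sym_le hl0 (F := fun s t => Uss s t + Utt s t) hcL hperL (fun s t => hU.sub s t)
        (b := 3 * π / 2) (by positivity) hl s0 φ τ
      refine le_trans (le_of_eq ?_) h3
      refine intervalIntegral.integral_congr fun t _ => ?_
      unfold symW
      ring
    · intro τ hτ
      obtain ⟨c0, c1⟩ := hchi τ hτ
      exact mul_nonneg (mul_nonneg c0 (hmz0 τ)) (hL0 _)
  have h3 : ∫ τ in (-R)..R, (chi R τ * kH τ * mN l U1 (s0 + τ)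
      + 42 * Kd / (R - 1) * dec τ * (2 * mN l U1 (s0 + τ) - mN l U (s0 + τ))
      + chi R τ * mz τ * mN l (fun s t => Uss s t + Utt s t) (s0 + τ)) =
      (∫ τ in (-R)..R, g1 τ) + ∫ τ in (-R)..R, g2 τ := by
    rw [← intervalIntegral.integral_add hi1 hi2]
  rw [h3]
  linarith

end Pool.Agent.MML
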