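import Pool.Agent.MML.PtI
import Pool.Agent.MML.PtII
import Pool.Agent.MML.ConstI
import Pool.Agent.MML.ConstII
import Pool.Agent.MML.ConstZ
import Pool.Agent.MML.Avg
import Pool.Agent.MML.EtaB

/-!
# MML, module MainA: the window inequality

`ρ = 8/9`, `a = 8/3`, `l = π μ ≥ 3π/2`, `M = mN l (Ue f μ 1)` (nondecreasing, `≥ 0`), `N = mN l (Ue f μ η)`, `-C0 ≤ N ≤ M` for `s ≥ s1`
(`mN_Ue_lower`, take `C0 ≥ 1`), `P = M + C0`, so `|N| ≤ P`, `1 ≤ P`.  `p = 0.515`.
`p` times `ptI` plus `1 - p` times `ptII` (at the point `(s, t)` given by the hypothesis):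
`Y s ≤ ∫_{-R}^R (kM τ P(s+τ) - kN τ N(s+τ) + kH' τ N2(s+τ)) dτ` with
`kM = p chi kI + (1-p) chi kH + 3 p K/(R-1) exp (-a|τ|) + 3 (1-p) K'/(R-1) dec`, `kN = p chi kI`, `kH' = p chi hI + (1-p) chi mz`
(`M - N ≤ P - N`, `2 M - N ≤ 3 P`).
`avg`.  Constants: `∫_{-R}^R exp (ρτ) kM ≤ p KI + (1-p) KH + K''/(R-1)`, `KI = (8/9)/√3` (`KI_eq`, `sin (π/3)`), `KH ≤ (8/9) 0.2702`, so
it is at most `(8/9) 0.428383 + K''/(R-1)`, and `(8/9) 0.428383 < 8/21 = (8/9)(3/7)`.
`ρ² ∫ exp (ρτ) kH' - ∫ exp (ρτ) kN ≤ ρ² (p HI + (1-p) 0.3447) - p ∫_{-R}^R chi exp (ρτ) kI`, `ρ² HI = KI/2 = (8/9)/(2√3)` (`HI_eq`,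
`cos (π/3) = 1/2`), and `∫_{-R}^R chi R exp (ρτ) kI → KI` as `R → ∞` (dominated convergence), so the limit is at most
`-p (8/9)/(2√3) + (1-p)(64/81)(0.3447) ≤ -0.132148 + 0.132094 < 0`: choose `R` so large that the coefficient of `∫ exp (-ρs) N` is
negative; then this term is at most `C exp (-ρα)` since `N ≥ -C0`, and `exp (-ρα) ≤ exp (-ρα) P(α + R + 1)`.
-/

set_option autoImplicit false

namespace Pool.Agent.MML

open Real MeasureTheory Set Filter Topology

theorem chi_int_tendsto {F : ℝ → ℝ} (hF : Integrable F) :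
    Tendsto (fun R : ℝ => ∫ τ in (-R)..R, chi R τ * F τ) atTop (𝓝 (∫ τ, F τ)) := by
  have h1 : ∀ᶠ R : ℝ in atTop, ∫ τ in (-R)..R, chi R τ * F τ =
      ∫ τ, (Ioc (-R) R).indicator (fun τ => chi R τ * F τ) τ := by
    filter_upwards [eventually_ge_atTop (2 : ℝ)] with R hR
    rw [intervalIntegral.integral_of_le (by linarith), integral_indicator measurableSet_Ioc]
  refine Tendsto.congr' (h1.mono fun _ h => h.symm) ?_
  refine tendsto_integral_filter_of_dominated_convergence (fun τ => ‖F τ‖) ?_ ?_ hF.norm ?_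
  · filter_upwards [eventually_ge_atTop (2 : ℝ)] with R hR
    exact ((chi_cont hR).1.aestronglyMeasurable.mul hF.1).indicator measurableSet_Ioc
  · filter_upwards [eventually_ge_atTop (2 : ℝ)] with R hR
    refine Eventually.of_forall fun τ => ?_
    by_cases h : τ ∈ Ioc (-R) R
    · rw [indicator_of_mem h, norm_mul]
      have := chi_mem hR (abs_le.2 ⟨h.1.le, h.2⟩)
      rw [Real.norm_eq_abs (chi R τ), abs_of_nonneg this.1]
      exact mul_le_of_le_one_left (norm_nonneg _) this.2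
    · rw [indicator_of_notMem h]
      simp
  · refine Eventually.of_forall fun τ => ?_
    have h2 : ∀ᶠ R : ℝ in atTop,
        (Ioc (-R) R).indicator (fun τ => chi R τ * F τ) τ = chi R τ * F τ := by
      filter_upwards [eventually_gt_atTop |τ|] with R hR
      rw [indicator_of_mem]
      exact ⟨by have := neg_abs_le τ; linarith, by have := le_abs_self τ; linarith⟩
    refine Tendsto.congr' (h2.mono fun _ h => h.symm) ?_
    simpa using (chi_tendsto τ).mul_const (F τ)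

theorem int_le {F : ℝ → ℝ} (hF : Integrable F) (h0 : ∀ τ, 0 ≤ F τ) {R : ℝ} (hR : 2 ≤ R) :
    ∫ τ in (-R)..R, F τ ≤ ∫ τ, F τ := by
  rw [intervalIntegral.integral_of_le (by linarith)]
  exact setIntegral_le_integral hF (Eventually.of_forall h0)

theorem chi_mul_int {F : ℝ → ℝ} {R : ℝ} (hR : 2 ≤ R) (hF : IntervalIntegrable F volume (-R) R) :
    IntervalIntegrable (fun τ => chi R τ * F τ) volume (-R) R :=
  hF.continuousOn_mul (chi_cont hR).1.continuousOn

theorem chi_int_le {F : ℝ → ℝ} (hF : Integrable F) (h0 : ∀ τ, 0 ≤ F τ) {R : ℝ} (hR : 2 ≤ R) :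
    ∫ τ in (-R)..R, chi R τ * F τ ≤ ∫ τ, F τ := by
  refine le_trans ?_ (int_le hF h0 hR)
  refine intervalIntegral.integral_mono_on (by linarith)
    (chi_mul_int hR hF.intervalIntegrable) hF.intervalIntegrable (fun τ hτ => ?_)
  have := chi_mem hR (abs_le.2 ⟨hτ.1, hτ.2⟩)
  exact mul_le_of_le_one_left (h0 τ) this.2

theorem expabs_int {a ρ : ℝ} (hρ : 0 < ρ) (hρa : ρ < a) :
    Integrable (fun τ => exp (ρ * τ) * exp (-(a * |τ|))) := by
  have ha : 0 < a := hρ.trans hρa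
  refine Integrable.mono' ((KI_int hρ hρa).const_mul (8 * π / a ^ 2)) ?_ ?_
  · refine Continuous.aestronglyMeasurable ?_
    fun_prop
  · refine Eventually.of_forall fun τ => ?_
    rw [norm_mul, Real.norm_eq_abs, Real.norm_eq_abs, abs_of_pos (exp_pos _),
      abs_of_pos (exp_pos _)]
    have h1 : cosh (a * τ) ≤ exp (a * |τ|) := by
      rw [← cosh_abs, abs_mul, abs_of_pos ha, cosh_eq]
      have : exp (-(a * |τ|)) ≤ exp (a * |τ|) := by
        apply exp_le_exp.2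
        have : 0 ≤ a * |τ| := by positivity
        linarith
      linarith
    have h2 : 1 ≤ exp (a * |τ|) := one_le_exp (by positivity)
    have h3 : exp (-(a * |τ|)) ≤ 2 / (cosh (a * τ) + 1) := by
      have hc : 0 < cosh (a * τ) := cosh_pos _
      rw [exp_neg, le_div_iff₀ (by linarith), inv_mul_le_iff₀ (exp_pos _)]
      linarith
    have h4 : 8 * π / a ^ 2 * (exp (ρ * τ) * kI a τ) = exp (ρ * τ) * (2 / (cosh (a * τ) + 1)) := by
      have hc : 0 < cosh (a * τ) := cosh_pos _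
      unfold kI
      have := Real.pi_pos
      field_simp
      ring
    rw [h4]
    exact mul_le_mul_of_nonneg_left h3 (exp_pos _).le

theorem dec_cont : Continuous dec := by
  unfold dec
  fun_prop

theorem dec_nonneg (τ : ℝ) : 0 ≤ dec τ := le_min (exp_pos _).le (exp_pos _).le

theorem mz_nonneg (τ : ℝ) : 0 ≤ mz τ := le_max_left _ _

theorem sqrt3_bd : (1.73205 : ℝ) < √3 ∧ √3 < 1.732051 := by
  constructor
  · rw [Real.lt_sqrt (by norm_num)]
    norm_num
  · rw [Real.sqrt_lt' (by norm_num)]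
    norm_num

theorem KI_val : ∫ τ, exp ((8 / 9 : ℝ) * τ) * kI (8 / 3) τ = 8 / 9 / √3 := by
  rw [KI_eq (by norm_num) (by norm_num)]
  have h : (8 / 9 : ℝ) * π / (8 / 3) = π / 3 := by ring
  rw [h, sin_pi_div_three]
  congr 1
  ring

theorem HI_val : (8 / 9 : ℝ) ^ 2 * ∫ τ, exp ((8 / 9 : ℝ) * τ) * hI (8 / 3) τ =
    8 / 9 / √3 / 2 := by
  rw [HI_eq (by norm_num) (by norm_num)]
  have h : (8 / 9 : ℝ) * π / (8 / 3) = π / 3 := by ring
  rw [h, sin_pi_div_three, cos_pi_div_three]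
  have h3 : √3 ≠ 0 := by positivity
  field_simp
  ring

theorem const_a : (0.515 : ℝ) * (8 / 9 / √3) + 0.485 * (8 / 9 * 0.2702) < 8 / 21 - 1 / 10000 := by
  obtain ⟨h1, h2⟩ := sqrt3_bd
  have h3 : (8 / 9 : ℝ) / √3 ≤ 8 / 9 / 1.73205 :=
    div_le_div_of_nonneg_left (by norm_num) (by norm_num) h1.le
  have h4 : (0.515 : ℝ) * (8 / 9 / 1.73205) + 0.485 * (8 / 9 * 0.2702) < 8 / 21 - 1 / 10000 := by
    norm_num
  linarith

theorem const_b : (0.515 : ℝ) * (8 / 9 / √3 / 2) + 0.485 * ((8 / 9) ^ 2 * 0.3447)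
    - 0.515 * (8 / 9 / √3 - 1 / 100000) < 0 := by
  obtain ⟨h1, h2⟩ := sqrt3_bd
  have h3 : (8 / 9 : ℝ) / 1.732051 ≤ 8 / 9 / √3 :=
    div_le_div_of_nonneg_left (by norm_num) (by positivity) h2.le
  have h4 : (0.515 : ℝ) * (8 / 9 / 1.732051 / 2) + 0.485 * ((8 / 9) ^ 2 * 0.3447)
    - 0.515 * (8 / 9 / 1.732051 - 1 / 100000) < 0 := by
    norm_num
  linarith

/-- the kernels -/
noncomputable def kMM (K1 K2 R τ : ℝ) : ℝ :=
  0.515 * (chi R τ * kI (8 / 3) τ) + 0.485 * (chi R τ * kH τ)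
    + 3 * 0.515 * K1 / (R - 1) * exp (-(8 / 3 * |τ|)) + 3 * 0.485 * K2 / (R - 1) * dec τ

noncomputable def kNN (R τ : ℝ) : ℝ := 0.515 * (chi R τ * kI (8 / 3) τ)

noncomputable def kHH (R τ : ℝ) : ℝ :=
  0.515 * (chi R τ * hI (8 / 3) τ) + 0.485 * (chi R τ * mz τ)

theorem kMM_cont (K1 K2 : ℝ) {R : ℝ} (hR : 2 ≤ R) : Continuous (kMM K1 K2 R) := by
  have h1 := (chi_cont hR).1
  have h2 := kI_cont (8 / 3)
  have h3 := kH_cont
  have h4 := dec_cont
  unfold kMM
  fun_prop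

theorem kNN_cont {R : ℝ} (hR : 2 ≤ R) : Continuous (kNN R) := by
  have h1 := (chi_cont hR).1
  have h2 := kI_cont (8 / 3)
  unfold kNN
  fun_prop

theorem kHH_int {R : ℝ} (hR : 2 ≤ R) : IntervalIntegrable (kHH R) volume (-R) R := by
  unfold kHH
  exact ((chi_mul_int hR (hI_int _ (by norm_num) _ _)).const_mul _).add
    ((chi_mul_int hR (mz_int _ _)).const_mul _)

theorem kMM_nonneg {K1 K2 : ℝ} (h1 : 0 ≤ K1) (h2 : 0 ≤ K2) {R : ℝ} (hR : 2 ≤ R) {τ : ℝ}
    (hτ : τ ∈ Icc (-R) R) : 0 ≤ kMM K1 K2 R τ := by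
  have hc := (chi_mem hR (abs_le.2 ⟨hτ.1, hτ.2⟩)).1
  have hk := (kI_pos (8 / 3) (by norm_num) τ).le
  have hh := kH_nonneg τ
  have hd := dec_nonneg τ
  have he := (exp_pos (-(8 / 3 * |τ|))).le
  have hR1 : 0 ≤ R - 1 := by linarith
  unfold kMM
  have e1 : 0 ≤ 3 * 0.515 * K1 / (R - 1) := by positivity
  have e2 : 0 ≤ 3 * 0.485 * K2 / (R - 1) := by positivity
  positivity

theorem kNN_nonneg {R : ℝ} (hR : 2 ≤ R) {τ : ℝ} (hτ : τ ∈ Icc (-R) R) : 0 ≤ kNN R τ := by
  have hc := (chi_mem hR (abs_le.2 ⟨hτ.1, hτ.2⟩)).1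
  have hk := (kI_pos (8 / 3) (by norm_num) τ).le
  unfold kNN
  positivity

theorem kHH_nonneg {R : ℝ} (hR : 2 ≤ R) {τ : ℝ} (hτ : τ ∈ Icc (-R) R) : 0 ≤ kHH R τ := by
  have hc := (chi_mem hR (abs_le.2 ⟨hτ.1, hτ.2⟩)).1
  have hk := hI_nonneg (8 / 3) τ
  have hm := mz_nonneg τ
  unfold kHH
  positivity

/-- the pointwise inequality -/
theorem pt_comb {K1 K2 : ℝ} (hK1 : 0 ≤ K1) (hK2 : 0 ≤ K2) {R : ℝ} (hR : 2 ≤ R)
    {M N N2 : ℝ → ℝ} (cM : Continuous M) (cN : Continuous N) (cN2 : Continuous N2) {C0 s y : ℝ}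
    (hM : ∀ s, 0 ≤ M s) (hC0 : 0 ≤ C0)
    (hN : ∀ τ ∈ Icc (-R) R, -C0 ≤ N (s + τ))
    (h1 : y ≤ ∫ τ in (-R)..R, (chi R τ * kI (8 / 3) τ * (M (s + τ) - N (s + τ))
            + K1 / (R - 1) * exp (-(8 / 3 * |τ|)) * (2 * M (s + τ) - N (s + τ))
            + chi R τ * hI (8 / 3) τ * N2 (s + τ)))
    (h2 : y ≤ ∫ τ in (-R)..R, (chi R τ * kH τ * M (s + τ)
            + K2 / (R - 1) * dec τ * (2 * M (s + τ) - N (s + τ))
            + chi R τ * mz τ * N2 (s + τ))) :
    y ≤ ∫ τ in (-R)..R, (kMM K1 K2 R τ * (M (s + τ) + C0) - kNN R τ * N (s + τ)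
      + kHH R τ * N2 (s + τ)) := by
  have cχ := (chi_cont hR).1
  have ckI := kI_cont (8 / 3)
  have ckH := kH_cont
  have cd := dec_cont
  have i1 : IntervalIntegrable (fun τ => chi R τ * kI (8 / 3) τ * (M (s + τ) - N (s + τ))
            + K1 / (R - 1) * exp (-(8 / 3 * |τ|)) * (2 * M (s + τ) - N (s + τ))
            + chi R τ * hI (8 / 3) τ * N2 (s + τ)) volume (-R) R := by
    refine IntervalIntegrable.add (Continuous.intervalIntegrable (by fun_prop) _ _) ?_
    refine IntervalIntegrable.mul_continuousOn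
      (chi_mul_int hR (hI_int _ (by norm_num) _ _)) (by fun_prop)
  have i2 : IntervalIntegrable (fun τ => chi R τ * kH τ * M (s + τ)
            + K2 / (R - 1) * dec τ * (2 * M (s + τ) - N (s + τ))
            + chi R τ * mz τ * N2 (s + τ)) volume (-R) R := by
    refine IntervalIntegrable.add (Continuous.intervalIntegrable (by fun_prop) _ _) ?_
    refine IntervalIntegrable.mul_continuousOn
      (chi_mul_int hR (mz_int _ _)) (by fun_prop)
  have i3 : IntervalIntegrable (fun τ => kMM K1 K2 R τ * (M (s + τ) + C0) - kNN R τ * N (s + τ)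
      + kHH R τ * N2 (s + τ)) volume (-R) R := by
    have c1 := kMM_cont K1 K2 hR
    have c2 := kNN_cont hR
    refine IntervalIntegrable.add (Continuous.intervalIntegrable (by fun_prop) _ _) ?_
    exact IntervalIntegrable.mul_continuousOn (kHH_int hR) (by fun_prop)
  have h3 : y ≤ ∫ τ in (-R)..R, (0.515 * (chi R τ * kI (8 / 3) τ * (M (s + τ) - N (s + τ))
            + K1 / (R - 1) * exp (-(8 / 3 * |τ|)) * (2 * M (s + τ) - N (s + τ))
            + chi R τ * hI (8 / 3) τ * N2 (s + τ))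
            + 0.485 * (chi R τ * kH τ * M (s + τ)
            + K2 / (R - 1) * dec τ * (2 * M (s + τ) - N (s + τ))
            + chi R τ * mz τ * N2 (s + τ))) := by
    rw [intervalIntegral.integral_add (i1.const_mul _) (i2.const_mul _),
      intervalIntegral.integral_const_mul, intervalIntegral.integral_const_mul]
    nlinarith [h1, h2]
  refine h3.trans ?_
  refine intervalIntegral.integral_mono_on (by linarith)
    ((i1.const_mul _).add (i2.const_mul _)) i3 (fun τ hτ => ?_)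
  have hc := (chi_mem hR (abs_le.2 ⟨hτ.1, hτ.2⟩)).1
  have hk := (kI_pos (8 / 3) (by norm_num) τ).le
  have hh := kH_nonneg τ
  have hd := dec_nonneg τ
  have he := (exp_pos (-(8 / 3 * |τ|))).le
  have hR1 : 0 ≤ R - 1 := by linarith
  have e1 : 0 ≤ K1 / (R - 1) * exp (-(8 / 3 * |τ|)) := by positivity
  have e2 : 0 ≤ K2 / (R - 1) * dec τ := by positivity
  have e3 : 0 ≤ chi R τ * kI (8 / 3) τ := by positivity
  have e4 : 0 ≤ chi R τ * kH τ := by positivity
  have m0 := hM (s + τ)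
  have n0 := hN τ hτ
  have f1 : 2 * M (s + τ) - N (s + τ) ≤ 3 * (M (s + τ) + C0) := by linarith
  have f2 := mul_le_mul_of_nonneg_left f1 e1
  have f3 := mul_le_mul_of_nonneg_left f1 e2
  have f4 := mul_nonneg e3 hC0
  have f5 := mul_nonneg e4 hC0
  unfold kMM kNN kHH
  have g1 : 3 * 0.515 * K1 / (R - 1) * exp (-(8 / 3 * |τ|)) =
      3 * 0.515 * (K1 / (R - 1) * exp (-(8 / 3 * |τ|))) := by ring
  have g2 : 3 * 0.485 * K2 / (R - 1) * dec τ = 3 * 0.485 * (K2 / (R - 1) * dec τ) := by ring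
  rw [g1, g2]
  nlinarith [f2, f3, f4, f5]

theorem window {f : ℂ → ℂ} (hf : Differentiable ℂ f) (hne : ∃ z, f z ≠ 0) {μ : ℝ}
    (hμ : 3 / 2 ≤ μ) :
    ∃ κ0 R C C0 s1 : ℝ, κ0 < 8 / 21 ∧ 0 ≤ R ∧ 0 ≤ C ∧ 1 ≤ C0 ∧
      ∀ η ∈ Ioc (0 : ℝ) 1, ∀ (Y : ℝ → ℝ) (α β : ℝ), s1 ≤ α → α ≤ β →
        ContinuousOn Y (Icc α β) → (∀ s ∈ Icc α β, ∃ t, Y s ≤ -(Ue f μ η s t)) →
        ∫ s in α..β, exp (-(8 / 9) * s) * Y s ≤
          κ0 * (∫ s in α..β, exp (-(8 / 9) * s) * (mN (π * μ) (Ue f μ 1) s + C0))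
          + C * (exp (-(8 / 9) * α) * (mN (π * μ) (Ue f μ 1) (α + R + 1) + C0)
            + exp (-(8 / 9) * β) * (mN (π * μ) (Ue f μ 1) (β + R + 1) + C0)) := by
  have hπ := Real.pi_pos
  have hμ0 : 0 < μ := by linarith
  have hl0 : 0 < π * μ := by positivity
  obtain ⟨K1, hK1, hptI⟩ := ptI (8 / 3) (by norm_num)
  obtain ⟨K2, hK2, hptII⟩ := ptII
  obtain ⟨D0, s0, hD0, hlow⟩ := mN_Ue_lower hf hne hμ0
  -- the choice of `R`
  obtain ⟨E1, hE1⟩ : ∃ E1, E1 = ∫ τ, exp ((8 / 9 : ℝ) * τ) * exp (-(8 / 3 * |τ|)) := ⟨_, rfl⟩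
  obtain ⟨E2, hE2⟩ : ∃ E2, E2 = ∫ τ, exp ((8 / 9 : ℝ) * τ) * dec τ := ⟨_, rfl⟩
  have hE1n : 0 ≤ E1 := by
    rw [hE1]
    exact integral_nonneg fun τ => by positivity
  have hE2n : 0 ≤ E2 := by
    rw [hE2]
    exact integral_nonneg fun τ => mul_nonneg (exp_pos _).le (dec_nonneg τ)
  obtain ⟨K, hK⟩ : ∃ K, K = 3 * 0.515 * K1 * E1 + 3 * 0.485 * K2 * E2 := ⟨_, rfl⟩
  have hKn : 0 ≤ K := by rw [hK]; positivity
  have iF1 : Integrable (fun τ => exp ((8 / 9 : ℝ) * τ) * kI (8 / 3) τ) :=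
    KI_int (by norm_num) (by norm_num)
  have iF2 : Integrable (fun τ => exp ((8 / 9 : ℝ) * τ) * kH τ) :=
    KH_int (by norm_num) (by norm_num)
  have iF3 : Integrable (fun τ => exp ((8 / 9 : ℝ) * τ) * exp (-(8 / 3 * |τ|))) :=
    expabs_int (by norm_num) (by norm_num)
  have iF4 : Integrable (fun τ => exp ((8 / 9 : ℝ) * τ) * dec τ) :=
    dec_int (by norm_num) (by norm_num)
  have iF5 : Integrable (fun τ => exp ((8 / 9 : ℝ) * τ) * hI (8 / 3) τ) :=
    HI_int (by norm_num) (by norm_num)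
  have iF6 : Integrable (fun τ => exp ((8 / 9 : ℝ) * τ) * mz τ) :=
    MZ_int (by norm_num) (by norm_num)
  obtain ⟨R, hR2, hRK, hRG⟩ : ∃ R : ℝ, 2 ≤ R ∧ 10000 * K + 1 < R ∧
      8 / 9 / √3 - 1 / 100000 < ∫ τ in (-R)..R, chi R τ * (exp ((8 / 9 : ℝ) * τ) * kI (8 / 3) τ) := by
    have h1 := chi_int_tendsto iF1
    rw [KI_val] at h1
    have h2 := h1.eventually (lt_mem_nhds (show 8 / 9 / √3 - 1 / 100000 < 8 / 9 / √3 by norm_num))
    obtain ⟨R, h3⟩ := ((h2.and (eventually_ge_atTop (2 : ℝ))).and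
      (eventually_gt_atTop (10000 * K + 1))).exists
    exact ⟨R, h3.1.2, h3.2, h3.1.1⟩
  have hR0 : 0 < R := by linarith
  have hR1 : 0 < R - 1 := by linarith
  have hRab : -R ≤ R := by linarith
  obtain ⟨C1, hC1, hav⟩ := avg (8 / 9) R (by norm_num) hR0 (kMM K1 K2 R) (kNN R) (kHH R)
    ((kMM_cont K1 K2 hR2).intervalIntegrable _ _) ((kNN_cont hR2).intervalIntegrable _ _)
    (kHH_int hR2) (fun τ hτ => kMM_nonneg hK1 hK2 hR2 hτ) (fun τ hτ => kNN_nonneg hR2 hτ)
    (fun τ hτ => kHH_nonneg hR2 hτ)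
  -- the constant `A`
  have hA : ∫ τ in (-R)..R, exp (8 / 9 * τ) * kMM K1 K2 R τ ≤ 8 / 21 - 1 / 10000 + K / (R - 1) := by
    have e : ∀ τ, exp (8 / 9 * τ) * kMM K1 K2 R τ =
        0.515 * (chi R τ * (exp (8 / 9 * τ) * kI (8 / 3) τ)) +
        0.485 * (chi R τ * (exp (8 / 9 * τ) * kH τ)) +
        3 * 0.515 * K1 / (R - 1) * (exp (8 / 9 * τ) * exp (-(8 / 3 * |τ|))) +
        3 * 0.485 * K2 / (R - 1) * (exp (8 / 9 * τ) * dec τ) := by
      intro τ
      unfold kMM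
      ring
    have j1 := (chi_mul_int hR2 (iF1.intervalIntegrable (a := -R) (b := R))).const_mul 0.515
    have j2 := (chi_mul_int hR2 (iF2.intervalIntegrable (a := -R) (b := R))).const_mul 0.485
    have j3 := (iF3.intervalIntegrable (a := -R) (b := R)).const_mul (3 * 0.515 * K1 / (R - 1))
    have j4 := (iF4.intervalIntegrable (a := -R) (b := R)).const_mul (3 * 0.485 * K2 / (R - 1))
    simp only [e]
    rw [intervalIntegral.integral_add ((j1.add j2).add j3) j4,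
      intervalIntegral.integral_add (j1.add j2) j3, intervalIntegral.integral_add j1 j2,
      intervalIntegral.integral_const_mul, intervalIntegral.integral_const_mul,
      intervalIntegral.integral_const_mul, intervalIntegral.integral_const_mul]
    have b1 := chi_int_le iF1 (fun τ => mul_nonneg (exp_pos _).le
      (kI_pos (8 / 3) (by norm_num) τ).le) hR2
    have b2 := chi_int_le iF2 (fun τ => mul_nonneg (exp_pos _).le (kH_nonneg τ)) hR2
    have b3 := int_le iF3 (fun τ => mul_nonneg (exp_pos _).le (exp_pos _).le) hR2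
    have b4 := int_le iF4 (fun τ => mul_nonneg (exp_pos _).le (dec_nonneg τ)) hR2
    rw [KI_val] at b1
    have b2' := b2.trans KH_le
    rw [← hE1] at b3
    rw [← hE2] at b4
    have c3 := mul_le_mul_of_nonneg_left b3 (show 0 ≤ 3 * 0.515 * K1 / (R - 1) by positivity)
    have c4 := mul_le_mul_of_nonneg_left b4 (show 0 ≤ 3 * 0.485 * K2 / (R - 1) by positivity)
    have c5 : K / (R - 1) = 3 * 0.515 * K1 / (R - 1) * E1 + 3 * 0.485 * K2 / (R - 1) * E2 := by
      rw [hK]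
      ring
    rw [c5]
    have := const_a
    linarith
  have hKR : K / (R - 1) < 1 / 10000 := by
    rw [div_lt_div_iff₀ hR1 (by norm_num)]
    linarith
  -- the constant `B`
  obtain ⟨B, hBdef⟩ : ∃ B, B = (8 / 9 : ℝ) ^ 2 * (∫ τ in (-R)..R, exp (8 / 9 * τ) * kHH R τ)
    - ∫ τ in (-R)..R, exp (8 / 9 * τ) * kNN R τ := ⟨_, rfl⟩
  have hB : B < 0 := by
    have e1 : ∀ τ, exp (8 / 9 * τ) * kHH R τ =
        0.515 * (chi R τ * (exp (8 / 9 * τ) * hI (8 / 3) τ)) +
        0.485 * (chi R τ * (exp (8 / 9 * τ) * mz τ)) := by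
      intro τ
      unfold kHH
      ring
    have e2 : ∀ τ, exp (8 / 9 * τ) * kNN R τ =
        0.515 * (chi R τ * (exp (8 / 9 * τ) * kI (8 / 3) τ)) := by
      intro τ
      unfold kNN
      ring
    have j1 := (chi_mul_int hR2 (iF5.intervalIntegrable (a := -R) (b := R))).const_mul 0.515
    have j2 := (chi_mul_int hR2 (iF6.intervalIntegrable (a := -R) (b := R))).const_mul 0.485
    rw [hBdef]
    simp only [e1, e2]
    rw [intervalIntegral.integral_add j1 j2, intervalIntegral.integral_const_mul,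
      intervalIntegral.integral_const_mul, intervalIntegral.integral_const_mul]
    have b1 := chi_int_le iF5 (fun τ => mul_nonneg (exp_pos _).le (hI_nonneg (8 / 3) τ)) hR2
    have b2 := (chi_int_le iF6 (fun τ => mul_nonneg (exp_pos _).le (mz_nonneg τ)) hR2).trans MZ_le
    have b3 := HI_val
    have b4 := const_b
    nlinarith [b1, b2, b3, b4, hRG]
  obtain ⟨C0, hC0⟩ : ∃ C0, C0 = D0 + 1 := ⟨_, rfl⟩
  refine ⟨8 / 21 - 1 / 10000 + K / (R - 1), R, C1 + -B * C0 / (8 / 9), C0, s0 + R, by linarith,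
    hR0.le, ?_, by rw [hC0]; linarith, ?_⟩
  · have : 0 ≤ -B * C0 := mul_nonneg (by linarith) (by rw [hC0]; linarith)
    positivity
  intro η hη Y α β hα hαβ hY hYt
  obtain ⟨Uss, Ut, Utt, hSH⟩ := SH_eta hf hμ0 hη.1
  obtain ⟨Vss, Vt, Vtt, hSH1⟩ := SH_eta hf hμ0 one_pos
  obtain ⟨M, hM⟩ : ∃ M, M = mN (π * μ) (Ue f μ 1) := ⟨_, rfl⟩
  obtain ⟨N, hN⟩ : ∃ N, N = mN (π * μ) (Ue f μ η) := ⟨_, rfl⟩
  obtain ⟨N1, hN1⟩ : ∃ N1, N1 = mN (π * μ) (UeS f μ η) := ⟨_, rfl⟩
  obtain ⟨N2, hN2⟩ : ∃ N2, N2 = mN (π * μ) (fun s t => Uss s t + Utt s t) := ⟨_, rfl⟩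
  rw [← hM]
  have cM : Continuous M := by rw [hM]; exact mN_cont hSH1.c2.c0
  have cN : Continuous N := by rw [hN]; exact mN_cont hSH.c2.c0
  have cN2 : Continuous N2 := by
    rw [hN2]
    exact mN_cont (F := fun s t => Uss s t + Utt s t) (hSH.c2.css.add hSH.c2.ctt)
  have mM : Monotone M := by rw [hM]; exact mN_Ue_mono hf hμ0 one_pos
  have M0 : ∀ s, 0 ≤ M s := by
    intro s
    rw [hM]
    unfold mN
    exact intervalIntegral.integral_nonneg (by linarith) fun t _ => Ue_one_nonneg s t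
  have dN : ∀ s, HasDerivAt N (N1 s) s := by
    intro s
    rw [hN, hN1]
    exact mN_deriv hSH s
  have dN1 : ∀ s, HasDerivAt N1 (N2 s) s := by
    intro s
    rw [hN2, hN1]
    exact mN_deriv2 hSH s
  have N20 : ∀ s, 0 ≤ N2 s := by
    intro s
    rw [hN2]
    unfold mN
    exact intervalIntegral.integral_nonneg (by linarith) fun t _ => hSH.sub s t
  have N10 : ∀ s, 0 ≤ N1 s := by
    intro s
    rw [hN1]
    exact mN_UeS_nonneg hf hμ0 hη.1 s
  have NM : ∀ s, N s ≤ M s := by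
    intro s
    rw [hN, hM]
    unfold mN
    refine intervalIntegral.integral_mono_on (by linarith) ?_ ?_ (fun t _ => Ue_mono hη.1 hη.2 s t)
    · exact Continuous.intervalIntegrable
        (hSH.c2.c0.comp (Continuous.prodMk continuous_const continuous_id)) _ _
    · exact Continuous.intervalIntegrable
        (hSH1.c2.c0.comp (Continuous.prodMk continuous_const continuous_id)) _ _
  have Nlow : ∀ s, s0 ≤ s → -D0 ≤ N s := by
    intro s hs
    rw [hN]
    exact hlow η hη s hs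
  have hC01 : 1 ≤ C0 := by rw [hC0]; linarith
  have Nabs : ∀ s, s0 ≤ s → |N s| ≤ M s + C0 := by
    intro s hs
    have h1 := NM s
    have h2 := Nlow s hs
    have h3 := M0 s
    rw [abs_le]
    constructor <;> rw [hC0] <;> linarith
  have key := hav (fun s => M s + C0) N N1 N2 Y s0 α β (fun x y hxy => by
      have := mM hxy
      simp only
      linarith) (cM.add continuous_const) (fun s => by have := M0 s; positivity) dN dN1 cN2
    N20 N10 Nabs hY hα hαβ (fun s hs => by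
      obtain ⟨t, ht⟩ := hYt s hs
      refine pt_comb hK1 hK2 hR2 cM cN cN2 M0 (by linarith) (fun τ hτ => ?_) ?_ ?_
      · have h1 : s0 ≤ s + τ := by linarith [hs.1, hτ.1]
        have h2 := Nlow _ h1
        rw [hC0]
        linarith
      · refine ht.trans ?_
        have h1 := hptI (π * μ) R (by rw [div_le_iff₀ (by norm_num)]; nlinarith) hR2
          (Ue f μ η) (UeS f μ η) Uss Ut Utt (Ue f μ 1) hSH hSH1.c2.c0
          (fun s t => Ue_one_nonneg s t) (fun s t => Ue_mono hη.1 hη.2 s t) hSH1.per s t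
        rw [hM, hN, hN2]
        exact h1
      · refine ht.trans ?_
        have h1 := hptII (π * μ) R (by nlinarith) hR2
          (Ue f μ η) (UeS f μ η) Uss Ut Utt (Ue f μ 1) hSH hSH1.c2.c0
          (fun s t => Ue_one_nonneg s t) (fun s t => Ue_mono hη.1 hη.2 s t) hSH1.per s t
        rw [hM, hN, hN2]
        exact h1)
  rw [← hBdef] at key
  have iP : IntervalIntegrable (fun s => exp (-(8 / 9) * s) * (M s + C0)) volume α β :=
    Continuous.intervalIntegrable (by fun_prop) _ _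
  have hP0 : 0 ≤ ∫ s in α..β, exp (-(8 / 9) * s) * (M s + C0) :=
    intervalIntegral.integral_nonneg hαβ fun s _ => by have := M0 s; positivity
  have k1 := mul_le_mul_of_nonneg_right hA hP0
  -- the term with `N`
  have k2 : B * (∫ s in α..β, exp (-(8 / 9) * s) * N s) ≤
      -B * C0 / (8 / 9) * (exp (-(8 / 9) * α) * (M (α + R + 1) + C0)) := by
    have l1 : ∫ s in α..β, exp (-(8 / 9) * s) * (-C0) ≤ ∫ s in α..β, exp (-(8 / 9) * s) * N s := by
      refine intervalIntegral.integral_mono_on hαβ (Continuous.intervalIntegrable (by fun_prop) _ _)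
        (Continuous.intervalIntegrable (by fun_prop) _ _) (fun s hs => ?_)
      refine mul_le_mul_of_nonneg_left ?_ (exp_pos _).le
      have := Nlow s (by linarith [hs.1])
      rw [hC0]
      linarith
    have l2 : ∫ s in α..β, exp (-(8 / 9) * s) * (-C0) =
        -C0 * ((exp (-(8 / 9) * α) - exp (-(8 / 9) * β)) / (8 / 9)) := by
      rw [intervalIntegral.integral_mul_const]
      have l3 : ∫ s in α..β, exp (-(8 / 9) * s) =
          (exp (-(8 / 9) * α) - exp (-(8 / 9) * β)) / (8 / 9) := by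
        have l4 : ∀ s ∈ uIcc α β, HasDerivAt (fun s => -(exp (-(8 / 9) * s)) / (8 / 9))
            (exp (-(8 / 9) * s)) s := by
          intro s _
          have l5 : HasDerivAt (fun s : ℝ => -(8 / 9) * s) (-(8 / 9) * 1) s :=
            (hasDerivAt_id s).const_mul _
          have l6 := (l5.exp.neg).div_const (8 / 9)
          have l7 : -(exp (-(8 / 9) * s) * (-(8 / 9) * 1)) / (8 / 9) = exp (-(8 / 9) * s) := by
            ring
          rw [l7] at l6
          exact l6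
        rw [intervalIntegral.integral_eq_sub_of_hasDerivAt l4
          (Continuous.intervalIntegrable (by fun_prop) _ _)]
        ring
      rw [l3]
      ring
    rw [l2] at l1
    have l7 := mul_le_mul_of_nonpos_left l1 hB.le
    refine l7.trans ?_
    have l8 : 1 ≤ M (α + R + 1) + C0 := by have := M0 (α + R + 1); linarith
    have l9 : 0 < exp (-(8 / 9) * α) := exp_pos _
    have l10 : 0 < exp (-(8 / 9) * β) := exp_pos _
    have l11 : exp (-(8 / 9) * α) - exp (-(8 / 9) * β) ≤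
        exp (-(8 / 9) * α) * (M (α + R + 1) + C0) := by nlinarith
    have l12 : 0 ≤ -B * C0 / (8 / 9) := by
      have : 0 ≤ -B * C0 := mul_nonneg (by linarith) (by linarith)
      positivity
    have l13 := mul_le_mul_of_nonneg_left l11 l12
    calc B * (-C0 * ((exp (-(8 / 9) * α) - exp (-(8 / 9) * β)) / (8 / 9))) =
        -B * C0 / (8 / 9) * (exp (-(8 / 9) * α) - exp (-(8 / 9) * β)) := by ring
      _ ≤ _ := l13
  have k3 : 0 ≤ exp (-(8 / 9) * β) * (M (β + R + 1) + C0) := by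
    have := M0 (β + R + 1)
    positivity
  have k4 : 0 ≤ -B * C0 / (8 / 9) := by
    have : 0 ≤ -B * C0 := mul_nonneg (by linarith) (by linarith)
    positivity
  have k5 := mul_nonneg k4 k3
  nlinarith [key, k1, k2, k5]

end Pool.Agent.MML
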