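import Mathlib

/-!
# MML, module Sel: selection of the windows

`m(s) = exp (-ρs) P(s)`, `P > 0` nondecreasing, so `m(s) ≥ exp (-ρ(s - x)) m(x)` for `s ≥ x` and
`m(α + K) exp (ρK) = exp (-ρα) P(α + K) =: Φ(α)`.  Suppose `Φ(α) + Φ(β) > δ ∫_α^β m` for all `s1 ≤ α ≤ β`.
Case 1: `∫_{s1}^∞ m = ∞`.  Fix `α = s1`; for `β ≥ β0` `Φ(β) ≥ (δ/2) J(β)`, `J(β) = ∫_α^β m ≥ 1`, and
`J(β + K + 1) ≥ J(β) + ∫_{β+K}^{β+K+1} m ≥ J(β) + exp (-ρ) m(β + K) ≥ (1 + ε) J(β)` with `ε = exp (-ρ - ρK) δ/2`; so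
`J(β) ≥ c exp (ρ'' β)` for large `β`, with `ρ'' > 0`, and `Φ(β) ≥ (δ/2) J(β)` gives `P(s) ≥ c' exp ((ρ + ρ'') s)` for large `s`,
against `h1`.
Case 2: `∫_{s1}^∞ m < ∞`.  Then `m → 0` (`∫_x^{x+1} m ≥ exp (-ρ) m(x)`), and `β → ∞` gives `Φ(α) ≥ δ J(α)`, `J(α) = ∫_α^∞ m`, for all
`α ≥ s1`; `J(α) - J(α + K + 1) ≥ exp (-ρ) m(α + K) ≥ ε J(α)`, so `J(α) ≤ C exp (-ρ'' α)`, `ρ'' > 0`, and
`m(α) ≤ exp ρ · J(α)`, `P(s) ≤ C' exp ((ρ - ρ'') s)` for large `s`, against `h2`.
-/

set_option autoImplicit false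

namespace Pool.Agent.MML

open Real MeasureTheory Set Filter Topology

private theorem sel_grow {J : ℝ → ℝ} {b L q : ℝ} (hL : 0 < L) (hq : 1 < q)
    (hJ : ∀ x y, b ≤ x → x ≤ y → J x ≤ J y) (h : ∀ x, b ≤ x → q * J x ≤ J (x + L))
    (hb : 0 < J b) :
    ∃ c r : ℝ, 0 < c ∧ 0 < r ∧ ∀ s, b ≤ s → c * exp (r * s) ≤ J s := by
  have hq0 : 0 < q := by linarith
  have hlq : 0 < log q := log_pos hq
  have hr : 0 < log q / L := div_pos hlq hL
  have key : ∀ n : ℕ, q ^ n * J b ≤ J (b + n * L) := by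
    intro n
    induction n with
    | zero => simp
    | succ n ih =>
      have h1 := h (b + n * L) (by nlinarith [Nat.cast_nonneg (α := ℝ) n])
      have h2 : b + ((n + 1 : ℕ) : ℝ) * L = b + n * L + L := by push_cast; ring
      rw [h2]
      calc q ^ (n + 1) * J b = q * (q ^ n * J b) := by ring
        _ ≤ q * J (b + n * L) := mul_le_mul_of_nonneg_left ih hq0.le
        _ ≤ _ := h1
  refine ⟨J b / q * exp (-(log q / L * b)), log q / L, by positivity, hr, fun s hs => ?_⟩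
  obtain ⟨n, hn⟩ : ∃ n : ℕ, n = ⌊(s - b) / L⌋₊ := ⟨_, rfl⟩
  have h0 : 0 ≤ (s - b) / L := div_nonneg (by linarith) hL.le
  have h1 : (n : ℝ) ≤ (s - b) / L := hn ▸ Nat.floor_le h0
  have h2 : (s - b) / L < n + 1 := hn ▸ Nat.lt_floor_add_one _
  have h3 : b + n * L ≤ s := by
    rw [le_div_iff₀ hL] at h1; linarith
  have h4 : exp (log q / L * (s - b)) ≤ q ^ (n + 1) := by
    have e1 : log q / L * (s - b) = log q * ((s - b) / L) := by ring
    rw [e1, ← exp_log (pow_pos hq0 (n + 1)), log_pow]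
    apply exp_le_exp.2
    push_cast
    nlinarith
  calc J b / q * exp (-(log q / L * b)) * exp (log q / L * s)
      = J b / q * exp (log q / L * (s - b)) := by
        rw [mul_assoc, ← exp_add]; congr 2; ring
    _ ≤ J b / q * q ^ (n + 1) := mul_le_mul_of_nonneg_left h4 (by positivity)
    _ = q ^ n * J b := by rw [pow_succ]; field_simp
    _ ≤ J (b + n * L) := key n
    _ ≤ J s := hJ _ _ (by nlinarith [Nat.cast_nonneg (α := ℝ) n]) h3

theorem sel (ρ : ℝ) (hρ : 0 < ρ) (P : ℝ → ℝ) (hP : Monotone P) (hc : Continuous P)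
    (h0 : ∀ s, 0 < P s)
    (h1 : ∀ ρ' c : ℝ, ρ < ρ' → 0 < c → ¬ ∀ᶠ s in atTop, c * exp (ρ' * s) ≤ P s)
    (h2 : ∀ ρ' C : ℝ, ρ' < ρ → ¬ ∀ᶠ s in atTop, P s ≤ C * exp (ρ' * s))
    (δ K s1 : ℝ) (hδ : 0 < δ) (hK : 0 ≤ K) :
    ∃ α β : ℝ, s1 ≤ α ∧ α ≤ β ∧
      exp (-ρ * α) * P (α + K) + exp (-ρ * β) * P (β + K) ≤
        δ * ∫ s in α..β, exp (-ρ * s) * P s := by
  by_contra hcon
  push Not at hcon
  -- notation
  obtain ⟨m, hm⟩ : ∃ m : ℝ → ℝ, m = fun s => exp (-ρ * s) * P s := ⟨_, rfl⟩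
  have hmc : Continuous m := by rw [hm]; fun_prop
  have hmi : ∀ x y, IntervalIntegrable m volume x y := fun x y => hmc.intervalIntegrable x y
  have hm0 : ∀ s, 0 < m s := by
    intro s; rw [hm]; exact mul_pos (exp_pos _) (h0 s)
  obtain ⟨J, hJ⟩ : ∃ J : ℝ → ℝ, J = fun β => ∫ s in s1..β, m s := ⟨_, rfl⟩
  have hJsub : ∀ x y, J y - J x = ∫ s in x..y, m s := by
    intro x y
    rw [hJ]
    exact intervalIntegral.integral_interval_sub_left (hmi _ _) (hmi _ _)
  have hJmono : ∀ x y, x ≤ y → J x ≤ J y := by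
    intro x y hxy
    have e1 := hJsub x y
    have e2 : 0 ≤ ∫ s in x..y, m s :=
      intervalIntegral.integral_nonneg hxy fun s _ => (hm0 s).le
    linarith
  have hstep : ∀ x, exp (-ρ) * m x ≤ J (x + 1) - J x := by
    intro x
    rw [hJsub]
    have e1 : ∫ _ in x..(x + 1), exp (-ρ) * m x = exp (-ρ) * m x := by
      rw [intervalIntegral.integral_const]; simp
    rw [← e1]
    apply intervalIntegral.integral_mono_on (by linarith) (by simp) (hmi _ _)
    intro s hs
    have hmx : exp (-ρ) * m x = exp (-ρ + -ρ * x) * P x := by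
      rw [hm]; simp only []; rw [← mul_assoc, ← exp_add]
    have hms : m s = exp (-ρ * s) * P s := by rw [hm]
    rw [hmx, hms]
    apply mul_le_mul _ (hP hs.1) (h0 x).le (exp_pos _).le
    apply exp_le_exp.2
    nlinarith [hs.1, hs.2]
  -- `Φ`
  obtain ⟨Φ, hΦ⟩ : ∃ Φ : ℝ → ℝ, Φ = fun α => exp (-ρ * α) * P (α + K) := ⟨_, rfl⟩
  have hΦ0 : ∀ s, 0 < Φ s := by
    intro s; rw [hΦ]; exact mul_pos (exp_pos _) (h0 _)
  have hΦm : ∀ s, exp (-(ρ * K)) * Φ s = m (s + K) := by
    intro s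
    rw [hΦ, hm]
    simp only []
    rw [← mul_assoc, ← exp_add]
    congr 2; ring
  have hcon' : ∀ α β, s1 ≤ α → α ≤ β → δ * (J β - J α) < Φ α + Φ β := by
    intro α β ha hb
    have := hcon α β ha hb
    rw [hJsub, hΦ, hm]
    exact this
  obtain ⟨κ, hκ⟩ : ∃ κ : ℝ, κ = exp (-ρ) * exp (-(ρ * K)) := ⟨_, rfl⟩
  have hκ0 : 0 < κ := by rw [hκ]; positivity
  have hstep' : ∀ x, κ * Φ x ≤ J (x + (K + 1)) - J x := by
    intro x
    have e1 := hstep (x + K)
    rw [← hΦm] at e1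
    have e2 := hJmono x (x + K) (by linarith)
    have e3 : x + (K + 1) = x + K + 1 := by ring
    rw [e3, hκ]
    linarith
  have hstep'' : ∀ x, κ * Φ x ≤ J (x + (K + 1)) - J (x + K) := by
    intro x
    have e1 := hstep (x + K)
    rw [← hΦm] at e1
    have e3 : x + (K + 1) = x + K + 1 := by ring
    rw [e3, hκ]
    linarith
  by_cases hub : ∃ b, s1 ≤ b ∧ 1 + 2 * Φ s1 / δ ≤ J b
  · -- case 1
    obtain ⟨b, hb1, hb⟩ := hub
    have hbig : ∀ x, b ≤ x → δ / 2 * J x ≤ Φ x := by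
      intro x hx
      have e1 := hcon' s1 x le_rfl (by linarith)
      have e2 : J s1 = 0 := by rw [hJ]; simp
      have e3 := hJmono b x hx
      have e4 : 2 * Φ s1 / δ ≤ J x := by linarith
      rw [div_le_iff₀ hδ] at e4
      rw [e2] at e1
      nlinarith
    have hJb : 0 < J b := by
      have : 0 ≤ 2 * Φ s1 / δ := by have := hΦ0 s1; positivity
      linarith
    obtain ⟨c, r, hc0, hr0, hcr⟩ := sel_grow (J := J) (b := b) (L := K + 1)
      (q := 1 + κ * (δ / 2)) (by linarith) (by have := mul_pos hκ0 (half_pos hδ); linarith)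
      (fun x y _ hxy => hJmono x y hxy)
      (by
        intro x hx
        have e1 := hstep' x
        have e2 := mul_le_mul_of_nonneg_left (hbig x hx) hκ0.le
        linarith) hJb
    apply h1 (ρ + r) (δ / 2 * c * exp (-((ρ + r) * K))) (by linarith) (by positivity)
    filter_upwards [eventually_ge_atTop (b + K)] with s hs
    have e1 := hbig (s - K) (by linarith)
    have e2 := hcr (s - K) (by linarith)
    have e3 : Φ (s - K) = exp (-ρ * (s - K)) * P s := by
      rw [hΦ]; simp only [sub_add_cancel]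
    have e4 : P s = exp (ρ * (s - K)) * Φ (s - K) := by
      rw [e3, ← mul_assoc, ← exp_add]
      have : ρ * (s - K) + -ρ * (s - K) = 0 := by ring
      rw [this, exp_zero, one_mul]
    rw [e4]
    have e5 : δ / 2 * (c * exp (r * (s - K))) ≤ Φ (s - K) :=
      le_trans (mul_le_mul_of_nonneg_left e2 (by positivity)) e1
    calc δ / 2 * c * exp (-((ρ + r) * K)) * exp ((ρ + r) * s)
        = exp (ρ * (s - K)) * (δ / 2 * (c * exp (r * (s - K)))) := by
          have : exp (-((ρ + r) * K)) * exp ((ρ + r) * s) =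
              exp (ρ * (s - K)) * exp (r * (s - K)) := by
            rw [← exp_add, ← exp_add]; congr 1; ring
          calc _ = δ / 2 * c * (exp (-((ρ + r) * K)) * exp ((ρ + r) * s)) := by ring
            _ = _ := by rw [this]; ring
      _ ≤ _ := mul_le_mul_of_nonneg_left e5 (exp_pos _).le
  · -- case 2
    push Not at hub
    obtain ⟨B, hB⟩ : ∃ B : ℝ, ∀ x, J x ≤ B := by
      refine ⟨1 + 2 * Φ s1 / δ, fun x => ?_⟩
      have e1 := hub (max x s1) (le_max_right _ _)
      have e2 := hJmono x (max x s1) (le_max_left _ _)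
      linarith
    have hbdd : BddAbove (range J) := ⟨B, by rintro _ ⟨x, rfl⟩; exact hB x⟩
    have hJm : Monotone J := fun x y hxy => hJmono x y hxy
    have hlim : Tendsto J atTop (𝓝 (⨆ x, J x)) := tendsto_atTop_ciSup hJm hbdd
    obtain ⟨Ji, hJi⟩ : ∃ Ji : ℝ, Ji = ⨆ x, J x := ⟨_, rfl⟩
    rw [← hJi] at hlim
    have hshift : ∀ a : ℝ, Tendsto (fun x => J (x + a)) atTop (𝓝 Ji) := fun a =>
      hlim.comp (tendsto_atTop_add_const_right atTop a tendsto_id)
    have hΦlim : Tendsto Φ atTop (𝓝 0) := by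
      have e1 : Tendsto (fun x => (J (x + (K + 1)) - J (x + K)) / κ) atTop (𝓝 ((Ji - Ji) / κ)) :=
        ((hshift (K + 1)).sub (hshift K)).div_const κ
      rw [sub_self, zero_div] at e1
      refine squeeze_zero (fun x => (hΦ0 x).le) (fun x => ?_) e1
      rw [le_div_iff₀ hκ0]
      have := hstep'' x
      linarith
    have hΦge : ∀ α, s1 ≤ α → δ * (Ji - J α) ≤ Φ α := by
      intro α ha
      have e1 : Tendsto (fun β => δ * (J β - J α)) atTop (𝓝 (δ * (Ji - J α))) :=
        (hlim.sub_const _).const_mul δ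
      have e2 : Tendsto (fun β => Φ α + Φ β) atTop (𝓝 (Φ α + 0)) := hΦlim.const_add _
      rw [add_zero] at e2
      refine le_of_tendsto_of_tendsto e1 e2 ?_
      filter_upwards [eventually_ge_atTop α] with β hβ
      exact (hcon' α β ha hβ).le
    have hJle : ∀ x, J x ≤ Ji := by
      intro x; rw [hJi]; exact le_ciSup hbdd x
    have hI : ∀ x, 0 < Ji - J x := by
      intro x
      have e1 := hJle (x + 1)
      have e2 := hstep x
      have e3 := mul_pos (exp_pos (-ρ)) (hm0 x)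
      linarith
    obtain ⟨c, r, hc0, hr0, hcr⟩ := sel_grow (J := fun x => (Ji - J x)⁻¹) (b := s1) (L := K + 1)
      (q := 1 + κ * δ) (by linarith) (by have := mul_pos hκ0 hδ; linarith)
      (fun x y _ hxy => by
        apply inv_anti₀ (hI y)
        have := hJmono x y hxy
        linarith)
      (by
        intro x hx
        have e1 := hstep' x
        have e2 := mul_le_mul_of_nonneg_left (hΦge x hx) hκ0.le
        have e3 := hI x
        have e4 := hI (x + (K + 1))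
        have e5 := hJmono x (x + (K + 1)) (by linarith)
        rw [← div_eq_mul_inv, div_le_iff₀ e3, ← div_eq_inv_mul, le_div_iff₀ e4]
        have e6 : 0 < κ * δ := mul_pos hκ0 hδ
        nlinarith) (inv_pos.2 (hI s1))
    apply h2 (ρ - r) (exp ρ * c⁻¹) (by linarith)
    filter_upwards [eventually_ge_atTop s1] with s hs
    have e1 := hcr s hs
    have e2 : Ji - J s ≤ (c * exp (r * s))⁻¹ := by
      rw [le_inv_comm₀ (hI s) (by positivity)]
      exact e1
    have e3 := hstep s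
    have e4 := hJle (s + 1)
    have e5 : m s ≤ exp ρ * (c * exp (r * s))⁻¹ := by
      have e6 : exp (-ρ) * m s ≤ (c * exp (r * s))⁻¹ := by linarith
      have e7 := mul_le_mul_of_nonneg_left e6 (exp_pos ρ).le
      rw [← mul_assoc, ← exp_add, add_neg_cancel, exp_zero, one_mul] at e7
      exact e7
    have e6 : P s = exp (ρ * s) * m s := by
      rw [hm]; simp only []
      rw [← mul_assoc, ← exp_add]
      have : ρ * s + -ρ * s = 0 := by ring
      rw [this, exp_zero, one_mul]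
    rw [e6]
    calc exp (ρ * s) * m s ≤ exp (ρ * s) * (exp ρ * (c * exp (r * s))⁻¹) :=
          mul_le_mul_of_nonneg_left e5 (exp_pos _).le
      _ = exp ρ * c⁻¹ * exp ((ρ - r) * s) := by
          have : exp ((ρ - r) * s) = exp (ρ * s) * (exp (r * s))⁻¹ := by
            rw [← exp_neg, ← exp_add]; congr 1; ring
          rw [this, mul_inv]; ring

end Pool.Agent.MML
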