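import Pool.Agent.MML.MainA
import Pool.Agent.MML.Sel
import Pool.Agent.MML.GrowB

/-!
# MML, module MainB: the theorem in scaled coordinates

`ρ = 8/9`, `M = mN (π μ) (Ue f μ 1)`, `P = M + C0`.  Suppose that for all `s ≥ s2` there is `t` with `|F(s+it)| ≤ exp (-c' M(s))`, and put
`Yη(s) = -½ log (exp (-2 c' M(s)) + η²)`, so `Yη(s) ≤ -Ue f μ η s t`.  `window` for `α ≥ max s1 s2`, then `η → 0`
(`0 ≤ c' M - Yη = ½ log (1 + η² exp (2 c' M)) ≤ ½ η² exp (2 c' M)`, bounded on `[α, β]` times `η²`):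
`c' ∫_α^β exp (-ρs) M ≤ κ0 ∫_α^β exp (-ρs) P + C (...)`.  `M = P - C0`, `c' C0 ∫_α^β exp (-ρs) ≤ (c' C0/ρ) exp (-ρα) ≤ (c' C0/ρ) exp (-ρα) P(α+R+1)`:
`(c' - κ0) ∫_α^β exp (-ρs) P ≤ C'' (exp (-ρα) P(α+R+1) + exp (-ρβ) P(β+R+1))`.
`sel` with `K = R + 1`, `δ = (c' - κ0)/(2 C'')` (`C'' > 0`), hypotheses `h1`, `h2` from `grow_up`, `grow_low` (`P = M + C0` and `M → ∞`, so
`M ≤ P ≤ 2 M` for large `s`): the window has `∫ exp (-ρs) P ≤ 0`, while the left side of `sel` is positive: contradiction.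
-/

set_option autoImplicit false

namespace Pool.Agent.MML

open Real MeasureTheory Set Filter Topology

theorem mainB_log (x η : ℝ) (hη : 0 < η) :
    x - η ^ 2 * (1 / 2 * exp (2 * x)) ≤ -(1 / 2 * log (exp (-(2 * x)) + η ^ 2)) := by
  have hpos : 0 < exp (-(2 * x)) + η ^ 2 := by positivity
  have h : log (exp (-(2 * x)) + η ^ 2) ≤ -(2 * x) + η ^ 2 * exp (2 * x) := by
    rw [Real.log_le_iff_le_exp hpos, Real.exp_add]
    have h1 : η ^ 2 * exp (2 * x) + 1 ≤ exp (η ^ 2 * exp (2 * x)) := Real.add_one_le_exp _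
    have h2 : exp (-(2 * x)) * exp (2 * x) = 1 := by
      rw [← Real.exp_add]; simp
    have h3 : 0 < exp (-(2 * x)) := Real.exp_pos _
    calc exp (-(2 * x)) + η ^ 2 = exp (-(2 * x)) * (η ^ 2 * exp (2 * x) + 1) := by
          have : exp (-(2 * x)) * (η ^ 2 * exp (2 * x) + 1)
              = η ^ 2 * (exp (-(2 * x)) * exp (2 * x)) + exp (-(2 * x)) := by ring
          rw [this, h2]; ring
      _ ≤ exp (-(2 * x)) * exp (η ^ 2 * exp (2 * x)) := by
          exact mul_le_mul_of_nonneg_left h1 h3.le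
  nlinarith [h]

theorem mainB_cont {f : ℂ → ℂ} (hf : Differentiable ℂ f) {μ : ℝ} (hμ : 0 < μ) :
    Continuous (mN (π * μ) (Ue f μ 1)) := by
  obtain ⟨Uss, Ut, Utt, hS⟩ := SH_eta hf hμ (η := 1) one_pos
  have hc := hS.c2.c0
  unfold mN
  exact intervalIntegral.continuous_parametric_intervalIntegral_of_continuous' hc _ _

theorem mainB_nonneg {f : ℂ → ℂ} {μ : ℝ} (hμ : 0 < μ) (s : ℝ) :
    0 ≤ mN (π * μ) (Ue f μ 1) s := by
  unfold mN
  apply intervalIntegral.integral_nonneg
  · have := mul_pos Real.pi_pos hμ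
    linarith
  · intro t _
    exact Ue_one_nonneg s t

theorem mainB_exp_int {α β : ℝ} (h : α ≤ β) :
    ∫ s in α..β, exp (-(8 / 9) * s) ≤ 9 / 8 * exp (-(8 / 9) * α) := by
  have h1 : ∫ s in α..β, exp (-(8 / 9) * s)
      = (-(9 / 8) * exp (-(8 / 9) * β)) - (-(9 / 8) * exp (-(8 / 9) * α)) := by
    apply intervalIntegral.integral_eq_sub_of_hasDerivAt
    · intro x _
      have h2 : HasDerivAt (fun y : ℝ => -(8 / 9) * y) (-(8 / 9)) x := by
        simpa using (hasDerivAt_id x).const_mul (-(8 / 9) : ℝ)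
      have h3 : HasDerivAt (fun y : ℝ => -(9 / 8) * exp (-(8 / 9) * y))
          (-(9 / 8) * (exp (-(8 / 9) * x) * -(8 / 9))) x := (h2.exp).const_mul (-(9 / 8) : ℝ)
      have h4 : -(9 / 8) * (exp (-(8 / 9) * x) * -(8 / 9)) = exp (-(8 / 9) * x) := by ring
      rw [h4] at h3
      exact h3
    · exact Continuous.intervalIntegrable (by fun_prop) _ _
  rw [h1]
  have := Real.exp_pos (-(8 / 9) * β)
  linarith

theorem main_scaled {f : ℂ → ℂ} (hf : Differentiable ℂ f) (hne : ¬ ∃ c, ∀ z, f z = c) {μ : ℝ}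
    (hμ : 3 / 2 ≤ μ) (hlo : lowerOrder f = ((8 / 9 * μ : ℝ) : EReal)) {c' : ℝ}
    (hc : 8 / 21 < c') :
    ¬ ∀ᶠ s in atTop, ∃ t, ‖Fe f μ s t‖ ≤ exp (-(c' * mN (π * μ) (Ue f μ 1) s)) := by
  intro hev
  obtain ⟨s2, hs2⟩ := Filter.eventually_atTop.1 hev
  have hμ0 : 0 < μ := by linarith
  have hne0 : ∃ z, f z ≠ 0 := by
    by_contra hcon
    push Not at hcon
    exact hne ⟨0, hcon⟩
  obtain ⟨κ0, R, C, C0, s1, hκ, hR, hC, hC0, hwin⟩ := window hf hne0 hμ
  set M : ℝ → ℝ := mN (π * μ) (Ue f μ 1) with hM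
  have hMc : Continuous M := mainB_cont hf hμ0
  have hMm : Monotone M := mN_Ue_mono hf hμ0 one_pos
  have hM0 : ∀ s, 0 ≤ M s := fun s => mainB_nonneg hμ0 s
  set P : ℝ → ℝ := fun s => M s + C0 with hP
  have hPm : Monotone P := fun a b hab => by
    simp only [hP]; linarith [hMm hab]
  have hPc : Continuous P := hMc.add continuous_const
  have hP1 : ∀ s, 1 ≤ P s := fun s => by simp only [hP]; linarith [hM0 s]
  have hP0 : ∀ s, 0 < P s := fun s => by linarith [hP1 s]
  have h89 : (0 : ℝ) < 8 / 9 := by norm_num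
  have h1 : ∀ ρ' c : ℝ, (8 / 9 : ℝ) < ρ' → 0 < c → ¬ ∀ᶠ s in atTop, c * exp (ρ' * s) ≤ P s := by
    intro ρ' c hρ' hcpos hcon
    refine grow_up hf hne hμ0 h89 hlo ρ' (c / 2) hρ' (by positivity) ?_
    have htend : Tendsto (fun s : ℝ => c / 2 * exp (ρ' * s)) atTop atTop := by
      apply Tendsto.const_mul_atTop (by positivity)
      exact Real.tendsto_exp_atTop.comp (Tendsto.const_mul_atTop (by linarith) tendsto_id)
    filter_upwards [hcon, htend.eventually_ge_atTop C0] with s ha hb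
    have : c * exp (ρ' * s) ≤ M s + C0 := ha
    change c / 2 * exp (ρ' * s) ≤ M s
    nlinarith
  have h2 : ∀ ρ' C : ℝ, ρ' < (8 / 9 : ℝ) → ¬ ∀ᶠ s in atTop, P s ≤ C * exp (ρ' * s) := by
    intro ρ' C' hρ' hcon
    refine grow_low hf hne hμ0 h89 hlo ρ' C' hρ' ?_
    filter_upwards [hcon] with s ha
    have : M s + C0 ≤ C' * exp (ρ' * s) := ha
    change M s ≤ C' * exp (ρ' * s)
    linarith
  have hcpos : 0 < c' := by linarith
  have hgap : 0 < c' - κ0 := by linarith
  set C2 : ℝ := C + 9 / 8 * (c' * C0) + 1 with hC2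
  have hcC0 : 0 < c' * C0 := mul_pos hcpos (by linarith)
  have hC2pos : 0 < C2 := by simp only [hC2]; linarith
  obtain ⟨α, β, hα, hαβ, hsel⟩ := sel (8 / 9) h89 P hPm hPc hP0 h1 h2
    ((c' - κ0) / (2 * C2)) (R + 1) (max s1 s2) (by positivity) (by linarith)
  have hα1 : s1 ≤ α := le_trans (le_max_left _ _) hα
  have hα2 : s2 ≤ α := le_trans (le_max_right _ _) hα
  set J : ℝ := ∫ s in α..β, exp (-(8 / 9) * s) * P s with hJ
  set Φa : ℝ := exp (-(8 / 9) * α) * P (α + (R + 1)) with hΦa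
  set Φb : ℝ := exp (-(8 / 9) * β) * P (β + (R + 1)) with hΦb
  have hΦa0 : 0 < Φa := mul_pos (Real.exp_pos _) (hP0 _)
  have hΦb0 : 0 < Φb := mul_pos (Real.exp_pos _) (hP0 _)
  set B : ℝ := ∫ s in α..β, exp (-(8 / 9) * s) * (1 / 2 * exp (2 * (c' * M s))) with hB
  -- the inequality for every η
  have hIntM : IntervalIntegrable (fun s => exp (-(8 / 9) * s) * (c' * M s)) volume α β :=
    Continuous.intervalIntegrable (by fun_prop) _ _
  have hIntB : IntervalIntegrable
      (fun s => exp (-(8 / 9) * s) * (1 / 2 * exp (2 * (c' * M s)))) volume α β :=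
    Continuous.intervalIntegrable (by fun_prop) _ _
  have hIntE : IntervalIntegrable (fun s => exp (-(8 / 9) * s)) volume α β :=
    Continuous.intervalIntegrable (by fun_prop) _ _
  have hIntP : IntervalIntegrable (fun s => exp (-(8 / 9) * s) * P s) volume α β :=
    Continuous.intervalIntegrable (by fun_prop) _ _
  have hB0 : 0 ≤ B := by
    apply intervalIntegral.integral_nonneg hαβ
    intro t _
    positivity
  have key : ∀ η ∈ Ioc (0 : ℝ) 1,
      ∫ s in α..β, exp (-(8 / 9) * s) * (c' * M s) ≤ κ0 * J + C * (Φa + Φb) + η ^ 2 * B := by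
    intro η hη
    have hη0 : 0 < η := hη.1
    set Y : ℝ → ℝ := fun s => -(1 / 2 * log (exp (-(2 * (c' * M s))) + η ^ 2)) with hY
    have hYc : Continuous Y := by
      simp only [hY]
      apply Continuous.neg
      apply Continuous.mul continuous_const
      apply Continuous.log
      · fun_prop
      · intro s
        have : 0 < exp (-(2 * (c' * M s))) + η ^ 2 := by positivity
        exact this.ne'
    have hYle : ∀ s ∈ Icc α β, ∃ t, Y s ≤ -(Ue f μ η s t) := by
      intro s hs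
      obtain ⟨t, ht⟩ := hs2 s (le_trans hα2 hs.1)
      refine ⟨t, ?_⟩
      simp only [hY, Ue]
      have hsq : ‖Fe f μ s t‖ ^ 2 ≤ exp (-(2 * (c' * M s))) := by
        have h3 : ‖Fe f μ s t‖ ^ 2 ≤ (exp (-(c' * M s))) ^ 2 :=
          pow_le_pow_left₀ (norm_nonneg _) ht 2
        have h4 : (exp (-(c' * M s))) ^ 2 = exp (-(2 * (c' * M s))) := by
          rw [← Real.exp_nat_mul]; congr 1; push_cast; ring
        rwa [h4] at h3
      have hlog : log (‖Fe f μ s t‖ ^ 2 + η ^ 2) ≤ log (exp (-(2 * (c' * M s))) + η ^ 2) := by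
        apply Real.log_le_log (by positivity)
        linarith
      linarith
    have hw := hwin η hη Y α β hα1 hαβ hYc.continuousOn hYle
    have hIntY : IntervalIntegrable (fun s => exp (-(8 / 9) * s) * Y s) volume α β :=
      Continuous.intervalIntegrable (by fun_prop) _ _
    have hmono : ∫ s in α..β, (exp (-(8 / 9) * s) * (c' * M s)
        - η ^ 2 * (exp (-(8 / 9) * s) * (1 / 2 * exp (2 * (c' * M s)))))
        ≤ ∫ s in α..β, exp (-(8 / 9) * s) * Y s := by
      apply intervalIntegral.integral_mono_on hαβ (hIntM.sub (hIntB.const_mul _)) hIntY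
      intro s _
      have h5 := mainB_log (c' * M s) η hη0
      have h6 := mul_le_mul_of_nonneg_left h5 (Real.exp_pos (-(8 / 9) * s)).le
      simp only [hY]
      calc _ = exp (-(8 / 9) * s) * (c' * M s - η ^ 2 * (1 / 2 * exp (2 * (c' * M s)))) := by
            ring
        _ ≤ _ := h6
    rw [intervalIntegral.integral_sub hIntM (hIntB.const_mul _),
      intervalIntegral.integral_const_mul] at hmono
    have hea : α + R + 1 = α + (R + 1) := by ring
    have heb : β + R + 1 = β + (R + 1) := by ring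
    rw [hea, heb] at hw
    have hw' : ∫ s in α..β, exp (-(8 / 9) * s) * Y s ≤ κ0 * J + C * (Φa + Φb) := hw
    have hmono' : (∫ s in α..β, exp (-(8 / 9) * s) * (c' * M s)) - η ^ 2 * B
        ≤ ∫ s in α..β, exp (-(8 / 9) * s) * Y s := hmono
    linarith
  have key2 : ∫ s in α..β, exp (-(8 / 9) * s) * (c' * M s) ≤ κ0 * J + C * (Φa + Φb) := by
    apply le_of_forall_pos_le_add
    intro ε hε
    set η : ℝ := min 1 (ε / (B + 1)) with hηdef
    have hη0 : 0 < η := lt_min one_pos (by positivity)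
    have hη1 : η ≤ 1 := min_le_left _ _
    have h7 := key η ⟨hη0, hη1⟩
    have h8 : η ^ 2 * B ≤ ε := by
      have h9 : η ^ 2 ≤ η := by nlinarith
      have h10 : η ≤ ε / (B + 1) := min_le_right _ _
      have h11 : η * (B + 1) ≤ ε := by
        rwa [le_div_iff₀ (by positivity)] at h10
      nlinarith
    linarith
  -- M = P - C0
  have hsplit : ∫ s in α..β, exp (-(8 / 9) * s) * (c' * M s)
      = c' * J - (c' * C0) * ∫ s in α..β, exp (-(8 / 9) * s) := by
    rw [hJ, ← intervalIntegral.integral_const_mul, ← intervalIntegral.integral_const_mul,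
      ← intervalIntegral.integral_sub (hIntP.const_mul _) (hIntE.const_mul _)]
    apply intervalIntegral.integral_congr
    intro s _
    simp only [hP]
    ring
  have hE := mainB_exp_int hαβ
  have hEa : exp (-(8 / 9) * α) ≤ Φa := by
    have := hP1 (α + (R + 1))
    have h12 := Real.exp_pos (-(8 / 9) * α)
    simp only [hΦa]
    nlinarith
  have hE2 : (c' * C0) * (∫ s in α..β, exp (-(8 / 9) * s)) ≤ (c' * C0) * (9 / 8 * Φa) := by
    apply mul_le_mul_of_nonneg_left _ hcC0.le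
    linarith
  have hfin : (c' - κ0) * J ≤ C2 * (Φa + Φb) := by
    have h13 : c' * J - (c' * C0) * (∫ s in α..β, exp (-(8 / 9) * s))
        ≤ κ0 * J + C * (Φa + Φb) := by rw [← hsplit]; exact key2
    have h14 : 0 ≤ (9 / 8 * (c' * C0)) * Φb := by positivity
    simp only [hC2]
    nlinarith
  have hsel' : Φa + Φb ≤ (c' - κ0) / (2 * C2) * J := hsel
  have hJpos : 0 < J := by
    by_contra hcon
    have hJle : J ≤ 0 := not_lt.1 hcon
    have : (c' - κ0) / (2 * C2) * J ≤ 0 :=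
      mul_nonpos_of_nonneg_of_nonpos (by positivity) hJle
    linarith
  have h15 : C2 * (Φa + Φb) ≤ C2 * ((c' - κ0) / (2 * C2) * J) :=
    mul_le_mul_of_nonneg_left hsel' hC2pos.le
  have h16 : C2 * ((c' - κ0) / (2 * C2) * J) = (c' - κ0) / 2 * J := by
    field_simp
  have h17 : 0 < (c' - κ0) * J := mul_pos hgap hJpos
  nlinarith

end Pool.Agent.MML
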