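import Pool.Agent.MML.KerLim
import Pool.Agent.MML.KerI
import Pool.Agent.MML.Mean

/-!
# MML, module PtI: pointwise inequality from kernel I

`ker_ineq` for `kerI a R` with `W = symW s0 φ U` (`W 0 0 = 2 U s0 φ`, `Wt τ 0 = 0`), `h = hI a` (`gI_lower`, `hI_int`).
With `b = π/a ≤ l`, `P = mN l U1`, `N = mN l U`:
`kv = -kI`: `-∫_0^b W ≤ ∫_0^b symW (U⁻) ≤ mN l (U⁻) ≤ P - N` (`U⁻ = U⁺ - U ≤ U1 - U`);
the error: for `1 ≤ |τ|` `|(2 chi1 gs0 + chi2 g0)| ≤ (12 + 30) K/(R - 1) exp (-a|τ|)` and `∫_0^b |W| ≤ mN l |U| ≤ 2 P - N`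
(`|U| = 2 U⁺ - U ≤ 2 U1 - U`), for `|τ| ≤ 1` it vanishes and the right side is nonnegative;
`∫_0^b (Wss + Wtt) ≤ mN l (Uss + Utt)` (`sym_le`, `SH_per`), `chi, hI ≥ 0`.
-/

set_option autoImplicit false

namespace Pool.Agent.MML

open Real MeasureTheory Set Filter Topology

/-- the error density is continuous on the strip -/
theorem ptI_densCont {R b : ℝ} (hR : 2 ≤ R) {g0 gs0 : ℝ → ℝ → ℝ}
    (g0c : ContinuousOn (fun p : ℝ × ℝ => g0 p.1 p.2) ({τ | 1 ≤ |τ|} ×ˢ Icc 0 b))
    (gs0c : ContinuousOn (fun p : ℝ × ℝ => gs0 p.1 p.2) ({τ | 1 ≤ |τ|} ×ˢ Icc 0 b)) :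
    ContinuousOn (fun p : ℝ × ℝ => 2 * chi1 R p.1 * gs0 p.1 p.2 + chi2 R p.1 * g0 p.1 p.2)
      (univ ×ˢ Icc 0 b) := by
  obtain ⟨-, c1, c2⟩ := chi_cont hR
  have h1 : ContinuousOn (fun p : ℝ × ℝ => 2 * chi1 R p.1 * gs0 p.1 p.2 + chi2 R p.1 * g0 p.1 p.2)
      ({τ | 1 ≤ |τ|} ×ˢ Icc 0 b) := by
    refine ContinuousOn.add (ContinuousOn.mul ?_ gs0c) (ContinuousOn.mul ?_ g0c)
    · exact (continuous_const.mul (c1.comp continuous_fst)).continuousOn
    · exact (c2.comp continuous_fst).continuousOn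
  have h2 : ContinuousOn (fun p : ℝ × ℝ => 2 * chi1 R p.1 * gs0 p.1 p.2 + chi2 R p.1 * g0 p.1 p.2)
      ({τ | |τ| ≤ 1} ×ˢ Icc 0 b) := by
    refine (continuousOn_const (c := (0 : ℝ))).congr ?_
    rintro ⟨τ, t⟩ ⟨h, -⟩
    obtain ⟨-, e1, e2⟩ := chi_one hR h
    simp [e1, e2]
  have k1 : IsClosed ({τ : ℝ | 1 ≤ |τ|} ×ˢ Icc 0 b) :=
    (isClosed_le continuous_const continuous_abs).prod isClosed_Icc
  have k2 : IsClosed ({τ : ℝ | |τ| ≤ 1} ×ˢ Icc 0 b) :=
    (isClosed_le continuous_abs continuous_const).prod isClosed_Icc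
  refine (h1.union_of_isClosed h2 k1 k2).mono ?_
  rintro ⟨τ, t⟩ ⟨-, ht⟩
  rcases le_total 1 |τ| with h | h
  · exact Or.inl ⟨h, ht⟩
  · exact Or.inr ⟨h, ht⟩

/-- a parametric integral of a function which is continuous on a strip -/
theorem ptI_paramCont {b : ℝ} (hb : 0 ≤ b) {F : ℝ → ℝ → ℝ}
    (hF : ContinuousOn (fun p : ℝ × ℝ => F p.1 p.2) (univ ×ˢ Icc 0 b)) :
    Continuous (fun τ => ∫ t in (0 : ℝ)..b, F τ t) := by
  have hG : Continuous (fun p : ℝ × ℝ => F p.1 (max 0 (min b p.2))) := by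
    have hm : Continuous (fun p : ℝ × ℝ => (p.1, max 0 (min b p.2))) := by fun_prop
    have := hF.comp_continuous hm (fun p => ⟨mem_univ _, le_max_left _ _,
      max_le hb (min_le_left _ _)⟩)
    exact this
  have h1 := intervalIntegral.continuous_parametric_intervalIntegral_of_continuous'
    (f := fun τ t => F τ (max 0 (min b t))) hG 0 b (μ := volume)
  refine h1.congr (fun τ => ?_)
  refine intervalIntegral.integral_congr (fun t ht => ?_)
  rw [uIcc_of_le hb] at ht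
  rw [min_eq_right ht.2, max_eq_right ht.1]

theorem ptI_symW_cont {F : ℝ → ℝ → ℝ} (hF : Continuous (fun p : ℝ × ℝ => F p.1 p.2)) (s0 φ : ℝ) :
    Continuous (fun p : ℝ × ℝ => symW s0 φ F p.1 p.2) := by
  unfold symW
  refine Continuous.add ?_ ?_
  · exact hF.comp (by fun_prop : Continuous fun p : ℝ × ℝ => (s0 + p.1, φ + p.2))
  · exact hF.comp (by fun_prop : Continuous fun p : ℝ × ℝ => (s0 + p.1, φ - p.2))

theorem ptI_slice_cont {F : ℝ → ℝ → ℝ} (hF : Continuous (fun p : ℝ × ℝ => F p.1 p.2)) (s : ℝ) :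
    Continuous (F s) :=
  hF.comp (by fun_prop : Continuous fun t : ℝ => (s, t))

theorem ptI (a : ℝ) (ha : 0 < a) : ∃ K, 0 ≤ K ∧ ∀ (l R : ℝ), π / a ≤ l → 2 ≤ R →
    ∀ (U Us Uss Ut Utt U1 : ℝ → ℝ → ℝ), SH l U Us Uss Ut Utt →
      Continuous (fun p : ℝ × ℝ => U1 p.1 p.2) → (∀ s t, 0 ≤ U1 s t) →
      (∀ s t, U s t ≤ U1 s t) → (∀ s t, U1 s (t + 2 * l) = U1 s t) → ∀ s0 φ : ℝ,
        -(U s0 φ) ≤ ∫ τ in (-R)..R,
          (chi R τ * kI a τ * (mN l U1 (s0 + τ) - mN l U (s0 + τ))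
            + K / (R - 1) * exp (-(a * |τ|)) * (2 * mN l U1 (s0 + τ) - mN l U (s0 + τ))
            + chi R τ * hI a τ * mN l (fun s t => Uss s t + Utt s t) (s0 + τ)) := by
  obtain ⟨K1, hK1, hdec⟩ := gI_decay a ha
  refine ⟨42 * K1, by positivity, ?_⟩
  intro l R hl hR U Us Uss Ut Utt U1 hU U1c U1n hUU1 U1p s0 φ
  have hb0 : 0 < π / a := div_pos pi_pos ha
  have hl0 : 0 < l := lt_of_lt_of_le hb0 hl
  have hR0 : 0 < R := by linarith
  have hR1 : 0 < R - 1 := by linarith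
  obtain ⟨K0, hk⟩ := kerI a R ha hR
  obtain ⟨cc0, cc1, cc2⟩ := chi_cont hR
  set b := π / a with hbdef
  have hUc := hU.c2.c0
  have hGc : Continuous (fun p : ℝ × ℝ => U1 p.1 p.2 - U p.1 p.2) := U1c.sub hUc
  have hHc : Continuous (fun p : ℝ × ℝ => 2 * U1 p.1 p.2 - U p.1 p.2) :=
    (continuous_const.mul U1c).sub hUc
  have hSc : Continuous (fun p : ℝ × ℝ => Uss p.1 p.2 + Utt p.1 p.2) :=
    hU.c2.css.add hU.c2.ctt
  have hG := fun τ => sym_le (F := fun s t => U1 s t - U s t) hl0 hGc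
    (fun s t => by simp only [U1p, hU.per]) (fun s t => by simpa using hUU1 s t) hb0.le hl s0 φ τ
  have hH := fun τ => sym_le (F := fun s t => 2 * U1 s t - U s t) hl0 hHc
    (fun s t => by simp only [U1p, hU.per])
    (fun s t => by have := hUU1 s t; have := U1n s t; linarith) hb0.le hl s0 φ τ
  have hS := fun τ => sym_le (F := fun s t => Uss s t + Utt s t) hl0 hSc
    (fun s t => by
      obtain ⟨-, h2, -, h4⟩ := SH_per hU s t
      simp only [h2, h4]) (fun s t => hU.sub s t) hb0.le hl s0 φ τ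
  have eG : ∀ s, mN l (fun s t => U1 s t - U s t) s = mN l U1 s - mN l U s := by
    intro s
    unfold mN
    exact intervalIntegral.integral_sub ((ptI_slice_cont U1c s).intervalIntegrable _ _)
      ((ptI_slice_cont hUc s).intervalIntegrable _ _)
  have eH : ∀ s, mN l (fun s t => 2 * U1 s t - U s t) s = 2 * mN l U1 s - mN l U s := by
    intro s
    unfold mN
    have h2 : IntervalIntegrable (fun t => 2 * U1 s t) volume (-l) l :=
      (continuous_const.mul (ptI_slice_cont U1c s)).intervalIntegrable _ _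
    have h3 : IntervalIntegrable (fun t => U s t) volume (-l) l :=
      (ptI_slice_cont hUc s).intervalIntegrable _ _
    show (∫ t in (-l)..l, (2 * U1 s t - U s t)) = _
    rw [intervalIntegral.integral_sub h2 h3, intervalIntegral.integral_const_mul]
  have hW := symW_C2 hU.c2 s0 φ
  have hWc := hW.c0
  have hWsl := fun τ => ptI_slice_cont hWc τ
  -- the first bound
  have b1 : ∀ τ, -(∫ t in (0 : ℝ)..b, symW s0 φ U τ t) ≤ mN l U1 (s0 + τ) - mN l U (s0 + τ) := by
    intro τ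
    refine le_trans ?_ (le_trans (hG τ) (eG (s0 + τ)).le)
    rw [← intervalIntegral.integral_neg]
    refine intervalIntegral.integral_mono_on hb0.le ((hWsl τ).neg.intervalIntegrable _ _)
      ((ptI_slice_cont (ptI_symW_cont hGc s0 φ) τ).intervalIntegrable _ _) ?_
    intro t _
    have h1 := U1n (s0 + τ) (φ + t)
    have h2 := U1n (s0 + τ) (φ - t)
    simp only [symW]
    linarith
  -- the second bound
  have b2 : ∀ τ, (∫ t in (0 : ℝ)..b, |symW s0 φ U τ t|)
      ≤ 2 * mN l U1 (s0 + τ) - mN l U (s0 + τ) := by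
    intro τ
    refine le_trans ?_ (le_trans (hH τ) (eH (s0 + τ)).le)
    refine intervalIntegral.integral_mono_on hb0.le ((hWsl τ).abs.intervalIntegrable _ _)
      ((ptI_slice_cont (ptI_symW_cont hHc s0 φ) τ).intervalIntegrable _ _) ?_
    intro t _
    have h1 := U1n (s0 + τ) (φ + t)
    have h2 := U1n (s0 + τ) (φ - t)
    have h3 := hUU1 (s0 + τ) (φ + t)
    have h4 := hUU1 (s0 + τ) (φ - t)
    simp only [symW]
    rw [abs_le]
    constructor <;> linarith
  -- the third bound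
  have b3 : ∀ τ, (∫ t in (0 : ℝ)..b, (symW s0 φ Uss τ t + symW s0 φ Utt τ t))
      ≤ mN l (fun s t => Uss s t + Utt s t) (s0 + τ) := by
    intro τ
    refine le_trans (le_of_eq ?_) (hS τ)
    refine intervalIntegral.integral_congr (fun t _ => ?_)
    simp only [symW]
    ring
  have hsub : ∀ τ t, 0 ≤ symW s0 φ Uss τ t + symW s0 φ Utt τ t := by
    intro τ t
    have h1 := hU.sub (s0 + τ) (φ + t)
    have h2 := hU.sub (s0 + τ) (φ - t)
    simp only [symW]
    linarith
  have key := ker_ineq hk hW (fun τ => by simp [mixW]) hsub (hI a) (hI_int a ha _ _)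
    (fun ε hε τ hτ t _ => gI_lower a ha hε.1 hτ)
  have hW00 : symW s0 φ U 0 0 = 2 * U s0 φ := by simp [symW]; ring
  rw [hW00] at key
  have key' : -(U s0 φ) ≤ _ := le_trans (by linarith) key
  refine le_trans key' ?_
  unfold kerPart
  have hP : Continuous (fun τ => mN l U1 (s0 + τ)) :=
    (mN_cont U1c).comp (by fun_prop : Continuous fun τ : ℝ => s0 + τ)
  have hN : Continuous (fun τ => mN l U (s0 + τ)) :=
    (mN_cont hUc).comp (by fun_prop : Continuous fun τ : ℝ => s0 + τ)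
  have hSS : Continuous (fun τ => mN l (fun s t => Uss s t + Utt s t) (s0 + τ)) :=
    (mN_cont hSc).comp (by fun_prop : Continuous fun τ : ℝ => s0 + τ)
  have hI1 : Continuous (fun τ => ∫ t in (0 : ℝ)..b, symW s0 φ U τ t) :=
    ptI_paramCont hb0.le hWc.continuousOn
  have hI2 : Continuous (fun τ => ∫ t in (0 : ℝ)..b,
      (symW s0 φ Uss τ t + symW s0 φ Utt τ t)) :=
    ptI_paramCont (F := fun τ t => symW s0 φ Uss τ t + symW s0 φ Utt τ t) hb0.le
      (hW.css.add hW.ctt).continuousOn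
  have hdens := ptI_densCont (b := b) hR hk.g0c hk.gs0c
  have hI3 : Continuous (fun τ => ∫ t in (0 : ℝ)..b,
      (2 * chi1 R τ * gIs a 0 τ t + chi2 R τ * gI a 0 τ t) * symW s0 φ U τ t) :=
    ptI_paramCont (F := fun τ t => (2 * chi1 R τ * gIs a 0 τ t + chi2 R τ * gI a 0 τ t)
      * symW s0 φ U τ t) hb0.le (hdens.mul hWc.continuousOn)
  have hkc := kI_cont a
  have hA : IntervalIntegrable (fun τ => chi R τ * (-kI a τ * (∫ t in (0 : ℝ)..b, symW s0 φ U τ t)
      + -kI a τ * ∫ t in b..b, symW s0 φ U τ t)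
      + ∫ t in (0 : ℝ)..b, (2 * chi1 R τ * gIs a 0 τ t + chi2 R τ * gI a 0 τ t)
        * symW s0 φ U τ t) volume (-R) R := by
    simp only [intervalIntegral.integral_same, mul_zero, add_zero]
    exact ((cc0.mul (hkc.neg.mul hI1)).add hI3).intervalIntegrable _ _
  have hB : IntervalIntegrable (fun τ => chi R τ * hI a τ * ∫ t in (0 : ℝ)..b,
      (symW s0 φ Uss τ t + symW s0 φ Utt τ t)) volume (-R) R := by
    have := ((hI_int a ha (-R) R).continuousOn_mul cc0.continuousOn).mul_continuousOn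
      hI2.continuousOn
    exact this
  have hC3 : IntervalIntegrable (fun τ => chi R τ * hI a τ *
      mN l (fun s t => Uss s t + Utt s t) (s0 + τ)) volume (-R) R := by
    have := ((hI_int a ha (-R) R).continuousOn_mul cc0.continuousOn).mul_continuousOn
      hSS.continuousOn
    exact this
  have hec : Continuous (fun τ : ℝ => exp (-(a * |τ|))) := by fun_prop
  have hC12 : IntervalIntegrable (fun τ => chi R τ * kI a τ *
      (mN l U1 (s0 + τ) - mN l U (s0 + τ))
      + 42 * K1 / (R - 1) * exp (-(a * |τ|)) * (2 * mN l U1 (s0 + τ) - mN l U (s0 + τ)))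
      volume (-R) R := by
    refine Continuous.intervalIntegrable ?_ _ _
    exact ((cc0.mul hkc).mul (hP.sub hN)).add
      ((continuous_const.mul hec).mul ((continuous_const.mul hP).sub hN))
  rw [← intervalIntegral.integral_add hA hB]
  refine intervalIntegral.integral_mono_on (by linarith) (hA.add hB) (hC12.add hC3) ?_
  intro τ hτ
  have hτR : |τ| ≤ R := abs_le.2 ⟨by linarith [hτ.1], hτ.2⟩
  obtain ⟨hc0, hc1⟩ := chi_mem hR hτR
  have hk0 := (kI_pos a ha τ).le
  have hh0 := hI_nonneg a τ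
  -- error term
  have berr : (∫ t in (0 : ℝ)..b, (2 * chi1 R τ * gIs a 0 τ t + chi2 R τ * gI a 0 τ t)
        * symW s0 φ U τ t)
      ≤ 42 * K1 / (R - 1) * exp (-(a * |τ|)) * (2 * mN l U1 (s0 + τ) - mN l U (s0 + τ)) := by
    have hM : 0 ≤ 42 * K1 / (R - 1) * exp (-(a * |τ|)) := by positivity
    refine le_trans ?_ (mul_le_mul_of_nonneg_left (b2 τ) hM)
    rw [← intervalIntegral.integral_const_mul]
    refine intervalIntegral.integral_mono_on hb0.le ?_ ?_ ?_
    · refine ContinuousOn.intervalIntegrable ?_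
      rw [uIcc_of_le hb0.le]
      refine ContinuousOn.mul ?_ (hWsl τ).continuousOn
      exact hdens.comp (f := fun t : ℝ => (τ, t)) (by fun_prop) (fun t ht => ⟨mem_univ _, ht⟩)
    · exact (continuous_const.mul (hWsl τ).abs).intervalIntegrable _ _
    · intro t ht
      refine le_trans (le_abs_self _) ?_
      rw [abs_mul]
      refine mul_le_mul_of_nonneg_right ?_ (abs_nonneg _)
      rcases le_total 1 |τ| with h | h
      · obtain ⟨d1, d2⟩ := hdec τ h t
        have e1 := chi1_bd hR hτR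
        have e2 := chi2_bd hR hτR
        have hE : 0 ≤ exp (-(a * |τ|)) := (exp_pos _).le
        calc |2 * chi1 R τ * gIs a 0 τ t + chi2 R τ * gI a 0 τ t|
            ≤ |2 * chi1 R τ * gIs a 0 τ t| + |chi2 R τ * gI a 0 τ t| := abs_add_le _ _
          _ = 2 * |chi1 R τ| * |gIs a 0 τ t| + |chi2 R τ| * |gI a 0 τ t| := by
              rw [abs_mul, abs_mul, abs_mul, abs_of_pos (by norm_num : (0 : ℝ) < 2)]
          _ ≤ 2 * (6 / (R - 1)) * (K1 * exp (-(a * |τ|)))
              + 30 / (R - 1) * (K1 * exp (-(a * |τ|))) := by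
              gcongr
          _ = 42 * K1 / (R - 1) * exp (-(a * |τ|)) := by
              field_simp
              ring
      · obtain ⟨-, e1, e2⟩ := chi_one hR h
        rw [e1, e2]
        simpa using hM
  have p1 : chi R τ * (-kI a τ * (∫ t in (0 : ℝ)..b, symW s0 φ U τ t)
      + -kI a τ * ∫ t in b..b, symW s0 φ U τ t)
      ≤ chi R τ * kI a τ * (mN l U1 (s0 + τ) - mN l U (s0 + τ)) := by
    rw [intervalIntegral.integral_same, mul_zero, add_zero]
    calc chi R τ * (-kI a τ * ∫ t in (0 : ℝ)..b, symW s0 φ U τ t)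
        = chi R τ * kI a τ * (-(∫ t in (0 : ℝ)..b, symW s0 φ U τ t)) := by ring
      _ ≤ _ := mul_le_mul_of_nonneg_left (b1 τ) (mul_nonneg hc0 hk0)
  have p3 := mul_le_mul_of_nonneg_left (b3 τ) (mul_nonneg hc0 hh0)
  exact add_le_add (add_le_add p1 berr) p3

end Pool.Agent.MML
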