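import Pool.Agent.MML.PtI
import Pool.Agent.MML.ConstI
import Pool.Agent.MML.Avg
import Pool.Agent.MML.EtaB

/-!
# MML, module WinGen: the window inequality, general form

`l = π μ`, `M = mN l (Ue f μ 1)` (nondecreasing, `≥ 0`), `N = mN l (Ue f μ η)`, `-C0 ≤ N ≤ M` for `s ≥ s1`
(`mN_Ue_lower`, take `C0 ≥ 1`), `P = M + C0`, so `|N| ≤ P`, `1 ≤ P`.
`p` times `ptI` plus `1 - p` times the second pointwise inequality (at the point `(s, t)` given by the hypothesis):
`Y s ≤ ∫_{-R}^R (kM τ P(s+τ) - kN τ N(s+τ) + kH' τ N2(s+τ)) dτ` with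
`kM = p chi kI + (1-p) chi kh + 3 p K1/(R-1) exp (-a|τ|) + 3 (1-p) K2/(R-1) dec`, `kN = p chi kI`, `kH' = p chi hI + (1-p) chi mz`
(`M - N ≤ P - N`, `2 M - N ≤ 3 P`).  `avg`.  The coefficient of `∫ exp (-ρs) P` tends to the left side of `hM` as `R → ∞`, the
coefficient of `∫ exp (-ρs) N` to a negative number (`hN`); as `N ≥ -C0`, this term is at most `C exp (-ρα)`.
-/

set_option autoImplicit false

namespace Pool.Agent.MML

open Real MeasureTheory Set Filter Topology

/-- the pointwise inequality of the second kernel -/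
def PtHyp (l : ℝ) (kh : ℝ → ℝ) (K : ℝ) : Prop :=
  ∀ (R : ℝ), 2 ≤ R →
    ∀ (U Us Uss Ut Utt U1 : ℝ → ℝ → ℝ), SH l U Us Uss Ut Utt →
      Continuous (fun p : ℝ × ℝ => U1 p.1 p.2) → (∀ s t, 0 ≤ U1 s t) →
      (∀ s t, U s t ≤ U1 s t) → (∀ s t, U1 s (t + 2 * l) = U1 s t) → ∀ s0 φ : ℝ,
        -(U s0 φ) ≤ ∫ τ in (-R)..R,
          (chi R τ * kh τ * mN l U1 (s0 + τ)
            + K / (R - 1) * dec τ * (2 * mN l U1 (s0 + τ) - mN l U (s0 + τ))
            + chi R τ * mz τ * mN l (fun s t => Uss s t + Utt s t) (s0 + τ))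

/-- the window inequality -/
def Window (f : ℂ → ℂ) (μ ρ κ0 R C C0 s1 : ℝ) : Prop :=
  ∀ η ∈ Ioc (0 : ℝ) 1, ∀ (Y : ℝ → ℝ) (α β : ℝ), s1 ≤ α → α ≤ β →
    ContinuousOn Y (Icc α β) → (∀ s ∈ Icc α β, ∃ t, Y s ≤ -(Ue f μ η s t)) →
    ∫ s in α..β, exp (-ρ * s) * Y s ≤
      κ0 * (∫ s in α..β, exp (-ρ * s) * (mN (π * μ) (Ue f μ 1) s + C0))
      + C * (exp (-ρ * α) * (mN (π * μ) (Ue f μ 1) (α + R + 1) + C0)
        + exp (-ρ * β) * (mN (π * μ) (Ue f μ 1) (β + R + 1) + C0))

theorem ea_int {a ρ : ℝ} (hρ : 0 < ρ) (hρa : ρ < a) :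
    Integrable (fun τ => exp (ρ * τ) * exp (-(a * |τ|))) := by
  have ha : 0 < a := hρ.trans hρa
  have h := (KI_int hρ hρa).const_mul (8 * π / a ^ 2)
  refine h.mono' ?_ ?_
  · exact Continuous.aestronglyMeasurable (by fun_prop)
  · refine Eventually.of_forall (fun τ => ?_)
    have e1 : (0 : ℝ) < exp (ρ * τ) := exp_pos _
    rw [Real.norm_of_nonneg (by positivity)]
    have h1 : cosh (a * τ) + 1 ≤ 2 * exp (a * |τ|) := by
      have h2 : cosh (a * τ) ≤ exp (a * |τ|) := by
        rw [← Real.cosh_abs, abs_mul, abs_of_pos ha, Real.cosh_eq]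
        have : exp (-(a * |τ|)) ≤ exp (a * |τ|) := by
          apply exp_le_exp.2
          have : 0 ≤ a * |τ| := by positivity
          linarith
        linarith
      have h3 : 1 ≤ exp (a * |τ|) := by
        apply one_le_exp; positivity
      linarith
    have h4 : 0 < cosh (a * τ) + 1 := by
      have := Real.one_le_cosh (a * τ); linarith
    have h5 : exp (-(a * |τ|)) ≤ 2 / (cosh (a * τ) + 1) := by
      rw [exp_neg, le_div_iff₀ h4]
      have h6 : 0 < exp (a * |τ|) := exp_pos _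
      calc (exp (a * |τ|))⁻¹ * (cosh (a * τ) + 1) ≤ (exp (a * |τ|))⁻¹ * (2 * exp (a * |τ|)) := by
            gcongr
        _ = 2 := by field_simp
    calc exp (ρ * τ) * exp (-(a * |τ|)) ≤ exp (ρ * τ) * (2 / (cosh (a * τ) + 1)) := by gcongr
      _ = 8 * π / a ^ 2 * (exp (ρ * τ) * kI a τ) := by
          unfold kI
          have hpi : π ≠ 0 := pi_ne_zero
          field_simp
          ring

theorem int_le_full {R : ℝ} (hR : 2 ≤ R) {F : ℝ → ℝ} (hF : Integrable F) (h0 : ∀ τ, 0 ≤ F τ) :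
    ∫ τ in (-R)..R, chi R τ * F τ ≤ ∫ τ, F τ := by
  have hle : -R ≤ R := by linarith
  calc ∫ τ in (-R)..R, chi R τ * F τ ≤ ∫ τ in (-R)..R, F τ := by
        apply intervalIntegral.integral_mono_on hle
        · exact hF.intervalIntegrable.continuousOn_mul (chi_cont hR).1.continuousOn
        · exact hF.intervalIntegrable
        · intro τ hτ
          have := chi_mem hR (abs_le.2 hτ)
          nlinarith [h0 τ]
    _ ≤ ∫ τ, F τ := by
        rw [intervalIntegral.integral_of_le hle]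
        exact setIntegral_le_integral hF (Eventually.of_forall h0)

theorem int_le_full' {R : ℝ} (hR : 2 ≤ R) {F : ℝ → ℝ} (hF : Integrable F) (h0 : ∀ τ, 0 ≤ F τ) :
    ∫ τ in (-R)..R, F τ ≤ ∫ τ, F τ := by
  have hle : -R ≤ R := by linarith
  rw [intervalIntegral.integral_of_le hle]
  exact setIntegral_le_integral hF (Eventually.of_forall h0)

theorem tendsto_chi_int {F : ℝ → ℝ} (hF : Integrable F) :
    Tendsto (fun R : ℝ => ∫ τ in (-R)..R, chi R τ * F τ) atTop (𝓝 (∫ τ, F τ)) := by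
  have h1 : ∀ᶠ R : ℝ in atTop, ∫ τ, (Ioc (-R) R).indicator (fun τ => chi R τ * F τ) τ =
      ∫ τ in (-R)..R, chi R τ * F τ := by
    filter_upwards [eventually_ge_atTop 2] with R hR
    rw [intervalIntegral.integral_of_le (by linarith), integral_indicator measurableSet_Ioc]
  refine Tendsto.congr' h1 ?_
  apply tendsto_integral_filter_of_dominated_convergence (fun τ => ‖F τ‖)
  · filter_upwards [eventually_ge_atTop 2] with R hR
    exact (((chi_cont hR).1.aestronglyMeasurable).mul hF.1).indicator measurableSet_Ioc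
  · filter_upwards [eventually_ge_atTop 2] with R hR
    refine Eventually.of_forall (fun τ => ?_)
    by_cases h : τ ∈ Ioc (-R) R
    · rw [indicator_of_mem h, norm_mul, Real.norm_eq_abs]
      have h2 := chi_mem hR (abs_le.2 ⟨h.1.le, h.2⟩)
      rw [abs_of_nonneg h2.1]
      have := norm_nonneg (F τ)
      nlinarith
    · rw [indicator_of_notMem h]; simp
  · exact hF.norm
  · refine Eventually.of_forall (fun τ => ?_)
    have h2 : ∀ᶠ R : ℝ in atTop, chi R τ * F τ =
        (Ioc (-R) R).indicator (fun τ => chi R τ * F τ) τ := by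
      filter_upwards [eventually_gt_atTop |τ|] with R hR
      rw [indicator_of_mem]
      have := abs_lt.1 hR
      exact ⟨this.1, this.2.le⟩
    refine Tendsto.congr' h2 ?_
    simpa using (chi_tendsto τ).mul_const (F τ)

theorem window_gen {f : ℂ → ℂ} (hf : Differentiable ℂ f) (hne : ∃ z, f z ≠ 0)
    {μ ρ a p κ1 : ℝ} (hμ : 0 < μ) (hρ : 0 < ρ) (hρa : ρ < a) (hal : π / a ≤ π * μ)
    (hp0 : 0 ≤ p) (hp1 : p ≤ 1) (kh : ℝ → ℝ) (khc : Continuous kh) (kh0 : ∀ τ, 0 ≤ kh τ)
    (ikh : Integrable (fun τ => exp (ρ * τ) * kh τ))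
    (idec : Integrable (fun τ => exp (ρ * τ) * dec τ))
    (imz : Integrable (fun τ => exp (ρ * τ) * mz τ))
    (hmz : ∀ x y : ℝ, IntervalIntegrable mz volume x y)
    (hpt : ∃ K, 0 ≤ K ∧ PtHyp (π * μ) kh K)
    (hM : p * (ρ / (2 * sin (ρ * π / a))) + (1 - p) * ∫ τ, exp (ρ * τ) * kh τ < κ1)
    (hN : ρ ^ 2 * (p * ((1 - cos (ρ * π / a)) / (2 * ρ * sin (ρ * π / a)))
      + (1 - p) * ∫ τ, exp (ρ * τ) * mz τ) < p * (ρ / (2 * sin (ρ * π / a)))) :
    ∃ κ0 R C C0 s1 : ℝ, κ0 < κ1 ∧ 0 ≤ R ∧ 0 ≤ C ∧ 1 ≤ C0 ∧ Window f μ ρ κ0 R C C0 s1 := by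
  have ha : 0 < a := hρ.trans hρa
  have hl : 0 < π * μ := by positivity
  obtain ⟨K1, hK1, hPI⟩ := ptI a ha
  obtain ⟨K2, hK2, hPII⟩ := hpt
  obtain ⟨C0', s1', hC0', hlow⟩ := mN_Ue_lower hf hne hμ
  have iea := ea_int hρ hρa
  have dec0 : ∀ τ, 0 ≤ dec τ := fun τ => le_min (exp_pos _).le (exp_pos _).le
  have mz0 : ∀ τ, 0 ≤ mz τ := fun τ => le_max_left _ _
  have decc : Continuous dec := by unfold dec; fun_prop
  set A1 := ∫ τ, exp (ρ * τ) * exp (-(a * |τ|)) with hA1
  set A2 := ∫ τ, exp (ρ * τ) * dec τ with hA2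
  set c3 := 3 * p * K1 * A1 + 3 * (1 - p) * K2 * A2 with hc3
  -- choice of R
  have t1 : Tendsto (fun R : ℝ => p * (ρ / (2 * sin (ρ * π / a)))
      + (1 - p) * (∫ τ, exp (ρ * τ) * kh τ) + c3 / (R - 1)) atTop
      (𝓝 (p * (ρ / (2 * sin (ρ * π / a))) + (1 - p) * (∫ τ, exp (ρ * τ) * kh τ) + 0)) := by
    apply Tendsto.const_add
    apply Tendsto.div_atTop tendsto_const_nhds
    exact tendsto_atTop_add_const_right _ _ tendsto_id
  have t2 : Tendsto (fun R : ℝ => p * ∫ τ in (-R)..R, chi R τ * (exp (ρ * τ) * kI a τ)) atTop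
      (𝓝 (p * (ρ / (2 * sin (ρ * π / a))))) := by
    have := (tendsto_chi_int (KI_int hρ hρa)).const_mul p
    rwa [KI_eq hρ hρa] at this
  have e1 := (t1.eventually (gt_mem_nhds (by simpa using hM)) : ∀ᶠ R : ℝ in atTop, _ < κ1)
  have e2 := t2.eventually (lt_mem_nhds hN)
  obtain ⟨R, ⟨h1R, h2R⟩, hR⟩ := ((e1.and e2).and (eventually_ge_atTop 2)).exists
  have hR0 : 0 < R := by linarith
  have hRR : -R ≤ R := by linarith
  have hR1 : 0 < R - 1 := by linarith
  obtain ⟨cc, cc1, cc2⟩ := chi_cont hR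
  -- the kernels
  set kM : ℝ → ℝ := fun τ => p * (chi R τ * kI a τ) + (1 - p) * (chi R τ * kh τ)
    + 3 * p * (K1 / (R - 1) * exp (-(a * |τ|))) + 3 * (1 - p) * (K2 / (R - 1) * dec τ) with hkM
  set kN : ℝ → ℝ := fun τ => p * (chi R τ * kI a τ) with hkN
  set kH' : ℝ → ℝ := fun τ => p * (chi R τ * hI a τ) + (1 - p) * (chi R τ * mz τ) with hkH
  have kMc : Continuous kM := by
    have := kI_cont a
    rw [hkM]; fun_prop
  have kNc : Continuous kN := by
    have := kI_cont a
    rw [hkN]; fun_prop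
  have ihI : ∀ x y : ℝ, IntervalIntegrable (fun τ => chi R τ * hI a τ) volume x y :=
    fun x y => (hI_int a ha x y).continuousOn_mul cc.continuousOn
  have imz' : ∀ x y : ℝ, IntervalIntegrable (fun τ => chi R τ * mz τ) volume x y :=
    fun x y => (hmz x y).continuousOn_mul cc.continuousOn
  have kHi : IntervalIntegrable kH' volume (-R) R :=
    ((ihI _ _).const_mul p).add ((imz' _ _).const_mul (1 - p))
  have hp1' : 0 ≤ 1 - p := by linarith
  have nM : ∀ τ ∈ Icc (-R) R, 0 ≤ kM τ := by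
    intro τ hτ
    have c := (chi_mem hR (abs_le.2 hτ)).1
    have := (kI_pos a ha τ).le
    have := kh0 τ
    have := dec0 τ
    rw [hkM]; positivity
  have nN : ∀ τ ∈ Icc (-R) R, 0 ≤ kN τ := by
    intro τ hτ
    have c := (chi_mem hR (abs_le.2 hτ)).1
    have := (kI_pos a ha τ).le
    rw [hkN]; positivity
  have nH : ∀ τ ∈ Icc (-R) R, 0 ≤ kH' τ := by
    intro τ hτ
    have c := (chi_mem hR (abs_le.2 hτ)).1
    have := hI_nonneg a τ
    have := mz0 τ
    rw [hkH]; positivity
  obtain ⟨C1, hC1, hav⟩ := avg ρ R hρ hR0 kM kN kH' (kMc.intervalIntegrable _ _)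
    (kNc.intervalIntegrable _ _) kHi nM nN nH
  -- the constants
  set IM := ∫ τ in (-R)..R, exp (ρ * τ) * kM τ with hIM
  set IN := ∫ τ in (-R)..R, exp (ρ * τ) * kN τ with hIN
  set IH := ∫ τ in (-R)..R, exp (ρ * τ) * kH' τ with hIH
  have ec : Continuous (fun τ => exp (ρ * τ)) := by fun_prop
  have hIN' : IN = p * ∫ τ in (-R)..R, chi R τ * (exp (ρ * τ) * kI a τ) := by
    rw [hIN, ← intervalIntegral.integral_const_mul]
    congr 1; ext τ; rw [hkN]; ring
  have hIMle : IM < κ1 := by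
    have q1 : IM = p * (∫ τ in (-R)..R, chi R τ * (exp (ρ * τ) * kI a τ))
        + (1 - p) * (∫ τ in (-R)..R, chi R τ * (exp (ρ * τ) * kh τ))
        + 3 * p * K1 / (R - 1) * (∫ τ in (-R)..R, exp (ρ * τ) * exp (-(a * |τ|)))
        + 3 * (1 - p) * K2 / (R - 1) * (∫ τ in (-R)..R, exp (ρ * τ) * dec τ) := by
      rw [← intervalIntegral.integral_const_mul, ← intervalIntegral.integral_const_mul,
        ← intervalIntegral.integral_const_mul, ← intervalIntegral.integral_const_mul,
        ← intervalIntegral.integral_add, ← intervalIntegral.integral_add,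
        ← intervalIntegral.integral_add]
      · rw [hIM]; congr 1; ext τ; rw [hkM]; ring
      all_goals
        have := kI_cont a
        apply Continuous.intervalIntegrable
        fun_prop
    have q2 := int_le_full hR (KI_int hρ hρa)
      (fun τ => mul_nonneg (exp_pos _).le (kI_pos a ha τ).le)
    rw [KI_eq hρ hρa] at q2
    have q3 := int_le_full hR ikh (fun τ => mul_nonneg (exp_pos _).le (kh0 τ))
    have q4 := int_le_full' hR iea (fun τ => mul_nonneg (exp_pos _).le (exp_pos _).le)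
    have q5 := int_le_full' hR idec (fun τ => mul_nonneg (exp_pos _).le (dec0 τ))
    rw [q1]
    calc _ ≤ p * (ρ / (2 * sin (ρ * π / a))) + (1 - p) * (∫ τ, exp (ρ * τ) * kh τ)
        + 3 * p * K1 / (R - 1) * A1 + 3 * (1 - p) * K2 / (R - 1) * A2 := by
          gcongr
      _ = p * (ρ / (2 * sin (ρ * π / a))) + (1 - p) * (∫ τ, exp (ρ * τ) * kh τ) + c3 / (R - 1) := by
          rw [hc3]; ring
      _ < κ1 := h1R
  have hγ : ρ ^ 2 * IH - IN < 0 := by
    have q1 : IH = p * (∫ τ in (-R)..R, chi R τ * (exp (ρ * τ) * hI a τ))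
        + (1 - p) * (∫ τ in (-R)..R, chi R τ * (exp (ρ * τ) * mz τ)) := by
      rw [← intervalIntegral.integral_const_mul, ← intervalIntegral.integral_const_mul,
        ← intervalIntegral.integral_add]
      · rw [hIH]; congr 1; ext τ; rw [hkH]; ring
      · apply IntervalIntegrable.const_mul
        have := (ihI (-R) R).continuousOn_mul ec.continuousOn
        refine this.congr ?_
        intro τ _
        show exp (ρ * τ) * (chi R τ * _) = chi R τ * (exp (ρ * τ) * _)
        ring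
      · apply IntervalIntegrable.const_mul
        have := (imz' (-R) R).continuousOn_mul ec.continuousOn
        refine this.congr ?_
        intro τ _
        show exp (ρ * τ) * (chi R τ * _) = chi R τ * (exp (ρ * τ) * _)
        ring
    have q2 := int_le_full hR (HI_int hρ hρa)
      (fun τ => mul_nonneg (exp_pos _).le (hI_nonneg a τ))
    rw [HI_eq hρ hρa] at q2
    have q3 := int_le_full hR imz (fun τ => mul_nonneg (exp_pos _).le (mz0 τ))
    have q4 : IH ≤ p * ((1 - cos (ρ * π / a)) / (2 * ρ * sin (ρ * π / a)))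
        + (1 - p) * (∫ τ, exp (ρ * τ) * mz τ) := by
      rw [q1]; gcongr
    have q5 : ρ ^ 2 * IH ≤ ρ ^ 2 * (p * ((1 - cos (ρ * π / a)) / (2 * ρ * sin (ρ * π / a)))
        + (1 - p) * (∫ τ, exp (ρ * τ) * mz τ)) := by gcongr
    rw [hIN']
    linarith
  -- the window inequality
  set C0 := max C0' 1 with hC0
  have hC0a : 1 ≤ C0 := le_max_right _ _
  have hC0b : C0' ≤ C0 := le_max_left _ _
  set γ := ρ ^ 2 * IH - IN with hγd
  refine ⟨IM, R, C1 + (-γ) * C0 / ρ, C0, s1' + R, hIMle, hR0.le, ?_, hC0a, ?_⟩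
  · have : 0 ≤ (-γ) * C0 / ρ := by
      apply div_nonneg (mul_nonneg (by linarith) (by linarith)) hρ.le
    linarith
  intro η hη Y α β hα hαβ hY hYt
  obtain ⟨Uss, Ut, Utt, hS⟩ := SH_eta hf hμ hη.1
  obtain ⟨Uss1, Ut1, Utt1, hS1⟩ := SH_eta hf hμ (one_pos : (0 : ℝ) < 1)
  have hU1c := hS1.c2.c0
  have hM1 : Monotone (mN (π * μ) (Ue f μ 1)) := mN_Ue_mono hf hμ one_pos
  have hM0 : ∀ s, 0 ≤ mN (π * μ) (Ue f μ 1) s := by
    intro s
    apply intervalIntegral.integral_nonneg (by linarith)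
    intro t _; exact Ue_one_nonneg s t
  have hMc : Continuous (mN (π * μ) (Ue f μ 1)) := mN_cont hU1c
  have hNM : ∀ s, mN (π * μ) (Ue f μ η) s ≤ mN (π * μ) (Ue f μ 1) s := by
    intro s
    apply intervalIntegral.integral_mono_on (by linarith)
    · exact (hS.c2.c0.comp (by fun_prop : Continuous (fun t : ℝ => (s, t)))).intervalIntegrable _ _
    · exact (hU1c.comp (by fun_prop : Continuous (fun t : ℝ => (s, t)))).intervalIntegrable _ _
    · intro t _; exact Ue_mono hη.1 hη.2 s t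
  set M := mN (π * μ) (Ue f μ 1) with hMd
  set N := mN (π * μ) (Ue f μ η) with hNd
  set N2 := mN (π * μ) (fun s t => Uss s t + Utt s t) with hN2d
  have hNlow : ∀ s, s1' ≤ s → -C0' ≤ N s := fun s hs => hlow η hη s hs
  have hNabs : ∀ s, s1' ≤ s → |N s| ≤ M s + C0 := by
    intro s hs
    rw [abs_le]
    constructor
    · have := hNlow s hs; have := hM0 s; linarith
    · have := hNM s; linarith
  have hN2c : Continuous N2 := mN_cont (hS.c2.css.add hS.c2.ctt)
  have hN20 : ∀ s, 0 ≤ N2 s := by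
    intro s
    apply intervalIntegral.integral_nonneg (by linarith)
    intro t _; exact hS.sub s t
  have hkey : ∀ s ∈ Icc α β, Y s ≤ ∫ τ in (-R)..R,
      (kM τ * (M (s + τ) + C0) - kN τ * N (s + τ) + kH' τ * N2 (s + τ)) := by
    intro s hs
    obtain ⟨t, ht⟩ := hYt s hs
    have a1 := hPI (π * μ) R hal hR _ _ _ _ _ _ hS hU1c Ue_one_nonneg
      (fun s t => Ue_mono hη.1 hη.2 s t) hS1.per s t
    have a2 := hPII R hR _ _ _ _ _ _ hS hU1c Ue_one_nonneg
      (fun s t => Ue_mono hη.1 hη.2 s t) hS1.per s t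
    have b1 : Y s ≤ p * (-(Ue f μ η s t)) + (1 - p) * (-(Ue f μ η s t)) := by linarith
    refine b1.trans ?_
    refine (add_le_add (mul_le_mul_of_nonneg_left a1 hp0)
      (mul_le_mul_of_nonneg_left a2 hp1')).trans ?_
    have hNc : Continuous N := mN_cont hS.c2.c0
    have kIc := kI_cont a
    have i2 : IntervalIntegrable (fun τ => chi R τ * hI a τ * N2 (s + τ)) volume (-R) R :=
      (ihI _ _).mul_continuousOn (by fun_prop : Continuous (fun τ => N2 (s + τ))).continuousOn
    have i3 : IntervalIntegrable (fun τ => chi R τ * mz τ * N2 (s + τ)) volume (-R) R :=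
      (imz' _ _).mul_continuousOn (by fun_prop : Continuous (fun τ => N2 (s + τ))).continuousOn
    have i4 : IntervalIntegrable (fun τ => chi R τ * kI a τ * (M (s + τ) - N (s + τ))
            + K1 / (R - 1) * exp (-(a * |τ|)) * (2 * M (s + τ) - N (s + τ))) volume (-R) R :=
      Continuous.intervalIntegrable (by fun_prop) _ _
    have i5 : IntervalIntegrable (fun τ => chi R τ * kh τ * M (s + τ)
            + K2 / (R - 1) * dec τ * (2 * M (s + τ) - N (s + τ))) volume (-R) R :=
      Continuous.intervalIntegrable (by fun_prop) _ _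
    have i6 : IntervalIntegrable (fun τ => kM τ * (M (s + τ) + C0) - kN τ * N (s + τ)) volume
        (-R) R := Continuous.intervalIntegrable (by fun_prop) _ _
    have i7 : IntervalIntegrable (fun τ => kH' τ * N2 (s + τ)) volume (-R) R :=
      kHi.mul_continuousOn (by fun_prop : Continuous (fun τ => N2 (s + τ))).continuousOn
    rw [← intervalIntegral.integral_const_mul, ← intervalIntegral.integral_const_mul,
      ← intervalIntegral.integral_add ((i4.add i2).const_mul p) ((i5.add i3).const_mul (1 - p))]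
    apply intervalIntegral.integral_mono_on hRR
      (((i4.add i2).const_mul p).add ((i5.add i3).const_mul (1 - p))) (i6.add i7)
    intro τ hτ
    have c := (chi_mem hR (abs_le.2 hτ)).1
    have d1 := (kI_pos a ha τ).le
    have d2 := kh0 τ
    have d3 := dec0 τ
    have d4 : s1' ≤ s + τ := by linarith [hs.1, hτ.1]
    have d5 := abs_le.1 (hNabs (s + τ) d4)
    have d6 := hM0 (s + τ)
    have d7 : 0 < exp (-(a * |τ|)) := exp_pos _
    have d8 : 0 ≤ K1 / (R - 1) := div_nonneg hK1 hR1.le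
    have d9 : 0 ≤ K2 / (R - 1) := div_nonneg hK2 hR1.le
    have m1 : p * (chi R τ * kI a τ * (M (s + τ) - N (s + τ))) ≤
        p * (chi R τ * kI a τ) * (M (s + τ) + C0) - p * (chi R τ * kI a τ) * N (s + τ) := by
      have : 0 ≤ p * (chi R τ * kI a τ) := by positivity
      nlinarith
    have m2 : p * (K1 / (R - 1) * exp (-(a * |τ|)) * (2 * M (s + τ) - N (s + τ))) ≤
        3 * p * (K1 / (R - 1) * exp (-(a * |τ|))) * (M (s + τ) + C0) := by
      have : 0 ≤ p * (K1 / (R - 1) * exp (-(a * |τ|))) := by positivity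
      nlinarith
    have m3 : (1 - p) * (chi R τ * kh τ * M (s + τ)) ≤
        (1 - p) * (chi R τ * kh τ) * (M (s + τ) + C0) := by
      have : 0 ≤ (1 - p) * (chi R τ * kh τ) := by positivity
      nlinarith
    have m4 : (1 - p) * (K2 / (R - 1) * dec τ * (2 * M (s + τ) - N (s + τ))) ≤
        3 * (1 - p) * (K2 / (R - 1) * dec τ) * (M (s + τ) + C0) := by
      have : 0 ≤ (1 - p) * (K2 / (R - 1) * dec τ) := by positivity
      nlinarith
    simp only [hkM, hkN, hkH]
    linarith [m1, m2, m3, m4]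
  have hfin := hav (fun s => M s + C0) N (mN (π * μ) (UeS f μ η)) N2 Y s1' α β
    (fun x y h => by have := hM1 h; simp only; linarith) (hMc.add continuous_const)
    (fun s => by have := hM0 s; linarith) (fun s => mN_deriv hS s) (fun s => mN_deriv2 hS s)
    hN2c hN20 (fun s => mN_UeS_nonneg hf hμ hη.1 s) hNabs hY (by linarith) hαβ hkey
  refine hfin.trans ?_
  -- the term with N
  have n1 : -(C0 * exp (-ρ * α) / ρ) ≤ ∫ s in α..β, exp (-ρ * s) * N s := by
    have hNc : Continuous N := mN_cont hS.c2.c0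
    have n2 : ∫ s in α..β, exp (-ρ * s) * (-C0) ≤ ∫ s in α..β, exp (-ρ * s) * N s := by
      apply intervalIntegral.integral_mono_on hαβ
      · exact Continuous.intervalIntegrable (by fun_prop) _ _
      · exact Continuous.intervalIntegrable (by fun_prop) _ _
      · intro s hs
        have := hNlow s (by linarith [hs.1])
        have := exp_pos (-ρ * s)
        nlinarith
    have n3 : ∫ s in α..β, exp (-ρ * s) * (-C0) =
        -(C0 * (exp (-ρ * α) - exp (-ρ * β)) / ρ) := by
      rw [intervalIntegral.integral_mul_const]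
      have : ∫ s in α..β, exp (-ρ * s) = (exp (-ρ * α) - exp (-ρ * β)) / ρ := by
        have hd : ∀ s ∈ uIcc α β, HasDerivAt (fun s => -exp (-ρ * s) / ρ) (exp (-ρ * s)) s := by
          intro s _
          have h1 : HasDerivAt (fun s : ℝ => -ρ * s) (-ρ) s := by
            simpa using (hasDerivAt_id s).const_mul (-ρ)
          have h2 := (h1.exp.neg).div_const ρ
          have h3 : -(exp (-ρ * s) * -ρ) / ρ = exp (-ρ * s) := by
            rw [div_eq_iff hρ.ne']; ring
          rw [h3] at h2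
          exact h2
        rw [intervalIntegral.integral_eq_sub_of_hasDerivAt hd
          (Continuous.intervalIntegrable (by fun_prop) _ _)]
        field_simp
        ring
      rw [this]; ring
    rw [n3] at n2
    have n4 : C0 * (exp (-ρ * α) - exp (-ρ * β)) / ρ ≤ C0 * exp (-ρ * α) / ρ := by
      have := exp_pos (-ρ * β)
      gcongr
      linarith
    linarith
  have n5 : γ * (∫ s in α..β, exp (-ρ * s) * N s) ≤ (-γ) * C0 / ρ * exp (-ρ * α) := by
    have h1 := mul_le_mul_of_nonneg_left n1 (by linarith : 0 ≤ -γ)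
    have h2 : (-γ) * (C0 * exp (-ρ * α) / ρ) = (-γ) * C0 / ρ * exp (-ρ * α) := by ring
    linarith [h1, h2]
  have n6 : (-γ) * C0 / ρ * exp (-ρ * α) ≤ (-γ) * C0 / ρ *
      (exp (-ρ * α) * (M (α + R + 1) + C0) + exp (-ρ * β) * (M (β + R + 1) + C0)) := by
    have h0 : 0 ≤ (-γ) * C0 / ρ :=
      div_nonneg (mul_nonneg (by linarith) (by linarith)) hρ.le
    apply mul_le_mul_of_nonneg_left _ h0
    have h1 := exp_pos (-ρ * α)
    have h2 := exp_pos (-ρ * β)
    have h3 := hM0 (α + R + 1)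
    have h4 := hM0 (β + R + 1)
    have h5 : 0 ≤ exp (-ρ * β) * (M (β + R + 1) + C0) := by positivity
    nlinarith
  have h7 : (C1 + (-γ) * C0 / ρ) *
      (exp (-ρ * α) * (M (α + R + 1) + C0) + exp (-ρ * β) * (M (β + R + 1) + C0)) =
      C1 * (exp (-ρ * α) * (M (α + R + 1) + C0) + exp (-ρ * β) * (M (β + R + 1) + C0))
      + (-γ) * C0 / ρ *
      (exp (-ρ * α) * (M (α + R + 1) + C0) + exp (-ρ * β) * (M (β + R + 1) + C0)) := by ring
  rw [h7]
  linarith

end Pool.Agent.MML
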